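import Mathlib

/-!
General position conditions of fat points on monomial spaces: gluing along a cut.
-/

set_option autoImplicit false
set_option linter.unusedSectionVars false

namespace Pool.Agent.Lead.Sh

open Finset

/-- injectivity of a matrix with entries in an algebra, generically -/
lemma gen_inj {ι κ : Type*} [Fintype ι] [Fintype κ] [DecidableEq ι] [DecidableEq κ]
    {A : Type*} [CommRing A] [Algebra ℂ A] (M : ι → κ → A) (φ0 : A →ₐ[ℂ] ℂ)
    (h0 : ∀ c : κ → ℂ, (∀ i, ∑ k, c k * φ0 (M i k) = 0) → c = 0) :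
    ∃ g : A, φ0 g ≠ 0 ∧ ∀ φ : A →ₐ[ℂ] ℂ, φ g ≠ 0 →
      ∀ c : κ → ℂ, (∀ i, ∑ k, c k * φ (M i k) = 0) → c = 0 := by
  set M0 : Matrix ι κ ℂ := Matrix.of (fun i k => φ0 (M i k)) with hM0
  have hinj : Function.Injective (Matrix.toLin' M0) := by
    rw [injective_iff_map_eq_zero]
    intro c hc
    apply h0
    intro i
    have := congrFun hc i
    rw [Matrix.toLin'_apply, Matrix.mulVec, dotProduct] at this
    simp only [Pi.zero_apply] at this
    rw [← this]
    apply sum_congr rfl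
    intro k _
    simp [hM0, mul_comm]
  obtain ⟨g0, hg0⟩ := LinearMap.exists_leftInverse_of_injective (Matrix.toLin' M0)
    (LinearMap.ker_eq_bot.2 hinj)
  set L : Matrix κ ι ℂ := LinearMap.toMatrix' g0 with hL
  have hLM : L * M0 = 1 := by
    have h1 := congrArg LinearMap.toMatrix' hg0
    rw [LinearMap.toMatrix'_comp, LinearMap.toMatrix'_toLin', LinearMap.toMatrix'_id] at h1
    exact h1
  refine ⟨((L.map (algebraMap ℂ A)) * (Matrix.of M)).det, ?_, ?_⟩
  · have h1 : φ0 ((L.map (algebraMap ℂ A)) * (Matrix.of M)).det = (L * M0).det := by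
      rw [AlgHom.map_det, AlgHom.mapMatrix_apply, Matrix.map_mul]
      congr 2
      ext i k
      simp
    rw [h1, hLM, Matrix.det_one]
    exact one_ne_zero
  · intro φ hφ c hc
    have h1 : φ ((L.map (algebraMap ℂ A)) * (Matrix.of M)).det =
        (L * Matrix.of (fun i k => φ (M i k))).det := by
      rw [AlgHom.map_det, AlgHom.mapMatrix_apply, Matrix.map_mul]
      congr 2
      ext i k
      simp
    rw [h1] at hφ
    apply Matrix.eq_zero_of_mulVec_eq_zero hφ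
    rw [← Matrix.mulVec_mulVec]
    have : (Matrix.of (fun i k => φ (M i k))).mulVec c = 0 := by
      funext i
      rw [Matrix.mulVec, dotProduct, Pi.zero_apply, ← hc i]
      apply sum_congr rfl
      intro k _
      simp [mul_comm]
    rw [this, Matrix.mulVec_zero]

/-- one-parameter version -/
lemma poly_inj {ι κ : Type*} [Fintype ι] [Fintype κ] [DecidableEq ι] [DecidableEq κ]
    (M : ι → κ → Polynomial ℂ)
    (h0 : ∀ c : κ → ℂ, (∀ i, ∑ k, c k * (M i k).eval 0 = 0) → c = 0) :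
    ∃ e : ℂ, e ≠ 0 ∧ ∀ c : κ → ℂ, (∀ i, ∑ k, c k * (M i k).eval e = 0) → c = 0 := by
  obtain ⟨g, hg0, hg⟩ := gen_inj M (Polynomial.aeval (0 : ℂ)) (by
    intro c hc
    apply h0 c
    intro i
    have := hc i
    simpa [Polynomial.coe_aeval_eq_eval] using this)
  have hgne : g ≠ 0 := by rintro rfl; simp at hg0
  have hgX : g * Polynomial.X ≠ 0 := mul_ne_zero hgne Polynomial.X_ne_zero
  obtain ⟨e, he⟩ : ∃ e : ℂ, (g * Polynomial.X).eval e ≠ 0 := by
    by_contra hcon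
    push Not at hcon
    exact hgX (Polynomial.funext (fun r => by rw [hcon r, Polynomial.eval_zero]))
  rw [Polynomial.eval_mul, Polynomial.eval_X] at he
  refine ⟨e, right_ne_zero_of_mul he, ?_⟩
  intro c hc
  apply hg (Polynomial.aeval e)
  · rw [Polynomial.coe_aeval_eq_eval]; exact left_ne_zero_of_mul he
  · intro i
    have := hc i
    simpa [Polynomial.coe_aeval_eq_eval] using this

/-- the coefficient of `u^i v^j` in `(x+u)^a (y+v)^b` -/
def E (o d : ℕ × ℕ) (x y : ℂ) : ℂ :=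
  (d.1.choose o.1 : ℂ) * (d.2.choose o.2 : ℂ) * x ^ (d.1 - o.1) * y ^ (d.2 - o.2)

/-- rows: point index and order -/
abbrev Row := ℕ × (ℕ × ℕ)

/-- only the zero polynomial supported on `D` satisfies the conditions `R` at the points `P` -/
def InjAt (D : Finset (ℕ × ℕ)) (R : Finset Row) (P : ℕ → ℂ × ℂ) : Prop :=
  ∀ c : ℕ × ℕ → ℂ, (∀ r ∈ R, ∑ d ∈ D, c d * E r.2 d (P r.1).1 (P r.1).2 = 0) → ∀ d ∈ D, c d = 0

/-- the conditions `R` at the points `P` are independent on the span of `D` -/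
def IndAt (D : Finset (ℕ × ℕ)) (R : Finset Row) (P : ℕ → ℂ × ℂ) : Prop :=
  ∀ l : Row → ℂ, (∀ d ∈ D, ∑ r ∈ R, l r * E r.2 d (P r.1).1 (P r.1).2 = 0) → ∀ r ∈ R, l r = 0

def Inj (D : Finset (ℕ × ℕ)) (R : Finset Row) : Prop := ∃ P, InjAt D R P
def Ind (D : Finset (ℕ × ℕ)) (R : Finset Row) : Prop := ∃ P, IndAt D R P

lemma Inj.mono {D D' : Finset (ℕ × ℕ)} {R R' : Finset Row} (h : Inj D R) (hD : D' ⊆ D)
    (hR : R ⊆ R') : Inj D' R' := by
  obtain ⟨P, hP⟩ := h
  refine ⟨P, ?_⟩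
  intro c hc d hd
  have key := hP (fun d => if d ∈ D' then c d else 0) ?_ d (hD hd)
  · simpa [hd] using key
  · intro r hr
    refine Eq.trans ?_ (hc r (hR hr))
    rw [← sum_subset hD]
    · apply sum_congr rfl
      intro x hx
      rw [if_pos hx]
    · intro x _ hx
      rw [if_neg hx, zero_mul]

lemma Ind.mono {D D' : Finset (ℕ × ℕ)} {R R' : Finset Row} (h : Ind D R) (hD : D ⊆ D')
    (hR : R' ⊆ R) : Ind D' R' := by
  obtain ⟨P, hP⟩ := h
  refine ⟨P, ?_⟩
  intro l hl r hr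
  have key := hP (fun r => if r ∈ R' then l r else 0) ?_ r (hR hr)
  · simpa [hr] using key
  · intro d hd
    refine Eq.trans ?_ (hl d (hD hd))
    rw [← sum_subset hR]
    · apply sum_congr rfl
      intro x hx
      rw [if_pos hx]
    · intro x _ hx
      rw [if_neg hx, zero_mul]

lemma inj_empty (R : Finset Row) : Inj ∅ R := ⟨fun _ => 0, fun _ _ d hd => absurd hd (notMem_empty d)⟩
lemma ind_empty (D : Finset (ℕ × ℕ)) : Ind D ∅ := ⟨fun _ => 0, fun _ _ d hd => absurd hd (notMem_empty d)⟩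

/-- weight functional -/
def wt (w d : ℕ × ℕ) : ℕ := w.1 * d.1 + w.2 * d.2

lemma E_scale (w o d : ℕ × ℕ) (x y e : ℂ) :
    e ^ (wt w o) * E o d (e ^ w.1 * x) (e ^ w.2 * y) = e ^ (wt w d) * E o d x y := by
  unfold E wt
  rcases lt_or_ge d.1 o.1 with h1 | h1
  · rw [Nat.choose_eq_zero_of_lt h1]; simp
  rcases lt_or_ge d.2 o.2 with h2 | h2
  · rw [Nat.choose_eq_zero_of_lt h2]; simp
  obtain ⟨s, hs⟩ := Nat.exists_eq_add_of_le h1
  obtain ⟨t, ht⟩ := Nat.exists_eq_add_of_le h2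
  rw [hs, ht]
  simp only [Nat.add_sub_cancel_left]
  rw [mul_pow, mul_pow]
  ring

section Glue

variable (w : ℕ × ℕ) (c' : ℕ) (D1 D2 : Finset (ℕ × ℕ)) (R1 R2 : Finset Row)

/-- scaled points -/
def scP (w : ℕ × ℕ) (R1 : Finset Row) (P1 P2 : ℕ → ℂ × ℂ) (e : ℂ) : ℕ → ℂ × ℂ :=
  fun k => if k ∈ R1.image Prod.fst then (e ^ w.1 * (P1 k).1, e ^ w.2 * (P1 k).2) else P2 k

/-- exponents of the deformed matrix -/
def exq (w : ℕ × ℕ) (c' : ℕ) (R1 : Finset Row) (r : Row) (d : ℕ × ℕ) : ℕ :=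
  if r ∈ R1 then wt w d - c' else c' - wt w d

/-- the deformed matrix -/
noncomputable def Nq (w : ℕ × ℕ) (c' : ℕ) (R1 : Finset Row) (P1 P2 : ℕ → ℂ × ℂ) (r : Row)
    (d : ℕ × ℕ) : Polynomial ℂ :=
  Polynomial.X ^ (exq w c' R1 r d) *
    Polynomial.C (if r ∈ R1 then E r.2 d (P1 r.1).1 (P1 r.1).2 else E r.2 d (P2 r.1).1 (P2 r.1).2)

variable {w c' D1 D2 R1 R2}

/-- relation between the deformed matrix and the true one: row factor times true entry equals
column factor times deformed entry -/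
lemma Nq_rel (P1 P2 : ℕ → ℂ × ℂ) (e : ℂ) (h1 : ∀ d ∈ D1, wt w d ≤ c') (h2 : ∀ d ∈ D2, c' < wt w d)
    (hdisj : ∀ r ∈ R1, ∀ r' ∈ R2, r.1 ≠ r'.1) (r : Row) (hr : r ∈ R1 ∪ R2) (d : ℕ × ℕ)
    (hd : d ∈ D1 ∪ D2) :
    (if r ∈ R1 then e ^ (wt w r.2) else e ^ c') *
      E r.2 d (scP w R1 P1 P2 e r.1).1 (scP w R1 P1 P2 e r.1).2 =
    (if d ∈ D1 then e ^ (wt w d) else e ^ c') * (Nq w c' R1 P1 P2 r d).eval e := by
  have hd12 : ∀ d ∈ D2, d ∉ D1 := fun d hd hd' => absurd (h1 d hd') (not_le.2 (h2 d hd))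
  unfold Nq scP exq
  rw [Polynomial.eval_mul, Polynomial.eval_pow, Polynomial.eval_X, Polynomial.eval_C]
  by_cases hr1 : r ∈ R1
  · have hk : r.1 ∈ R1.image Prod.fst := mem_image_of_mem _ hr1
    rw [if_pos hr1, if_pos hk, if_pos hr1, if_pos hr1]
    simp only
    rw [E_scale]
    by_cases hd1 : d ∈ D1
    · rw [if_pos hd1, Nat.sub_eq_zero_of_le (h1 d hd1)]; simp
    · have hd2 : d ∈ D2 := by
        rcases mem_union.1 hd with h | h
        · exact absurd h hd1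
        · exact h
      rw [if_neg hd1, ← mul_assoc, ← pow_add, Nat.add_sub_cancel' (h2 d hd2).le]
  · have hr2 : r ∈ R2 := by
      rcases mem_union.1 hr with h | h
      · exact absurd h hr1
      · exact h
    have hk : r.1 ∉ R1.image Prod.fst := by
      intro h
      obtain ⟨r', hr', he⟩ := mem_image.1 h
      exact hdisj r' hr' r hr2 he
    rw [if_neg hr1, if_neg hk, if_neg hr1, if_neg hr1]
    by_cases hd1 : d ∈ D1
    · rw [if_pos hd1, ← mul_assoc, ← pow_add, Nat.add_sub_cancel' (h1 d hd1)]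
    · have hd2 : d ∈ D2 := by
        rcases mem_union.1 hd with h | h
        · exact absurd h hd1
        · exact h
      rw [if_neg hd1, Nat.sub_eq_zero_of_le (h2 d hd2).le]; simp

lemma Nq_zero (P1 P2 : ℕ → ℂ × ℂ) (h1 : ∀ d ∈ D1, wt w d ≤ c') (h2 : ∀ d ∈ D2, c' < wt w d) :
    (∀ r ∈ R1, ∀ d ∈ D1, (Nq w c' R1 P1 P2 r d).eval 0 = E r.2 d (P1 r.1).1 (P1 r.1).2) ∧
    (∀ r ∈ R1, ∀ d ∈ D2, (Nq w c' R1 P1 P2 r d).eval 0 = 0) ∧
    (∀ r, r ∉ R1 → ∀ d ∈ D2, (Nq w c' R1 P1 P2 r d).eval 0 = E r.2 d (P2 r.1).1 (P2 r.1).2) := by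
  refine ⟨?_, ?_, ?_⟩
  · intro r hr d hd
    unfold Nq exq
    rw [if_pos hr, if_pos hr, Nat.sub_eq_zero_of_le (h1 d hd)]; simp
  · intro r hr d hd
    unfold Nq exq
    rw [if_pos hr, if_pos hr]
    have : wt w d - c' ≠ 0 := by have := h2 d hd; omega
    simp [this]
  · intro r hr d hd
    unfold Nq exq
    rw [if_neg hr, if_neg hr, Nat.sub_eq_zero_of_le (h2 d hd).le]; simp

theorem Inj.glue (hI1 : Inj D1 R1) (hI2 : Inj D2 R2)
    (h1 : ∀ d ∈ D1, wt w d ≤ c') (h2 : ∀ d ∈ D2, c' < wt w d)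
    (hdisj : ∀ r ∈ R1, ∀ r' ∈ R2, r.1 ≠ r'.1) : Inj (D1 ∪ D2) (R1 ∪ R2) := by
  obtain ⟨P1, hP1⟩ := hI1
  obtain ⟨P2, hP2⟩ := hI2
  have hDd : Disjoint D1 D2 := by
    rw [disjoint_left]
    intro d hd hd'
    exact absurd (h1 d hd) (not_le.2 (h2 d hd'))
  have hR12 : ∀ r ∈ R2, r ∉ R1 := fun r hr hr' => hdisj r hr' r hr rfl
  obtain ⟨z1, z2, z3⟩ := Nq_zero (R1 := R1) P1 P2 h1 h2
  obtain ⟨e, he, hinj⟩ := poly_inj
    (fun (r : ↥(R1 ∪ R2)) (d : ↥(D1 ∪ D2)) => Nq w c' R1 P1 P2 r d) (by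
      intro c hc
      set c2 : ℕ × ℕ → ℂ := fun d => if h : d ∈ D1 ∪ D2 then c ⟨d, h⟩ else 0 with hc2
      have hc2' : ∀ d : ↥(D1 ∪ D2), c2 d = c d := by
        intro d; simp only [hc2]; rw [dif_pos d.2]
      have hsum : ∀ r ∈ R1 ∪ R2, ∑ d ∈ D1, c2 d * (Nq w c' R1 P1 P2 r d).eval 0 +
          ∑ d ∈ D2, c2 d * (Nq w c' R1 P1 P2 r d).eval 0 = 0 := by
        intro r hr
        rw [← sum_union hDd]
        refine Eq.trans ?_ (hc ⟨r, hr⟩)
        rw [← sum_coe_sort (D1 ∪ D2)]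
        apply sum_congr rfl
        intro d _
        rw [hc2']
      have hz1 : ∀ d ∈ D1, c2 d = 0 := by
        apply hP1
        intro r hr
        have := hsum r (mem_union_left _ hr)
        rw [sum_congr rfl (fun d hd => by rw [z1 r hr d hd]),
          sum_congr (s₁ := D2) rfl (fun d hd => by rw [z2 r hr d hd, mul_zero]), sum_const_zero,
          add_zero] at this
        exact this
      have hz2 : ∀ d ∈ D2, c2 d = 0 := by
        apply hP2
        intro r hr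
        have := hsum r (mem_union_right _ hr)
        rw [sum_congr (s₁ := D1) rfl (fun d hd => by rw [hz1 d hd, zero_mul]), sum_const_zero,
          zero_add, sum_congr rfl (fun d hd => by rw [z3 r (hR12 r hr) d hd])] at this
        exact this
      funext d
      rw [← hc2', Pi.zero_apply]
      rcases mem_union.1 d.2 with h | h
      · exact hz1 _ h
      · exact hz2 _ h)
  refine ⟨scP w R1 P1 P2 e, ?_⟩
  intro c hc d hd
  have hcol : ∀ d, (if d ∈ D1 then e ^ (wt w d) else e ^ c') ≠ 0 := by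
    intro d; split_ifs <;> exact pow_ne_zero _ he
  have key := hinj (fun d => c d * (if (d : ℕ × ℕ) ∈ D1 then e ^ (wt w (d : ℕ × ℕ)) else e ^ c')) ?_
  · have := congrFun key ⟨d, hd⟩
    simp only [Pi.zero_apply] at this
    rcases mul_eq_zero.1 this with h | h
    · exact h
    · exact absurd h (hcol d)
  · intro r
    have h3 := hc r r.2
    have h4 : (if (r : Row) ∈ R1 then e ^ (wt w (r : Row).2) else e ^ c') * (∑ d ∈ D1 ∪ D2, c d *
        E (r : Row).2 d (scP w R1 P1 P2 e (r : Row).1).1 (scP w R1 P1 P2 e (r : Row).1).2) = 0 := by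
      rw [h3, mul_zero]
    rw [mul_sum] at h4
    rw [sum_coe_sort (D1 ∪ D2) (fun d => c d * (if d ∈ D1 then e ^ (wt w d) else e ^ c') *
      (Nq w c' R1 P1 P2 r d).eval e)]
    refine Eq.trans ?_ h4
    apply sum_congr rfl
    intro d hd
    have := Nq_rel (R1 := R1) (R2 := R2) P1 P2 e h1 h2 hdisj r r.2 d hd
    rw [mul_left_comm, this]
    ring

theorem Ind.glue (hI1 : Ind D1 R1) (hI2 : Ind D2 R2)
    (h1 : ∀ d ∈ D1, wt w d ≤ c') (h2 : ∀ d ∈ D2, c' < wt w d)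
    (hdisj : ∀ r ∈ R1, ∀ r' ∈ R2, r.1 ≠ r'.1) : Ind (D1 ∪ D2) (R1 ∪ R2) := by
  obtain ⟨P1, hP1⟩ := hI1
  obtain ⟨P2, hP2⟩ := hI2
  have hRd : Disjoint R1 R2 := by
    rw [disjoint_left]
    intro r hr hr'
    exact hdisj r hr r hr' rfl
  have hR12 : ∀ r ∈ R2, r ∉ R1 := fun r hr hr' => hdisj r hr' r hr rfl
  obtain ⟨z1, z2, z3⟩ := Nq_zero (R1 := R1) P1 P2 h1 h2
  obtain ⟨e, he, hinj⟩ := poly_inj
    (fun (d : ↥(D1 ∪ D2)) (r : ↥(R1 ∪ R2)) => Nq w c' R1 P1 P2 r d) (by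
      intro c hc
      set c2 : Row → ℂ := fun d => if h : d ∈ R1 ∪ R2 then c ⟨d, h⟩ else 0 with hc2
      have hc2' : ∀ d : ↥(R1 ∪ R2), c2 d = c d := by
        intro d; simp only [hc2]; rw [dif_pos d.2]
      have hsum : ∀ d ∈ D1 ∪ D2, ∑ r ∈ R1, c2 r * (Nq w c' R1 P1 P2 r d).eval 0 +
          ∑ r ∈ R2, c2 r * (Nq w c' R1 P1 P2 r d).eval 0 = 0 := by
        intro d hd
        rw [← sum_union hRd]
        refine Eq.trans ?_ (hc ⟨d, hd⟩)
        rw [← sum_coe_sort (R1 ∪ R2)]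
        apply sum_congr rfl
        intro d _
        rw [hc2']
      have hz2 : ∀ r ∈ R2, c2 r = 0 := by
        apply hP2
        intro d hd
        have := hsum d (mem_union_right _ hd)
        rw [sum_congr (s₁ := R1) rfl (fun r hr => by rw [z2 r hr d hd, mul_zero]), sum_const_zero,
          zero_add, sum_congr rfl (fun r hr => by rw [z3 r (hR12 r hr) d hd])] at this
        exact this
      have hz1 : ∀ r ∈ R1, c2 r = 0 := by
        apply hP1
        intro d hd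
        have := hsum d (mem_union_left _ hd)
        rw [sum_congr (s₁ := R2) rfl (fun r hr => by rw [hz2 r hr, zero_mul]), sum_const_zero,
          add_zero, sum_congr rfl (fun r hr => by rw [z1 r hr d hd])] at this
        exact this
      funext d
      rw [← hc2', Pi.zero_apply]
      rcases mem_union.1 d.2 with h | h
      · exact hz1 _ h
      · exact hz2 _ h)
  refine ⟨scP w R1 P1 P2 e, ?_⟩
  intro l hl r hr
  set rf : Row → ℂ := fun r => if r ∈ R1 then e ^ (wt w r.2) else e ^ c' with hrf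
  have hrf0 : ∀ r, rf r ≠ 0 := by
    intro r; simp only [hrf]; split_ifs <;> exact pow_ne_zero _ he
  have hcol : ∀ d, (if d ∈ D1 then e ^ (wt w d) else e ^ c') ≠ 0 := by
    intro d; split_ifs <;> exact pow_ne_zero _ he
  have key := hinj (fun r => l r * (rf r)⁻¹) ?_
  · have := congrFun key ⟨r, hr⟩
    simp only [Pi.zero_apply] at this
    rcases mul_eq_zero.1 this with h | h
    · exact h
    · exact absurd h (inv_ne_zero (hrf0 r))
  · intro d
    have h3 := hl d d.2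
    rw [sum_coe_sort (R1 ∪ R2) (fun r => l r * (rf r)⁻¹ * (Nq w c' R1 P1 P2 r d).eval e)]
    apply mul_left_cancel₀ (hcol d)
    rw [mul_zero, mul_sum]
    refine Eq.trans ?_ h3
    apply sum_congr rfl
    intro r hr
    have := Nq_rel (R1 := R1) (R2 := R2) P1 P2 e h1 h2 hdisj r hr d d.2
    have h5 : rf r * E r.2 (d : ℕ × ℕ) (scP w R1 P1 P2 e r.1).1 (scP w R1 P1 P2 e r.1).2 =
      (if (d : ℕ × ℕ) ∈ D1 then e ^ (wt w (d : ℕ × ℕ)) else e ^ c') *
        (Nq w c' R1 P1 P2 r d).eval e := this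
    calc (if (d : ℕ × ℕ) ∈ D1 then e ^ (wt w (d : ℕ × ℕ)) else e ^ c') *
          (l r * (rf r)⁻¹ * (Nq w c' R1 P1 P2 r d).eval e)
        = l r * (rf r)⁻¹ * ((if (d : ℕ × ℕ) ∈ D1 then e ^ (wt w (d : ℕ × ℕ)) else e ^ c') *
          (Nq w c' R1 P1 P2 r d).eval e) := by ring
      _ = l r * (rf r)⁻¹ * (rf r * E r.2 (d : ℕ × ℕ) (scP w R1 P1 P2 e r.1).1
          (scP w R1 P1 P2 e r.1).2) := by rw [h5]
      _ = _ := by
        have := hrf0 r
        field_simp

end Glue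

end Pool.Agent.Lead.Sh
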