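import Mathlib
import Pool.Agent.Lead.ShBasic

/-!
Cells: sets of lattice points on `h` parallel lines with `m, m-1, ..., m-h+1` points.
-/

set_option autoImplicit false
set_option linter.unusedSectionVars false

namespace Pool.Agent.Lead.Sh

open Finset

lemma newton (g : Polynomial ℂ) : ∃ γ : ℕ → ℂ, ∀ a : ℕ,
    g.eval (a : ℂ) = ∑ i ∈ range (g.natDegree + 1), γ i * (a.choose i : ℂ) := by
  refine ⟨fun k => ((fwdDiff (1 : ℂ))^[k] (fun x => g.eval x)) 0, ?_⟩
  intro a
  have h1 := shift_eq_sum_fwdDiff_iter (1 : ℂ) (fun x => g.eval x) a 0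
  simp only [nsmul_eq_mul, mul_one, zero_add] at h1
  rw [h1]
  have e1 : ∑ k ∈ range (a + 1), (a.choose k : ℂ) * ((fwdDiff (1 : ℂ))^[k] (fun x => g.eval x)) 0 =
      ∑ k ∈ range (a + 1 + (g.natDegree + 1)), (a.choose k : ℂ) *
        ((fwdDiff (1 : ℂ))^[k] (fun x => g.eval x)) 0 := by
    apply sum_subset
    · intro k hk; rw [mem_range] at hk ⊢; omega
    · intro k _ hk
      rw [mem_range] at hk
      rw [Nat.choose_eq_zero_of_lt (by omega)]; simp
  have e2 : ∑ i ∈ range (g.natDegree + 1), ((fwdDiff (1 : ℂ))^[i] (fun x => g.eval x)) 0 *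
      (a.choose i : ℂ) = ∑ k ∈ range (a + 1 + (g.natDegree + 1)), (a.choose k : ℂ) *
        ((fwdDiff (1 : ℂ))^[k] (fun x => g.eval x)) 0 := by
    rw [sum_congr rfl (fun k _ => mul_comm _ _)]
    apply sum_subset
    · intro k hk; rw [mem_range] at hk ⊢; omega
    · intro k _ hk
      rw [mem_range] at hk
      have := Polynomial.fwdDiff_iter_eq_zero_of_degree_lt (P := g) (n := k) (by omega)
      have h3 := congrFun this 0
      simp only [Pi.zero_apply] at h3
      rw [h3, mul_zero]
  rw [e1, e2]

/-- the lattice points of a cell -/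
def cellD (m h : ℕ) (sf bf : ℕ → ℕ) : Finset (ℕ × ℕ) :=
  (range h).biUnion (fun j => (range (m - j)).image (fun t => (sf j + t, bf j)))

/-- the conditions of a cell at the point number `k` -/
def cellR (m h k : ℕ) : Finset Row :=
  (range h).biUnion (fun j => (range (m - j)).image (fun t => (k, (t, j))))

lemma mem_cellR (m h k : ℕ) (r : Row) :
    r ∈ cellR m h k ↔ r.1 = k ∧ r.2.2 < h ∧ r.2.1 + r.2.2 < m := by
  unfold cellR
  rw [mem_biUnion]
  constructor
  · rintro ⟨j, hj, hr⟩
    rw [mem_image] at hr
    obtain ⟨t, ht, rfl⟩ := hr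
    rw [mem_range] at hj ht
    refine ⟨rfl, hj, ?_⟩
    show t + j < m
    omega
  · rintro ⟨h1, h2, h3⟩
    refine ⟨r.2.2, mem_range.2 h2, mem_image.2 ⟨r.2.1, mem_range.2 (by omega), ?_⟩⟩
    rw [← h1]

lemma mem_cellD (m h : ℕ) (sf bf : ℕ → ℕ) (d : ℕ × ℕ) :
    d ∈ cellD m h sf bf ↔ ∃ j < h, ∃ t < m - j, d = (sf j + t, bf j) := by
  unfold cellD
  rw [mem_biUnion]
  constructor
  · rintro ⟨j, hj, hr⟩
    rw [mem_image] at hr
    obtain ⟨t, ht, rfl⟩ := hr
    exact ⟨j, mem_range.1 hj, t, mem_range.1 ht, rfl⟩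
  · rintro ⟨j, hj, t, ht, rfl⟩
    exact ⟨j, mem_range.2 hj, mem_image.2 ⟨t, mem_range.2 ht, rfl⟩⟩

lemma card_cellD (m h : ℕ) (sf bf : ℕ → ℕ) (hb : ∀ i < h, ∀ j < h, bf i = bf j → i = j) :
    (cellD m h sf bf).card = ∑ j ∈ range h, (m - j) := by
  unfold cellD
  rw [card_biUnion]
  · apply sum_congr rfl
    intro j _
    rw [card_image_of_injective, card_range]
    intro a b hab
    simpa using hab
  · intro i hi j hj hij
    show Disjoint _ _
    rw [disjoint_left]
    intro d hd hd'
    rw [mem_image] at hd hd'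
    obtain ⟨t, _, rfl⟩ := hd
    obtain ⟨t', _, he⟩ := hd'
    have := (Prod.mk.inj he).2
    exact hij (hb i (mem_range.1 hi) j (mem_range.1 hj) this.symm)

lemma card_cellR (m h k : ℕ) : (cellR m h k).card = ∑ j ∈ range h, (m - j) := by
  unfold cellR
  rw [card_biUnion]
  · apply sum_congr rfl
    intro j _
    rw [card_image_of_injective, card_range]
    intro a b hab
    simpa using hab
  · intro i hi j hj hij
    show Disjoint _ _
    rw [disjoint_left]
    intro d hd hd'
    rw [mem_image] at hd hd'
    obtain ⟨t, _, rfl⟩ := hd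
    obtain ⟨t', _, he⟩ := hd'
    have := (Prod.mk.inj (Prod.mk.inj he).2).2
    exact hij this.symm

/-- all products of low degree polynomials are killed -/
lemma kill_poly (D : Finset (ℕ × ℕ)) (m h k : ℕ) (c : ℕ × ℕ → ℂ)
    (hc : ∀ r ∈ cellR m h k, ∑ d ∈ D, c d * E r.2 d 1 1 = 0) (g q : Polynomial ℂ)
    (hq : q.natDegree < h) (hgq : g.natDegree + q.natDegree < m) :
    ∑ d ∈ D, c d * (g.eval (d.1 : ℂ) * q.eval (d.2 : ℂ)) = 0 := by
  obtain ⟨γ, hγ⟩ := newton g
  obtain ⟨δ, hδ⟩ := newton q
  have h1 : ∀ d ∈ D, c d * (g.eval (d.1 : ℂ) * q.eval (d.2 : ℂ)) =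
      ∑ i ∈ range (g.natDegree + 1), ∑ j ∈ range (q.natDegree + 1),
        (γ i * δ j) * (c d * E (i, j) d 1 1) := by
    intro d _
    rw [hγ, hδ, sum_mul_sum, mul_sum]
    apply sum_congr rfl
    intro i _
    rw [mul_sum]
    apply sum_congr rfl
    intro j _
    unfold E
    simp only [one_pow, mul_one]
    ring
  rw [sum_congr rfl h1, sum_comm]
  apply sum_eq_zero
  intro i hi
  rw [sum_comm]
  apply sum_eq_zero
  intro j hj
  rw [← mul_sum]
  rw [mem_range] at hi hj
  have := hc (k, (i, j)) (by
    rw [mem_cellR]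
    refine ⟨rfl, ?_, ?_⟩
    · show j < h
      omega
    · show i + j < m
      omega)
  rw [this, mul_zero]

theorem cell_injAt (m h k : ℕ) (sf bf : ℕ → ℕ) (hb : ∀ i < h, ∀ j < h, bf i = bf j → i = j) :
    InjAt (cellD m h sf bf) (cellR m h k) (fun _ => (1, 1)) := by
  intro c hc
  have key : ∀ n ≤ h, ∀ j < h, h - n ≤ j → ∀ t < m - j, c (sf j + t, bf j) = 0 := by
    intro n
    induction n with
    | zero => intro _ j hj hj2; omega
    | succ n ih =>
      intro hn j hj hj2 t ht
      by_cases hj3 : h - n ≤ j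
      · exact ih (by omega) j hj hj3 t ht
      · have hbelow := ih (by omega)
        set g : Polynomial ℂ := ∏ t' ∈ (range (m - j)).erase t,
          (Polynomial.X - Polynomial.C ((sf j + t' : ℕ) : ℂ)) with hg
        set q : Polynomial ℂ := ∏ j' ∈ range j,
          (Polynomial.X - Polynomial.C ((bf j' : ℕ) : ℂ)) with hq
        have hgd : g.natDegree = m - j - 1 := by
          rw [hg, Polynomial.natDegree_prod_of_monic _ _ (fun i _ => Polynomial.monic_X_sub_C _)]
          simp only [Polynomial.natDegree_X_sub_C, sum_const, smul_eq_mul, mul_one]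
          rw [card_erase_of_mem (mem_range.2 ht), card_range]
        have hqd : q.natDegree = j := by
          rw [hq, Polynomial.natDegree_prod_of_monic _ _ (fun i _ => Polynomial.monic_X_sub_C _)]
          simp only [Polynomial.natDegree_X_sub_C, sum_const, smul_eq_mul, mul_one, card_range]
        have hk := kill_poly (cellD m h sf bf) m h k c hc g q (by rw [hqd]; exact hj)
          (by rw [hgd, hqd]; omega)
        rw [sum_eq_single (sf j + t, bf j)] at hk
        · simp only at hk
          rcases mul_eq_zero.1 hk with h0 | h0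
          · exact h0
          · exfalso
            rcases mul_eq_zero.1 h0 with h1 | h1
            · rw [hg, Polynomial.eval_prod, prod_eq_zero_iff] at h1
              obtain ⟨t', ht', he⟩ := h1
              rw [Polynomial.eval_sub, Polynomial.eval_X, Polynomial.eval_C, sub_eq_zero] at he
              have he' : sf j + t = sf j + t' := by exact_mod_cast he
              rw [mem_erase] at ht'
              exact ht'.1 (by omega)
            · rw [hq, Polynomial.eval_prod, prod_eq_zero_iff] at h1
              obtain ⟨j', hj', he⟩ := h1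
              rw [Polynomial.eval_sub, Polynomial.eval_X, Polynomial.eval_C, sub_eq_zero] at he
              have he' : bf j = bf j' := by exact_mod_cast he
              rw [mem_range] at hj'
              have := hb j hj j' (by omega) he'
              omega
        · intro d hd hne
          rw [mem_cellD] at hd
          obtain ⟨j'', hj'', t'', ht'', rfl⟩ := hd
          simp only
          rcases lt_trichotomy j'' j with hlt | heq | hgt
          · have : q.eval ((bf j'' : ℕ) : ℂ) = 0 := by
              rw [hq, Polynomial.eval_prod]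
              apply prod_eq_zero (mem_range.2 hlt)
              simp
            rw [this]; ring
          · subst heq
            have hne2 : t'' ≠ t := by rintro rfl; exact hne rfl
            have : g.eval ((sf j'' + t'' : ℕ) : ℂ) = 0 := by
              rw [hg, Polynomial.eval_prod]
              apply prod_eq_zero (mem_erase.2 ⟨hne2, mem_range.2 ht''⟩)
              simp
            rw [this]; ring
          · rw [hbelow j'' hj'' (by omega) t'' ht'']; ring
        · intro hnot
          exfalso
          apply hnot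
          rw [mem_cellD]
          exact ⟨j, hj, t, ht, rfl⟩
  intro d hd
  rw [mem_cellD] at hd
  obtain ⟨j, hj, t, ht, rfl⟩ := hd
  exact key h le_rfl j hj (by omega) t ht

lemma InjAt.ind {D : Finset (ℕ × ℕ)} {R : Finset Row} {P : ℕ → ℂ × ℂ} (h : InjAt D R P)
    (hcard : R.card = D.card) : IndAt D R P := by
  -- linear map
  let f : (↥D → ℂ) →ₗ[ℂ] (↥R → ℂ) :=
    { toFun := fun c r => ∑ d : ↥D, c d * E (r : Row).2 d (P (r : Row).1).1 (P (r : Row).1).2
      map_add' := by
        intro a b; funext r
        simp only [Pi.add_apply, add_mul, sum_add_distrib]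
      map_smul' := by
        intro a b; funext r
        simp only [Pi.smul_apply, smul_eq_mul, RingHom.id_apply, mul_sum, mul_assoc] }
  have hinj : Function.Injective f := by
    rw [injective_iff_map_eq_zero]
    intro c hc
    set c2 : ℕ × ℕ → ℂ := fun d => if h : d ∈ D then c ⟨d, h⟩ else 0 with hc2
    have hc2' : ∀ d : ↥D, c2 d = c d := by
      intro d; simp only [hc2]; rw [dif_pos d.2]
    have := h c2 (by
      intro r hr
      have h1 := congrFun hc ⟨r, hr⟩
      simp only [Pi.zero_apply] at h1
      refine Eq.trans ?_ h1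
      rw [← sum_coe_sort D]
      apply sum_congr rfl
      intro d _
      rw [hc2'])
    funext d
    rw [← hc2', this d d.2, Pi.zero_apply]
  have hsurj : Function.Surjective f := by
    rw [← LinearMap.injective_iff_surjective_of_finrank_eq_finrank]
    · exact hinj
    · simp [hcard]
  intro l hl r hr
  obtain ⟨c, hc⟩ := hsurj (fun r' => if (r' : Row) = r then 1 else 0)
  have h1 : ∑ r' : ↥R, l r' * f c r' = 0 := by
    have : ∀ r' : ↥R, l r' * f c r' = ∑ d : ↥D, c d * (l r' * E (r' : Row).2 d (P (r' : Row).1).1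
        (P (r' : Row).1).2) := by
      intro r'
      show l r' * (∑ d : ↥D, c d * E (r' : Row).2 d (P (r' : Row).1).1 (P (r' : Row).1).2) = _
      rw [mul_sum]
      apply sum_congr rfl
      intro d _; ring
    rw [sum_congr rfl (fun r' _ => this r'), sum_comm]
    apply sum_eq_zero
    intro d _
    rw [← mul_sum, sum_coe_sort R (fun r' => l r' * E (r' : Row).2 d (P (r' : Row).1).1
        (P (r' : Row).1).2), hl d d.2, mul_zero]
  rw [hc] at h1
  rw [sum_coe_sort R (fun r' => l r' * (if r' = r then 1 else 0))] at h1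
  simpa [hr] using h1

theorem cell_inj (m h k : ℕ) (sf bf : ℕ → ℕ) (hb : ∀ i < h, ∀ j < h, bf i = bf j → i = j) :
    Inj (cellD m h sf bf) (cellR m h k) := ⟨_, cell_injAt m h k sf bf hb⟩

theorem cell_ind (m h k : ℕ) (sf bf : ℕ → ℕ) (hb : ∀ i < h, ∀ j < h, bf i = bf j → i = j) :
    Ind (cellD m h sf bf) (cellR m h k) :=
  ⟨_, (cell_injAt m h k sf bf hb).ind (by rw [card_cellR, card_cellD m h sf bf hb])⟩

end Pool.Agent.Lead.Sh
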