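import Mathlib
import Pool.Agent.Lead.ShCell

/-!
Rectangles, strips and triangles.
-/

set_option autoImplicit false
set_option linter.unusedSectionVars false

namespace Pool.Agent.Lead.Sh

open Finset

section Glue'

variable {w : ℕ × ℕ} {c' : ℕ} {D1 D2 : Finset (ℕ × ℕ)} {R1 R2 : Finset Row}

theorem Inj.glue' (hI1 : Inj D1 R1) (hI2 : Inj D2 R2)
    (h1 : ∀ d ∈ D1, wt w d < c') (h2 : ∀ d ∈ D2, c' ≤ wt w d)
    (hdisj : ∀ r ∈ R1, ∀ r' ∈ R2, r.1 ≠ r'.1) : Inj (D1 ∪ D2) (R1 ∪ R2) := by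
  rcases Nat.eq_zero_or_pos c' with h0 | h0
  · subst h0
    have : D1 = ∅ := by
      rw [eq_empty_iff_forall_notMem]
      intro d hd; exact absurd (h1 d hd) (Nat.not_lt_zero _)
    rw [this, empty_union]
    exact hI2.mono subset_rfl subset_union_right
  · apply Inj.glue (w := w) (c' := c' - 1) hI1 hI2 _ _ hdisj
    · intro d hd; have := h1 d hd; omega
    · intro d hd; have := h2 d hd; omega

theorem Ind.glue' (hI1 : Ind D1 R1) (hI2 : Ind D2 R2)
    (h1 : ∀ d ∈ D1, wt w d < c') (h2 : ∀ d ∈ D2, c' ≤ wt w d)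
    (hdisj : ∀ r ∈ R1, ∀ r' ∈ R2, r.1 ≠ r'.1) : Ind (D1 ∪ D2) (R1 ∪ R2) := by
  rcases Nat.eq_zero_or_pos c' with h0 | h0
  · subst h0
    have : D1 = ∅ := by
      rw [eq_empty_iff_forall_notMem]
      intro d hd; exact absurd (h1 d hd) (Nat.not_lt_zero _)
    subst this
    have hR : R1 = ∅ := by
      rw [eq_empty_iff_forall_notMem]
      intro r hr
      obtain ⟨P, hP⟩ := hI1
      have := hP (fun _ => 1) (fun d hd => absurd hd (notMem_empty d)) r hr
      exact one_ne_zero this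
    rw [hR, empty_union, empty_union]
    exact hI2
  · apply Ind.glue (w := w) (c' := c' - 1) hI1 hI2 _ _ hdisj
    · intro d hd; have := h1 d hd; omega
    · intro d hd; have := h2 d hd; omega

end Glue'

lemma cellR_mono {m h m' h' k : ℕ} (hm : m ≤ m') (hh : h ≤ h') : cellR m h k ⊆ cellR m' h' k := by
  intro r hr
  rw [mem_cellR] at hr ⊢
  exact ⟨hr.1, by omega, by omega⟩

/-- a rectangle -/
def rectD (L w b0 h : ℕ) : Finset (ℕ × ℕ) := (Finset.Ico L (L+w)) ×ˢ (Finset.Ico b0 (b0+h))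

lemma mem_rectD (L w b0 h : ℕ) (d : ℕ × ℕ) :
    d ∈ rectD L w b0 h ↔ (L ≤ d.1 ∧ d.1 < L + w) ∧ b0 ≤ d.2 ∧ d.2 < b0 + h := by
  unfold rectD
  rw [mem_product, mem_Ico, mem_Ico]

/-- first cell -/
def cA (m h L b0 : ℕ) : Finset (ℕ × ℕ) := cellD m h (fun _ => L) (fun j => b0 + j)
/-- second cell -/
def cB (m m' h L b0 : ℕ) : Finset (ℕ × ℕ) :=
  cellD m' h (fun j => L + m - (h - 1 - j)) (fun j => b0 + (h - 1 - j))

theorem pair_ind {m m' L b0 k k' : ℕ} (hm : m' ≤ m) (hk : k ≠ k') (h : ℕ) (hh : m ≤ h) :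
    Ind (rectD L (m + 1) b0 h) (cellR m m k ∪ cellR m' m' k') := by
  have hA : Ind (cA m m L b0) (cellR m m k) := cell_ind _ _ _ _ _ (by intro i _ j _ h; omega)
  have hB : Ind (cB m m' m' L b0) (cellR m' m' k') :=
    cell_ind _ _ _ _ _ (by intro i _ j _ h; omega)
  refine Ind.mono (Ind.glue' (w := (1, 1)) (c' := L + b0 + m) hA hB ?_ ?_ ?_) ?_ subset_rfl
  · intro d hd
    unfold cA at hd
    rw [mem_cellD] at hd
    obtain ⟨j, hj, t, ht, rfl⟩ := hd
    simp only [wt]; omega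
  · intro d hd
    unfold cB at hd
    rw [mem_cellD] at hd
    obtain ⟨j, hj, t, ht, rfl⟩ := hd
    simp only [wt]; omega
  · intro r hr r' hr'
    rw [mem_cellR] at hr hr'
    omega
  · intro d hd
    rw [mem_rectD]
    rcases mem_union.1 hd with hd | hd
    · unfold cA at hd
      rw [mem_cellD] at hd
      obtain ⟨j, hj, t, ht, rfl⟩ := hd
      simp only; omega
    · unfold cB at hd
      rw [mem_cellD] at hd
      obtain ⟨j, hj, t, ht, rfl⟩ := hd
      simp only; omega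

theorem pair_inj {m m' L b0 k k' h : ℕ} (hm : h ≤ m) (hm' : h ≤ m') (hk : k ≠ k') :
    Inj (rectD L (m + m' - h + 1) b0 h) (cellR m m k ∪ cellR m' m' k') := by
  have hA : Inj (cA m h L b0) (cellR m h k) := cell_inj _ _ _ _ _ (by intro i _ j _ h; omega)
  have hB : Inj (cB m m' h L b0) (cellR m' h k') :=
    cell_inj _ _ _ _ _ (by intro i _ j _ h; omega)
  refine Inj.mono (Inj.glue' (w := (1, 1)) (c' := L + b0 + m) hA hB ?_ ?_ ?_) ?_
    (union_subset_union (cellR_mono le_rfl hm) (cellR_mono le_rfl hm'))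
  · intro d hd
    unfold cA at hd
    rw [mem_cellD] at hd
    obtain ⟨j, hj, t, ht, rfl⟩ := hd
    simp only [wt]; omega
  · intro d hd
    unfold cB at hd
    rw [mem_cellD] at hd
    obtain ⟨j, hj, t, ht, rfl⟩ := hd
    simp only [wt]; omega
  · intro r hr r' hr'
    rw [mem_cellR] at hr hr'
    omega
  · intro d hd
    rw [mem_rectD] at hd
    obtain ⟨⟨h1, h2⟩, h3, h4⟩ := hd
    rw [mem_union]
    by_cases hc : (d.1 - L) + (d.2 - b0) < m
    · left
      unfold cA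
      rw [mem_cellD]
      refine ⟨d.2 - b0, by omega, d.1 - L, by omega, ?_⟩
      ext
      · simp only; omega
      · simp only; omega
    · right
      unfold cB
      rw [mem_cellD]
      refine ⟨h - 1 - (d.2 - b0), by omega, (d.1 - L) - (m - (d.2 - b0)), by omega, ?_⟩
      ext
      · simp only; omega
      · simp only; omega

/-- all the conditions of the points `k ∈ s` of multiplicities `m k` -/
def rows (m : ℕ → ℕ) (s : Finset ℕ) : Finset Row := s.biUnion (fun k => cellR (m k) (m k) k)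

lemma mem_rows (m : ℕ → ℕ) (s : Finset ℕ) (r : Row) :
    r ∈ rows m s ↔ r.1 ∈ s ∧ r.2.1 + r.2.2 < m r.1 := by
  unfold rows
  rw [mem_biUnion]
  constructor
  · rintro ⟨k, hk, hr⟩
    rw [mem_cellR] at hr
    obtain ⟨h1, h2, h3⟩ := hr
    subst h1
    exact ⟨hk, h3⟩
  · rintro ⟨h1, h2⟩
    refine ⟨r.1, h1, ?_⟩
    rw [mem_cellR]
    exact ⟨rfl, by omega, h2⟩

lemma rows_union (m : ℕ → ℕ) (s t : Finset ℕ) : rows m (s ∪ t) = rows m s ∪ rows m t := by
  ext r
  rw [mem_union, mem_rows, mem_rows, mem_rows, mem_union]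
  tauto

lemma rows_mono {m : ℕ → ℕ} {s t : Finset ℕ} (h : s ⊆ t) : rows m s ⊆ rows m t := by
  intro r hr
  rw [mem_rows] at hr ⊢
  exact ⟨h hr.1, hr.2⟩

lemma rows_disj (m : ℕ → ℕ) (s t : Finset ℕ) (h : Disjoint s t) :
    ∀ r ∈ rows m s, ∀ r' ∈ rows m t, r.1 ≠ r'.1 := by
  intro r hr r' hr' he
  rw [mem_rows] at hr hr'
  exact (disjoint_left.1 h) hr.1 (he ▸ hr'.1)

lemma pair_rows (m : ℕ → ℕ) (k : ℕ) :
    rows m (Finset.Ico k (k + 2)) = cellR (m k) (m k) k ∪ cellR (m (k+1)) (m (k+1)) (k+1) := by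
  ext r
  rw [mem_rows, mem_union, mem_cellR, mem_cellR, mem_Ico]
  constructor
  · rintro ⟨h1, h2⟩
    have : r.1 = k ∨ r.1 = k + 1 := by omega
    rcases this with h | h
    · left; rw [h] at h2; exact ⟨h, by omega, h2⟩
    · right; rw [h] at h2; exact ⟨h, by omega, h2⟩
  · rintro (⟨h1, h2, h3⟩ | ⟨h1, h2, h3⟩)
    · rw [h1]; exact ⟨by omega, h3⟩
    · rw [h1]; exact ⟨by omega, h3⟩

/-- the triangle -/
def triD (b0 d : ℕ) : Finset (ℕ × ℕ) :=
  ((range (d + 1)) ×ˢ (range (d + 1))).filter (fun p => b0 ≤ p.2 ∧ p.1 + p.2 ≤ d)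

lemma mem_triD (b0 d : ℕ) (p : ℕ × ℕ) : p ∈ triD b0 d ↔ b0 ≤ p.2 ∧ p.1 + p.2 ≤ d := by
  unfold triD
  rw [mem_filter, mem_product, mem_range, mem_range]
  constructor
  · rintro ⟨_, h⟩; exact h
  · rintro ⟨h1, h2⟩; exact ⟨⟨by omega, by omega⟩, h1, h2⟩

/-- strip widths, first kind -/
def LA (m : ℕ → ℕ) (k0 : ℕ) (j : ℕ) : ℕ := ∑ i ∈ range j, (m (k0 + 2 * i) + 1)

/-- strip widths, second kind -/
def LB (m : ℕ → ℕ) (h k0 : ℕ) (j : ℕ) : ℕ :=
  ∑ i ∈ range j, (m (k0 + 2 * i) + m (k0 + 2 * i + 1) - h + 1)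

lemma LA_succ (m : ℕ → ℕ) (k0 j : ℕ) : LA m k0 (j + 1) = LA m k0 j + (m (k0 + 2 * j) + 1) := by
  unfold LA; rw [sum_range_succ]

lemma LB_succ (m : ℕ → ℕ) (h k0 j : ℕ) : LB m h k0 (j + 1) = LB m h k0 j +
    (m (k0 + 2 * j) + m (k0 + 2 * j + 1) - h + 1) := by
  unfold LB; rw [sum_range_succ]

lemma rect_split (L w b0 h : ℕ) : rectD 0 (L + w) b0 h = rectD 0 L b0 h ∪ rectD L w b0 h := by
  ext d
  rw [mem_union, mem_rectD, mem_rectD, mem_rectD]
  omega

theorem stripA {m : ℕ → ℕ} (hm : Antitone m) (k0 b0 h : ℕ) (hh : m k0 ≤ h) (j : ℕ) :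
    Ind (rectD 0 (LA m k0 j) b0 h) (rows m (Finset.Ico k0 (k0 + 2 * j))) := by
  induction j with
  | zero =>
    have : rows m (Finset.Ico k0 (k0 + 2 * 0)) = ∅ := by
      ext r; rw [mem_rows]; simp
    rw [this]
    exact ind_empty _
  | succ j ih =>
    have h1 : Finset.Ico k0 (k0 + 2 * (j + 1)) = Finset.Ico k0 (k0 + 2 * j) ∪
        Finset.Ico (k0 + 2 * j) (k0 + 2 * j + 2) := by
      ext x; simp only [mem_Ico, mem_union]; omega
    rw [h1, rows_union, LA_succ, rect_split, pair_rows]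
    apply Ind.glue' (w := (1, 0)) (c' := LA m k0 j) ih
    · exact pair_ind (hm (by omega)) (by omega) h (le_trans (hm (by omega)) hh)
    · intro d hd
      rw [mem_rectD] at hd
      simp only [wt]; omega
    · intro d hd
      rw [mem_rectD] at hd
      simp only [wt]; omega
    · intro r hr r' hr'
      rw [mem_rows, mem_Ico] at hr
      rw [mem_union, mem_cellR, mem_cellR] at hr'
      omega

theorem stripB {m : ℕ → ℕ} (hm : Monotone m) (k0 b0 h : ℕ) (hh : h ≤ m k0) (j : ℕ) :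
    Inj (rectD 0 (LB m h k0 j) b0 h) (rows m (Finset.Ico k0 (k0 + 2 * j))) := by
  induction j with
  | zero =>
    have : rectD 0 (LB m h k0 0) b0 h = ∅ := by
      ext r; rw [mem_rectD]; simp [LB]
    rw [this]
    exact inj_empty _
  | succ j ih =>
    have h1 : Finset.Ico k0 (k0 + 2 * (j + 1)) = Finset.Ico k0 (k0 + 2 * j) ∪
        Finset.Ico (k0 + 2 * j) (k0 + 2 * j + 2) := by
      ext x; simp only [mem_Ico, mem_union]; omega
    rw [h1, rows_union, LB_succ, rect_split, pair_rows]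
    apply Inj.glue' (w := (1, 0)) (c' := LB m h k0 j) ih
    · exact pair_inj (le_trans hh (hm (by omega))) (le_trans hh (hm (by omega))) (by omega)
    · intro d hd
      rw [mem_rectD] at hd
      simp only [wt]; omega
    · intro d hd
      rw [mem_rectD] at hd
      simp only [wt]; omega
    · intro r hr r' hr'
      rw [mem_rows, mem_Ico] at hr
      rw [mem_union, mem_cellR, mem_cellR] at hr'
      omega

end Pool.Agent.Lead.Sh
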