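import Mathlib
import Pool.Agent.Lead.ShRect

/-!
Triangles: the two packing theorems.
-/

set_option autoImplicit false
set_option linter.unusedSectionVars false

namespace Pool.Agent.Lead.Sh

open Finset

/-- twice the number of conditions -/
def UU (m : ℕ → ℕ) (s : Finset ℕ) : ℕ := ∑ k ∈ s, m k * (m k + 1)

lemma UU_split (m : ℕ → ℕ) {a b c : ℕ} (h1 : a ≤ b) (h2 : b ≤ c) :
    UU m (Finset.Ico a c) = UU m (Finset.Ico a b) + UU m (Finset.Ico b c) := by
  unfold UU
  rw [sum_Ico_consecutive _ h1 h2]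

lemma UU_pair (m : ℕ → ℕ) (k : ℕ) :
    UU m (Finset.Ico k (k + 2)) = m k * (m k + 1) + m (k+1) * (m (k+1) + 1) := by
  unfold UU
  rw [sum_Ico_succ_top (by omega), sum_Ico_succ_top (by omega)]
  simp

lemma UA_bound {m : ℕ → ℕ} (hm : Antitone m) (k0 : ℕ) (μ : ℕ) (j : ℕ) (hμ : μ ≤ m (k0 + 2 * j)) :
    2 * μ * LA m k0 j + μ * m (k0 + 2 * j) ≤ UU m (Finset.Ico k0 (k0 + 2 * j)) + μ * m k0 := by
  induction j with
  | zero => simp [LA]
  | succ j ih =>
    have hx : m (k0 + 2 * (j + 1)) ≤ m (k0 + 2 * j + 1) := hm (by omega)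
    have hy : m (k0 + 2 * j + 1) ≤ m (k0 + 2 * j) := hm (by omega)
    have ih' := ih (by omega)
    rw [LA_succ, UU_split m (show k0 ≤ k0 + 2 * j by omega)
      (show k0 + 2 * j ≤ k0 + 2 * (j + 1) by omega)]
    rw [show k0 + 2 * (j + 1) = k0 + 2 * j + 2 by ring, UU_pair]
    rw [show k0 + 2 * (j + 1) = k0 + 2 * j + 2 by ring] at hx hμ
    set x := m (k0 + 2 * j)
    set y := m (k0 + 2 * j + 1)
    set z := m (k0 + 2 * j + 2)
    set L := LA m k0 j
    set U := UU m (Finset.Ico k0 (k0 + 2 * j))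
    set h := m k0
    have e1 : μ * (x + 1) ≤ x * (x + 1) := Nat.mul_le_mul (by omega) le_rfl
    have e2 : μ * (z + 1) ≤ y * (y + 1) := Nat.mul_le_mul (by omega) (by omega)
    nlinarith

lemma pair_bound {h ν x y : ℕ} (h1 : 1 ≤ h) (hx : h ≤ x) (hy : h ≤ y) (hxν : x ≤ ν) (hyν : y ≤ ν) :
    x * (x + 1) + y * (y + 1) ≤ (h + ν) * (x + y - h + 1) := by
  obtain ⟨a, rfl⟩ := Nat.exists_eq_add_of_le hx
  obtain ⟨b, rfl⟩ := Nat.exists_eq_add_of_le hy
  obtain ⟨c, rfl⟩ : ∃ c, ν = h + c := ⟨ν - h, by omega⟩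
  have ha : a ≤ c := by omega
  have hb : b ≤ c := by omega
  rw [show h + a + (h + b) - h + 1 = h + a + b + 1 by omega]
  have e1 : a * a ≤ a * c := Nat.mul_le_mul le_rfl ha
  have e2 : b * b ≤ b * c := Nat.mul_le_mul le_rfl hb
  have e3 : 1 * c ≤ h * c := Nat.mul_le_mul h1 le_rfl
  nlinarith

lemma UB_bound {m : ℕ → ℕ} (hm : Monotone m) (k0 h ν : ℕ) (h1 : 1 ≤ h) (hh : h ≤ m k0) (j : ℕ)
    (hν : ∀ k < k0 + 2 * j, m k ≤ ν) :
    UU m (Finset.Ico k0 (k0 + 2 * j)) ≤ (h + ν) * LB m h k0 j := by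
  induction j with
  | zero => simp [UU]
  | succ j ih =>
    have ih' := ih (fun k hk => hν k (by omega))
    rw [LB_succ, UU_split m (show k0 ≤ k0 + 2 * j by omega)
      (show k0 + 2 * j ≤ k0 + 2 * (j + 1) by omega)]
    rw [show k0 + 2 * (j + 1) = k0 + 2 * j + 2 by ring, UU_pair, Nat.mul_add (h + ν)]
    apply Nat.add_le_add ih'
    exact pair_bound h1 (le_trans hh (hm (by omega))) (le_trans hh (hm (by omega)))
      (hν _ (by omega)) (hν _ (by omega))

/-- the packing theorem -/
theorem triA {m : ℕ → ℕ} (hm : Antitone m) {N : ℕ} (hN : ∀ k, N ≤ k → m k = 0) (d : ℕ) :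
    ∀ W k0 b0, b0 + W = d + 1 → UU m (Finset.Ico k0 N) + 3 * m k0 * W ≤ W * (W + 1) →
      Ind (triD b0 d) (rows m (Finset.Ico k0 N)) := by
  intro W
  induction W using Nat.strong_induction_on with
  | _ W ih =>
  intro k0 b0 hW hU
  rcases Nat.eq_zero_or_pos (m k0) with h0 | h0
  · have : rows m (Finset.Ico k0 N) = ∅ := by
      rw [eq_empty_iff_forall_notMem]
      intro r hr
      rw [mem_rows, mem_Ico] at hr
      have := hm hr.1.1
      omega
    rw [this]; exact ind_empty _
  set h := m k0 with hh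
  have hkN : k0 < N := by
    by_contra hcon
    have := hN k0 (by omega)
    omega
  -- W is positive
  have hWpos : 3 * h ≤ W + 1 := by
    rcases Nat.eq_zero_or_pos W with hW0 | hW0
    · exfalso
      subst hW0
      have : h * (h + 1) ≤ UU m (Finset.Ico k0 N) := by
        unfold UU
        exact single_le_sum (f := fun k => m k * (m k + 1)) (fun _ _ => Nat.zero_le _)
          (mem_Ico.2 ⟨le_rfl, hkN⟩)
      nlinarith
    · have h1 : (3 * h) * W ≤ (W + 1) * W := by nlinarith
      exact Nat.le_of_mul_le_mul_right h1 hW0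
  have hhW : h ≤ W := by omega
  obtain ⟨V, rfl⟩ := Nat.exists_eq_add_of_le hhW
  -- choice of j
  have hex : ∃ j, V + 1 < LA m k0 (j + 1) := by
    refine ⟨V + 1, ?_⟩
    have : ∀ j, j ≤ LA m k0 j := by
      intro j
      unfold LA
      calc j = ∑ i ∈ range j, 1 := by simp
        _ ≤ _ := sum_le_sum (fun i _ => by omega)
    have := this (V + 1 + 1)
    omega
  classical
  set j := Nat.find hex with hj
  have hj1 : V + 1 < LA m k0 (j + 1) := Nat.find_spec hex
  have hj2 : LA m k0 j ≤ V + 1 := by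
    rcases Nat.eq_zero_or_pos j with h | h
    · rw [h]; simp [LA]
    · have := Nat.find_min hex (m := j - 1) (by omega)
      rw [show j - 1 + 1 = j by omega] at this
      omega
  rw [LA_succ] at hj1
  set k1 := k0 + 2 * j with hk1
  set μ := m k1 with hμ
  have hμh : μ ≤ h := hm (by omega)
  have hUA := UA_bound hm k0 μ j le_rfl
  rw [← hk1, ← hh, ← hμ] at hUA
  -- the sum splits
  have hsum : UU m (Finset.Ico k0 k1) + UU m (Finset.Ico k1 N) = UU m (Finset.Ico k0 N) := by
    by_cases hc : k1 ≤ N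
    · rw [← UU_split m (by omega) hc]
    · have e1 : UU m (Finset.Ico k1 N) = 0 := by
        rw [Finset.Ico_eq_empty (by omega)]; simp [UU]
      have e2 : UU m (Finset.Ico k0 k1) = UU m (Finset.Ico k0 N) + UU m (Finset.Ico N k1) :=
        UU_split m (by omega) (by omega)
      have e3 : UU m (Finset.Ico N k1) = 0 := by
        unfold UU
        apply sum_eq_zero
        intro k hk
        rw [mem_Ico] at hk
        rw [hN k hk.1]; simp
      rw [e1, e2, e3]; ring
  have key : UU m (Finset.Ico k1 N) + 3 * m k1 * V ≤ V * (V + 1) := by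
    rw [← hμ]
    set L := LA m k0 j
    set U1 := UU m (Finset.Ico k0 k1)
    set U2 := UU m (Finset.Ico k1 N)
    obtain ⟨t, ht⟩ := Nat.exists_eq_add_of_le hμh
    have hL : V + 1 ≤ L + μ := by omega
    -- 2 μ L ≥ 2 μ (V + 1 - μ)
    have e1 : 2 * μ * (V + 1) ≤ 2 * μ * (L + μ) := Nat.mul_le_mul le_rfl hL
    rw [ht] at hUA hU
    rw [← hsum] at hU
    have e2 : 1 ≤ μ + t := by omega
    have e3 : t ≤ t * t := Nat.le_mul_self t
    have e4 : t ≤ t * (μ + t) := by
      calc t = t * 1 := (mul_one t).symm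
        _ ≤ t * (μ + t) := Nat.mul_le_mul le_rfl e2
    zify at hU hUA e1 e2 e3 e4 ⊢
    have tV : (0 : ℤ) ≤ (t : ℤ) * V := by positivity
    have tμ : (0 : ℤ) ≤ (t : ℤ) * μ := by positivity
    nlinarith
  have hrest := ih V (by omega) k1 (b0 + h) (by omega) key
  have hstrip := stripA hm k0 b0 h le_rfl j
  have hglue := Ind.glue' (w := (0, 1)) (c' := b0 + h) hstrip hrest (by
      intro p hp
      rw [mem_rectD] at hp
      simp only [wt]; omega) (by
      intro p hp
      rw [mem_triD] at hp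
      simp only [wt]; omega) (by
      apply rows_disj
      rw [disjoint_left]
      intro x hx hx'
      rw [mem_Ico] at hx hx'
      omega)
  refine hglue.mono ?_ ?_
  · intro p hp
    rw [mem_union, mem_rectD, mem_triD] at hp
    rw [mem_triD]
    rcases hp with hp | hp
    · omega
    · omega
  · rw [← rows_union]
    apply rows_mono
    intro x hx
    rw [mem_union, mem_Ico, mem_Ico]
    rw [mem_Ico] at hx
    omega

/-- the covering theorem -/
theorem triB {m : ℕ → ℕ} (hm : Monotone m) {N M : ℕ} (hpos : ∀ k, 1 ≤ m k)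
    (hN : ∀ k, N ≤ k + 1 → m k = M) (d : ℕ) :
    ∀ W k0 b0, k0 ≤ N → b0 + W = d + 1 →
      W * (W + 1) + (M - m k0) * (W + 2 * M) + 3 * M * W ≤ UU m (Finset.Ico k0 N) →
      Inj (triD b0 d) (rows m (Finset.Ico k0 N)) := by
  have hM : ∀ k, m k ≤ M := by
    intro k
    rw [← hN (max k N) (by have := le_max_right k N; omega)]
    exact hm (le_max_left _ _)
  intro W
  induction W using Nat.strong_induction_on with
  | _ W ih =>
  intro k0 b0 hk0 hW hU
  rcases Nat.eq_zero_or_pos W with hW0 | hW0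
  · have : triD b0 d = ∅ := by
      rw [eq_empty_iff_forall_notMem]
      intro p hp
      rw [mem_triD] at hp
      omega
    rw [this]; exact inj_empty _
  have hkN : k0 < N := by
    by_contra hcon
    have : k0 = N := by omega
    subst this
    rw [Finset.Ico_self] at hU
    have : UU m ∅ = 0 := by simp [UU]
    rw [this] at hU
    nlinarith
  by_cases hMW : W ≤ M
  · -- one point
    have hI : Inj (cA M M 0 b0) (cellR M M (N - 1)) :=
      cell_inj _ _ _ _ _ (by intro i _ j _ h; omega)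
    refine hI.mono ?_ ?_
    · intro p hp
      rw [mem_triD] at hp
      unfold cA
      rw [mem_cellD]
      refine ⟨p.2 - b0, by omega, p.1, by omega, ?_⟩
      ext
      · simp
      · simp only; omega
    · intro r hr
      rw [mem_cellR] at hr
      rw [mem_rows, mem_Ico]
      have := hN (N - 1) (by omega)
      rw [hr.1, this]
      exact ⟨⟨by omega, by omega⟩, hr.2.2⟩
  set h := m k0 with hh
  have h1 : 1 ≤ h := hpos k0
  have hhM : h ≤ M := hM k0
  have hex : ∃ j, W ≤ LB m h k0 j := by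
    refine ⟨W, ?_⟩
    unfold LB
    calc W = ∑ i ∈ range W, 1 := by simp
      _ ≤ _ := sum_le_sum (fun i _ => by omega)
  classical
  set j := Nat.find hex with hj
  have hj1 : W ≤ LB m h k0 j := Nat.find_spec hex
  have hjpos : 1 ≤ j := by
    by_contra hcon
    have : j = 0 := by omega
    rw [this] at hj1
    simp [LB] at hj1
    omega
  obtain ⟨i, hi⟩ : ∃ i, j = i + 1 := ⟨j - 1, by omega⟩
  have hj2 : LB m h k0 i < W := by
    have := Nat.find_min hex (m := i) (by omega)
    omega
  -- enough points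
  have hk1N : k0 + 2 * j ≤ N := by
    by_contra hcon
    have hN2 : N ≤ k0 + 2 * i + 1 := by omega
    have hle : UU m (Finset.Ico k0 N) ≤ UU m (Finset.Ico k0 (k0 + 2 * i)) + M * (M + 1) := by
      have : UU m (Finset.Ico k0 N) ≤ UU m (Finset.Ico k0 (k0 + 2 * i + 1)) := by
        unfold UU
        apply sum_le_sum_of_subset
        intro x hx
        rw [mem_Ico] at hx ⊢
        omega
      refine le_trans this ?_
      rw [UU_split m (show k0 ≤ k0 + 2 * i by omega) (show k0 + 2 * i ≤ k0 + 2 * i + 1 by omega)]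
      apply Nat.add_le_add le_rfl
      unfold UU
      simp only [Nat.Ico_succ_singleton, sum_singleton]
      exact Nat.mul_le_mul (hM _) (by have := hM (k0 + 2 * i); omega)
    have hub := UB_bound hm k0 h M h1 le_rfl i (fun k _ => hM k)
    have h5 : (h + M) * LB m h k0 i ≤ (M + M) * W :=
      Nat.mul_le_mul (by omega) hj2.le
    have h6 : M * (M + 1) < W * (W + 1) := by
      apply Nat.mul_lt_mul_of_lt_of_le (by omega) (by omega) (by omega)
    have h7 : 0 ≤ (M - h) * (W + 2 * M) := Nat.zero_le _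
    nlinarith
  obtain ⟨V, hV⟩ : ∃ V, W = h + V := ⟨W - h, by omega⟩
  set k1 := k0 + 2 * j with hk1
  set ν := m (k1 - 1) with hν
  have hνh : h ≤ ν := hm (by omega)
  have hνM : ν ≤ M := hM _
  have hub := UB_bound hm k0 h ν h1 le_rfl j (fun k hk => hm (by omega))
  have hS : LB m h k0 j ≤ W + 2 * ν - h := by
    rw [hi, LB_succ]
    have e1 : m (k0 + 2 * i) ≤ ν := hm (by omega)
    have e2 : m (k0 + 2 * i + 1) ≤ ν := hm (by omega)
    omega
  have hsplit := UU_split m (show k0 ≤ k1 by omega) hk1N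
  have hν' : ν ≤ m k1 := hm (by omega)
  have key : V * (V + 1) + (M - m k1) * (V + 2 * M) + 3 * M * V ≤ UU m (Finset.Ico k1 N) := by
    have e1 : (M - m k1) * (V + 2 * M) ≤ (M - ν) * (V + 2 * M) :=
      Nat.mul_le_mul (by omega) le_rfl
    have e2 : UU m (Finset.Ico k0 k1) ≤ (h + ν) * (W + 2 * ν - h) :=
      le_trans hub (Nat.mul_le_mul le_rfl hS)
    refine le_trans (Nat.add_le_add_right (Nat.add_le_add_left e1 _) _) ?_
    obtain ⟨p, hp⟩ := Nat.exists_eq_add_of_le hνh
    obtain ⟨q, hq⟩ := Nat.exists_eq_add_of_le hνM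
    rw [show W + 2 * ν - h = V + 2 * ν by omega] at e2
    rw [show M - ν = q by omega]
    rw [show M - h = p + q by omega] at hU
    rw [hsplit] at hU
    set U1 := UU m (Finset.Ico k0 k1)
    set U2 := UU m (Finset.Ico k1 N)
    have hM2 : M = h + p + q := by omega
    rw [hM2] at hU ⊢
    rw [hV] at hU
    rw [hp] at e2
    zify at hU e2 ⊢
    have q1 : (0 : ℤ) ≤ (q : ℤ) * h := by positivity
    have q2 : (0 : ℤ) ≤ (q : ℤ) * p := by positivity
    nlinarith
  have hrest := ih V (by omega) k1 (b0 + h) hk1N (by omega) key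
  have hstrip := stripB hm k0 b0 h le_rfl j
  have hglue := Inj.glue' (w := (0, 1)) (c' := b0 + h) hstrip hrest (by
      intro p hp
      rw [mem_rectD] at hp
      simp only [wt]; omega) (by
      intro p hp
      rw [mem_triD] at hp
      simp only [wt]; omega) (by
      apply rows_disj
      rw [disjoint_left]
      intro x hx hx'
      rw [mem_Ico] at hx hx'
      omega)
  refine hglue.mono ?_ ?_
  · intro p hp
    rw [mem_triD] at hp
    rw [mem_union, mem_rectD, mem_triD]
    omega
  · rw [← rows_union]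
    apply rows_mono
    intro x hx
    rw [mem_union, mem_Ico, mem_Ico] at hx
    rw [mem_Ico]
    omega

end Pool.Agent.Lead.Sh
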