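import Mathlib
import Pool.Agent.Lead.ShTri

/-!
Powers of ideals of points and Taylor coefficients.
-/

set_option autoImplicit false
set_option linter.unusedSectionVars false

namespace Pool.Agent.Lead.Sh

open Finset

/-- the ideal of a point -/
noncomputable def IP (P : Fin 3 → ℂ) : Ideal (MvPolynomial (Fin 3) ℂ) :=
  Ideal.span {g : MvPolynomial (Fin 3) ℂ | g.IsHomogeneous 1 ∧ MvPolynomial.eval P g = 0}

/-- first linear form -/
noncomputable def Uf (x : ℂ) : MvPolynomial (Fin 3) ℂ :=
  MvPolynomial.X 0 - MvPolynomial.C x * MvPolynomial.X 2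
/-- second linear form -/
noncomputable def Vf (y : ℂ) : MvPolynomial (Fin 3) ℂ :=
  MvPolynomial.X 1 - MvPolynomial.C y * MvPolynomial.X 2

lemma IP_eq (P : Fin 3 → ℂ) (h : P 2 ≠ 0) :
    IP P = Ideal.span {Uf (P 0 / P 2), Vf (P 1 / P 2)} := by
  apply le_antisymm
  · unfold IP
    rw [Ideal.span_le]
    rintro g ⟨hg, h0⟩
    have hg' : g ∈ Submodule.span ℂ (Set.range (MvPolynomial.X : Fin 3 → MvPolynomial (Fin 3) ℂ)) := by
      rw [← MvPolynomial.homogeneousSubmodule_one_eq_span_X]
      exact hg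
    have key : ∀ g ∈ Submodule.span ℂ (Set.range (MvPolynomial.X : Fin 3 → MvPolynomial (Fin 3) ℂ)),
        g - MvPolynomial.C (MvPolynomial.eval P g / P 2) * MvPolynomial.X 2 ∈
          Ideal.span {Uf (P 0 / P 2), Vf (P 1 / P 2)} := by
      intro g hg
      induction hg using Submodule.span_induction with
      | mem x hx =>
        obtain ⟨i, rfl⟩ := hx
        fin_cases i
        · apply Ideal.subset_span
          left
          simp [Uf]
        · apply Ideal.subset_span
          right
          simp [Vf]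
        · have : (MvPolynomial.X 2 : MvPolynomial (Fin 3) ℂ) -
            MvPolynomial.C (MvPolynomial.eval P (MvPolynomial.X 2) / P 2) * MvPolynomial.X 2 = 0 := by
            rw [MvPolynomial.eval_X, div_self h]; simp
          show (MvPolynomial.X 2 : MvPolynomial (Fin 3) ℂ) -
            MvPolynomial.C (MvPolynomial.eval P (MvPolynomial.X 2) / P 2) * MvPolynomial.X 2 ∈ _
          rw [this]
          exact Ideal.zero_mem _
      | zero => simp
      | add a b _ _ ha hb =>
        have := Ideal.add_mem _ ha hb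
        convert this using 1
        rw [map_add, add_div, map_add]; ring
      | smul c a _ ha =>
        have := Ideal.mul_mem_left _ (MvPolynomial.C c) ha
        convert this using 1
        rw [MvPolynomial.smul_eval, MvPolynomial.smul_eq_C_mul, mul_div_assoc, map_mul]; ring
    have := key g hg'
    rw [h0] at this
    simpa using this
  · rw [Ideal.span_le]
    rintro g hg
    rcases hg with rfl | hg
    · apply Ideal.subset_span
      refine ⟨?_, ?_⟩
      · apply MvPolynomial.IsHomogeneous.sub (MvPolynomial.isHomogeneous_X _ _)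
        have := (MvPolynomial.isHomogeneous_C (Fin 3) (P 0 / P 2)).mul
          (MvPolynomial.isHomogeneous_X ℂ (2 : Fin 3))
        simpa using this
      · simp [Uf, div_mul_cancel₀ _ h]
    · rw [Set.mem_singleton_iff] at hg
      subst hg
      apply Ideal.subset_span
      refine ⟨?_, ?_⟩
      · apply MvPolynomial.IsHomogeneous.sub (MvPolynomial.isHomogeneous_X _ _)
        have := (MvPolynomial.isHomogeneous_C (Fin 3) (P 1 / P 2)).mul
          (MvPolynomial.isHomogeneous_X ℂ (2 : Fin 3))
        simpa using this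
      · simp [Vf, div_mul_cancel₀ _ h]

/-- the form with coefficients `c` -/
noncomputable def Fc (d : ℕ) (c : ℕ × ℕ → ℂ) : MvPolynomial (Fin 3) ℂ :=
  ∑ p ∈ triD 0 d, MvPolynomial.C (c p) * MvPolynomial.X 0 ^ p.1 * MvPolynomial.X 1 ^ p.2 *
    MvPolynomial.X 2 ^ (d - p.1 - p.2)

/-- Taylor coefficients -/
noncomputable def tc (d : ℕ) (c : ℕ × ℕ → ℂ) (x y : ℂ) (o : ℕ × ℕ) : ℂ :=
  ∑ p ∈ triD 0 d, c p * E o p x y

lemma pow_expand (x : ℂ) (u X2 : MvPolynomial (Fin 3) ℂ) (a d : ℕ) (h : a ≤ d) :
    (u + MvPolynomial.C x * X2) ^ a = ∑ i ∈ range (d + 1),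
      MvPolynomial.C ((a.choose i : ℂ) * x ^ (a - i)) * (u ^ i * X2 ^ (a - i)) := by
  rw [add_pow]
  have : ∑ i ∈ range (a + 1), u ^ i * (MvPolynomial.C x * X2) ^ (a - i) *
      ((a.choose i : ℕ) : MvPolynomial (Fin 3) ℂ) = ∑ i ∈ range (a + 1),
      MvPolynomial.C ((a.choose i : ℂ) * x ^ (a - i)) * (u ^ i * X2 ^ (a - i)) := by
    apply sum_congr rfl
    intro i _
    rw [mul_pow, map_mul, map_pow, map_natCast]; ring
  rw [this]
  apply sum_subset
  · intro i hi; rw [mem_range] at hi ⊢; omega
  · intro i _ hi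
    rw [mem_range] at hi
    rw [Nat.choose_eq_zero_of_lt (by omega)]; simp

lemma Fc_expand (d : ℕ) (c : ℕ × ℕ → ℂ) (x y : ℂ) :
    Fc d c = ∑ i ∈ range (d + 1), ∑ j ∈ range (d + 1),
      MvPolynomial.C (tc d c x y (i, j)) * (Uf x ^ i * Vf y ^ j * MvPolynomial.X 2 ^ (d - i - j)) := by
  have h1 : ∀ p ∈ triD 0 d, MvPolynomial.C (c p) * MvPolynomial.X 0 ^ p.1 * MvPolynomial.X 1 ^ p.2 *
      MvPolynomial.X 2 ^ (d - p.1 - p.2) = ∑ i ∈ range (d + 1), ∑ j ∈ range (d + 1),
      MvPolynomial.C (c p * E (i, j) p x y) *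
        (Uf x ^ i * Vf y ^ j * MvPolynomial.X 2 ^ (d - i - j)) := by
    intro p hp
    rw [mem_triD] at hp
    have e0 : (MvPolynomial.X 0 : MvPolynomial (Fin 3) ℂ) =
      Uf x + MvPolynomial.C x * MvPolynomial.X 2 := by unfold Uf; ring
    have e1 : (MvPolynomial.X 1 : MvPolynomial (Fin 3) ℂ) =
      Vf y + MvPolynomial.C y * MvPolynomial.X 2 := by unfold Vf; ring
    have q0 := pow_expand x (Uf x) (MvPolynomial.X 2) p.1 d (by omega)
    have q1 := pow_expand y (Vf y) (MvPolynomial.X 2) p.2 d (by omega)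
    rw [← e0] at q0
    rw [← e1] at q1
    rw [q0, q1, mul_assoc (MvPolynomial.C (c p)), sum_mul_sum, mul_assoc, sum_mul, mul_sum]
    apply sum_congr rfl
    intro i _
    rw [sum_mul, mul_sum]
    apply sum_congr rfl
    intro j _
    unfold E
    by_cases hi : i ≤ p.1
    · by_cases hj : j ≤ p.2
      · have hexp : d - i - j = (p.1 - i) + (p.2 - j) + (d - p.1 - p.2) := by omega
        rw [hexp, pow_add, pow_add]
        simp only [map_mul, map_pow, map_natCast]
        ring
      · rw [Nat.choose_eq_zero_of_lt (show p.2 < j by omega)]; simp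
    · rw [Nat.choose_eq_zero_of_lt (show p.1 < i by omega)]; simp
  unfold Fc
  rw [sum_congr rfl h1, sum_comm]
  apply sum_congr rfl
  intro i _
  rw [sum_comm]
  apply sum_congr rfl
  intro j _
  rw [← sum_mul, ← map_sum]
  rfl

/-- exponent vectors in two variables -/
noncomputable def e2 (i j : ℕ) : Fin 2 →₀ ℕ := Finsupp.single 0 i + Finsupp.single 1 j

lemma e2_0 (i j : ℕ) : e2 i j 0 = i := by simp [e2]
lemma e2_1 (i j : ℕ) : e2 i j 1 = j := by simp [e2]

lemma e2_degree (i j : ℕ) : Finsupp.degree (e2 i j) = i + j := by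
  unfold e2
  rw [map_add, Finsupp.degree_single, Finsupp.degree_single]

lemma e2_inj {i j i' j' : ℕ} (h : e2 i j = e2 i' j') : i = i' ∧ j = j' := by
  constructor
  · rw [← e2_0 i j, h, e2_0]
  · rw [← e2_1 i j, h, e2_1]

lemma monomial_e2 (i j : ℕ) (t : ℂ) : MvPolynomial.monomial (e2 i j) t =
    MvPolynomial.C t * (MvPolynomial.X 0 ^ i * MvPolynomial.X 1 ^ j) := by
  unfold e2
  rw [MvPolynomial.X_pow_eq_monomial, MvPolynomial.X_pow_eq_monomial, MvPolynomial.monomial_mul,
    MvPolynomial.C_mul_monomial]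
  simp

theorem mem_pow_iff (d : ℕ) (c : ℕ × ℕ → ℂ) (x y : ℂ) (n : ℕ) :
    Fc d c ∈ (Ideal.span {Uf x, Vf y}) ^ n ↔
      ∀ o : ℕ × ℕ, o.1 + o.2 < n → tc d c x y o = 0 := by
  constructor
  · intro h
    let φ : MvPolynomial (Fin 3) ℂ →ₐ[ℂ] MvPolynomial (Fin 2) ℂ :=
      MvPolynomial.aeval ![MvPolynomial.C x + MvPolynomial.X 0,
        MvPolynomial.C y + MvPolynomial.X 1, 1]
    have hU : φ (Uf x) = MvPolynomial.X 0 := by
      simp [φ, Uf]
    have hV : φ (Vf y) = MvPolynomial.X 1 := by
      simp [φ, Vf]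
    have h2 : φ (MvPolynomial.X 2) = 1 := by simp [φ]
    have hmap : Ideal.map φ (Ideal.span {Uf x, Vf y}) ≤ MvPolynomial.idealOfVars (Fin 2) ℂ := by
      rw [Ideal.map_span, Ideal.span_le]
      rintro g ⟨g', hg', rfl⟩
      rcases hg' with rfl | hg'
      · rw [hU]; exact Ideal.subset_span ⟨0, rfl⟩
      · rw [Set.mem_singleton_iff] at hg'
        subst hg'
        rw [hV]; exact Ideal.subset_span ⟨1, rfl⟩
    have hF : φ (Fc d c) ∈ MvPolynomial.idealOfVars (Fin 2) ℂ ^ n := by
      have := Ideal.mem_map_of_mem φ h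
      rw [Ideal.map_pow] at this
      exact Ideal.pow_right_mono hmap n this
    have hF2 : φ (Fc d c) = ∑ i ∈ range (d + 1), ∑ j ∈ range (d + 1),
        MvPolynomial.monomial (e2 i j) (tc d c x y (i, j)) := by
      rw [Fc_expand d c x y, map_sum]
      apply sum_congr rfl
      intro i _
      rw [map_sum]
      apply sum_congr rfl
      intro j _
      rw [map_mul, map_mul, map_mul, map_pow, map_pow, map_pow, hU, hV, h2, one_pow, mul_one,
        monomial_e2]
      congr 1
      simp [φ]
    rw [MvPolynomial.mem_pow_idealOfVars_iff'] at hF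
    rintro ⟨i, j⟩ ho
    simp only at ho
    by_cases hij : i ∈ range (d + 1) ∧ j ∈ range (d + 1)
    · have hc := hF (e2 i j) (by rw [e2_degree]; exact ho)
      rw [hF2, MvPolynomial.coeff_sum, sum_eq_single i, MvPolynomial.coeff_sum, sum_eq_single j] at hc
      · rw [MvPolynomial.coeff_monomial, if_pos rfl] at hc
        exact hc
      · intro j' _ hj'
        rw [MvPolynomial.coeff_monomial, if_neg]
        intro he; exact hj' (e2_inj he).2
      · intro hn; exact absurd hij.2 hn
      · intro i' _ hi'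
        rw [MvPolynomial.coeff_sum]
        apply sum_eq_zero
        intro j' _
        rw [MvPolynomial.coeff_monomial, if_neg]
        intro he; exact hi' (e2_inj he).1
      · intro hn; exact absurd hij.1 hn
    · unfold tc
      apply sum_eq_zero
      intro p hp
      rw [mem_triD] at hp
      rw [mem_range, mem_range] at hij
      unfold E
      by_cases hi : i ≤ p.1
      · rw [Nat.choose_eq_zero_of_lt (show p.2 < j by omega)]; simp
      · rw [Nat.choose_eq_zero_of_lt (show p.1 < i by omega)]; simp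
  · intro h
    rw [Fc_expand d c x y]
    apply Ideal.sum_mem
    intro i _
    apply Ideal.sum_mem
    intro j _
    by_cases hij : i + j < n
    · rw [h (i, j) hij]; simp
    · apply Ideal.mul_mem_left
      apply Ideal.mul_mem_right
      have hU : Uf x ∈ Ideal.span {Uf x, Vf y} := Ideal.subset_span (Or.inl rfl)
      have hV : Vf y ∈ Ideal.span {Uf x, Vf y} := Ideal.subset_span (Or.inr rfl)
      have := Ideal.mul_mem_mul (Ideal.pow_mem_pow hU i) (Ideal.pow_mem_pow hV j)
      rw [← pow_add] at this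
      exact Ideal.pow_le_pow_right (by omega) this

end Pool.Agent.Lead.Sh
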