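import Mathlib
import Pool.Agent.Lead.ShAlg

/-!
Dimension of the linear systems.
-/

set_option autoImplicit false
set_option linter.unusedSectionVars false

namespace Pool.Agent.Lead.Sh

open Finset

/-- exponent vectors in three variables -/
noncomputable def e3 (d : ℕ) (p : ℕ × ℕ) : Fin 3 →₀ ℕ :=
  Finsupp.single 0 p.1 + Finsupp.single 1 p.2 + Finsupp.single 2 (d - p.1 - p.2)

lemma e3_0 (d : ℕ) (p : ℕ × ℕ) : e3 d p 0 = p.1 := by simp [e3]
lemma e3_1 (d : ℕ) (p : ℕ × ℕ) : e3 d p 1 = p.2 := by simp [e3]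
lemma e3_2 (d : ℕ) (p : ℕ × ℕ) : e3 d p 2 = d - p.1 - p.2 := by simp [e3]

lemma e3_inj {d : ℕ} {p q : ℕ × ℕ} (h : e3 d p = e3 d q) : p = q := by
  ext
  · rw [← e3_0 d p, h, e3_0]
  · rw [← e3_1 d p, h, e3_1]

lemma e3_degree {d : ℕ} {p : ℕ × ℕ} (h : p ∈ triD 0 d) : Finsupp.degree (e3 d p) = d := by
  rw [mem_triD] at h
  unfold e3
  rw [map_add, map_add, Finsupp.degree_single, Finsupp.degree_single, Finsupp.degree_single]
  omega

lemma Fc_eq (d : ℕ) (c : ℕ × ℕ → ℂ) :
    Fc d c = ∑ p ∈ triD 0 d, MvPolynomial.monomial (e3 d p) (c p) := by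
  unfold Fc
  apply sum_congr rfl
  intro p _
  unfold e3
  rw [MvPolynomial.X_pow_eq_monomial, MvPolynomial.X_pow_eq_monomial,
    MvPolynomial.X_pow_eq_monomial, MvPolynomial.C_mul_monomial, MvPolynomial.monomial_mul,
    MvPolynomial.monomial_mul]
  simp

lemma coeff_Fc {d : ℕ} {c : ℕ × ℕ → ℂ} {p : ℕ × ℕ} (hp : p ∈ triD 0 d) :
    MvPolynomial.coeff (e3 d p) (Fc d c) = c p := by
  rw [Fc_eq, MvPolynomial.coeff_sum, sum_eq_single p]
  · rw [MvPolynomial.coeff_monomial, if_pos rfl]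
  · intro q _ hq
    rw [MvPolynomial.coeff_monomial, if_neg]
    intro he; exact hq (e3_inj he)
  · intro hn; exact absurd hp hn

lemma Fc_hom (d : ℕ) (c : ℕ × ℕ → ℂ) : (Fc d c).IsHomogeneous d := by
  rw [Fc_eq]
  apply MvPolynomial.IsHomogeneous.sum
  intro p hp
  exact MvPolynomial.isHomogeneous_monomial _ (e3_degree hp)

lemma hom_eq_Fc {d : ℕ} {F : MvPolynomial (Fin 3) ℂ} (hF : F.IsHomogeneous d) :
    F = Fc d (fun p => MvPolynomial.coeff (e3 d p) F) := by
  ext v
  rw [Fc_eq, MvPolynomial.coeff_sum]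
  by_cases hv : Finsupp.degree v = d
  · have hdeg : v 0 + v 1 + v 2 = d := by
      rw [← hv, Finsupp.degree_eq_sum, Fin.sum_univ_three]
    have hvp : e3 d (v 0, v 1) = v := by
      ext i
      fin_cases i
      · exact e3_0 _ _
      · exact e3_1 _ _
      · show e3 d (v 0, v 1) 2 = v 2
        rw [e3_2]; simp only; omega
    rw [sum_eq_single (v 0, v 1)]
    · rw [MvPolynomial.coeff_monomial, if_pos hvp, hvp]
    · intro q _ hq
      rw [MvPolynomial.coeff_monomial, if_neg]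
      intro he
      apply hq
      rw [← hvp] at he
      exact e3_inj he
    · intro hn
      exfalso; apply hn
      rw [mem_triD]
      simp only; omega
  · have : MvPolynomial.coeff v F = 0 := by
      by_contra hne
      apply hv
      have := hF hne
      rw [Finsupp.degree_eq_weight_one]
      exact this
    rw [this]
    symm
    apply sum_eq_zero
    intro p hp
    rw [MvPolynomial.coeff_monomial, if_neg]
    intro he
    apply hv
    rw [← he]
    exact e3_degree hp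

lemma sum_tri (n : ℕ) : ∑ j ∈ range n, (n - j) = Nat.choose (n + 1) 2 := by
  induction n with
  | zero => simp
  | succ n ih =>
    rw [sum_range_succ']
    have : ∀ k ∈ range n, n + 1 - (k + 1) = n - k := by intro k _; omega
    rw [sum_congr rfl this, ih, Nat.choose_succ_succ (n + 1) 1, Nat.choose_one_right]
    simp [Nat.add_comm]

lemma card_triD (d : ℕ) : (triD 0 d).card = Nat.choose (d + 2) 2 := by
  have : triD 0 d = cellD (d + 1) (d + 1) (fun _ => 0) (fun j => j) := by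
    ext p
    rw [mem_triD, mem_cellD]
    constructor
    · rintro ⟨_, h⟩
      exact ⟨p.2, by omega, p.1, by omega, by simp⟩
    · rintro ⟨j, hj, t, ht, rfl⟩
      simp only; omega
  rw [this, card_cellD _ _ _ _ (by intro i _ j _ h; exact h), sum_tri]

lemma card_rows (m : ℕ → ℕ) (s : Finset ℕ) :
    (rows m s).card = ∑ k ∈ s, Nat.choose (m k + 1) 2 := by
  unfold rows
  rw [card_biUnion]
  · apply sum_congr rfl
    intro k _
    rw [card_cellR, sum_tri]
  · intro k hk k' hk' hne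
    show Disjoint _ _
    rw [disjoint_left]
    intro r hr hr'
    rw [mem_cellR] at hr hr'
    exact hne (hr.1.symm.trans hr'.1)

/-- the solution space -/
noncomputable def Vsp (s : ℕ) (m : ℕ → ℕ) (d : ℕ) (P : Fin s → Fin 3 → ℂ) :
    Submodule ℂ (MvPolynomial (Fin 3) ℂ) :=
  MvPolynomial.homogeneousSubmodule (Fin 3) ℂ d ⊓
    ⨅ i : Fin s, Submodule.restrictScalars ℂ
      ((Ideal.span {g : MvPolynomial (Fin 3) ℂ |
          g.IsHomogeneous 1 ∧ MvPolynomial.eval (P i) g = 0}) ^ (m (i : ℕ))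
        : Ideal (MvPolynomial (Fin 3) ℂ))

/-- affine coordinates of the points -/
noncomputable def aff {s : ℕ} (P : Fin s → Fin 3 → ℂ) (k : ℕ) : ℂ × ℂ :=
  if h : k < s then (P ⟨k, h⟩ 0 / P ⟨k, h⟩ 2, P ⟨k, h⟩ 1 / P ⟨k, h⟩ 2) else 0

lemma Fc_mem {s : ℕ} {m : ℕ → ℕ} {d : ℕ} {P : Fin s → Fin 3 → ℂ} (h2 : ∀ i, P i 2 ≠ 0)
    (c : ℕ × ℕ → ℂ) :
    Fc d c ∈ Vsp s m d P ↔ ∀ r ∈ rows m (range s),
      ∑ p ∈ triD 0 d, c p * E r.2 p (aff P r.1).1 (aff P r.1).2 = 0 := by
  unfold Vsp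
  rw [Submodule.mem_inf, Submodule.mem_iInf]
  constructor
  · rintro ⟨_, h⟩ r hr
    rw [mem_rows, mem_range] at hr
    have h3 := h ⟨r.1, hr.1⟩
    rw [Submodule.restrictScalars_mem] at h3
    have h4 : Fc d c ∈ (IP (P ⟨r.1, hr.1⟩)) ^ (m r.1) := h3
    rw [IP_eq _ (h2 _), mem_pow_iff] at h4
    have h5 := h4 r.2 hr.2
    unfold tc at h5
    unfold aff
    rw [dif_pos hr.1]
    exact h5
  · intro h
    refine ⟨Fc_hom d c, ?_⟩
    intro i
    rw [Submodule.restrictScalars_mem]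
    show Fc d c ∈ (IP (P i)) ^ (m i)
    rw [IP_eq _ (h2 _), mem_pow_iff]
    intro o ho
    have := h ((i : ℕ), o) (by
      rw [mem_rows, mem_range]
      exact ⟨i.2, ho⟩)
    simp only [aff, dif_pos i.2] at this
    exact this

/-- extension by zero -/
noncomputable def ext0 (d : ℕ) (c : ↥(triD 0 d) → ℂ) : ℕ × ℕ → ℂ :=
  fun p => if h : p ∈ triD 0 d then c ⟨p, h⟩ else 0

lemma ext0_coe (d : ℕ) (c : ↥(triD 0 d) → ℂ) (p : ↥(triD 0 d)) : ext0 d c p = c p := by
  unfold ext0; rw [dif_pos p.2]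

/-- parametrisation of the forms -/
noncomputable def Tm (d : ℕ) : (↥(triD 0 d) → ℂ) →ₗ[ℂ] MvPolynomial (Fin 3) ℂ where
  toFun c := Fc d (ext0 d c)
  map_add' a b := by
    rw [Fc_eq, Fc_eq, Fc_eq, ← sum_add_distrib]
    apply sum_congr rfl
    intro p hp
    rw [← map_add]
    congr 1
    unfold ext0
    rw [dif_pos hp, dif_pos hp, dif_pos hp]; rfl
  map_smul' a b := by
    rw [Fc_eq, Fc_eq, RingHom.id_apply, smul_sum]
    apply sum_congr rfl
    intro p hp
    rw [← map_smul]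
    congr 1
    unfold ext0
    rw [dif_pos hp, dif_pos hp]; rfl

lemma Tm_inj (d : ℕ) : Function.Injective (Tm d) := by
  rw [injective_iff_map_eq_zero]
  intro c hc
  funext p
  have h1 := coeff_Fc (d := d) (c := ext0 d c) p.2
  have h2 : Fc d (ext0 d c) = 0 := hc
  rw [h2, ext0_coe] at h1
  rw [← h1]; simp

/-- the evaluation matrix -/
noncomputable def Mx (d : ℕ) (R : Finset Row) (P : ℕ → ℂ × ℂ) : Matrix ↥R ↥(triD 0 d) ℂ :=
  Matrix.of (fun r p => E (r : Row).2 (p : ℕ × ℕ) (P (r : Row).1).1 (P (r : Row).1).2)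

lemma Vsp_eq {s : ℕ} {m : ℕ → ℕ} {d : ℕ} {P : Fin s → Fin 3 → ℂ} (h2 : ∀ i, P i 2 ≠ 0) :
    Vsp s m d P = Submodule.map (Tm d)
      (LinearMap.ker (Mx d (rows m (range s)) (aff P)).mulVecLin) := by
  have key : ∀ c : ↥(triD 0 d) → ℂ, c ∈ LinearMap.ker (Mx d (rows m (range s)) (aff P)).mulVecLin ↔
      Fc d (ext0 d c) ∈ Vsp s m d P := by
    intro c
    rw [Fc_mem h2, LinearMap.mem_ker, Matrix.mulVecLin_apply]
    constructor
    · intro h r hr
      have h3 := congrFun h ⟨r, hr⟩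
      rw [Matrix.mulVec, dotProduct, Pi.zero_apply] at h3
      refine Eq.trans ?_ h3
      rw [← sum_coe_sort (triD 0 d)]
      apply sum_congr rfl
      intro p _
      rw [ext0_coe, mul_comm]; rfl
    · intro h
      funext r
      rw [Matrix.mulVec, dotProduct, Pi.zero_apply]
      refine Eq.trans ?_ (h r r.2)
      rw [← sum_coe_sort (triD 0 d)]
      apply sum_congr rfl
      intro p _
      rw [ext0_coe, mul_comm]; rfl
  ext F
  rw [Submodule.mem_map]
  constructor
  · intro hF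
    have hh : F.IsHomogeneous d := by
      unfold Vsp at hF
      exact (Submodule.mem_inf.1 hF).1
    have h3 := hom_eq_Fc hh
    set c : ↥(triD 0 d) → ℂ := fun p => MvPolynomial.coeff (e3 d p) F with hc
    have h4 : Fc d (ext0 d c) = F := by
      rw [h3, Fc_eq, Fc_eq]
      apply sum_congr rfl
      intro p hp
      congr 1
      unfold ext0
      rw [dif_pos hp]
    refine ⟨c, ?_, h4⟩
    rw [key, h4]
    exact hF
  · rintro ⟨c, hc, rfl⟩
    exact (key c).1 hc

lemma finrank_Vsp {s : ℕ} {m : ℕ → ℕ} {d : ℕ} {P : Fin s → Fin 3 → ℂ} (h2 : ∀ i, P i 2 ≠ 0) :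
    Module.finrank ℂ ↥(Vsp s m d P) + (Mx d (rows m (range s)) (aff P)).rank =
      Nat.choose (d + 2) 2 := by
  rw [Vsp_eq h2]
  have h1 : Module.finrank ℂ ↥(Submodule.map (Tm d)
      (LinearMap.ker (Mx d (rows m (range s)) (aff P)).mulVecLin)) =
      Module.finrank ℂ ↥(LinearMap.ker (Mx d (rows m (range s)) (aff P)).mulVecLin) :=
    (LinearEquiv.finrank_eq (Submodule.equivMapOfInjective (Tm d) (Tm_inj d) _)).symm
  rw [h1, add_comm]
  have := LinearMap.finrank_range_add_finrank_ker (Mx d (rows m (range s)) (aff P)).mulVecLin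
  rw [Matrix.rank, this, Module.finrank_fintype_fun_eq_card, Fintype.card_coe, card_triD]

lemma finrank_of_inj {s : ℕ} {m : ℕ → ℕ} {d : ℕ} {P : Fin s → Fin 3 → ℂ} (h2 : ∀ i, P i 2 ≠ 0)
    (hI : InjAt (triD 0 d) (rows m (range s)) (aff P)) :
    Module.finrank ℂ ↥(Vsp s m d P) = 0 := by
  have : Vsp s m d P = ⊥ := by
    rw [Submodule.eq_bot_iff]
    intro F hF
    have hh : F.IsHomogeneous d := by
      unfold Vsp at hF
      exact (Submodule.mem_inf.1 hF).1
    have h3 := hom_eq_Fc hh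
    rw [h3] at hF
    have h4 := hI _ ((Fc_mem h2 _).1 hF)
    rw [h3, Fc_eq]
    apply sum_eq_zero
    intro p hp
    rw [h4 p hp]; simp
  rw [this]; simp

lemma finrank_of_ind {s : ℕ} {m : ℕ → ℕ} {d : ℕ} {P : Fin s → Fin 3 → ℂ} (h2 : ∀ i, P i 2 ≠ 0)
    (hI : IndAt (triD 0 d) (rows m (range s)) (aff P)) :
    Module.finrank ℂ ↥(Vsp s m d P) + ∑ i ∈ range s, Nat.choose (m i + 1) 2 =
      Nat.choose (d + 2) 2 := by
  have hr : (Mx d (rows m (range s)) (aff P)).rank = ∑ i ∈ range s, Nat.choose (m i + 1) 2 := by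
    rw [← Matrix.rank_transpose, ← card_rows]
    set M := Mx d (rows m (range s)) (aff P) with hM
    have hinj : Function.Injective M.transpose.mulVecLin := by
      rw [injective_iff_map_eq_zero]
      intro l hl
      set l' : Row → ℂ := fun r => if h : r ∈ rows m (range s) then l ⟨r, h⟩ else 0 with hl'
      have hl2 : ∀ r : ↥(rows m (range s)), l' r = l r := by
        intro r; simp only [hl']; rw [dif_pos r.2]
      have := hI l' (by
        intro p hp
        have h3 := congrFun hl ⟨p, hp⟩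
        rw [Matrix.mulVecLin_apply, Matrix.mulVec, dotProduct, Pi.zero_apply] at h3
        refine Eq.trans ?_ h3
        rw [← sum_coe_sort (rows m (range s))]
        apply sum_congr rfl
        intro r _
        rw [hl2, mul_comm]; rfl)
      funext r
      rw [← hl2, this r r.2]; rfl
    rw [Matrix.rank, LinearMap.finrank_range_of_inj hinj, Module.finrank_fintype_fun_eq_card,
      Fintype.card_coe]
  rw [← hr]
  exact finrank_Vsp h2

section Generic

variable {s : ℕ}

lemma aeval_eval {σ : Type*} (f : σ → ℂ) (q : MvPolynomial σ ℂ) :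
    MvPolynomial.aeval f q = MvPolynomial.eval f q :=
  DFunLike.congr_fun (MvPolynomial.coe_aeval_eq_eval f) q

/-- homogeneous entries -/
noncomputable def Mh (s d : ℕ) (r : Row) (p : ℕ × ℕ) : MvPolynomial (Fin s × Fin 3) ℂ :=
  if h : r.1 < s then
    MvPolynomial.C ((p.1.choose r.2.1 : ℂ) * (p.2.choose r.2.2 : ℂ)) *
      MvPolynomial.X (⟨r.1, h⟩, 0) ^ (p.1 - r.2.1) * MvPolynomial.X (⟨r.1, h⟩, 1) ^ (p.2 - r.2.2) *
      MvPolynomial.X (⟨r.1, h⟩, 2) ^ (d - (p.1 - r.2.1) - (p.2 - r.2.2))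
  else 0

/-- the last coordinate -/
noncomputable def zc (P : Fin s → Fin 3 → ℂ) (k : ℕ) : ℂ := if h : k < s then P ⟨k, h⟩ 2 else 1

lemma Mh_eval (d : ℕ) {r : Row} (hr : r.1 < s) {p : ℕ × ℕ} (hp : p ∈ triD 0 d)
    (P : Fin s → Fin 3 → ℂ) (h2 : ∀ i, P i 2 ≠ 0) :
    MvPolynomial.aeval (fun ij : Fin s × Fin 3 => P ij.1 ij.2) (Mh s d r p) =
      zc P r.1 ^ d * E r.2 p (aff P r.1).1 (aff P r.1).2 := by
  rw [mem_triD] at hp
  unfold Mh zc aff E
  rw [dif_pos hr, dif_pos hr, dif_pos hr]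
  simp only [map_mul, map_pow, MvPolynomial.aeval_X, MvPolynomial.aeval_C, Algebra.algebraMap_self,
    RingHom.id_apply]
  have hz := h2 ⟨r.1, hr⟩
  set z := P ⟨r.1, hr⟩ 2
  have hsplit : d = (p.1 - r.2.1) + (p.2 - r.2.2) + (d - (p.1 - r.2.1) - (p.2 - r.2.2)) := by omega
  have : z ^ d = z ^ (p.1 - r.2.1) * z ^ (p.2 - r.2.2) *
      z ^ (d - (p.1 - r.2.1) - (p.2 - r.2.2)) := by
    rw [← pow_add, ← pow_add, ← hsplit]
  rw [this, div_pow, div_pow]
  have h5 : z ^ (p.1 - r.2.1) ≠ 0 := pow_ne_zero _ hz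
  have h6 : z ^ (p.2 - r.2.2) ≠ 0 := pow_ne_zero _ hz
  field_simp

lemma zc_ne (P : Fin s → Fin 3 → ℂ) (h2 : ∀ i, P i 2 ≠ 0) (k : ℕ) : zc P k ≠ 0 := by
  unfold zc; split_ifs
  · exact h2 _
  · exact one_ne_zero

/-- points from affine points -/
noncomputable def proj (s : ℕ) (Q : ℕ → ℂ × ℂ) : Fin s → Fin 3 → ℂ :=
  fun i => ![(Q i).1, (Q i).2, 1]

lemma proj_2 (Q : ℕ → ℂ × ℂ) (i : Fin s) : proj s Q i 2 = 1 := by simp [proj]

lemma aff_proj (Q : ℕ → ℂ × ℂ) {k : ℕ} (hk : k < s) : aff (proj s Q) k = Q k := by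
  unfold aff proj
  rw [dif_pos hk]; simp

theorem generic_inj {m : ℕ → ℕ} {d : ℕ} (h : Inj (triD 0 d) (rows m (range s))) :
    ∃ G : MvPolynomial (Fin s × Fin 3) ℂ, G ≠ 0 ∧ ∀ P : Fin s → Fin 3 → ℂ,
      MvPolynomial.eval (fun ij : Fin s × Fin 3 => P ij.1 ij.2) G ≠ 0 →
      (∀ i, P i 2 ≠ 0) ∧ InjAt (triD 0 d) (rows m (range s)) (aff P) := by
  obtain ⟨Q, hQ⟩ := h
  obtain ⟨g, hg0, hg⟩ := gen_inj (fun (r : ↥(rows m (range s))) (p : ↥(triD 0 d)) => Mh s d r p)
    (MvPolynomial.aeval (fun ij : Fin s × Fin 3 => proj s Q ij.1 ij.2)) (by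
      intro c hc
      have := hQ (ext0 d c) (by
        intro r hr
        have hr1 : r.1 < s := mem_range.1 ((mem_rows _ _ _).1 hr).1
        refine Eq.trans ?_ (hc ⟨r, hr⟩)
        rw [← sum_coe_sort (triD 0 d)]
        apply sum_congr rfl
        intro p _
        rw [ext0_coe, Mh_eval d hr1 p.2 _ (fun i => by rw [proj_2]; exact one_ne_zero),
          aff_proj Q hr1]
        unfold zc
        rw [dif_pos hr1, proj_2, one_pow, one_mul])
      funext p
      rw [← ext0_coe d c p, this p p.2]; rfl)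
  refine ⟨g * ∏ i : Fin s, MvPolynomial.X (i, 2), ?_, ?_⟩
  · apply mul_ne_zero
    · rintro rfl; simp at hg0
    · rw [prod_ne_zero_iff]
      intro i _; exact MvPolynomial.X_ne_zero _
  · intro P hP
    rw [map_mul, map_prod] at hP
    have h2 : ∀ i, P i 2 ≠ 0 := by
      intro i
      have := (prod_ne_zero_iff.1 (right_ne_zero_of_mul hP)) i (mem_univ i)
      rwa [MvPolynomial.eval_X] at this
    refine ⟨h2, ?_⟩
    have h3 := hg (MvPolynomial.aeval (fun ij : Fin s × Fin 3 => P ij.1 ij.2)) (by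
      rw [aeval_eval]
      exact left_ne_zero_of_mul hP)
    intro c hc p hp
    have h4 := h3 (fun p => c p) (by
      intro r
      have hr1 : (r : Row).1 < s := mem_range.1 ((mem_rows _ _ _).1 r.2).1
      have h5 := hc r r.2
      have h6 : zc P (r : Row).1 ^ d * (∑ p ∈ triD 0 d, c p * E (r : Row).2 p
          (aff P (r : Row).1).1 (aff P (r : Row).1).2) = 0 := by rw [h5, mul_zero]
      rw [mul_sum, ← sum_coe_sort (triD 0 d)] at h6
      refine Eq.trans ?_ h6
      apply sum_congr rfl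
      intro p _
      rw [Mh_eval d hr1 p.2 _ h2]; ring)
    exact congrFun h4 ⟨p, hp⟩

theorem generic_ind {m : ℕ → ℕ} {d : ℕ} (h : Ind (triD 0 d) (rows m (range s))) :
    ∃ G : MvPolynomial (Fin s × Fin 3) ℂ, G ≠ 0 ∧ ∀ P : Fin s → Fin 3 → ℂ,
      MvPolynomial.eval (fun ij : Fin s × Fin 3 => P ij.1 ij.2) G ≠ 0 →
      (∀ i, P i 2 ≠ 0) ∧ IndAt (triD 0 d) (rows m (range s)) (aff P) := by
  obtain ⟨Q, hQ⟩ := h
  obtain ⟨g, hg0, hg⟩ := gen_inj (fun (p : ↥(triD 0 d)) (r : ↥(rows m (range s))) => Mh s d r p)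
    (MvPolynomial.aeval (fun ij : Fin s × Fin 3 => proj s Q ij.1 ij.2)) (by
      intro l hl
      set l' : Row → ℂ := fun r => if h : r ∈ rows m (range s) then l ⟨r, h⟩ else 0 with hl'
      have hl2 : ∀ r : ↥(rows m (range s)), l' r = l r := by
        intro r; simp only [hl']; rw [dif_pos r.2]
      have := hQ l' (by
        intro p hp
        refine Eq.trans ?_ (hl ⟨p, hp⟩)
        rw [← sum_coe_sort (rows m (range s))]
        apply sum_congr rfl
        intro r _
        have hr1 : (r : Row).1 < s := mem_range.1 ((mem_rows _ _ _).1 r.2).1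
        rw [hl2, Mh_eval d hr1 hp _ (fun i => by rw [proj_2]; exact one_ne_zero),
          aff_proj Q hr1]
        unfold zc
        rw [dif_pos hr1, proj_2, one_pow, one_mul])
      funext r
      rw [← hl2, this r r.2]; rfl)
  refine ⟨g * ∏ i : Fin s, MvPolynomial.X (i, 2), ?_, ?_⟩
  · apply mul_ne_zero
    · rintro rfl; simp at hg0
    · rw [prod_ne_zero_iff]
      intro i _; exact MvPolynomial.X_ne_zero _
  · intro P hP
    rw [map_mul, map_prod] at hP
    have h2 : ∀ i, P i 2 ≠ 0 := by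
      intro i
      have := (prod_ne_zero_iff.1 (right_ne_zero_of_mul hP)) i (mem_univ i)
      rwa [MvPolynomial.eval_X] at this
    refine ⟨h2, ?_⟩
    have h3 := hg (MvPolynomial.aeval (fun ij : Fin s × Fin 3 => P ij.1 ij.2)) (by
      rw [aeval_eval]
      exact left_ne_zero_of_mul hP)
    intro l hl r hr
    have h4 := h3 (fun r => l r * (zc P (r : Row).1 ^ d)⁻¹) (by
      intro p
      have h5 := hl p p.2
      rw [← sum_coe_sort (rows m (range s))] at h5
      refine Eq.trans ?_ h5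
      apply sum_congr rfl
      intro r _
      have hr1 : (r : Row).1 < s := mem_range.1 ((mem_rows _ _ _).1 r.2).1
      rw [Mh_eval d hr1 p.2 _ h2]
      have := zc_ne P h2 (r : Row).1
      have := pow_ne_zero d this
      field_simp)
    have h5 := congrFun h4 ⟨r, hr⟩
    simp only [Pi.zero_apply] at h5
    rcases mul_eq_zero.1 h5 with h6 | h6
    · exact h6
    · exact absurd h6 (inv_ne_zero (pow_ne_zero d (zc_ne P h2 _)))

end Generic

lemma two_choose (n : ℕ) : 2 * Nat.choose (n + 1) 2 = n * (n + 1) := by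
  rw [Nat.choose_two_right, Nat.add_sub_cancel]
  have : 2 ∣ (n + 1) * n := by
    rw [mul_comm]; exact (Nat.even_mul_succ_self n).two_dvd
  rw [Nat.mul_div_cancel' this, mul_comm]

lemma UU_eq (m : ℕ → ℕ) (s : Finset ℕ) : UU m s = 2 * ∑ k ∈ s, Nat.choose (m k + 1) 2 := by
  unfold UU
  rw [mul_sum]
  exact sum_congr rfl (fun k _ => (two_choose _).symm)

theorem ind_case {m : ℕ → ℕ} (hm : Antitone m) {s : ℕ} (hs : ∀ i, s ≤ i → m i = 0) (d : ℕ)
    (h : UU m (range s) + 3 * m 0 * (d + 1) ≤ (d + 1) * (d + 2)) :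
    Ind (triD 0 d) (rows m (range s)) := by
  have := triA hm hs d (d + 1) 0 0 (by omega) (by rw [← range_eq_Ico]; exact h)
  rwa [← range_eq_Ico] at this

theorem inj_case {m : ℕ → ℕ} (hm : Antitone m) {s : ℕ} (hs : ∀ i, s ≤ i → m i = 0) (d : ℕ)
    (h : (d + 1) * (d + 2) + 4 * m 0 * (d + 1) + 2 * m 0 ^ 2 ≤ UU m (range s)) :
    Inj (triD 0 d) (rows m (range s)) := by
  classical
  have hex : ∃ i, m i = 0 := ⟨s, hs s le_rfl⟩
  set t := Nat.find hex with ht
  have ht1 : m t = 0 := Nat.find_spec hex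
  have ht2 : ∀ i < t, m i ≠ 0 := fun i hi => Nat.find_min hex hi
  have hts : t ≤ s := Nat.find_min' hex (hs s le_rfl)
  have ht3 : ∀ i, t ≤ i → m i = 0 := fun i hi => by have := hm hi; omega
  have hm0 : m 0 ≠ 0 := by
    intro h0
    have : UU m (range s) = 0 := by
      unfold UU
      apply sum_eq_zero
      intro k _
      have : m k = 0 := by have := hm (Nat.zero_le k); omega
      rw [this]; simp
    rw [this] at h
    nlinarith
  have ht0 : 0 < t := by
    by_contra hcon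
    have : t = 0 := by omega
    rw [this] at ht1
    exact hm0 ht1
  set n : ℕ → ℕ := fun k => if k < t then m (t - 1 - k) else m 0 with hn
  have hnmono : Monotone n := by
    intro a b hab
    simp only [hn]
    split_ifs with h1 h2 h3
    · exact hm (by omega)
    · exact hm (by omega)
    · omega
    · exact le_rfl
  have hnpos : ∀ k, 1 ≤ n k := by
    intro k
    simp only [hn]
    split_ifs with h1
    · have := ht2 (t - 1 - k) (by omega); omega
    · omega
  have hnM : ∀ k, t ≤ k + 1 → n k = m 0 := by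
    intro k hk
    simp only [hn]
    split_ifs with h1
    · congr 1; omega
    · rfl
  have hUs : UU m (range s) = UU m (range t) := by
    unfold UU
    symm
    apply sum_subset
    · intro k hk; rw [mem_range] at hk ⊢; omega
    · intro k _ hk
      rw [mem_range] at hk
      rw [ht3 k (by omega)]; simp
  have hUn : UU n (range t) = UU m (range t) := by
    unfold UU
    rw [← sum_range_reflect (fun k => m k * (m k + 1)) t]
    apply sum_congr rfl
    intro k hk
    rw [mem_range] at hk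
    simp only [hn, if_pos hk]
  have hU : (d + 1) * ((d + 1) + 1) + (m 0 - n 0) * ((d + 1) + 2 * m 0) + 3 * m 0 * (d + 1) ≤
      UU n (Finset.Ico 0 t) := by
    rw [← range_eq_Ico, hUn, ← hUs]
    refine le_trans ?_ h
    have e1 : (m 0 - n 0) * ((d + 1) + 2 * m 0) ≤ m 0 * ((d + 1) + 2 * m 0) :=
      Nat.mul_le_mul (Nat.sub_le _ _) le_rfl
    nlinarith
  obtain ⟨P, hP⟩ := triB hnmono hnpos hnM d (d + 1) 0 0 (Nat.zero_le _) (by omega) hU
  have hI : Inj (triD 0 d) (rows m (range t)) := by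
    refine ⟨fun k => P (t - 1 - k), ?_⟩
    intro c hc
    apply hP
    intro r hr
    rw [mem_rows, mem_Ico] at hr
    have hnr : n r.1 = m (t - 1 - r.1) := by simp only [hn, if_pos hr.1.2]
    have := hc (t - 1 - r.1, r.2) (by
      rw [mem_rows, mem_range]
      refine ⟨?_, ?_⟩
      · show t - 1 - r.1 < t
        omega
      · show r.2.1 + r.2.2 < m (t - 1 - r.1)
        rw [← hnr]; exact hr.2)
    simp only at this
    rw [show t - 1 - (t - 1 - r.1) = r.1 by omega] at this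
    exact this
  exact hI.mono subset_rfl (rows_mono (by
    intro x hx; rw [mem_range] at hx ⊢; omega))

theorem main (s : ℕ) (m : ℕ → ℕ) (d : ℕ) (hm : Antitone m) (hs : ∀ i, s ≤ i → m i = 0)
    (h : (2 * ∑ i : Fin s, Nat.choose (m (i : ℕ) + 1) 2) + 3 * m 0 * (d + 1) ≤ (d + 1) * (d + 2) ∨
      (d + 1) * (d + 2) + 4 * m 0 * (d + 1) + 2 * m 0 ^ 2 ≤
        2 * ∑ i : Fin s, Nat.choose (m (i : ℕ) + 1) 2) :
    ∃ G : MvPolynomial (Fin s × Fin 3) ℂ, G ≠ 0 ∧
        ∀ P : Fin s → Fin 3 → ℂ, (∀ i, P i ≠ 0) →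
          MvPolynomial.eval (fun ij : Fin s × Fin 3 => P ij.1 ij.2) G ≠ 0 →
          (Module.finrank ℂ
            (↥(MvPolynomial.homogeneousSubmodule (Fin 3) ℂ d ⊓
              ⨅ i : Fin s, Submodule.restrictScalars ℂ
                ((Ideal.span {g : MvPolynomial (Fin 3) ℂ |
                    g.IsHomogeneous 1 ∧ MvPolynomial.eval (P i) g = 0}) ^ (m (i : ℕ))
                  : Ideal (MvPolynomial (Fin 3) ℂ)))) : ℤ)
            = max ((Nat.choose (d + 2) 2 : ℤ) -
                ∑ i : Fin s, (Nat.choose (m (i : ℕ) + 1) 2 : ℤ)) 0 := by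
  have hsum : ∑ i : Fin s, Nat.choose (m (i : ℕ) + 1) 2 =
      ∑ i ∈ range s, Nat.choose (m i + 1) 2 := Fin.sum_univ_eq_sum_range
        (fun i => Nat.choose (m i + 1) 2) s
  have hsumZ : ∑ i : Fin s, (Nat.choose (m (i : ℕ) + 1) 2 : ℤ) =
      ((∑ i ∈ range s, Nat.choose (m i + 1) 2 : ℕ) : ℤ) := by
    rw [← hsum]; push_cast; rfl
  have hd := two_choose (d + 1)
  rw [hsum, ← UU_eq] at h
  rcases h with h | h
  · obtain ⟨G, hG, hG2⟩ := generic_ind (ind_case hm hs d h)
    refine ⟨G, hG, ?_⟩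
    intro P _ hP
    obtain ⟨h2, hI⟩ := hG2 P hP
    have h3 := finrank_of_ind h2 hI
    have h4 : (Module.finrank ℂ ↥(Vsp s m d P) : ℤ) = max ((Nat.choose (d + 2) 2 : ℤ) -
        ∑ i : Fin s, (Nat.choose (m (i : ℕ) + 1) 2 : ℤ)) 0 := by
      rw [hsumZ, ← h3]
      push_cast
      rw [max_eq_left]
      · ring
      · have : (0 : ℤ) ≤ (Module.finrank ℂ ↥(Vsp s m d P) : ℤ) := by positivity
        linarith
    exact h4
  · obtain ⟨G, hG, hG2⟩ := generic_inj (inj_case hm hs d h)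
    refine ⟨G, hG, ?_⟩
    intro P _ hP
    obtain ⟨h2, hI⟩ := hG2 P hP
    have h3 := finrank_of_inj h2 hI
    have h4 : (Module.finrank ℂ ↥(Vsp s m d P) : ℤ) = max ((Nat.choose (d + 2) 2 : ℤ) -
        ∑ i : Fin s, (Nat.choose (m (i : ℕ) + 1) 2 : ℤ)) 0 := by
      rw [hsumZ, h3, max_eq_right]
      · simp
      · rw [UU_eq] at h
        have h5 : Nat.choose (d + 2) 2 ≤ ∑ i ∈ range s, Nat.choose (m i + 1) 2 := by
          have e1 : 2 * Nat.choose (d + 2) 2 ≤ 2 * ∑ i ∈ range s, Nat.choose (m i + 1) 2 := by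
            calc 2 * Nat.choose (d + 2) 2 = (d + 1) * (d + 2) := hd
              _ ≤ (d + 1) * (d + 2) + 4 * m 0 * (d + 1) + 2 * m 0 ^ 2 := by
                rw [add_assoc]; exact Nat.le_add_right _ _
              _ ≤ _ := h
          omega
        have : ((Nat.choose (d + 2) 2 : ℕ) : ℤ) ≤
            ((∑ i ∈ range s, Nat.choose (m i + 1) 2 : ℕ) : ℤ) := by exact_mod_cast h5
        linarith
    exact h4

end Pool.Agent.Lead.Sh
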