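import Mathlib
import Pool.Agent.Lead.ShCell

/-!
Reduction of interpolation problems: removing a minimal-weight set of monomials for one point.
-/

set_option autoImplicit false
set_option linter.unusedSectionVars false

namespace Pool.Agent.Lead.Rw

open Finset Pool.Agent.Lead.Sh

/-- functions of degree `< n` on the lattice, expressed by duality -/
def Sm (n : ℕ) (G : ℕ × ℕ → ℂ) : Prop :=
  ∀ (D : Finset (ℕ × ℕ)) (c : ℕ × ℕ → ℂ),
    (∀ o : ℕ × ℕ, o.1 + o.2 < n → ∑ d ∈ D, c d * E o d 1 1 = 0) → ∑ d ∈ D, c d * G d = 0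

lemma Sm.mono {n n' : ℕ} {G : ℕ × ℕ → ℂ} (h : Sm n G) (hn : n ≤ n') : Sm n' G :=
  fun D c hc => h D c (fun o ho => hc o (lt_of_lt_of_le ho hn))

lemma Sm.add {n : ℕ} {G1 G2 : ℕ × ℕ → ℂ} (h1 : Sm n G1) (h2 : Sm n G2) :
    Sm n (fun d => G1 d + G2 d) := by
  intro D c hc
  simp only [mul_add, sum_add_distrib]
  rw [h1 D c hc, h2 D c hc, add_zero]

lemma Sm.smul {n : ℕ} {G : ℕ × ℕ → ℂ} (t : ℂ) (h : Sm n G) : Sm n (fun d => t * G d) := by
  intro D c hc
  have : ∀ d ∈ D, c d * (t * G d) = t * (c d * G d) := fun d _ => by ring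
  rw [sum_congr rfl this, ← mul_sum, h D c hc, mul_zero]

lemma Sm.zero {n : ℕ} : Sm n (fun _ => 0) := by
  intro D c _; simp

lemma Sm.one {n : ℕ} (hn : 1 ≤ n) : Sm n (fun _ => 1) := by
  intro D c hc
  have := hc (0, 0) (by simp; omega)
  refine Eq.trans ?_ this
  apply sum_congr rfl
  intro d _
  simp [E]

lemma Sm.sum {ι : Type*} {n : ℕ} (s : Finset ι) (G : ι → ℕ × ℕ → ℂ) (h : ∀ i ∈ s, Sm n (G i)) :
    Sm n (fun d => ∑ i ∈ s, G i d) := by
  intro D c hc
  simp only [mul_sum]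
  rw [sum_comm]
  exact sum_eq_zero (fun i hi => h i hi D c hc)

lemma mul_choose (a i : ℕ) : (a : ℂ) * (a.choose i : ℂ) =
    ((i : ℂ) + 1) * (a.choose (i + 1) : ℂ) + (i : ℂ) * (a.choose i : ℂ) := by
  rcases lt_or_ge a i with h | h
  · rw [Nat.choose_eq_zero_of_lt h, Nat.choose_eq_zero_of_lt (by omega : a < i + 1)]; simp
  · have h1 := Nat.choose_succ_right_eq a i
    have h2 : (a.choose (i + 1) : ℂ) * ((i : ℂ) + 1) = (a.choose i : ℂ) * ((a : ℂ) - (i : ℂ)) := by
      rw [← Nat.cast_sub h]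
      exact_mod_cast h1
    linear_combination -h2

lemma Sm.lin {n : ℕ} {G : ℕ × ℕ → ℂ} (h : Sm n G) (α β δ : ℂ) :
    Sm (n + 1) (fun d => (α * (d.1 : ℂ) + β * (d.2 : ℂ) + δ) * G d) := by
  intro D c hc
  have := h D (fun d => c d * (α * (d.1 : ℂ) + β * (d.2 : ℂ) + δ)) (by
    rintro ⟨i, j⟩ ho
    simp only at ho
    have e : ∀ d ∈ D, c d * (α * (d.1 : ℂ) + β * (d.2 : ℂ) + δ) * E (i, j) d 1 1 =
        (α * ((i : ℂ) + 1)) * (c d * E (i + 1, j) d 1 1) +
        (β * ((j : ℂ) + 1)) * (c d * E (i, j + 1) d 1 1) +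
        (α * i + β * j + δ) * (c d * E (i, j) d 1 1) := by
      intro d _
      unfold E
      simp only [one_pow, mul_one]
      linear_combination (c d * α * (d.2.choose j : ℂ)) * mul_choose d.1 i +
        (c d * β * (d.1.choose i : ℂ)) * mul_choose d.2 j
    rw [sum_congr rfl e, sum_add_distrib, sum_add_distrib, ← mul_sum, ← mul_sum, ← mul_sum,
      hc (i + 1, j) (by simp only; omega), hc (i, j + 1) (by simp only; omega),
      hc (i, j) (by simp only; omega)]
    ring)
  refine Eq.trans ?_ this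
  apply sum_congr rfl
  intro d _; ring

lemma Sm.pow (i : ℕ) : Sm (i + 1) (fun d => (d.1 : ℂ) ^ i) := by
  induction i with
  | zero => simpa using (Sm.one (n := 0 + 1) le_rfl)
  | succ i ih =>
    have := ih.lin 1 0 0
    convert this using 2
    ring

lemma Sm.poly (p : Polynomial ℂ) {n : ℕ} (h : p.natDegree < n) :
    Sm n (fun d => p.eval (d.1 : ℂ)) := by
  have : (fun d : ℕ × ℕ => p.eval (d.1 : ℂ)) =
      fun d => ∑ i ∈ range (p.natDegree + 1), p.coeff i * (d.1 : ℂ) ^ i := by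
    funext d
    rw [Polynomial.eval_eq_sum_range]
  rw [this]
  apply Sm.sum
  intro i hi
  rw [mem_range] at hi
  exact (Sm.smul _ (Sm.pow i)).mono (by omega)

/-- multiplication by a product of translates of one linear form -/
lemma Sm.prodlam {ι : Type*} (s : Finset ι) (f : ι → ℂ) (α β : ℂ) {n : ℕ} {G : ℕ × ℕ → ℂ}
    (h : Sm n G) :
    Sm (n + s.card) (fun d => (∏ i ∈ s, (α * (d.1 : ℂ) + β * (d.2 : ℂ) - f i)) * G d) := by
  classical
  induction s using Finset.induction_on with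
  | empty => simpa using h
  | insert a s ha ih =>
    rw [card_insert_of_notMem ha, ← add_assoc]
    have := ih.lin α β (- f a)
    convert this using 2
    rw [prod_insert ha]; ring

theorem Inj.reduce {D D1 : Finset (ℕ × ℕ)} {R : Finset Row} {m k : ℕ} (hI : Inj (D \ D1) R)
    (hD1 : D1 ⊆ D) (hk : ∀ r ∈ R, r.1 ≠ k) (wt : ℕ × ℕ → ℕ) (w1 w2 S : ℤ)
    (hwt : ∀ d ∈ D, (wt d : ℤ) = S + w1 * d.1 + w2 * d.2)
    (hG : ∀ d ∈ D1, ∃ G : ℕ × ℕ → ℂ, Sm m G ∧ G d ≠ 0 ∧
      ∀ d' ∈ D, d' ≠ d → wt d' ≤ wt d → G d' = 0) :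
    Inj D (R ∪ cellR m m k) := by
  obtain ⟨P, hP⟩ := hI
  choose! G hG1 hG2 hG3 using hG
  obtain ⟨e, he, hinj⟩ := poly_inj
    (fun (r : ↥R ⊕ ↥D1) (d : ↥D) => Sum.elim
      (fun r : ↥R => Polynomial.C (E (r : Row).2 (d : ℕ × ℕ) (P (r : Row).1).1 (P (r : Row).1).2))
      (fun d1 : ↥D1 => Polynomial.X ^ (wt d - wt d1) * Polynomial.C (G d1 d)) r) (by
      intro c hc
      set c2 : ℕ × ℕ → ℂ := fun d => if h : d ∈ D then c ⟨d, h⟩ else 0 with hc2
      have hc2' : ∀ d : ↥D, c2 d = c d := by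
        intro d; simp only [hc2]; rw [dif_pos d.2]
      have hz1 : ∀ d ∈ D1, c2 d = 0 := by
        intro d1 hd1
        have h1 := hc (Sum.inr ⟨d1, hd1⟩)
        simp only [Sum.elim_inr, Polynomial.eval_mul, Polynomial.eval_pow, Polynomial.eval_X,
          Polynomial.eval_C] at h1
        rw [sum_eq_single ⟨d1, hD1 hd1⟩] at h1
        · simp only [Nat.sub_self, pow_zero, one_mul] at h1
          rcases mul_eq_zero.1 h1 with h2 | h2
          · rw [hc2' ⟨d1, hD1 hd1⟩]; exact h2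
          · exact absurd h2 (hG2 d1 hd1)
        · intro d _ hne
          have hne' : (d : ℕ × ℕ) ≠ d1 := fun h => hne (Subtype.ext h)
          rcases le_or_gt (wt d) (wt d1) with h2 | h2
          · rw [hG3 d1 hd1 d d.2 hne' h2]; ring
          · rw [zero_pow (by omega)]; ring
        · intro hn; exact absurd (mem_univ _) hn
      have hz2 : ∀ d ∈ D \ D1, c2 d = 0 := by
        apply hP
        intro r hr
        have h1 := hc (Sum.inl ⟨r, hr⟩)
        simp only [Sum.elim_inl, Polynomial.eval_C] at h1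
        refine Eq.trans ?_ h1
        have e1 : ∑ x : ↥D, c x * E r.2 (x : ℕ × ℕ) (P r.1).1 (P r.1).2 =
            ∑ x ∈ D, c2 x * E r.2 x (P r.1).1 (P r.1).2 := by
          rw [← sum_coe_sort D]
          apply sum_congr rfl
          intro x _
          rw [hc2']
        rw [e1, ← sum_sdiff hD1, sum_eq_zero (s := D1) (fun d hd => by rw [hz1 d hd, zero_mul]),
          add_zero]
      funext d
      rw [← hc2', Pi.zero_apply]
      by_cases h : (d : ℕ × ℕ) ∈ D1
      · exact hz1 _ h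
      · exact hz2 _ (mem_sdiff.2 ⟨d.2, h⟩))
  refine ⟨fun i => if i = k then (e ^ w1, e ^ w2) else P i, ?_⟩
  intro c hc d hd
  have key := hinj (fun d => c d) ?_
  · exact congrFun key ⟨d, hd⟩
  · rintro (r | d1)
    · simp only [Sum.elim_inl, Polynomial.eval_C]
      have h1 := hc r (mem_union_left _ r.2)
      simp only [if_neg (hk r r.2)] at h1
      rw [sum_coe_sort D (fun d => c d * E (r : Row).2 d (P (r : Row).1).1 (P (r : Row).1).2)]
      exact h1
    · simp only [Sum.elim_inr, Polynomial.eval_mul, Polynomial.eval_pow, Polynomial.eval_X,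
        Polynomial.eval_C]
      rw [sum_coe_sort D (fun d => c d * (e ^ (wt d - wt d1) * G d1 d))]
      have hE : ∀ o : ℕ × ℕ, ∀ d ∈ D, e ^ (S + w1 * (o.1 : ℤ) + w2 * (o.2 : ℤ)) *
          E o d (e ^ w1) (e ^ w2) = e ^ (wt d) * E o d 1 1 := by
        intro o d hd
        unfold E
        rcases lt_or_ge d.1 o.1 with h1 | h1
        · rw [Nat.choose_eq_zero_of_lt h1]; simp
        rcases lt_or_ge d.2 o.2 with h2 | h2
        · rw [Nat.choose_eq_zero_of_lt h2]; simp
        have h3 : (e : ℂ) ^ (wt d) = e ^ (S + w1 * (o.1 : ℤ) + w2 * (o.2 : ℤ)) *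
            (e ^ w1) ^ (d.1 - o.1) * (e ^ w2) ^ (d.2 - o.2) := by
          rw [← zpow_natCast, hwt d hd, ← zpow_natCast (e ^ w1), ← zpow_natCast (e ^ w2),
            ← zpow_mul, ← zpow_mul, ← zpow_add₀ he, ← zpow_add₀ he]
          congr 1
          rw [Nat.cast_sub h1, Nat.cast_sub h2]; ring
        rw [h3]
        simp only [one_pow]
        ring
      have hkill : ∀ o : ℕ × ℕ, o.1 + o.2 < m →
          ∑ d ∈ D, (c d * e ^ (wt d)) * E o d 1 1 = 0 := by
        intro o ho
        have h1 := hc (k, o) (mem_union_right _ (by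
          rw [mem_cellR]; exact ⟨rfl, by simp only; omega, ho⟩))
        simp only [↓reduceIte] at h1
        have h2 : e ^ (S + w1 * (o.1 : ℤ) + w2 * (o.2 : ℤ)) *
            ∑ d ∈ D, c d * E o d (e ^ w1) (e ^ w2) = 0 := by rw [h1, mul_zero]
        rw [mul_sum] at h2
        refine Eq.trans ?_ h2
        apply sum_congr rfl
        intro d hd
        rw [mul_left_comm, hE o d hd]; ring
      have h4 := hG1 d1 d1.2 D _ hkill
      have h5 : e ^ (wt (d1 : ℕ × ℕ)) * ∑ d ∈ D, c d * (e ^ (wt d - wt d1) * G d1 d) = 0 := by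
        rw [mul_sum]
        refine Eq.trans ?_ h4
        apply sum_congr rfl
        intro d hd
        by_cases hne : d = d1
        · rw [hne]; simp; ring
        · rcases le_or_gt (wt d) (wt d1) with h2 | h2
          · rw [hG3 d1 d1.2 d hd hne h2]; ring
          · have : e ^ (wt d) = e ^ (wt (d1 : ℕ × ℕ)) * e ^ (wt d - wt d1) := by
              rw [← pow_add]; congr 1; omega
            rw [this]; ring
      rcases mul_eq_zero.1 h5 with h6 | h6
      · exact absurd h6 (pow_ne_zero _ he)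
      · exact h6

end Pool.Agent.Lead.Rw
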