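import Mathlib
import Pool.Agent.Lead.RwRed

/-!
Rows of a monomial set with respect to a linear form, and the two moves of the row game.
-/

set_option autoImplicit false
set_option linter.unusedSectionVars false

namespace Pool.Agent.Lead.Rw

open Finset Pool.Agent.Lead.Sh

/-- the linear form -/
def lam (p q : ℕ) (d : ℕ × ℕ) : ℕ := p * d.1 + q * d.2

/-- the row `λ = c` of `D` -/
def rowS (p q : ℕ) (D : Finset (ℕ × ℕ)) (c : ℕ) : Finset (ℕ × ℕ) :=
  D.filter (fun d => lam p q d = c)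

/-- the number of elements of the row `λ = c` of `D` -/
def rowc (p q : ℕ) (D : Finset (ℕ × ℕ)) (c : ℕ) : ℕ := (rowS p q D c).card

/-- predecessors in the row -/
def pre (p q : ℕ) (D : Finset (ℕ × ℕ)) (d : ℕ × ℕ) : Finset (ℕ × ℕ) :=
  D.filter (fun d' => lam p q d' = lam p q d ∧ d'.1 < d.1)

/-- position in the row -/
def idx (p q : ℕ) (D : Finset (ℕ × ℕ)) (d : ℕ × ℕ) : ℕ := (pre p q D d).card

lemma mem_rowS {p q : ℕ} {D : Finset (ℕ × ℕ)} {c : ℕ} {d : ℕ × ℕ} :
    d ∈ rowS p q D c ↔ d ∈ D ∧ lam p q d = c := by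
  unfold rowS; rw [mem_filter]

lemma mem_pre {p q : ℕ} {D : Finset (ℕ × ℕ)} {d d' : ℕ × ℕ} :
    d' ∈ pre p q D d ↔ d' ∈ D ∧ lam p q d' = lam p q d ∧ d'.1 < d.1 := by
  unfold pre; rw [mem_filter]

lemma row_ext {p q : ℕ} (hq : 1 ≤ q) {d d' : ℕ × ℕ} (h : lam p q d = lam p q d')
    (h1 : d.1 = d'.1) : d = d' := by
  unfold lam at h
  rw [h1] at h
  have h2 : q * d.2 = q * d'.2 := by omega
  have h3 : d.2 = d'.2 := Nat.eq_of_mul_eq_mul_left (by omega) h2
  exact Prod.ext h1 h3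

lemma idx_lt {p q : ℕ} {D : Finset (ℕ × ℕ)} {d : ℕ × ℕ} (hd : d ∈ D) :
    idx p q D d < rowc p q D (lam p q d) := by
  unfold idx rowc
  apply card_lt_card
  rw [ssubset_iff_of_subset]
  · refine ⟨d, mem_rowS.2 ⟨hd, rfl⟩, ?_⟩
    intro h
    exact lt_irrefl _ (mem_pre.1 h).2.2
  · intro x hx
    rw [mem_pre] at hx
    exact mem_rowS.2 ⟨hx.1, hx.2.1⟩

lemma idx_strict {p q : ℕ} {D : Finset (ℕ × ℕ)} {d d' : ℕ × ℕ} (hd : d ∈ D)
    (h : lam p q d = lam p q d') (h1 : d.1 < d'.1) : idx p q D d < idx p q D d' := by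
  unfold idx
  apply card_lt_card
  rw [ssubset_iff_of_subset]
  · refine ⟨d, mem_pre.2 ⟨hd, h, h1⟩, ?_⟩
    intro h
    exact lt_irrefl _ (mem_pre.1 h).2.2
  · intro x hx
    rw [mem_pre] at hx ⊢
    exact ⟨hx.1, hx.2.1.trans h, hx.2.2.trans h1⟩

lemma idx_inj {p q : ℕ} (hq : 1 ≤ q) {D : Finset (ℕ × ℕ)} {d d' : ℕ × ℕ} (hd : d ∈ D)
    (hd' : d' ∈ D) (h : lam p q d = lam p q d') (h1 : idx p q D d = idx p q D d') : d = d' := by
  rcases lt_trichotomy d.1 d'.1 with h2 | h2 | h2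
  · have := idx_strict hd h h2; omega
  · exact row_ext hq h h2
  · have := idx_strict hd' h.symm h2; omega

lemma card_idx_lt {p q : ℕ} (hq : 1 ≤ q) (D : Finset (ℕ × ℕ)) (c s : ℕ) :
    ((rowS p q D c).filter (fun d => idx p q D d < s)).card = min s (rowc p q D c) := by
  have himg : (rowS p q D c).image (idx p q D) = range (rowc p q D c) := by
    apply eq_of_subset_of_card_le
    · intro i hi
      rw [mem_image] at hi
      obtain ⟨d, hd, rfl⟩ := hi
      rw [mem_rowS] at hd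
      rw [mem_range]
      have := idx_lt (p := p) (q := q) hd.1
      rwa [hd.2] at this
    · rw [card_range, card_image_of_injOn]
      · rfl
      · intro x hx y hy hxy
        rw [mem_coe, mem_rowS] at hx hy
        exact idx_inj hq hx.1 hy.1 (hx.2.trans hy.2.symm) hxy
  have hinj : Set.InjOn (idx p q D) ((rowS p q D c).filter (fun d => idx p q D d < s)) := by
    intro x hx y hy hxy
    rw [mem_coe, mem_filter, mem_rowS] at hx hy
    exact idx_inj hq hx.1.1 hy.1.1 (hx.1.2.trans hy.1.2.symm) hxy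
  rw [← card_image_of_injOn hinj]
  have : ((rowS p q D c).filter (fun d => idx p q D d < s)).image (idx p q D) =
      range (min s (rowc p q D c)) := by
    ext i
    rw [mem_image, mem_range, lt_min_iff]
    constructor
    · rintro ⟨d, hd, rfl⟩
      rw [mem_filter, mem_rowS] at hd
      refine ⟨hd.2, ?_⟩
      have := idx_lt (p := p) (q := q) hd.1.1
      rwa [hd.1.2] at this
    · rintro ⟨h1, h2⟩
      have : i ∈ (rowS p q D c).image (idx p q D) := by rw [himg, mem_range]; exact h2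
      rw [mem_image] at this
      obtain ⟨d, hd, rfl⟩ := this
      exact ⟨d, mem_filter.2 ⟨hd, h1⟩, rfl⟩
  rw [this, card_range]

/-- remove the first `s j` elements of the row `c + j` -/
def rem (p q : ℕ) (D : Finset (ℕ × ℕ)) (c : ℕ) (s : ℕ → ℕ) : Finset (ℕ × ℕ) :=
  D.filter (fun d => c ≤ lam p q d ∧ idx p q D d < s (lam p q d - c))

lemma mem_rem {p q : ℕ} {D : Finset (ℕ × ℕ)} {c : ℕ} {s : ℕ → ℕ} {d : ℕ × ℕ} :
    d ∈ rem p q D c s ↔ d ∈ D ∧ c ≤ lam p q d ∧ idx p q D d < s (lam p q d - c) := by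
  unfold rem; rw [mem_filter]

lemma rem_sub (p q : ℕ) (D : Finset (ℕ × ℕ)) (c : ℕ) (s : ℕ → ℕ) : rem p q D c s ⊆ D :=
  filter_subset _ _

lemma rem_row {p q : ℕ} (D : Finset (ℕ × ℕ)) (c : ℕ) (s : ℕ → ℕ) (j : ℕ) :
    (rem p q D c s).filter (fun d => lam p q d = c + j) =
      (rowS p q D (c + j)).filter (fun d => idx p q D d < s j) := by
  ext d
  rw [mem_filter, mem_filter, mem_rem, mem_rowS]
  constructor
  · rintro ⟨⟨h1, _, h3⟩, h4⟩
    rw [h4, Nat.add_sub_cancel_left] at h3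
    exact ⟨⟨h1, h4⟩, h3⟩
  · rintro ⟨⟨h1, h4⟩, h3⟩
    refine ⟨⟨h1, by omega, ?_⟩, h4⟩
    rw [h4, Nat.add_sub_cancel_left]; exact h3

lemma rowc_sdiff {p q : ℕ} (hq : 1 ≤ q) (D : Finset (ℕ × ℕ)) (c : ℕ) (s : ℕ → ℕ) (j : ℕ) :
    rowc p q (D \ rem p q D c s) (c + j) = rowc p q D (c + j) - s j := by
  have h1 : rowS p q (D \ rem p q D c s) (c + j) =
      rowS p q D (c + j) \ (rowS p q D (c + j)).filter (fun d => idx p q D d < s j) := by
    ext d
    rw [← rem_row, mem_rowS, mem_sdiff, mem_sdiff, mem_rowS, mem_filter]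
    tauto
  unfold rowc
  rw [h1, card_sdiff_of_subset (filter_subset _ _), card_idx_lt hq]
  unfold rowc
  omega

lemma card_rem {p q : ℕ} (hq : 1 ≤ q) (D : Finset (ℕ × ℕ)) (c : ℕ) (s : ℕ → ℕ) (m : ℕ)
    (hs : ∀ j, m ≤ j → s j = 0) (hcap : ∀ j < m, s j ≤ rowc p q D (c + j)) :
    (rem p q D c s).card = ∑ j ∈ range m, s j := by
  rw [card_eq_sum_card_fiberwise (f := fun d => lam p q d - c) (t := range m)]
  · apply sum_congr rfl
    intro j hj
    rw [mem_range] at hj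
    have : (rem p q D c s).filter (fun d => lam p q d - c = j) =
        (rem p q D c s).filter (fun d => lam p q d = c + j) := by
      apply filter_congr
      intro d hd
      rw [mem_rem] at hd
      constructor <;> intro h <;> omega
    rw [this, rem_row, card_idx_lt hq]
    exact min_eq_left (hcap j hj)
  · intro d hd
    rw [mem_coe, mem_rem] at hd
    simp only [mem_coe, mem_range]
    by_contra hcon
    rw [hs _ (by omega)] at hd
    omega

/-- the weight refining the linear form -/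
def wtN (p q N : ℕ) (d : ℕ × ℕ) : ℕ := N * lam p q d + d.1

lemma wtN_eq (p q N : ℕ) (d : ℕ × ℕ) : (wtN p q N d : ℤ) =
    0 + ((N : ℤ) * p + 1) * d.1 + ((N : ℤ) * q) * d.2 := by
  unfold wtN lam
  push_cast
  ring

lemma wtN_le {p q N : ℕ} {d d' : ℕ × ℕ} (h1 : d.1 < N)
    (h : wtN p q N d' ≤ wtN p q N d) : lam p q d' < lam p q d ∨
      (lam p q d' = lam p q d ∧ d'.1 ≤ d.1) := by
  unfold wtN at h
  rcases lt_trichotomy (lam p q d') (lam p q d) with h2 | h2 | h2
  · exact Or.inl h2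
  · right
    rw [h2] at h
    exact ⟨h2, by omega⟩
  · exfalso
    have : N * (lam p q d + 1) ≤ N * lam p q d' := Nat.mul_le_mul_left _ h2
    rw [mul_add] at this
    omega

lemma lam_cast (p q : ℕ) (d : ℕ × ℕ) : ((lam p q d : ℕ) : ℂ) = (p : ℂ) * d.1 + (q : ℂ) * d.2 := by
  unfold lam; push_cast; ring

/-- the separating functions of a move -/
theorem exG {p q N m : ℕ} (hq : 1 ≤ q) {D : Finset (ℕ × ℕ)} (hN : ∀ d ∈ D, d.1 < N) (c : ℕ)
    (hlow : ∀ d ∈ D, c ≤ lam p q d) (s : ℕ → ℕ)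
    (hs : ∀ j, s j ≤ m - j ∨ (1 ≤ j ∧ rowc p q D c ≤ m - j ∧ 1 ≤ m - j ∧ s j ≤ m - j + 1)) :
    ∀ d ∈ rem p q D c s, ∃ G : ℕ × ℕ → ℂ, Sm m G ∧ G d ≠ 0 ∧
      ∀ d' ∈ D, d' ≠ d → wtN p q N d' ≤ wtN p q N d → G d' = 0 := by
  classical
  intro d hd
  rw [mem_rem] at hd
  obtain ⟨hdD, hc, hi⟩ := hd
  obtain ⟨j, hj⟩ : ∃ j, lam p q d = c + j := ⟨lam p q d - c, by omega⟩
  rw [hj, Nat.add_sub_cancel_left] at hi
  set P1 : Polynomial ℂ := ∏ e ∈ pre p q D d, (Polynomial.X - Polynomial.C (e.1 : ℂ)) with hP1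
  have hP1m : P1.Monic := Polynomial.monic_prod_of_monic _ _ (fun e _ => Polynomial.monic_X_sub_C _)
  have hP1d : P1.natDegree = idx p q D d := by
    rw [hP1, Polynomial.natDegree_prod_of_monic _ _ (fun e _ => Polynomial.monic_X_sub_C _)]
    simp only [Polynomial.natDegree_X_sub_C, sum_const, smul_eq_mul, mul_one]
    rfl
  have hP1z : ∀ d' ∈ D, lam p q d' = lam p q d → d'.1 < d.1 → P1.eval (d'.1 : ℂ) = 0 := by
    intro d' hd' h1 h2
    rw [hP1, Polynomial.eval_prod]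
    apply prod_eq_zero (mem_pre.2 ⟨hd', h1, h2⟩)
    simp
  have hP1n : P1.eval (d.1 : ℂ) ≠ 0 := by
    rw [hP1, Polynomial.eval_prod, prod_ne_zero_iff]
    intro e he
    rw [mem_pre] at he
    simp only [Polynomial.eval_sub, Polynomial.eval_X, Polynomial.eval_C]
    intro h0
    have : (d.1 : ℂ) = (e.1 : ℂ) := by linear_combination h0
    have : d.1 = e.1 := by exact_mod_cast this
    omega
  by_cases hnorm : idx p q D d < m - j
  · -- normal element
    refine ⟨fun x => (∏ i ∈ range j, ((p : ℂ) * (x.1 : ℂ) + (q : ℂ) * (x.2 : ℂ) -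
      ((c : ℂ) + (i : ℂ)))) * P1.eval (x.1 : ℂ), ?_, ?_, ?_⟩
    · have h1 : Sm (idx p q D d + 1) (fun x => P1.eval (x.1 : ℂ)) := Sm.poly P1 (by omega)
      have h2 := Sm.prodlam (range j) (fun i : ℕ => (c : ℂ) + (i : ℂ)) (p : ℂ) (q : ℂ) h1
      rw [card_range] at h2
      exact h2.mono (by omega)
    · apply mul_ne_zero
      · rw [prod_ne_zero_iff]
        intro i hi
        rw [mem_range] at hi
        rw [← lam_cast, hj]
        push_cast
        intro h0
        have : (j : ℂ) = (i : ℂ) := by linear_combination h0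
        have : j = i := by exact_mod_cast this
        omega
      · exact hP1n
    · intro d' hd' hne hw
      rcases wtN_le (hN d hdD) hw with h1 | ⟨h1, h2⟩
      · have h3 := hlow d' hd'
        have : ∏ i ∈ range j, ((p : ℂ) * (d'.1 : ℂ) + (q : ℂ) * (d'.2 : ℂ) -
            ((c : ℂ) + (i : ℂ))) = 0 := by
          apply prod_eq_zero (i := lam p q d' - c) (mem_range.2 (by omega))
          rw [← lam_cast, Nat.cast_sub h3]
          ring
        simp only
        rw [this, zero_mul]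
      · simp only
        rw [hP1z d' hd' h1 (lt_of_le_of_ne h2 (fun h => hne (row_ext hq h1 h))), mul_zero]
  · -- special element
    rcases hs j with h0 | ⟨hj1, hr, hmj, hsj⟩
    · omega
    have hidx : idx p q D d = m - j := by omega
    set t := m - j with ht
    set r := rowc p q D c with hrdef
    set P0 : Polynomial ℂ := Polynomial.X ^ (t - r) *
      ∏ e ∈ rowS p q D c, (Polynomial.X - Polynomial.C (e.1 : ℂ)) with hP0
    have hprm : (∏ e ∈ rowS p q D c, (Polynomial.X - Polynomial.C (e.1 : ℂ))).Monic :=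
      Polynomial.monic_prod_of_monic _ _ (fun e _ => Polynomial.monic_X_sub_C _)
    have hP0m : P0.Monic := (Polynomial.monic_X_pow _).mul hprm
    have hP0d : P0.natDegree = t := by
      rw [hP0, (Polynomial.monic_X_pow _).natDegree_mul hprm,
        Polynomial.natDegree_prod_of_monic _ _ (fun e _ => Polynomial.monic_X_sub_C _)]
      simp only [Polynomial.natDegree_X_pow, Polynomial.natDegree_X_sub_C, sum_const, smul_eq_mul,
        mul_one]
      have : (rowS p q D c).card = r := rfl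
      rw [this]; omega
    have hdiff : (P0 - P1).natDegree < t := by
      by_cases hz : P0 - P1 = 0
      · rw [hz]; simp; omega
      · rw [Polynomial.natDegree_lt_iff_degree_lt hz]
        have hdeg : P0.degree = P1.degree := by
          rw [Polynomial.degree_eq_natDegree hP0m.ne_zero, Polynomial.degree_eq_natDegree
            hP1m.ne_zero, hP0d, hP1d, hidx]
        have := Polynomial.degree_sub_lt_left hdeg hP0m.ne_zero (by
          rw [hP0m.leadingCoeff, hP1m.leadingCoeff])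
        rwa [Polynomial.degree_eq_natDegree hP0m.ne_zero, hP0d] at this
    have hjC : (j : ℂ) ≠ 0 := by
      have : j ≠ 0 := by omega
      exact_mod_cast this
    refine ⟨fun x => (∏ i ∈ range (j - 1), ((p : ℂ) * (x.1 : ℂ) + (q : ℂ) * (x.2 : ℂ) -
      ((c : ℂ) + 1 + (i : ℂ)))) * (P1.eval (x.1 : ℂ) + (-(1 / (j : ℂ))) *
        (((p : ℂ) * (x.1 : ℂ) + (q : ℂ) * (x.2 : ℂ) + (-((c : ℂ) + (j : ℂ)))) *
          (P0 - P1).eval (x.1 : ℂ))), ?_, ?_, ?_⟩
    · have h1 : Sm (t + 1) (fun x => P1.eval (x.1 : ℂ)) := Sm.poly P1 (by omega)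
      have h2 : Sm t (fun x => (P0 - P1).eval (x.1 : ℂ)) := Sm.poly _ hdiff
      have h3 := h2.lin (p : ℂ) (q : ℂ) (-((c : ℂ) + (j : ℂ)))
      have h4 := h1.add (Sm.smul (-(1 / (j : ℂ))) h3)
      have h5 := Sm.prodlam (range (j - 1)) (fun i : ℕ => (c : ℂ) + 1 + (i : ℂ)) (p : ℂ) (q : ℂ) h4
      rw [card_range] at h5
      exact h5.mono (by omega)
    · apply mul_ne_zero
      · rw [prod_ne_zero_iff]
        intro i hi
        rw [mem_range] at hi
        rw [← lam_cast, hj]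
        push_cast
        intro h0
        have : (j : ℂ) = (1 + i : ℕ) := by push_cast; linear_combination h0
        have : j = 1 + i := by exact_mod_cast this
        omega
      · rw [← lam_cast, hj]
        push_cast
        have : (c : ℂ) + (j : ℂ) + -((c : ℂ) + (j : ℂ)) = 0 := by ring
        rw [this]
        simpa using hP1n
    · intro d' hd' hne hw
      rcases wtN_le (hN d hdD) hw with h1 | ⟨h1, h2⟩
      · have h3 := hlow d' hd'
        by_cases h4 : lam p q d' = c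
        · have hP0z : P0.eval (d'.1 : ℂ) = 0 := by
            rw [hP0, Polynomial.eval_mul, Polynomial.eval_prod,
              prod_eq_zero (mem_rowS.2 ⟨hd', h4⟩) (by simp), mul_zero]
          simp only
          have h5 : (p : ℂ) * (d'.1 : ℂ) + (q : ℂ) * (d'.2 : ℂ) = (c : ℂ) := by
            rw [← lam_cast, h4]
          rw [h5, Polynomial.eval_sub, hP0z]
          have : P1.eval (d'.1 : ℂ) + -(1 / (j : ℂ)) * (((c : ℂ) + -((c : ℂ) + (j : ℂ))) *
              (0 - P1.eval (d'.1 : ℂ))) = 0 := by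
            field_simp
            ring
          rw [this, mul_zero]
        · have : ∏ i ∈ range (j - 1), ((p : ℂ) * (d'.1 : ℂ) + (q : ℂ) * (d'.2 : ℂ) -
              ((c : ℂ) + 1 + (i : ℂ))) = 0 := by
            apply prod_eq_zero (i := lam p q d' - c - 1) (mem_range.2 (by omega))
            rw [← lam_cast, Nat.cast_sub (by omega), Nat.cast_sub h3]
            push_cast
            ring
          simp only
          rw [this, zero_mul]
      · simp only
        rw [hP1z d' hd' h1 (lt_of_le_of_ne h2 (fun h => hne (row_ext hq h1 h))), ← lam_cast, h1, hj]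
        push_cast
        have : (c : ℂ) + (j : ℂ) + -((c : ℂ) + (j : ℂ)) = 0 := by ring
        rw [this]
        simp

lemma exists_bound (D : Finset (ℕ × ℕ)) : ∃ N : ℕ, ∀ d ∈ D, d.1 < N := by
  refine ⟨D.sup (fun d => d.1) + 1, ?_⟩
  intro d hd
  have : d.1 ≤ D.sup (fun d => d.1) := le_sup (f := fun d : ℕ × ℕ => d.1) hd
  omega

/-- one move, injectivity -/
theorem Inj.move {p q m k : ℕ} (hq : 1 ≤ q) {D : Finset (ℕ × ℕ)} (c : ℕ) {R : Finset Row}
    (hlow : ∀ d ∈ D, c ≤ lam p q d) (s : ℕ → ℕ)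
    (hs : ∀ j, s j ≤ m - j ∨ (1 ≤ j ∧ rowc p q D c ≤ m - j ∧ 1 ≤ m - j ∧ s j ≤ m - j + 1))
    (hI : Inj (D \ rem p q D c s) R) (hk : ∀ r ∈ R, r.1 ≠ k) :
    Inj D (R ∪ cellR m m k) := by
  obtain ⟨N, hN⟩ := exists_bound D
  exact Inj.reduce hI (rem_sub _ _ _ _ _) hk (wtN p q N) ((N : ℤ) * p + 1) ((N : ℤ) * q) 0
    (fun d _ => wtN_eq p q N d) (exG hq hN c hlow s hs)

/-- a square subproblem which is solvable -/
def Ind' (D : Finset (ℕ × ℕ)) (R : Finset Row) : Prop :=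
  ∃ D', D' ⊆ D ∧ D'.card = R.card ∧ Inj D' R

lemma Ind'.mono {D D2 : Finset (ℕ × ℕ)} {R : Finset Row} (h : Ind' D R) (hD : D ⊆ D2) :
    Ind' D2 R := by
  obtain ⟨D', h1, h2, h3⟩ := h
  exact ⟨D', h1.trans hD, h2, h3⟩

lemma ind'_empty (D : Finset (ℕ × ℕ)) : Ind' D ∅ :=
  ⟨∅, empty_subset _, by simp, inj_empty _⟩

/-- one step, independence -/
theorem Ind'.reduce {D D1 : Finset (ℕ × ℕ)} {R : Finset Row} {m k : ℕ} (hI : Ind' (D \ D1) R)
    (hD1 : D1 ⊆ D) (hcard : D1.card = (cellR m m k).card)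
    (hk : ∀ r ∈ R, r.1 ≠ k) (wt : ℕ × ℕ → ℕ) (w1 w2 S : ℤ)
    (hwt : ∀ d ∈ D, (wt d : ℤ) = S + w1 * d.1 + w2 * d.2)
    (hG : ∀ d ∈ D1, ∃ G : ℕ × ℕ → ℂ, Sm m G ∧ G d ≠ 0 ∧
      ∀ d' ∈ D, d' ≠ d → wt d' ≤ wt d → G d' = 0) :
    Ind' D (R ∪ cellR m m k) := by
  obtain ⟨D', h1, h2, h3⟩ := hI
  have hdisj : Disjoint D' D1 := by
    rw [disjoint_left]
    intro x hx hx1
    exact (mem_sdiff.1 (h1 hx)).2 hx1
  have hsub : D' ∪ D1 ⊆ D := by
    apply union_subset _ hD1
    exact h1.trans sdiff_subset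
  refine ⟨D' ∪ D1, hsub, ?_, ?_⟩
  · rw [card_union_of_disjoint hdisj, card_union_of_disjoint, h2, hcard]
    rw [disjoint_left]
    intro r hr hr2
    rw [mem_cellR] at hr2
    exact hk r hr hr2.1
  · apply Inj.reduce (D1 := D1) _ subset_union_right hk wt w1 w2 S
      (fun d hd => hwt d (hsub hd))
    · intro d hd
      obtain ⟨G, g1, g2, g3⟩ := hG d hd
      exact ⟨G, g1, g2, fun d' hd' => g3 d' (hsub hd')⟩
    · have : (D' ∪ D1) \ D1 = D' := by
        rw [union_sdiff_right]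
        exact sdiff_eq_self_of_disjoint hdisj
      rw [this]
      exact h3

/-- one move, independence -/
theorem Ind'.move {p q m k : ℕ} (hq : 1 ≤ q) {D : Finset (ℕ × ℕ)} (c : ℕ) {R : Finset Row}
    (hlow : ∀ d ∈ D, c ≤ lam p q d) (s : ℕ → ℕ)
    (hs : ∀ j, s j ≤ m - j ∨ (1 ≤ j ∧ rowc p q D c ≤ m - j ∧ 1 ≤ m - j ∧ s j ≤ m - j + 1))
    (hs0 : ∀ j, m ≤ j → s j = 0) (hcap : ∀ j < m, s j ≤ rowc p q D (c + j))
    (hsum : ∑ j ∈ range m, s j = ∑ j ∈ range m, (m - j))
    (hI : Ind' (D \ rem p q D c s) R) (hk : ∀ r ∈ R, r.1 ≠ k) :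
    Ind' D (R ∪ cellR m m k) := by
  obtain ⟨N, hN⟩ := exists_bound D
  exact Ind'.reduce hI (rem_sub _ _ _ _ _) (by rw [card_rem hq D c s m hs0 hcap, hsum, card_cellR])
    hk (wtN p q N) ((N : ℤ) * p + 1) ((N : ℤ) * q) 0
    (fun d _ => wtN_eq p q N d) (exG hq hN c hlow s hs)

lemma Ind'.ind {D : Finset (ℕ × ℕ)} {R : Finset Row} (h : Ind' D R) : Ind D R := by
  obtain ⟨D', h1, h2, P, h3⟩ := h
  exact Ind.mono ⟨P, h3.ind h2.symm⟩ h1 (Subset.refl _)

end Pool.Agent.Lead.Rw
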