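import Mathlib
import Pool.Agent.Lead.RwRow
import Pool.Agent.Lead.ShMain

/-!
The row game: filling the rows of a monomial set by fat points, one row after the other.
-/

set_option autoImplicit false
set_option linter.unusedSectionVars false

namespace Pool.Agent.Lead.Rw

open Finset Pool.Agent.Lead.Sh

/-- admissible consumption profiles -/
structure Prof (M : ℕ) (C : ℕ → ℕ) : Prop where
  van : ∀ j, M ≤ j → C j = 0
  rate : ∀ j, M * C (j + 1) + C j ≤ M * C j

/-- sizes of the special move -/
def sp (m r j : ℕ) : ℕ := if j = 0 then r else if j ≤ m - r then m - j + 1 else m - j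

lemma sp_zero (m r : ℕ) : sp m r 0 = r := by simp [sp]

lemma sp_succ (m r j : ℕ) : sp m r (j + 1) = if j < m - r then m - j else m - 1 - j := by
  unfold sp
  rw [if_neg (by omega)]
  split_ifs <;> omega

lemma Prof.zero (M : ℕ) : Prof M (fun _ => 0) := ⟨fun _ _ => rfl, fun _ => by simp⟩

lemma Prof.lt {M : ℕ} {C : ℕ → ℕ} (h : Prof M C) (j : ℕ) (h0 : 0 < C j) : C (j + 1) < C j := by
  have := h.rate j
  by_contra hcon
  have h1 : M * C j ≤ M * C (j + 1) := Nat.mul_le_mul_left _ (by omega)
  omega

lemma Prof.le {M : ℕ} {C : ℕ → ℕ} (h : Prof M C) (j : ℕ) : C (j + 1) ≤ C j - 1 := by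
  rcases Nat.eq_zero_or_pos (C j) with h0 | h0
  · have := h.rate j
    rw [h0] at this
    have h2 : M * C (j + 1) = 0 := by omega
    rcases Nat.mul_eq_zero.1 h2 with h3 | h3
    · have := h.van (j + 1) (by omega); omega
    · omega
  · have := h.lt j h0; omega

lemma Prof.shift {M : ℕ} {C : ℕ → ℕ} (h : Prof M C) : Prof M (fun j => C (j + 1)) :=
  ⟨fun j hj => h.van (j + 1) (by omega), fun j => h.rate (j + 1)⟩

lemma Prof.normal {M m : ℕ} {C : ℕ → ℕ} (h : Prof M C) (hm : m ≤ M) :
    Prof M (fun j => C j + (m - j)) := by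
  refine ⟨fun j hj => ?_, fun j => ?_⟩
  · rw [h.van j hj]; omega
  · have h1 := h.rate j
    rcases le_or_gt m j with h2 | h2
    · rw [Nat.sub_eq_zero_of_le h2, Nat.sub_eq_zero_of_le (by omega : m ≤ j + 1)]
      simpa using h1
    · obtain ⟨x, hx⟩ : ∃ x, m - j = x + 1 := ⟨m - j - 1, by omega⟩
      have hx2 : m - (j + 1) = x := by omega
      rw [hx, hx2]
      have : x + 1 ≤ M := by omega
      nlinarith

lemma Prof.special {M m r : ℕ} {C : ℕ → ℕ} (h : Prof M C) (hm : m ≤ M) (hr : 1 ≤ r)
    (hrm : r < m) : Prof M (fun j => C (j + 1) + sp m r (j + 1)) := by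
  refine ⟨fun j hj => ?_, fun j => ?_⟩
  · rw [h.van (j + 1) (by omega), sp_succ]
    split_ifs <;> omega
  · have h1 := h.rate (j + 1)
    have h2 : M * sp m r (j + 1 + 1) + sp m r (j + 1) ≤ M * sp m r (j + 1) := by
      rw [sp_succ, sp_succ]
      split_ifs with h3 h4 h5
      · obtain ⟨x, hx⟩ : ∃ x, m - j = x + 1 := ⟨m - j - 1, by omega⟩
        have hx2 : m - (j + 1) = x := by omega
        rw [hx, hx2]
        have : x + 1 ≤ M := by omega
        nlinarith
      · omega
      · obtain ⟨x, hx⟩ : ∃ x, m - j = x + 1 := ⟨m - j - 1, by omega⟩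
        have hx2 : m - 1 - (j + 1) ≤ x := by omega
        rw [hx]
        have h6 : M * (m - 1 - (j + 1)) ≤ M * x := Nat.mul_le_mul_left _ hx2
        have : x + 1 ≤ M := by omega
        nlinarith
      · rcases le_or_gt (m - 1) j with h6 | h6
        · have : m - 1 - j = 0 := by omega
          have h7 : m - 1 - (j + 1) = 0 := by omega
          rw [this, h7]; simp
        · obtain ⟨x, hx⟩ : ∃ x, m - 1 - j = x + 1 := ⟨m - 1 - j - 1, by omega⟩
          have hx2 : m - 1 - (j + 1) = x := by omega
          rw [hx, hx2]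
          have : x + 1 ≤ M := by omega
          nlinarith
    rw [mul_add, mul_add]
    omega

lemma sum_normal {M m : ℕ} (hm : m ≤ M) : ∑ j ∈ range M, (m - j) = Nat.choose (m + 1) 2 := by
  rw [← sum_tri]
  symm
  apply sum_subset
  · intro k hk; rw [mem_range] at hk ⊢; omega
  · intro k _ hk; rw [mem_range] at hk; omega

lemma sum_sp {M m r : ℕ} (hm : m ≤ M + 1) (hr : 1 ≤ r) (hrm : r < m) :
    (∑ j ∈ range M, sp m r (j + 1)) + r = Nat.choose (m + 1) 2 := by
  have h1 : ∀ j ∈ range M, sp m r (j + 1) = (m - 1 - j) + (if j < m - r then 1 else 0) := by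
    intro j _
    rw [sp_succ]
    split_ifs <;> omega
  rw [sum_congr rfl h1, sum_add_distrib, sum_normal (show m - 1 ≤ M by omega), ← card_filter]
  have h2 : (range M).filter (fun j => j < m - r) = range (m - r) := by
    ext j; rw [mem_filter, mem_range, mem_range]; omega
  rw [h2, card_range]
  obtain ⟨x, rfl⟩ : ∃ x, m = x + 1 := ⟨m - 1, by omega⟩
  have e : Nat.choose (x + 1 + 1) 2 = (x + 1) + Nat.choose (x + 1) 2 := by
    rw [Nat.choose_succ_succ' (x + 1) 1, Nat.choose_one_right]
  rw [Nat.add_sub_cancel, e]
  omega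

lemma Llow {L : ℕ → ℕ} (hL : ∀ c, L c ≤ L (c + 1) + 1) (c j : ℕ) : L c ≤ L (c + j) + j := by
  induction j with
  | zero => simp
  | succ j ih =>
    have := hL (c + j)
    have e : c + (j + 1) = c + j + 1 := by omega
    rw [e]
    omega

lemma cap0 {M : ℕ} {C L : ℕ → ℕ} (hC : Prof M C) (hL : ∀ c, L c ≤ L (c + 1) + 1) {c : ℕ}
    (h : C 0 ≤ L c) : ∀ j, C j ≤ L (c + j) := by
  intro j
  induction j with
  | zero => simpa using h
  | succ j ih =>
    have h1 := hL (c + j)
    have h2 := hC.le j
    rw [← add_assoc]
    omega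

lemma cap1 {M a : ℕ} {C L : ℕ → ℕ} (hC : Prof M C) (hL : ∀ c, L c ≤ L (c + 1) + 1) {c : ℕ}
    (h : C 0 + a ≤ L c) : ∀ j, C j + (a - j) ≤ L (c + j) := by
  intro j
  induction j with
  | zero => simpa using h
  | succ j ih =>
    have h1 := hL (c + j)
    have h2 := hC.le j
    rw [← add_assoc]
    omega

lemma Prof.mono {M : ℕ} {C : ℕ → ℕ} (hC : Prof M C) (i j : ℕ) : C (i + j) ≤ C i := by
  induction j with
  | zero => simp
  | succ j ih =>
    have := hC.le (i + j)
    rw [← add_assoc]; omega

lemma drop {M : ℕ} {C : ℕ → ℕ} (hC : Prof M C) (h : M * M < C 0 + M) : C 1 + M ≤ C 0 := by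
  have h1 := hC.rate 0
  rw [zero_add] at h1
  by_contra hcon
  obtain ⟨x, hx⟩ : ∃ x, C 0 + 1 + x = C 1 + M := ⟨C 1 + M - C 0 - 1, by omega⟩
  have h2 : M * (C 0 + 1 + x) = M * C 1 + M * M := by rw [hx]; ring
  have h3 : M * (C 0 + 1 + x) = M * C 0 + M + M * x := by ring
  have : 0 ≤ M * x := Nat.zero_le _
  omega

/-- capacity for the special move -/
lemma cap2 {M m r : ℕ} {C L : ℕ → ℕ} (hC : Prof M C) (hL : ∀ c, L c ≤ L (c + 1) + 1) {c : ℕ}
    (hm : m ≤ M) (hr : 1 ≤ r) (hrm : r < m) (h : C 0 + r = L c) (hbig : M * M ≤ L c) :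
    ∀ j < m, C j + sp m r j ≤ L (c + j) := by
  intro j hj
  rcases Nat.eq_zero_or_pos j with rfl | hj0
  · rw [sp_zero, add_zero]; omega
  · obtain ⟨i, rfl⟩ : ∃ i, j = i + 1 := ⟨j - 1, by omega⟩
    have h1 := drop hC (by omega)
    have h2 := hC.mono 1 i
    rw [add_comm 1 i] at h2
    have h3 := Llow hL c (i + 1)
    have h4 : sp m r (i + 1) ≤ m - i := by
      rw [sp_succ]; split_ifs <;> omega
    omega

/-- loss at a thin row -/
def wl (M : ℕ) (L : ℕ → ℕ) (c : ℕ) : ℕ := if L c < M * M then M - 1 else 0

lemma rows_succ (m : ℕ → ℕ) {k0 N : ℕ} (h : k0 < N) :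
    rows m (Finset.Ico k0 N) = rows m (Finset.Ico (k0 + 1) N) ∪ cellR (m k0) (m k0) k0 := by
  ext r
  rw [mem_rows, mem_union, mem_rows, mem_cellR, mem_Ico, mem_Ico]
  constructor
  · rintro ⟨h1, h2⟩
    by_cases h3 : r.1 = k0
    · right; rw [h3] at h2; exact ⟨h3, by omega, h2⟩
    · left; exact ⟨by omega, h2⟩
  · rintro (⟨h1, h2⟩ | ⟨h1, h2, h3⟩)
    · exact ⟨by omega, h2⟩
    · rw [h1]; exact ⟨by omega, h3⟩

lemma rows_ne (m : ℕ → ℕ) (k0 N : ℕ) : ∀ r ∈ rows m (Finset.Ico (k0 + 1) N), r.1 ≠ k0 := by
  intro r hr
  rw [mem_rows, mem_Ico] at hr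
  omega

lemma empty_of_rows {p q : ℕ} {D : Finset (ℕ × ℕ)} {c : ℕ} (hlow : ∀ d ∈ D, c ≤ lam p q d)
    (h : ∀ j, rowc p q D (c + j) = 0) : D = ∅ := by
  rw [eq_empty_iff_forall_notMem]
  intro d hd
  have h1 := idx_lt (p := p) (q := q) hd
  obtain ⟨j, hj⟩ : ∃ j, lam p q d = c + j := ⟨lam p q d - c, by have := hlow d hd; omega⟩
  rw [hj, h j] at h1
  omega

lemma low_succ {p q : ℕ} {D : Finset (ℕ × ℕ)} {c : ℕ} (hlow : ∀ d ∈ D, c ≤ lam p q d)
    (h : rowc p q D c = 0) : ∀ d ∈ D, c + 1 ≤ lam p q d := by
  intro d hd
  have h1 := idx_lt (p := p) (q := q) hd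
  have h2 := hlow d hd
  by_contra hcon
  have : lam p q d = c := by omega
  rw [this, h] at h1
  omega

lemma sum_shift {M : ℕ} {C : ℕ → ℕ} (hC : Prof M C) :
    ∑ j ∈ range M, C j = C 0 + ∑ j ∈ range M, C (j + 1) := by
  have h1 := sum_range_succ' C M
  have h2 := sum_range_succ C M
  rw [hC.van M le_rfl] at h2
  omega

theorem game_inj {p q M : ℕ} (hq : 1 ≤ q) (hM : 1 ≤ M) {m : ℕ → ℕ} (hm : ∀ k, m k ≤ M) {B : ℕ}
    {L : ℕ → ℕ} (hL : ∀ c, L c ≤ L (c + 1) + 1) (hB : ∀ c, B ≤ c → L c = 0) (N : ℕ) :
    ∀ n k0 c (D : Finset (ℕ × ℕ)) (C : ℕ → ℕ), (N - k0) + (B - c) ≤ n →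
      (∀ d ∈ D, c ≤ lam p q d) → (∀ j, rowc p q D (c + j) = L (c + j) - C j) → Prof M C →
      C 0 ≤ L c + (M - 1) → (M * M ≤ L c → C 0 ≤ L c) →
      ∑ c' ∈ Finset.Ico c B, (L c' + wl M L c') ≤
        ∑ k ∈ Finset.Ico k0 N, Nat.choose (m k + 1) 2 + ∑ j ∈ range M, C j →
      Inj D (rows m (Finset.Ico k0 N)) := by
  intro n
  induction n with
  | zero =>
    intro k0 c D C hn hlow hrow hC h0 h1 hsum
    have : D = ∅ := empty_of_rows hlow (fun j => by rw [hrow j, hB _ (by omega)]; simp)
    rw [this]
    exact inj_empty _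
  | succ n ih =>
    intro k0 c D C hn hlow hrow hC h0 h1 hsum
    rcases le_or_gt B c with hBc | hBc
    · have : D = ∅ := empty_of_rows hlow (fun j => by rw [hrow j, hB _ (by omega)]; simp)
      rw [this]
      exact inj_empty _
    have hrow0 : rowc p q D c = L c - C 0 := by simpa using hrow 0
    have hsplit : ∑ c' ∈ Finset.Ico c B, (L c' + wl M L c') =
        (L c + wl M L c) + ∑ c' ∈ Finset.Ico (c + 1) B, (L c' + wl M L c') :=
      sum_eq_sum_Ico_succ_bot hBc _
    have hsh := sum_shift hC
    rcases le_or_gt (L c) (C 0) with hs | hs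
    · -- shift
      apply ih k0 (c + 1) D (fun j => C (j + 1)) (by omega) (low_succ hlow (by omega))
      · intro j
        have := hrow (1 + j)
        rw [← add_assoc] at this
        rw [this, add_comm 1 j]
      · exact hC.shift
      · simp only [zero_add]
        have h2 := hC.le 0
        have h3 := hL c
        rw [zero_add] at h2
        omega
      · simp only [zero_add]
        intro hbig
        have h2 := hC.le 0
        have h3 := hL c
        rw [zero_add] at h2
        rcases le_or_gt (M * M) (L c) with h4 | h4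
        · have := h1 h4; omega
        · have h5 := hC.rate 0
          rw [zero_add] at h5
          by_contra hcon
          have h6 : M * (M * M + 1) ≤ M * C 1 := Nat.mul_le_mul_left _ (by omega)
          obtain ⟨y, rfl⟩ : ∃ y, M = y + 1 := ⟨M - 1, by omega⟩
          have h7 : C 0 ≤ (y + 1) * (y + 1) + y - 1 := by omega
          have h8 : 1 ≤ (y + 1) * (y + 1) := Nat.one_le_iff_ne_zero.2 (by positivity)
          have h9 : C 0 + 1 ≤ (y + 1) * (y + 1) + y := by omega
          have h10 : (y + 1) * C 0 = y * C 0 + C 0 := by ring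
          have h11 : (y + 1) * C 1 ≤ y * C 0 := by omega
          have h12 : y * (C 0 + 1) ≤ y * ((y + 1) * (y + 1) + y) := Nat.mul_le_mul_left _ h9
          nlinarith
      · rw [hsplit] at hsum
        have h2 : C 0 ≤ L c + wl M L c := by
          unfold wl
          split_ifs with h3
          · exact h0
          · have := h1 (by omega); omega
        omega
    · rcases le_or_gt N k0 with hN | hN
      · -- no points left: contradiction
        exfalso
        have hcap := cap0 hC hL (c := c) (by omega)
        have h2 : ∑ j ∈ range M, C j < ∑ j ∈ range M, L (c + j) := by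
          apply sum_lt_sum
          · intro j _; exact hcap j
          · exact ⟨0, mem_range.2 (by omega), by simpa using hs⟩
        have h3 : ∑ j ∈ range M, L (c + j) ≤ ∑ c' ∈ Finset.Ico c B, L c' := by
          have e1 : ∑ j ∈ range M, L (c + j) = ∑ c' ∈ Finset.Ico c (c + M), L c' := by
            rw [sum_Ico_eq_sum_range]
            congr 2; omega
          have e2 : ∑ c' ∈ Finset.Ico c (max B (c + M)), L c' = ∑ c' ∈ Finset.Ico c B, L c' := by
            symm
            apply sum_subset
            · intro x hx; rw [mem_Ico] at hx ⊢; omega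
            · intro x _ hx; rw [mem_Ico] at hx
              apply hB; rw [mem_Ico] at *; omega
          rw [e1, ← e2]
          apply sum_le_sum_of_subset
          intro x hx; rw [mem_Ico] at hx ⊢; omega
        rw [Finset.Ico_eq_empty (a := k0) (b := N) (by omega), sum_empty, sum_add_distrib] at hsum
        omega
      · rw [rows_succ m hN]
        have hsumk : ∑ k ∈ Finset.Ico k0 N, Nat.choose (m k + 1) 2 = Nat.choose (m k0 + 1) 2 +
            ∑ k ∈ Finset.Ico (k0 + 1) N, Nat.choose (m k + 1) 2 :=
          sum_eq_sum_Ico_succ_bot hN _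
        by_cases hnorm : C 0 + m k0 ≤ L c ∨ L c < M * M
        · -- normal move
          apply Inj.move hq c hlow (fun j => m k0 - j) (fun j => Or.inl le_rfl) _
            (rows_ne m k0 N)
          apply ih (k0 + 1) c _ (fun j => C j + (m k0 - j)) (by omega)
            (fun d hd => hlow d (mem_sdiff.1 hd).1)
          · intro j
            rw [rowc_sdiff hq, hrow j]; omega
          · exact hC.normal (hm k0)
          · simp only [Nat.sub_zero]
            have := hm k0
            omega
          · simp only [Nat.sub_zero]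
            intro hbig
            omega
          · have e : ∑ j ∈ range M, (C j + (m k0 - j)) = ∑ j ∈ range M, C j +
                Nat.choose (m k0 + 1) 2 := by rw [sum_add_distrib, sum_normal (hm k0)]
            rw [e]
            omega
        · -- special move
          push Not at hnorm
          obtain ⟨hn1, hn2⟩ := hnorm
          obtain ⟨r, hr⟩ : ∃ r, C 0 + r = L c := ⟨L c - C 0, by omega⟩
          have hr1 : 1 ≤ r := by omega
          have hrm : r < m k0 := by omega
          have hrowr : rowc p q D c = r := by omega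
          have hcap := cap2 hC hL (hm k0) hr1 hrm hr hn2
          apply Inj.move hq c hlow (sp (m k0) r) _ _ (rows_ne m k0 N)
          · intro j
            rcases Nat.eq_zero_or_pos j with rfl | hj0
            · left; rw [sp_zero]; omega
            · by_cases hj : j ≤ m k0 - r
              · right
                refine ⟨hj0, by omega, by omega, ?_⟩
                unfold sp
                rw [if_neg (by omega), if_pos hj]
              · left
                unfold sp
                rw [if_neg (by omega), if_neg hj]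
          · have hr0 : rowc p q (D \ rem p q D c (sp (m k0) r)) c = 0 := by
              have := rowc_sdiff (p := p) hq D c (sp (m k0) r) 0
              rw [add_zero, sp_zero] at this
              omega
            apply ih (k0 + 1) (c + 1) _ (fun j => C (j + 1) + sp (m k0) r (j + 1)) (by omega)
              (low_succ (fun d hd => hlow d (mem_sdiff.1 hd).1) hr0)
            · intro j
              have h2 := rowc_sdiff (p := p) hq D c (sp (m k0) r) (1 + j)
              have h3 := hrow (1 + j)
              rw [← add_assoc] at h2 h3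
              rw [h2, h3]
              rw [add_comm 1 j]; omega
            · exact hC.special (hm k0) hr1 hrm
            · have h2 := hcap 1 (by omega)
              simp only [zero_add]; omega
            · intro _
              have h2 := hcap 1 (by omega)
              simp only [zero_add]; omega
            · have e : ∑ j ∈ range M, (C (j + 1) + sp (m k0) r (j + 1)) =
                  ∑ j ∈ range M, C (j + 1) + ∑ j ∈ range M, sp (m k0) r (j + 1) := sum_add_distrib
              rw [e]
              have h2 := sum_sp (M := M) (m := m k0) (r := r) (by have := hm k0; omega) hr1 hrm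
              rw [hsplit] at hsum
              have h3 : wl M L c = 0 := by unfold wl; rw [if_neg (by omega)]
              omega

theorem game_ind {p q M : ℕ} (hq : 1 ≤ q) (hM : 1 ≤ M) {m : ℕ → ℕ} (hm : ∀ k, m k ≤ M) {B : ℕ}
    {L : ℕ → ℕ} (hL : ∀ c, L c ≤ L (c + 1) + 1) (hB : ∀ c, B ≤ c → L c = 0) (N : ℕ) :
    ∀ n k0 c (D : Finset (ℕ × ℕ)) (C : ℕ → ℕ), (N - k0) + (B - c) ≤ n →
      (∀ d ∈ D, c ≤ lam p q d) → (∀ j, rowc p q D (c + j) = L (c + j) - C j) → Prof M C →
      C 0 ≤ L c →
      ∑ k ∈ Finset.Ico k0 N, Nat.choose (m k + 1) 2 + ∑ j ∈ range M, C j +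
        ∑ c' ∈ Finset.Ico c B, wl M L c' ≤ ∑ c' ∈ Finset.Ico c B, L c' →
      Ind' D (rows m (Finset.Ico k0 N)) := by
  intro n
  have hbase : ∀ k0 c (D : Finset (ℕ × ℕ)) (C : ℕ → ℕ), B ≤ c →
      ∑ k ∈ Finset.Ico k0 N, Nat.choose (m k + 1) 2 + ∑ j ∈ range M, C j +
        ∑ c' ∈ Finset.Ico c B, wl M L c' ≤ ∑ c' ∈ Finset.Ico c B, L c' →
      Ind' D (rows m (Finset.Ico k0 N)) := by
    intro k0 c D C hBc hsum
    rw [Finset.Ico_eq_empty (a := c) (b := B) (by omega), sum_empty, sum_empty] at hsum
    have h1 : (rows m (Finset.Ico k0 N)).card = 0 := by rw [card_rows]; omega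
    rw [card_eq_zero] at h1
    rw [h1]
    exact ind'_empty _
  induction n with
  | zero =>
    intro k0 c D C hn hlow hrow hC h0 hsum
    exact hbase k0 c D C (by omega) hsum
  | succ n ih =>
    intro k0 c D C hn hlow hrow hC h0 hsum
    rcases le_or_gt B c with hBc | hBc
    · exact hbase k0 c D C hBc hsum
    rcases le_or_gt N k0 with hN | hN
    · have : rows m (Finset.Ico k0 N) = ∅ := by
        rw [Finset.Ico_eq_empty (by omega)]; rfl
      rw [this]
      exact ind'_empty _
    have hrow0 : rowc p q D c = L c - C 0 := by simpa using hrow 0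
    have hsplit : ∑ c' ∈ Finset.Ico c B, L c' = L c + ∑ c' ∈ Finset.Ico (c + 1) B, L c' :=
      sum_eq_sum_Ico_succ_bot hBc _
    have hsplit2 : ∑ c' ∈ Finset.Ico c B, wl M L c' = wl M L c +
        ∑ c' ∈ Finset.Ico (c + 1) B, wl M L c' :=
      sum_eq_sum_Ico_succ_bot hBc _
    have hsh := sum_shift hC
    have hsumk : ∑ k ∈ Finset.Ico k0 N, Nat.choose (m k + 1) 2 = Nat.choose (m k0 + 1) 2 +
        ∑ k ∈ Finset.Ico (k0 + 1) N, Nat.choose (m k + 1) 2 :=
      sum_eq_sum_Ico_succ_bot hN _
    have hcapn := cap0 hC hL (c := c) h0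
    rcases le_or_gt (C 0 + m k0) (L c) with hs | hs
    · -- normal move
      rw [rows_succ m hN]
      have hcap := cap1 hC hL (c := c) hs
      apply Ind'.move hq c hlow (fun j => m k0 - j) (fun j => Or.inl le_rfl)
        (fun j hj => by omega)
        (fun j hj => by rw [hrow j]; have := hcap j; omega) rfl _
        (rows_ne m k0 N)
      apply ih (k0 + 1) c _ (fun j => C j + (m k0 - j)) (by omega)
        (fun d hd => hlow d (mem_sdiff.1 hd).1)
      · intro j
        rw [rowc_sdiff hq, hrow j]; omega
      · exact hC.normal (hm k0)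
      · simpa using hs
      · have e : ∑ j ∈ range M, (C j + (m k0 - j)) = ∑ j ∈ range M, C j +
            Nat.choose (m k0 + 1) 2 := by rw [sum_add_distrib, sum_normal (hm k0)]
        rw [e]
        omega
    · rcases le_or_gt (L c) (C 0) with hs2 | hs2
      · -- shift
        apply ih k0 (c + 1) D (fun j => C (j + 1)) (by omega) (low_succ hlow (by omega))
        · intro j
          have := hrow (1 + j)
          rw [← add_assoc] at this
          rw [this, add_comm 1 j]
        · exact hC.shift
        · simpa using hcapn 1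
        · omega
      · obtain ⟨r, hr⟩ : ∃ r, C 0 + r = L c := ⟨L c - C 0, by omega⟩
        have hr1 : 1 ≤ r := by omega
        have hrm : r < m k0 := by omega
        have hrowr : rowc p q D c = r := by omega
        rcases le_or_gt (M * M) (L c) with hbig | hsmall
        · -- special move
          rw [rows_succ m hN]
          have hcap := cap2 hC hL (hm k0) hr1 hrm hr hbig
          have hsumm : ∑ j ∈ range (m k0), sp (m k0) r j = ∑ j ∈ range (m k0), (m k0 - j) := by
            obtain ⟨x, hx⟩ : ∃ x, m k0 = x + 1 := ⟨m k0 - 1, by omega⟩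
            have h2 := sum_sp (M := x) (m := m k0) (r := r) (by omega) hr1 hrm
            rw [sum_tri, ← h2, hx, sum_range_succ', sp_zero]
          apply Ind'.move hq c hlow (sp (m k0) r) _ _ _ hsumm _ (rows_ne m k0 N)
          · intro j
            rcases Nat.eq_zero_or_pos j with rfl | hj0
            · left; rw [sp_zero]; omega
            · by_cases hj : j ≤ m k0 - r
              · right
                refine ⟨hj0, by omega, by omega, ?_⟩
                unfold sp
                rw [if_neg (by omega), if_pos hj]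
              · left
                unfold sp
                rw [if_neg (by omega), if_neg hj]
          · intro j hj
            unfold sp
            rw [if_neg (by omega), if_neg (by omega)]
            omega
          · intro j hj
            rw [hrow j]
            have := hcap j hj
            omega
          · have hr0 : rowc p q (D \ rem p q D c (sp (m k0) r)) c = 0 := by
              have := rowc_sdiff (p := p) hq D c (sp (m k0) r) 0
              rw [add_zero, sp_zero] at this
              omega
            apply ih (k0 + 1) (c + 1) _ (fun j => C (j + 1) + sp (m k0) r (j + 1)) (by omega)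
              (low_succ (fun d hd => hlow d (mem_sdiff.1 hd).1) hr0)
            · intro j
              have h2 := rowc_sdiff (p := p) hq D c (sp (m k0) r) (1 + j)
              have h3 := hrow (1 + j)
              rw [← add_assoc] at h2 h3
              rw [h2, h3]
              rw [add_comm 1 j]; omega
            · exact hC.special (hm k0) hr1 hrm
            · have h2 := hcap 1 (by omega)
              simp only [zero_add]; omega
            · have e : ∑ j ∈ range M, (C (j + 1) + sp (m k0) r (j + 1)) =
                  ∑ j ∈ range M, C (j + 1) + ∑ j ∈ range M, sp (m k0) r (j + 1) := sum_add_distrib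
              rw [e]
              have h2 := sum_sp (M := M) (m := m k0) (r := r) (by have := hm k0; omega) hr1 hrm
              have h3 : wl M L c = 0 := by unfold wl; rw [if_neg (by omega)]
              omega
        · -- discard the rest of the row
          have hsub : D \ rowS p q D c ⊆ D := sdiff_subset
          apply Ind'.mono _ hsub
          apply ih k0 (c + 1) (D \ rowS p q D c) (fun j => C (j + 1)) (by omega)
          · intro d hd
            rw [mem_sdiff, mem_rowS] at hd
            have := hlow d hd.1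
            by_contra hcon
            exact hd.2 ⟨hd.1, by omega⟩
          · intro j
            have h2 := hrow (1 + j)
            rw [← add_assoc] at h2
            have h3 : rowc p q (D \ rowS p q D c) (c + 1 + j) = rowc p q D (c + 1 + j) := by
              unfold rowc
              congr 1
              ext d
              rw [mem_rowS, mem_rowS, mem_sdiff, mem_rowS]
              constructor
              · rintro ⟨⟨h4, _⟩, h5⟩; exact ⟨h4, h5⟩
              · rintro ⟨h4, h5⟩; exact ⟨⟨h4, fun h6 => by omega⟩, h5⟩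
            rw [h3, h2, add_comm 1 j]
          · exact hC.shift
          · simpa using hcapn 1
          · have h3 : wl M L c = M - 1 := by unfold wl; rw [if_pos hsmall]
            have := hm k0
            omega

end Pool.Agent.Lead.Rw
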