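import Mathlib
import Pool.Agent.Lead.RwGame

/-!
Simple points fill arbitrary gaps; the mixed row game.
-/

set_option autoImplicit false
set_option linter.unusedSectionVars false

namespace Pool.Agent.Lead.Rw

open Finset Pool.Agent.Lead.Sh

lemma nonvanish (D : Finset (ℕ × ℕ)) (c : ℕ × ℕ → ℂ) (h : ∃ d ∈ D, c d ≠ 0) :
    ∃ x y : ℂ, ∑ d ∈ D, c d * E (0, 0) d x y ≠ 0 := by
  obtain ⟨d0, hd0, hc0⟩ := h
  obtain ⟨N, hN⟩ := exists_bound D
  set f : Polynomial ℂ := ∑ d ∈ D, Polynomial.C (c d) * Polynomial.X ^ (d.1 + N * d.2) with hf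
  have hcoef : f.coeff (d0.1 + N * d0.2) = c d0 := by
    rw [hf, Polynomial.finsetSum_coeff, sum_eq_single d0]
    · simp
    · intro d hd hne
      rw [Polynomial.coeff_C_mul_X_pow, if_neg]
      intro he
      apply hne
      have h1 := hN d hd
      have h2 := hN d0 hd0
      have h3 : d.2 = d0.2 := by
        rcases lt_trichotomy d.2 d0.2 with h4 | h4 | h4
        · have : N * (d.2 + 1) ≤ N * d0.2 := Nat.mul_le_mul_left _ h4
          rw [mul_add] at this; omega
        · exact h4
        · have : N * (d0.2 + 1) ≤ N * d.2 := Nat.mul_le_mul_left _ h4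
          rw [mul_add] at this; omega
      rw [h3] at he
      exact Prod.ext (by omega) h3
    · intro hn; exact absurd hd0 hn
  have hne : f ≠ 0 := by
    intro h0
    rw [h0, Polynomial.coeff_zero] at hcoef
    exact hc0 hcoef.symm
  obtain ⟨t, ht⟩ : ∃ t : ℂ, f.eval t ≠ 0 := by
    by_contra hcon
    push Not at hcon
    exact hne (Polynomial.funext (fun r => by rw [hcon r, Polynomial.eval_zero]))
  refine ⟨t, t ^ N, ?_⟩
  intro h0
  apply ht
  rw [hf, Polynomial.eval_finsetSum, ← h0]
  apply sum_congr rfl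
  intro d _
  unfold E
  simp only [Polynomial.eval_mul, Polynomial.eval_C, Polynomial.eval_pow, Polynomial.eval_X,
    Nat.choose_zero_right, Nat.cast_one, Nat.sub_zero, one_mul]
  rw [← pow_mul, pow_add]

lemma cellR_one (k : ℕ) : cellR 1 1 k = {(k, (0, 0))} := by
  ext r
  rw [mem_cellR, mem_singleton]
  constructor
  · rintro ⟨h1, h2, h3⟩
    exact Prod.ext h1 (Prod.ext (by show r.2.1 = 0; omega) (by show r.2.2 = 0; omega))
  · rintro rfl
    exact ⟨rfl, by simp, by simp⟩

/-- a simple point fills one gap -/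
theorem Inj.fill1 {D : Finset (ℕ × ℕ)} {R : Finset Row} {k : ℕ} {x : ℕ × ℕ} (hx : x ∈ D)
    (h : Inj (D.erase x) R) (hk : ∀ r ∈ R, r.1 ≠ k) : Inj D (R ∪ cellR 1 1 k) := by
  obtain ⟨P, hP⟩ := h
  by_cases hD : InjAt D R P
  · exact Inj.mono ⟨P, hD⟩ (Subset.refl _) subset_union_left
  · unfold InjAt at hD
    push Not at hD
    obtain ⟨c0, hc0, hne⟩ := hD
    have hz : ∀ c : ℕ × ℕ → ℂ, (∀ r ∈ R, ∑ d ∈ D, c d * E r.2 d (P r.1).1 (P r.1).2 = 0) →
        c x = 0 → ∀ d ∈ D, c d = 0 := by
      intro c hc hcx d hd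
      by_cases hdx : d = x
      · rw [hdx]; exact hcx
      · apply hP c _ d (mem_erase.2 ⟨hdx, hd⟩)
        intro r hr
        have := hc r hr
        rw [← add_sum_erase D _ hx, hcx] at this
        simpa using this
    have hcx0 : c0 x ≠ 0 := by
      intro h0
      obtain ⟨d, hd, hdn⟩ := hne
      exact hdn (hz c0 hc0 h0 d hd)
    obtain ⟨u, v, huv⟩ := nonvanish D c0 hne
    refine ⟨fun i => if i = k then (u, v) else P i, ?_⟩
    intro c hc
    have h1 : ∀ d ∈ D, c d - (c x / c0 x) * c0 d = 0 := by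
      apply hz (fun d => c d - (c x / c0 x) * c0 d)
      · intro r hr
        have h2 := hc r (mem_union_left _ hr)
        simp only [if_neg (hk r hr)] at h2
        have h3 := hc0 r hr
        have e : ∀ d ∈ D, (c d - (c x / c0 x) * c0 d) * E r.2 d (P r.1).1 (P r.1).2 =
            c d * E r.2 d (P r.1).1 (P r.1).2 - (c x / c0 x) *
              (c0 d * E r.2 d (P r.1).1 (P r.1).2) := fun d _ => by ring
        rw [sum_congr rfl e, sum_sub_distrib, ← mul_sum, h3, h2]; simp
      · field_simp
        ring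
    have h4 := hc (k, (0, 0)) (mem_union_right _ (by rw [cellR_one]; exact mem_singleton_self _))
    simp only [↓reduceIte] at h4
    have h5 : (c x / c0 x) * ∑ d ∈ D, c0 d * E (0, 0) d u v = 0 := by
      rw [mul_sum]
      refine Eq.trans ?_ h4
      apply sum_congr rfl
      intro d hd
      have := h1 d hd
      have e : c d = (c x / c0 x) * c0 d := by linear_combination this
      rw [e]; ring
    rcases mul_eq_zero.1 h5 with h6 | h6
    · intro d hd
      have := h1 d hd
      rw [h6] at this
      simpa using this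
    · exact absurd h6 huv

/-- simple points fill gaps -/
theorem Inj.fill {m : ℕ → ℕ} {k0 n : ℕ} (hn : k0 ≤ n) : ∀ (r : ℕ) (D A : Finset (ℕ × ℕ)), A ⊆ D →
    A.card = r → (∀ i, n ≤ i → i < n + r → m i = 1) → Inj (D \ A) (rows m (Finset.Ico k0 n)) →
    Inj D (rows m (Finset.Ico k0 (n + r))) := by
  intro r
  induction r with
  | zero =>
    intro D A hA hc _ h
    rw [card_eq_zero] at hc
    rw [hc, sdiff_empty] at h
    exact h
  | succ r ih =>
    intro D A hA hc hm h
    obtain ⟨x, hx⟩ : ∃ x, x ∈ A := by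
      rw [← Finset.Nonempty, ← card_pos]; omega
    have h1 : Inj (D.erase x) (rows m (Finset.Ico k0 (n + r))) := by
      apply ih (D.erase x) (A.erase x) (erase_subset_erase _ hA)
        (by rw [card_erase_of_mem hx, hc]; rfl) (fun i hi1 hi2 => hm i hi1 (by omega))
      apply h.mono _ (Subset.refl _)
      intro y hy
      rw [mem_sdiff, mem_erase, mem_erase] at hy
      rw [mem_sdiff]
      exact ⟨hy.1.2, fun hyA => hy.2 ⟨hy.1.1, hyA⟩⟩
    have h2 := Inj.fill1 (k := n + r) (hA hx) h1 (by
      intro z hz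
      rw [mem_rows, mem_Ico] at hz
      omega)
    have h3 : rows m (Finset.Ico k0 (n + (r + 1))) = rows m (Finset.Ico k0 (n + r)) ∪
        cellR 1 1 (n + r) := by
      ext z
      rw [mem_rows, mem_union, mem_rows, mem_cellR, mem_Ico, mem_Ico]
      have hmr := hm (n + r) (by omega) (by omega)
      constructor
      · rintro ⟨h1, h2⟩
        by_cases h3 : z.1 = n + r
        · right; rw [h3, hmr] at h2; exact ⟨h3, by omega, h2⟩
        · left; exact ⟨by omega, h2⟩
      · rintro (⟨h1, h2⟩ | ⟨h1, h2, h3⟩)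
        · exact ⟨by omega, h2⟩
        · rw [h1, hmr]; exact ⟨by omega, h3⟩
    rw [h3]
    exact h2

lemma sum_simple {m : ℕ → ℕ} {k0 n f : ℕ} (hn : k0 ≤ n) (hm : ∀ i, n ≤ i → i < n + f → m i = 1) :
    ∑ k ∈ Finset.Ico k0 (n + f), Nat.choose (m k + 1) 2 =
      ∑ k ∈ Finset.Ico k0 n, Nat.choose (m k + 1) 2 + f := by
  rw [← sum_Ico_consecutive _ hn (Nat.le_add_right n f)]
  congr 1
  have : ∀ k ∈ Finset.Ico n (n + f), Nat.choose (m k + 1) 2 = 1 := by
    intro k hk
    rw [mem_Ico] at hk
    rw [hm k hk.1 hk.2]; rfl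
  rw [sum_congr rfl this]
  simp

/-- adding simple points to a solvable square subproblem -/
theorem ind'_ext {m : ℕ → ℕ} {k0 n f : ℕ} (hn : k0 ≤ n) (hm : ∀ i, n ≤ i → i < n + f → m i = 1)
    {D : Finset (ℕ × ℕ)} (h : Ind' D (rows m (Finset.Ico k0 n))) :
    ((rows m (Finset.Ico k0 (n + f))).card ≤ D.card → Ind' D (rows m (Finset.Ico k0 (n + f)))) ∧
    (D.card ≤ (rows m (Finset.Ico k0 (n + f))).card → Inj D (rows m (Finset.Ico k0 (n + f)))) := by
  obtain ⟨D', h1, h2, h3⟩ := h
  have hc1 : (rows m (Finset.Ico k0 (n + f))).card = (rows m (Finset.Ico k0 n)).card + f := by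
    rw [card_rows, card_rows, sum_simple hn hm]
  have hA : (D \ D').card = D.card - (rows m (Finset.Ico k0 n)).card := by
    rw [card_sdiff_of_subset h1, h2]
  have hle : D'.card ≤ D.card := card_le_card h1
  constructor
  · intro hc
    obtain ⟨A, hA1, hA2⟩ := exists_subset_card_eq (s := D \ D') (n := f) (by omega)
    have hdisj : Disjoint D' A := by
      rw [disjoint_left]
      intro x hx hx2
      exact (mem_sdiff.1 (hA1 hx2)).2 hx
    refine ⟨D' ∪ A, union_subset h1 (hA1.trans sdiff_subset), ?_, ?_⟩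
    · rw [card_union_of_disjoint hdisj]; omega
    · apply Inj.fill hn f (D' ∪ A) A subset_union_right hA2 hm
      rw [union_sdiff_right, sdiff_eq_self_of_disjoint hdisj]
      exact h3
  · intro hc
    obtain ⟨x, hx⟩ : ∃ x, f = D.card - (rows m (Finset.Ico k0 n)).card + x :=
      ⟨f - (D.card - (rows m (Finset.Ico k0 n)).card), by omega⟩
    have h4 : Inj D (rows m (Finset.Ico k0 (n + (D.card - (rows m (Finset.Ico k0 n)).card)))) := by
      apply Inj.fill hn _ D (D \ D') sdiff_subset hA (fun i h5 h6 => hm i h5 (by omega))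
      rw [Finset.sdiff_sdiff_eq_self h1]
      exact h3
    apply h4.mono (Subset.refl _) (rows_mono _)
    intro i hi
    rw [mem_Ico] at hi ⊢
    omega

lemma sum_gap {M : ℕ} (hM : 1 ≤ M) {C L : ℕ → ℕ} (hC : Prof M C)
    (hL : ∀ c, L c ≤ L (c + 1) + 1) {B : ℕ} (hB : ∀ c, B ≤ c → L c = 0) {c : ℕ} (h : C 0 ≤ L c) :
    ∑ j ∈ range M, C j + (L c - C 0) ≤ ∑ c' ∈ Finset.Ico c B, L c' := by
  have hcap := cap0 hC hL h
  have h3 : ∑ j ∈ range M, L (c + j) ≤ ∑ c' ∈ Finset.Ico c B, L c' := by
    have e1 : ∑ j ∈ range M, L (c + j) = ∑ c' ∈ Finset.Ico c (c + M), L c' := by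
      rw [sum_Ico_eq_sum_range]
      congr 2; omega
    have e2 : ∑ c' ∈ Finset.Ico c (max B (c + M)), L c' = ∑ c' ∈ Finset.Ico c B, L c' := by
      symm
      apply sum_subset
      · intro x hx; rw [mem_Ico] at hx ⊢; omega
      · intro x _ hx; rw [mem_Ico] at hx
        apply hB; rw [mem_Ico] at *; omega
    rw [e1, ← e2]
    apply sum_le_sum_of_subset
    intro x hx; rw [mem_Ico] at hx ⊢; omega
  refine le_trans ?_ h3
  obtain ⟨x, rfl⟩ : ∃ x, M = x + 1 := ⟨M - 1, by omega⟩
  rw [sum_range_succ', sum_range_succ' (fun j => L (c + j))]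
  have : ∑ k ∈ range x, C (k + 1) ≤ ∑ k ∈ range x, L (c + (k + 1)) :=
    sum_le_sum (fun k _ => hcap (k + 1))
  simp only [add_zero]
  omega

lemma row_removed {p q : ℕ} {D : Finset (ℕ × ℕ)} {c : ℕ} {L C : ℕ → ℕ}
    (hlow : ∀ d ∈ D, c ≤ lam p q d) (hrow : ∀ j, rowc p q D (c + j) = L (c + j) - C j) :
    (∀ d ∈ D \ rowS p q D c, c + 1 ≤ lam p q d) ∧
    (∀ j, rowc p q (D \ rowS p q D c) (c + 1 + j) = L (c + 1 + j) - C (j + 1)) := by
  constructor
  · intro d hd
    rw [mem_sdiff, mem_rowS] at hd
    have := hlow d hd.1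
    by_contra hcon
    exact hd.2 ⟨hd.1, by omega⟩
  · intro j
    have h2 := hrow (1 + j)
    rw [← add_assoc] at h2
    have h3 : rowc p q (D \ rowS p q D c) (c + 1 + j) = rowc p q D (c + 1 + j) := by
      unfold rowc
      congr 1
      ext d
      rw [mem_rowS, mem_rowS, mem_sdiff, mem_rowS]
      constructor
      · rintro ⟨⟨h4, _⟩, h5⟩; exact ⟨h4, h5⟩
      · rintro ⟨h4, h5⟩; exact ⟨⟨h4, fun h6 => by omega⟩, h5⟩
    rw [h3, h2, add_comm 1 j]

theorem game_simple {p q M : ℕ} (hM : 1 ≤ M) {m : ℕ → ℕ} {B : ℕ}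
    {L : ℕ → ℕ} (hL : ∀ c, L c ≤ L (c + 1) + 1) (hB : ∀ c, B ≤ c → L c = 0) (N : ℕ) :
    ∀ n c (D : Finset (ℕ × ℕ)) (C : ℕ → ℕ) (f : ℕ), (B - c) ≤ n →
      (∀ d ∈ D, c ≤ lam p q d) → (∀ j, rowc p q D (c + j) = L (c + j) - C j) → Prof M C →
      C 0 ≤ L c → (∀ i, N ≤ i → i < N + f → m i = 1) →
      ∑ c' ∈ Finset.Ico c B, L c' ≤ ∑ j ∈ range M, C j + f →
      Inj D (rows m (Finset.Ico N (N + f))) := by
  intro n
  induction n with
  | zero =>
    intro c D C f hn hlow hrow hC h0 hm hsum
    have : D = ∅ := empty_of_rows hlow (fun j => by rw [hrow j, hB _ (by omega)]; simp)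
    rw [this]
    exact inj_empty _
  | succ n ih =>
    intro c D C f hn hlow hrow hC h0 hm hsum
    rcases le_or_gt B c with hBc | hBc
    · have : D = ∅ := empty_of_rows hlow (fun j => by rw [hrow j, hB _ (by omega)]; simp)
      rw [this]
      exact inj_empty _
    have hrow0 : rowc p q D c = L c - C 0 := by simpa using hrow 0
    have hsplit : ∑ c' ∈ Finset.Ico c B, L c' = L c + ∑ c' ∈ Finset.Ico (c + 1) B, L c' :=
      sum_eq_sum_Ico_succ_bot hBc _
    have hsh := sum_shift hC
    have hgap := sum_gap hM hC hL hB h0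
    obtain ⟨r, hr⟩ : ∃ r, L c = C 0 + r := ⟨L c - C 0, by omega⟩
    obtain ⟨g, hg⟩ : ∃ g, f = g + r := ⟨f - r, by omega⟩
    obtain ⟨hr1, hr2⟩ := row_removed hlow hrow
    subst hg
    rw [← add_assoc]
    apply Inj.fill (Nat.le_add_right N g) r D (rowS p q D c) (filter_subset _ _)
      (by show rowc p q D c = r; omega) (fun i h1 h2 => hm i (by omega) (by omega))
    apply ih (c + 1) _ (fun j => C (j + 1)) g (by omega) hr1 hr2 hC.shift
    · simpa using cap0 hC hL h0 1
    · intro i h1 h2; exact hm i h1 (by omega)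
    · omega

theorem game_mix {p q M : ℕ} (hq : 1 ≤ q) (hM : 1 ≤ M) {m : ℕ → ℕ} (hm : ∀ k, m k ≤ M) {B : ℕ}
    {L : ℕ → ℕ} (hL : ∀ c, L c ≤ L (c + 1) + 1) (hB : ∀ c, B ≤ c → L c = 0) (N : ℕ) :
    ∀ n k0 c (D : Finset (ℕ × ℕ)) (C : ℕ → ℕ) (f : ℕ), (N - k0) + (B - c) ≤ n → k0 ≤ N →
      (∀ d ∈ D, c ≤ lam p q d) → (∀ j, rowc p q D (c + j) = L (c + j) - C j) → Prof M C →
      C 0 ≤ L c → (∀ i, N ≤ i → i < N + f → m i = 1) →
      ∑ c' ∈ Finset.Ico c B, L c' ≤
        ∑ k ∈ Finset.Ico k0 N, Nat.choose (m k + 1) 2 + ∑ j ∈ range M, C j + f →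
      ∑ c' ∈ Finset.Ico c B, L c' + ∑ c' ∈ Finset.Ico c B, wl M L c' + (M - 1) ≤
        ∑ k ∈ Finset.Ico k0 N, Nat.choose (m k + 1) 2 + ∑ j ∈ range M, C j + 2 * f →
      Inj D (rows m (Finset.Ico k0 (N + f))) := by
  intro n
  induction n with
  | zero =>
    intro k0 c D C f hn hkN hlow hrow hC h0 hm1 hsum hsum2
    have : D = ∅ := empty_of_rows hlow (fun j => by rw [hrow j, hB _ (by omega)]; simp)
    rw [this]
    exact inj_empty _
  | succ n ih =>
    intro k0 c D C f hn hkN hlow hrow hC h0 hm1 hsum hsum2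
    rcases le_or_gt B c with hBc | hBc
    · have : D = ∅ := empty_of_rows hlow (fun j => by rw [hrow j, hB _ (by omega)]; simp)
      rw [this]
      exact inj_empty _
    have hrow0 : rowc p q D c = L c - C 0 := by simpa using hrow 0
    have hsplit : ∑ c' ∈ Finset.Ico c B, L c' = L c + ∑ c' ∈ Finset.Ico (c + 1) B, L c' :=
      sum_eq_sum_Ico_succ_bot hBc _
    have hsplit2 : ∑ c' ∈ Finset.Ico c B, wl M L c' = wl M L c +
        ∑ c' ∈ Finset.Ico (c + 1) B, wl M L c' :=
      sum_eq_sum_Ico_succ_bot hBc _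
    have hsh := sum_shift hC
    have hcapn := cap0 hC hL (c := c) h0
    rcases le_or_gt N k0 with hN | hN
    · have hk : k0 = N := by omega
      subst hk
      apply game_simple hM hL hB k0 (B - c) c D C f le_rfl hlow hrow hC h0 hm1
      simpa using hsum
    have hsumk : ∑ k ∈ Finset.Ico k0 N, Nat.choose (m k + 1) 2 = Nat.choose (m k0 + 1) 2 +
        ∑ k ∈ Finset.Ico (k0 + 1) N, Nat.choose (m k + 1) 2 :=
      sum_eq_sum_Ico_succ_bot hN _
    rcases le_or_gt (C 0 + m k0) (L c) with hs | hs
    · -- normal move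
      rw [rows_succ m (by omega : k0 < N + f)]
      apply Inj.move hq c hlow (fun j => m k0 - j) (fun j => Or.inl le_rfl) _
        (rows_ne m k0 (N + f))
      have e : ∑ j ∈ range M, (C j + (m k0 - j)) = ∑ j ∈ range M, C j +
          Nat.choose (m k0 + 1) 2 := by rw [sum_add_distrib, sum_normal (hm k0)]
      apply ih (k0 + 1) c _ (fun j => C j + (m k0 - j)) f (by omega) (by omega)
        (fun d hd => hlow d (mem_sdiff.1 hd).1)
      · intro j
        rw [rowc_sdiff hq, hrow j]; omega
      · exact hC.normal (hm k0)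
      · simpa using hs
      · exact hm1
      · rw [e]; omega
      · rw [e]; omega
    · rcases le_or_gt (L c) (C 0) with hs2 | hs2
      · -- shift
        apply ih k0 (c + 1) D (fun j => C (j + 1)) f (by omega) hkN (low_succ hlow (by omega))
        · intro j
          have := hrow (1 + j)
          rw [← add_assoc] at this
          rw [this, add_comm 1 j]
        · exact hC.shift
        · simpa using hcapn 1
        · exact hm1
        · omega
        · omega
      · obtain ⟨r, hr⟩ : ∃ r, C 0 + r = L c := ⟨L c - C 0, by omega⟩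
        have hr1 : 1 ≤ r := by omega
        have hrm : r < m k0 := by omega
        have hrowr : rowc p q D c = r := by omega
        rcases le_or_gt (M * M) (L c) with hbig | hsmall
        · -- special move
          rw [rows_succ m (by omega : k0 < N + f)]
          have hcap := cap2 hC hL (hm k0) hr1 hrm hr hbig
          apply Inj.move hq c hlow (sp (m k0) r) _ _ (rows_ne m k0 (N + f))
          · intro j
            rcases Nat.eq_zero_or_pos j with rfl | hj0
            · left; rw [sp_zero]; omega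
            · by_cases hj : j ≤ m k0 - r
              · right
                refine ⟨hj0, by omega, by omega, ?_⟩
                unfold sp
                rw [if_neg (by omega), if_pos hj]
              · left
                unfold sp
                rw [if_neg (by omega), if_neg hj]
          · have hr0 : rowc p q (D \ rem p q D c (sp (m k0) r)) c = 0 := by
              have := rowc_sdiff (p := p) hq D c (sp (m k0) r) 0
              rw [add_zero, sp_zero] at this
              omega
            have e : ∑ j ∈ range M, (C (j + 1) + sp (m k0) r (j + 1)) =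
                ∑ j ∈ range M, C (j + 1) + ∑ j ∈ range M, sp (m k0) r (j + 1) := sum_add_distrib
            have h2 := sum_sp (M := M) (m := m k0) (r := r) (by have := hm k0; omega) hr1 hrm
            apply ih (k0 + 1) (c + 1) _ (fun j => C (j + 1) + sp (m k0) r (j + 1)) f (by omega)
              (by omega) (low_succ (fun d hd => hlow d (mem_sdiff.1 hd).1) hr0)
            · intro j
              have h2 := rowc_sdiff (p := p) hq D c (sp (m k0) r) (1 + j)
              have h3 := hrow (1 + j)
              rw [← add_assoc] at h2 h3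
              rw [h2, h3]
              rw [add_comm 1 j]; omega
            · exact hC.special (hm k0) hr1 hrm
            · have h2 := hcap 1 (by omega)
              simp only [zero_add]; omega
            · exact hm1
            · rw [e]; omega
            · rw [e]; omega
        · -- a thin row
          have hwl : wl M L c = M - 1 := by unfold wl; rw [if_pos hsmall]
          have hmk := hm k0
          rcases le_or_gt r f with hf | hf
          · -- fill by simple points
            obtain ⟨g, hg⟩ : ∃ g, f = g + r := ⟨f - r, by omega⟩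
            obtain ⟨hr1', hr2'⟩ := row_removed hlow hrow
            subst hg
            rw [← add_assoc]
            apply Inj.fill (by omega : k0 ≤ N + g) r D (rowS p q D c) (filter_subset _ _)
              (by show rowc p q D c = r; omega) (fun i h1 h2 => hm1 i (by omega) (by omega))
            apply ih k0 (c + 1) _ (fun j => C (j + 1)) g (by omega) hkN hr1' hr2' hC.shift
            · simpa using hcapn 1
            · intro i h1 h2; exact hm1 i h1 (by omega)
            · omega
            · omega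
          · -- overflow from now on
            apply game_inj hq hM hm hL hB (N + f) _ k0 c D C le_rfl hlow hrow hC (by omega)
              (fun _ => h0)
            rw [sum_simple hkN hm1, sum_add_distrib]
            omega

end Pool.Agent.Lead.Rw
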