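import Mathlib
import Pool.Agent.Lead.RwFill

/-!
Non-speciality from the row game on the full triangle.
-/

set_option autoImplicit false
set_option linter.unusedSectionVars false

namespace Pool.Agent.Lead.Rw

open Finset Pool.Agent.Lead.Sh

theorem concl (s : ℕ) (m : ℕ → ℕ) (d : ℕ)
    (h : (∑ i ∈ range s, Nat.choose (m i + 1) 2 ≤ Nat.choose (d + 2) 2 ∧
        Ind (triD 0 d) (rows m (range s))) ∨
      (Nat.choose (d + 2) 2 ≤ ∑ i ∈ range s, Nat.choose (m i + 1) 2 ∧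
        Inj (triD 0 d) (rows m (range s)))) :
    ∃ G : MvPolynomial (Fin s × Fin 3) ℂ, G ≠ 0 ∧
        ∀ P : Fin s → Fin 3 → ℂ, (∀ i, P i ≠ 0) →
          MvPolynomial.eval (fun ij : Fin s × Fin 3 => P ij.1 ij.2) G ≠ 0 →
          (Module.finrank ℂ
            (↥(MvPolynomial.homogeneousSubmodule (Fin 3) ℂ d ⊓
              ⨅ i : Fin s, Submodule.restrictScalars ℂ
                ((Ideal.span {g : MvPolynomial (Fin 3) ℂ |
                    g.IsHomogeneous 1 ∧ MvPolynomial.eval (P i) g = 0}) ^ (m (i : ℕ))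
                  : Ideal (MvPolynomial (Fin 3) ℂ)))) : ℤ)
            = max ((Nat.choose (d + 2) 2 : ℤ) -
                ∑ i : Fin s, (Nat.choose (m (i : ℕ) + 1) 2 : ℤ)) 0 := by
  have hsum : ∑ i : Fin s, Nat.choose (m (i : ℕ) + 1) 2 =
      ∑ i ∈ range s, Nat.choose (m i + 1) 2 := Fin.sum_univ_eq_sum_range
        (fun i => Nat.choose (m i + 1) 2) s
  have hsumZ : ∑ i : Fin s, (Nat.choose (m (i : ℕ) + 1) 2 : ℤ) =
      ((∑ i ∈ range s, Nat.choose (m i + 1) 2 : ℕ) : ℤ) := by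
    rw [← hsum]; push_cast; rfl
  rcases h with ⟨_, h⟩ | ⟨h0, h⟩
  · obtain ⟨G, hG, hG2⟩ := generic_ind h
    refine ⟨G, hG, ?_⟩
    intro P _ hP
    obtain ⟨h2, hI⟩ := hG2 P hP
    have h3 := finrank_of_ind h2 hI
    have h4 : (Module.finrank ℂ ↥(Vsp s m d P) : ℤ) = max ((Nat.choose (d + 2) 2 : ℤ) -
        ∑ i : Fin s, (Nat.choose (m (i : ℕ) + 1) 2 : ℤ)) 0 := by
      rw [hsumZ, ← h3]
      push_cast
      rw [max_eq_left]
      · ring
      · have : (0 : ℤ) ≤ (Module.finrank ℂ ↥(Vsp s m d P) : ℤ) := by positivity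
        linarith
    exact h4
  · obtain ⟨G, hG, hG2⟩ := generic_inj h
    refine ⟨G, hG, ?_⟩
    intro P _ hP
    obtain ⟨h2, hI⟩ := hG2 P hP
    have h3 := finrank_of_inj h2 hI
    have h4 : (Module.finrank ℂ ↥(Vsp s m d P) : ℤ) = max ((Nat.choose (d + 2) 2 : ℤ) -
        ∑ i : Fin s, (Nat.choose (m (i : ℕ) + 1) 2 : ℤ)) 0 := by
      rw [hsumZ, h3, max_eq_right]
      · simp
      · have : ((Nat.choose (d + 2) 2 : ℕ) : ℤ) ≤
            ((∑ i ∈ range s, Nat.choose (m i + 1) 2 : ℕ) : ℤ) := by exact_mod_cast h0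
        linarith
    exact h4

/-- separating the points of multiplicity at least two, one and zero -/
lemma split_mult {m : ℕ → ℕ} (hm : Antitone m) {s : ℕ} (hs : ∀ i, s ≤ i → m i = 0) :
    ∃ N f : ℕ, N + f ≤ s ∧ (∀ i, N ≤ i → i < N + f → m i = 1) ∧ (∀ i, N + f ≤ i → m i = 0) ∧
      (∀ i < N, 2 ≤ m i) := by
  have hex1 : ∃ i, m i ≤ 1 := ⟨s, by rw [hs s le_rfl]; omega⟩
  have hex0 : ∃ i, m i = 0 := ⟨s, hs s le_rfl⟩
  classical
  set N := Nat.find hex1 with hN
  set T := Nat.find hex0 with hT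
  have hN1 : m N ≤ 1 := Nat.find_spec hex1
  have hN2 : ∀ i < N, ¬ m i ≤ 1 := fun i hi => Nat.find_min hex1 hi
  have hT1 : m T = 0 := Nat.find_spec hex0
  have hT2 : ∀ i < T, m i ≠ 0 := fun i hi => Nat.find_min hex0 hi
  have hTs : T ≤ s := Nat.find_min' hex0 (hs s le_rfl)
  have hNT : N ≤ T := Nat.find_min' hex1 (by omega)
  refine ⟨N, T - N, by omega, ?_, ?_, ?_⟩
  · intro i h1 h2
    have h3 := hm h1
    have h4 := hT2 i (by omega)
    omega
  · intro i h1
    have h3 := hm (show T ≤ i by omega)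
    omega
  · intro i hi
    have := hN2 i hi
    omega

lemma rows_range_eq {m : ℕ → ℕ} {s t : ℕ} (hts : t ≤ s) (h0 : ∀ i, t ≤ i → m i = 0) :
    rows m (range s) = rows m (range t) := by
  ext r
  rw [mem_rows, mem_rows, mem_range, mem_range]
  constructor
  · rintro ⟨h1, h2⟩
    by_cases h3 : r.1 < t
    · exact ⟨h3, h2⟩
    · rw [h0 _ (by omega)] at h2; omega
  · rintro ⟨h1, h2⟩; exact ⟨by omega, h2⟩

lemma sum_range_eq {m : ℕ → ℕ} {s t : ℕ} (hts : t ≤ s) (h0 : ∀ i, t ≤ i → m i = 0) :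
    ∑ i ∈ range s, Nat.choose (m i + 1) 2 = ∑ i ∈ range t, Nat.choose (m i + 1) 2 := by
  symm
  apply sum_subset
  · intro x hx; rw [mem_range] at hx ⊢; omega
  · intro x _ hx
    rw [mem_range] at hx
    rw [h0 x (by omega)]; rfl

lemma card_simple {m : ℕ → ℕ} {s N f : ℕ} (hle : N + f ≤ s)
    (h1 : ∀ i, N ≤ i → i < N + f → m i = 1) (h0 : ∀ i, N + f ≤ i → m i = 0)
    (h2 : ∀ i < N, 2 ≤ m i) :
    (univ.filter (fun i : Fin s => m (i : ℕ) = 1)).card = f := by
  have : (univ.filter (fun i : Fin s => m (i : ℕ) = 1)).map Fin.valEmbedding =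
      Finset.Ico N (N + f) := by
    ext x
    rw [mem_map, mem_Ico]
    constructor
    · rintro ⟨i, hi, rfl⟩
      rw [mem_filter] at hi
      have hi2 : m (i : ℕ) = 1 := hi.2
      simp only [Fin.valEmbedding_apply]
      constructor
      · by_contra hcon
        have := h2 i (by omega)
        omega
      · by_contra hcon
        have := h0 i (by omega)
        omega
    · rintro ⟨h3, h4⟩
      exact ⟨⟨x, by omega⟩, mem_filter.2 ⟨mem_univ _, h1 x h3 h4⟩, rfl⟩
  rw [← card_map Fin.valEmbedding, this]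
  simp

lemma rowc_tri (d c : ℕ) : rowc 0 1 (triD 0 d) c = d + 1 - c := by
  unfold rowc
  have : rowS 0 1 (triD 0 d) c = (range (d + 1 - c)).image (fun a => (a, c)) := by
    ext x
    rw [mem_rowS, mem_triD, mem_image]
    unfold lam
    constructor
    · rintro ⟨⟨_, h1⟩, h2⟩
      exact ⟨x.1, mem_range.2 (by omega), Prod.ext rfl (by simp only; omega)⟩
    · rintro ⟨a, ha, rfl⟩
      rw [mem_range] at ha
      simp only
      exact ⟨⟨Nat.zero_le _, by omega⟩, by omega⟩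
  rw [this, card_image_of_injective, card_range]
  intro a b hab
  exact (Prod.ext_iff.1 hab).1

lemma sum_wl_le {M B c0 K : ℕ} {L : ℕ → ℕ}
    (h : ((Finset.Ico c0 B).filter (fun c => L c < M * M)).card ≤ K) :
    ∑ c ∈ Finset.Ico c0 B, wl M L c ≤ (M - 1) * K := by
  unfold wl
  rw [← sum_filter, sum_const, smul_eq_mul, mul_comm]
  exact Nat.mul_le_mul_left _ h

theorem tri_case {m : ℕ → ℕ} (hm : Antitone m) {s : ℕ} (hs : ∀ i, s ≤ i → m i = 0) (d : ℕ)
    (h : ((m 0 : ℤ) - 1) * (min (d + 2) (m 0 ^ 2) : ℕ) ≤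
      ((univ.filter (fun i : Fin s => m (i : ℕ) = 1)).card : ℤ) +
        |(Nat.choose (d + 2) 2 : ℤ) - ∑ i : Fin s, (Nat.choose (m (i : ℕ) + 1) 2 : ℤ)|) :
    (∑ i ∈ range s, Nat.choose (m i + 1) 2 ≤ Nat.choose (d + 2) 2 ∧
        Ind (triD 0 d) (rows m (range s))) ∨
      (Nat.choose (d + 2) 2 ≤ ∑ i ∈ range s, Nat.choose (m i + 1) 2 ∧
        Inj (triD 0 d) (rows m (range s))) := by
  obtain ⟨N, f, hNf, h1, h0, h2⟩ := split_mult hm hs
  have hsumZ : ∑ i : Fin s, (Nat.choose (m (i : ℕ) + 1) 2 : ℤ) =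
      ((∑ i ∈ range s, Nat.choose (m i + 1) 2 : ℕ) : ℤ) := by
    rw [← Fin.sum_univ_eq_sum_range (fun i => Nat.choose (m i + 1) 2) s]; push_cast; rfl
  rw [card_simple hNf h1 h0 h2, hsumZ, sum_range_eq hNf h0] at h
  rw [rows_range_eq hNf h0, sum_range_eq hNf h0]
  set S := ∑ i ∈ range (N + f), Nat.choose (m i + 1) 2 with hS
  set T := Nat.choose (d + 2) 2 with hT
  have hSN : S = ∑ i ∈ Finset.Ico 0 N, Nat.choose (m i + 1) 2 + f := by
    rw [hS, range_eq_Ico]
    exact sum_simple (Nat.zero_le _) h1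
  set M := max 1 (m 0) with hM
  have hM1 : 1 ≤ M := le_max_left _ _
  have hmM : ∀ k, m k ≤ M := fun k => (hm (Nat.zero_le k)).trans (le_max_right _ _)
  set L : ℕ → ℕ := fun c => d + 1 - c with hLdef
  have hL : ∀ c, L c ≤ L (c + 1) + 1 := by intro c; simp only [hLdef]; omega
  have hB : ∀ c, d + 1 ≤ c → L c = 0 := by intro c hc; simp only [hLdef]; omega
  have hsumL : ∑ c ∈ Finset.Ico 0 (d + 1), L c = T := by
    rw [← range_eq_Ico, hT, ← sum_tri (d + 1)]
  have hthin : ((Finset.Ico 0 (d + 1)).filter (fun c => L c < M * M)).card + 1 ≤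
      min (d + 2) (M * M) := by
    have hMM : 1 ≤ M * M := Nat.one_le_iff_ne_zero.2 (by positivity)
    have hsub : (Finset.Ico 0 (d + 1)).filter (fun c => L c < M * M) ⊆
        Finset.Ico (d + 2 - M * M) (d + 1) := by
      intro c hc
      rw [mem_filter, mem_Ico] at hc
      rw [mem_Ico]
      simp only [hLdef] at hc
      omega
    have := card_le_card hsub
    rw [Nat.card_Ico] at this
    omega
  set K := ((Finset.Ico 0 (d + 1)).filter (fun c => L c < M * M)).card with hK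
  have hwl : ∑ c ∈ Finset.Ico 0 (d + 1), wl M L c ≤ (M - 1) * K := sum_wl_le le_rfl
  have hwl2 : ∑ c ∈ Finset.Ico 0 (d + 1), wl M L c + (M - 1) ≤ (M - 1) * min (d + 2) (M * M) := by
    calc ∑ c ∈ Finset.Ico 0 (d + 1), wl M L c + (M - 1) ≤ (M - 1) * K + (M - 1) :=
          Nat.add_le_add_right hwl _
      _ = (M - 1) * (K + 1) := by ring
      _ ≤ _ := Nat.mul_le_mul_left _ hthin
  have hW : (((M - 1) * min (d + 2) (M * M) : ℕ) : ℤ) ≤ (f : ℤ) + |(T : ℤ) - (S : ℤ)| := by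
    rcases Nat.eq_zero_or_pos (m 0) with hz | hp
    · have : M = 1 := by omega
      rw [this]; simp; positivity
    · have hMe : M = m 0 := by omega
      rw [hMe]
      have e : ((m 0 : ℤ) - 1) = ((m 0 - 1 : ℕ) : ℤ) := by
        rw [Nat.cast_sub hp]; simp
      rw [e, pow_two, ← Nat.cast_mul] at h
      exact h
  have hrowL : ∀ j, rowc 0 1 (triD 0 d) (0 + j) = L (0 + j) - (fun _ => 0 : ℕ → ℕ) j := by
    intro j
    rw [rowc_tri]; rfl
  have hlow : ∀ x ∈ triD 0 d, 0 ≤ lam 0 1 x := fun _ _ => Nat.zero_le _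
  rcases le_or_gt S T with hST | hST
  · left
    refine ⟨hST, ?_⟩
    have habs : |(T : ℤ) - (S : ℤ)| = (T : ℤ) - (S : ℤ) := abs_of_nonneg (by
      have : (S : ℤ) ≤ T := by exact_mod_cast hST
      linarith)
    rw [habs] at hW
    have hi : Ind' (triD 0 d) (rows m (Finset.Ico 0 N)) := by
      apply game_ind (p := 0) (q := 1) le_rfl hM1 hmM hL hB N _ 0 0 (triD 0 d) (fun _ => 0) le_rfl
        hlow hrowL (Prof.zero M) (Nat.zero_le _)
      rw [hsumL]
      simp only [sum_const_zero, add_zero]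
      omega
    have := (ind'_ext (Nat.zero_le N) h1 hi).1 (by
      rw [card_rows, card_triD, ← range_eq_Ico]; exact hST)
    rw [← range_eq_Ico] at this
    exact this.ind
  · right
    refine ⟨hST.le, ?_⟩
    have habs : |(T : ℤ) - (S : ℤ)| = (S : ℤ) - (T : ℤ) := by
      rw [abs_sub_comm]
      apply abs_of_nonneg
      have : (T : ℤ) ≤ S := by exact_mod_cast hST.le
      linarith
    rw [habs] at hW
    have := game_mix (p := 0) (q := 1) le_rfl hM1 hmM hL hB N _ 0 0 (triD 0 d) (fun _ => 0) f le_rfl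
      (Nat.zero_le _) hlow hrowL (Prof.zero M) (Nat.zero_le _) h1
      (by rw [hsumL]; simp only [sum_const_zero, add_zero]; omega)
      (by rw [hsumL]; simp only [sum_const_zero, add_zero]; omega)
    rw [← range_eq_Ico] at this
    exact this

end Pool.Agent.Lead.Rw
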