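import Mathlib

/-!
Deterministic decision trees.
-/

set_option autoImplicit false

namespace Pool.Agent.Lead.Ev

/-- Deterministic decision trees on variables indexed by `V`. -/
inductive DTree (V : Type*) where
  | leaf (b : Bool) : DTree V
  | node (i : V) (t0 t1 : DTree V) : DTree V

/-- output of the tree on the input `x` -/
def DTree.eval {V : Type*} : DTree V → (V → Bool) → Bool
  | .leaf b, _ => b
  | .node i t0 t1, x => if x i then t1.eval x else t0.eval x

/-- largest number of queries -/
def DTree.depth {V : Type*} : DTree V → ℕ
  | .leaf _ => 0
  | .node _ t0 t1 => max t0.depth t1.depth + 1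

end Pool.Agent.Lead.Ev
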