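import Mathlib

/-!
Finite chain complexes of families of finite sets with a rank function that is
injective on every member (order complexes), used for evasiveness.
-/

set_option autoImplicit false
set_option linter.unusedSectionVars false
set_option linter.unusedSimpArgs false

namespace Pool.Agent.Lead.Ev

open Finset

variable {α : Type*} [Fintype α] [DecidableEq α]

/-- number of elements of `c` of rank below `x` -/
def pos (r : α → ℕ) (x : α) (c : Finset α) : ℕ := (c.filter (fun y => r y < r x)).card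

/-- the incidence sign -/
def sg (R : Type*) [CommRing R] (r : α → ℕ) (x : α) (c : Finset α) : R := (-1) ^ (pos r x c)

lemma sg_mul_self (R : Type*) [CommRing R] (r : α → ℕ) (x : α) (c : Finset α) :
    sg R r x c * sg R r x c = 1 := by
  unfold sg
  rw [← pow_add, ← two_mul, pow_mul]
  simp

lemma sg_insert (R : Type*) [CommRing R] (r : α → ℕ) (x y : α) (c : Finset α) (hy : y ∉ c) :
    sg R r x (insert y c) = (if r y < r x then -1 else 1) * sg R r x c := by
  unfold sg pos
  rw [filter_insert]
  split_ifs with h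
  · rw [card_insert_of_notMem]
    · rw [pow_succ]; ring
    · simp [hy]
  · simp

/-- the boundary operator -/
def bd (R : Type*) [CommRing R] (r : α → ℕ) : (Finset α → R) →ₗ[R] (Finset α → R) where
  toFun φ := fun c => ∑ x ∈ cᶜ, sg R r x c * φ (insert x c)
  map_add' φ ψ := by
    funext c
    simp [mul_add, sum_add_distrib]
  map_smul' a φ := by
    funext c
    simp only [Pi.smul_apply, smul_eq_mul, RingHom.id_apply, mul_sum]
    apply sum_congr rfl
    intro x _
    ring

lemma bd_apply (R : Type*) [CommRing R] (r : α → ℕ) (φ : Finset α → R) (c : Finset α) :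
    bd R r φ c = ∑ x ∈ cᶜ, sg R r x c * φ (insert x c) := rfl

/-- supported on sets on which the rank is injective -/
def RS (R : Type*) [CommRing R] (r : α → ℕ) (φ : Finset α → R) : Prop :=
  ∀ c, φ c ≠ 0 → Set.InjOn r (c : Set α)

/-- the boundary of a boundary vanishes -/
lemma bd_bd (R : Type*) [CommRing R] (r : α → ℕ) (φ : Finset α → R) (h : RS R r φ) :
    bd R r (bd R r φ) = 0 := by
  funext c
  rw [bd_apply]
  simp only [bd_apply, mul_sum, Pi.zero_apply]
  have h1 : ∀ x ∈ cᶜ, ∑ y ∈ (insert x c)ᶜ, sg R r x c * (sg R r y (insert x c) * φ (insert y (insert x c)))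
      = ∑ y ∈ cᶜ, if y = x then 0 else sg R r x c * ((if r x < r y then -1 else 1) * sg R r y c * φ (insert y (insert x c))) := by
    intro x hx
    rw [mem_compl] at hx
    have : (insert x c)ᶜ = cᶜ.erase x := by
      ext z; simp [not_or, and_comm]
    rw [this]
    rw [← sum_erase_add _ _ (show x ∈ cᶜ by simpa using hx)]
    rw [if_pos rfl, add_zero]
    apply sum_congr rfl
    intro y hy
    rw [mem_erase] at hy
    rw [if_neg hy.1, sg_insert _ _ _ _ _ hx]
  rw [sum_congr rfl h1]
  -- antisymmetry
  set F : α → α → R := fun x y => if y = x then 0 else sg R r x c * ((if r x < r y then -1 else 1) * sg R r y c * φ (insert y (insert x c))) with hF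
  have hanti : ∀ x ∈ cᶜ, ∀ y ∈ cᶜ, F x y = - F y x := by
    intro x _ y _
    simp only [hF]
    by_cases hxy : y = x
    · subst hxy; simp
    · rw [if_neg hxy, if_neg (Ne.symm hxy)]
      rw [Finset.insert_comm x y c]
      by_cases h0 : φ (insert y (insert x c)) = 0
      · rw [h0]; simp
      · have hinj := h _ h0
        have hr : r x ≠ r y := by
          intro he
          exact hxy (hinj (by simp) (by simp) he.symm)
        rcases lt_or_gt_of_ne hr with hlt | hlt
        · rw [if_pos hlt, if_neg (not_lt.mpr hlt.le)]; ring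
        · rw [if_pos hlt, if_neg (not_lt.mpr hlt.le)]; ring
  -- direct pairing with an involution on pairs
  have hS : ∑ x ∈ cᶜ, ∑ y ∈ cᶜ, F x y = 0 := by
    rw [← sum_product' (cᶜ) (cᶜ) F]
    apply sum_involution (fun (p : α × α) _ => (p.2, p.1))
    · intro p hp
      rw [mem_product] at hp
      rw [hanti p.1 hp.1 p.2 hp.2]
      ring
    · intro p hp hne heq
      have : p.2 = p.1 := (Prod.mk.inj heq).1
      apply hne
      simp [hF, this]
    · intro p hp
      rw [mem_product] at hp ⊢
      exact ⟨hp.2, hp.1⟩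
    · intro p hp
      rfl
  exact hS

/-- cone operator with apex `a` -/
def cn (R : Type*) [CommRing R] (r : α → ℕ) (a : α) (μ : Finset α → R) : Finset α → R :=
  fun c => if a ∈ c then sg R r a (c.erase a) * μ (c.erase a) else 0

lemma bd_cn (R : Type*) [CommRing R] (r : α → ℕ) (a : α) (μ : Finset α → R)
    (h1 : ∀ c, μ c ≠ 0 → a ∉ c) (h2 : ∀ c, μ c ≠ 0 → ∀ x ∈ c, r x ≠ r a) :
    bd R r (cn R r a μ) = μ - cn R r a (bd R r μ) := by
  funext c
  rw [bd_apply, Pi.sub_apply]
  by_cases hac : a ∈ c
  · -- c = insert a c'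
    have hμ : μ c = 0 := by
      by_contra h0; exact h1 _ h0 hac
    rw [hμ, zero_sub]
    simp only [cn, if_pos hac]
    set c' := c.erase a with hc'
    have hac' : a ∉ c' := by simp [hc']
    have hc : c = insert a c' := by simp [hc', insert_erase hac]
    rw [bd_apply, mul_sum, ← sum_neg_distrib]
    have e1 : c'ᶜ = insert a cᶜ := by
      ext z
      simp only [hc', mem_compl, mem_erase, mem_insert, not_and_or, not_not, ne_eq]
    rw [e1, sum_insert (by simp [hac])]
    have hz : μ (insert a c') = 0 := by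
      by_contra h0; exact h1 _ h0 (mem_insert_self _ _)
    rw [hz]
    simp only [mul_zero, neg_zero, zero_add]
    apply sum_congr rfl
    intro x hx
    rw [mem_compl] at hx
    have hxa : x ≠ a := by rintro rfl; exact hx hac
    have hxc' : x ∉ c' := fun h => hx (mem_of_mem_erase h)
    rw [if_pos (mem_insert_of_mem hac)]
    have e2 : (insert x c).erase a = insert x c' := by
      rw [erase_insert_of_ne hxa]
    rw [e2]
    by_cases h0 : μ (insert x c') = 0
    · rw [h0]; simp
    · have hr : r x ≠ r a := h2 _ h0 x (mem_insert_self _ _)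
      rw [hc, sg_insert _ _ _ _ _ hac', sg_insert _ _ _ _ _ hxc']
      rcases lt_or_gt_of_ne hr with hlt | hlt
      · rw [if_pos hlt, if_neg (not_lt.mpr hlt.le)]; ring
      · rw [if_pos hlt, if_neg (not_lt.mpr hlt.le)]; ring
  · have e1 : cn R r a (bd R r μ) c = 0 := by simp [cn, hac]
    rw [e1, sub_zero]
    rw [sum_eq_single a]
    · simp only [cn, mem_insert_self, if_true, erase_insert hac]
      rw [← mul_assoc, sg_mul_self, one_mul]
    · intro x _ hxa
      have : a ∉ insert x c := by
        rw [mem_insert, not_or]; exact ⟨fun h => hxa h.symm, hac⟩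
      simp [cn, this]
    · intro h
      exact absurd (mem_compl.mpr hac) h

/-- A complex: closed under subsets, rank injective on faces. -/
structure IsCx (r : α → ℕ) (L : Set (Finset α)) : Prop where
  down : ∀ c ∈ L, ∀ d, d ⊆ c → d ∈ L
  inj : ∀ c ∈ L, Set.InjOn r (c : Set α)

/-- `φ` is an `n`-chain of `L` -/
def Ch (R : Type*) [CommRing R] (L : Set (Finset α)) (n : ℕ) (φ : Finset α → R) : Prop :=
  ∀ c, φ c ≠ 0 → c ∈ L ∧ c.card = n

/-- acyclicity of `L` with coefficients in `R` -/
def Acy (R : Type*) [CommRing R] (r : α → ℕ) (L : Set (Finset α)) : Prop :=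
  ∀ (n : ℕ) (φ : Finset α → R), Ch R L n φ → bd R r φ = 0 → ∃ ψ, Ch R L (n+1) ψ ∧ bd R r ψ = φ

lemma acy_empty (R : Type*) [CommRing R] (r : α → ℕ) : Acy R r (∅ : Set (Finset α)) := by
  intro n φ hφ _
  refine ⟨0, fun c hc => absurd rfl hc, ?_⟩
  rw [map_zero]
  funext c
  by_contra h
  exact (hφ c (fun h' => h h'.symm)).1

/-- decomposition of a chain with respect to a vertex -/
lemma decomp (R : Type*) [CommRing R] (r : α → ℕ) (a : α) (φ : Finset α → R) :
    φ = (fun c => if a ∈ c then 0 else φ c) +
      cn R r a (fun c => if a ∈ c then 0 else sg R r a c * φ (insert a c)) := by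
  funext c
  by_cases hac : a ∈ c
  · simp only [Pi.add_apply, if_pos hac, cn, zero_add, mem_erase, ne_eq, not_true_eq_false,
      false_and, if_false]
    rw [← mul_assoc, sg_mul_self, one_mul, insert_erase hac]
  · simp [cn, hac]

lemma link_cycle (R : Type*) [CommRing R] (r : α → ℕ) (L : Set (Finset α)) (hL : IsCx r L)
    (a : α) (n : ℕ) (φ : Finset α → R) (hφ : Ch R L n φ) (hd : bd R r φ = 0) :
    bd R r (fun c => if a ∈ c then 0 else φ c) =
      - (fun c => if a ∈ c then 0 else sg R r a c * φ (insert a c)) ∧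
    bd R r (fun c => if a ∈ c then 0 else sg R r a c * φ (insert a c)) = 0 := by
  set φ0 : Finset α → R := fun c => if a ∈ c then 0 else φ c with hφ0
  set lam : Finset α → R := fun c => if a ∈ c then 0 else sg R r a c * φ (insert a c) with hlam
  have hl1 : ∀ c, lam c ≠ 0 → a ∉ c := by
    intro c hc h
    apply hc; simp [hlam, h]
  have hl3 : ∀ c, lam c ≠ 0 → insert a c ∈ L := by
    intro c hc
    have ha := hl1 c hc
    have : φ (insert a c) ≠ 0 := by
      intro h0; apply hc; simp [hlam, h0]
    exact (hφ _ this).1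
  have hl2 : ∀ c, lam c ≠ 0 → ∀ x ∈ c, r x ≠ r a := by
    intro c hc x hx he
    have hin := hL.inj _ (hl3 c hc)
    have : x = a := hin (by simp [hx]) (by simp) he
    subst this
    exact hl1 c hc hx
  have hb := bd_cn R r a lam hl1 hl2
  have hdec := decomp R r a φ
  rw [hdec, map_add, hb] at hd
  -- hd : bd φ0 + (lam - cn (bd lam)) = 0
  have hA : ∀ c, a ∉ c → bd R r φ0 c = - lam c := by
    intro c hc
    have := congrFun hd c
    simp only [Pi.add_apply, Pi.sub_apply, cn, if_neg hc, sub_zero, Pi.zero_apply] at this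
    exact eq_neg_of_add_eq_zero_left this
  have hB : ∀ c, a ∈ c → bd R r φ0 c = 0 := by
    intro c hc
    rw [bd_apply]
    apply sum_eq_zero
    intro x _
    simp [hφ0, hc]
  have hC : ∀ c, a ∈ c → lam c = 0 := by
    intro c hc; simp [hlam, hc]
  constructor
  · funext c
    by_cases hc : a ∈ c
    · rw [hB c hc, Pi.neg_apply, hC c hc, neg_zero]
    · rw [hA c hc, Pi.neg_apply]
  · funext c
    by_cases hc : a ∈ c
    · rw [bd_apply]
      apply sum_eq_zero
      intro x _
      rw [hC _ (mem_insert_of_mem hc)]; simp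
    · have := congrFun hd (insert a c)
      simp only [Pi.add_apply, Pi.sub_apply, cn, mem_insert_self, if_true, erase_insert hc,
        Pi.zero_apply] at this
      rw [hB _ (mem_insert_self a c), hC _ (mem_insert_self a c), zero_add, zero_sub,
        neg_eq_zero] at this
      have h2 : sg R r a c * (sg R r a c * bd R r lam c) = 0 := by rw [this, mul_zero]
      rw [← mul_assoc, sg_mul_self, one_mul] at h2
      simpa using h2

/-- a cone is acyclic -/
lemma acy_cone (R : Type*) [CommRing R] (r : α → ℕ) (L : Set (Finset α)) (hL : IsCx r L)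
    (a : α) (ha : ∀ c ∈ L, insert a c ∈ L) : Acy R r L := by
  intro n φ hφ hd
  obtain ⟨h1, _⟩ := link_cycle R r L hL a n φ hφ hd
  set φ0 : Finset α → R := fun c => if a ∈ c then 0 else φ c with hφ0
  have hp1 : ∀ c, φ0 c ≠ 0 → a ∉ c := by
    intro c hc h; apply hc; simp [hφ0, h]
  have hpL : ∀ c, φ0 c ≠ 0 → c ∈ L ∧ c.card = n := by
    intro c hc
    apply hφ
    intro h0; apply hc; simp [hφ0, h0]
  have hp2 : ∀ c, φ0 c ≠ 0 → ∀ x ∈ c, r x ≠ r a := by
    intro c hc x hx he
    have hin := hL.inj _ (ha _ (hpL c hc).1)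
    have : x = a := hin (by simp [hx]) (by simp) he
    subst this
    exact hp1 c hc hx
  refine ⟨cn R r a φ0, ?_, ?_⟩
  · intro c hc
    by_cases hac : a ∈ c
    · simp only [cn, if_pos hac] at hc
      have h0 : φ0 (c.erase a) ≠ 0 := fun h0 => hc (by rw [h0, mul_zero])
      obtain ⟨hm, hcard⟩ := hpL _ h0
      constructor
      · rw [← insert_erase hac]; exact ha _ hm
      · rw [← hcard, card_erase_add_one hac]
    · simp [cn, hac] at hc
  · rw [bd_cn R r a φ0 hp1 hp2, h1]
    conv_rhs => rw [decomp R r a φ]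
    rw [sub_eq_add_neg]
    congr 1
    funext c
    simp only [cn, Pi.neg_apply]
    split_ifs <;> simp

/-- deletion and link acyclic implies acyclic -/
lemma acy_step (R : Type*) [CommRing R] (r : α → ℕ) (L : Set (Finset α)) (hL : IsCx r L)
    (a : α) (hdel : Acy R r {c | c ∈ L ∧ a ∉ c})
    (hlk : Acy R r {c | insert a c ∈ L ∧ a ∉ c}) : Acy R r L := by
  intro n φ hφ hd
  obtain ⟨h1, h2⟩ := link_cycle R r L hL a n φ hφ hd
  set φ0 : Finset α → R := fun c => if a ∈ c then 0 else φ c with hφ0
  set lam : Finset α → R := fun c => if a ∈ c then 0 else sg R r a c * φ (insert a c) with hlam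
  have hdec := decomp R r a φ
  -- μ with bd μ = lam
  obtain ⟨μ, hμch, hμ⟩ : ∃ μ, Ch R {c | insert a c ∈ L ∧ a ∉ c} n μ ∧ bd R r μ = lam := by
    rcases Nat.eq_zero_or_pos n with hn | hn
    · refine ⟨0, fun c hc => absurd rfl hc, ?_⟩
      rw [map_zero]
      funext c
      by_contra h0
      have h0' : lam c ≠ 0 := fun h => h0 h.symm
      have : φ (insert a c) ≠ 0 := by
        intro h0; apply h0'; simp [hlam, h0]
      have := (hφ _ this).2
      rw [hn, card_eq_zero] at this
      exact absurd this (insert_ne_empty _ _)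
    · have hch : Ch R {c | insert a c ∈ L ∧ a ∉ c} (n-1) lam := by
        intro c hc
        have hac : a ∉ c := by intro h; apply hc; simp [hlam, h]
        have : φ (insert a c) ≠ 0 := by
          intro h0; apply hc; simp [hlam, h0]
        obtain ⟨hm, hcard⟩ := hφ _ this
        refine ⟨⟨hm, hac⟩, ?_⟩
        rw [card_insert_of_notMem hac] at hcard
        omega
      obtain ⟨μ, hm, hμ⟩ := hlk (n-1) lam hch h2
      refine ⟨μ, ?_, hμ⟩
      intro c hc
      obtain ⟨h3, h4⟩ := hm c hc
      exact ⟨h3, by omega⟩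
  have hm1 : ∀ c, μ c ≠ 0 → a ∉ c := fun c hc => (hμch c hc).1.2
  have hm2 : ∀ c, μ c ≠ 0 → ∀ x ∈ c, r x ≠ r a := by
    intro c hc x hx he
    have hin := hL.inj _ (hμch c hc).1.1
    have : x = a := hin (by simp [hx]) (by simp) he
    subst this
    exact hm1 c hc hx
  have hcyc : bd R r (φ0 + μ) = 0 := by
    rw [map_add, h1, hμ]; simp
  have hch2 : Ch R {c | c ∈ L ∧ a ∉ c} n (φ0 + μ) := by
    intro c hc
    have : φ0 c ≠ 0 ∨ μ c ≠ 0 := by
      by_contra hcon
      push Not at hcon
      apply hc; simp [hcon.1, hcon.2]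
    rcases this with h | h
    · have hac : a ∉ c := by intro h'; apply h; simp [hφ0, h']
      have : φ c ≠ 0 := by intro h0; apply h; simp [hφ0, h0]
      exact ⟨⟨(hφ c this).1, hac⟩, (hφ c this).2⟩
    · exact ⟨⟨hL.down _ (hμch c h).1.1 _ (subset_insert _ _), hm1 c h⟩, (hμch c h).2⟩
  obtain ⟨ψ2, hψ2, hb2⟩ := hdel n _ hch2 hcyc
  refine ⟨ψ2 - cn R r a μ, ?_, ?_⟩
  · intro c hc
    have : ψ2 c ≠ 0 ∨ cn R r a μ c ≠ 0 := by
      by_contra hcon
      push Not at hcon
      apply hc; simp [hcon.1, hcon.2]
    rcases this with h | h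
    · exact ⟨(hψ2 c h).1.1, (hψ2 c h).2⟩
    · by_cases hac : a ∈ c
      · simp only [cn, if_pos hac] at h
        have h0 : μ (c.erase a) ≠ 0 := fun h0 => h (by rw [h0, mul_zero])
        obtain ⟨⟨h5, h6⟩, h7⟩ := hμch _ h0
        rw [insert_erase hac] at h5
        exact ⟨h5, by rw [← h7, card_erase_add_one hac]⟩
      · simp [cn, hac] at h
  · rw [map_sub, hb2, bd_cn R r a μ hm1 hm2, hμ]
    rw [show φ0 + μ - (μ - cn R r a lam) = φ0 + cn R r a lam by abel]
    exact hdec.symm

end Pool.Agent.Lead.Ev
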