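import Mathlib
import Pool.Agent.Lead.EvChain

/-!
Smith theory for families of finite sets with a rank function.
-/

set_option autoImplicit false
set_option linter.unusedSectionVars false
set_option linter.unusedSimpArgs false

namespace Pool.Agent.Lead.Ev

open Finset

variable {α : Type*} [Fintype α] [DecidableEq α]

/-- induced map on finite sets -/
def im (g : Equiv.Perm α) (c : Finset α) : Finset α := c.map g.toEmbedding

lemma mem_im (g : Equiv.Perm α) (c : Finset α) (x : α) : g x ∈ im g c ↔ x ∈ c := by
  simp [im]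

lemma im_insert (g : Equiv.Perm α) (c : Finset α) (x : α) :
    im g (insert x c) = insert (g x) (im g c) := by
  simp [im, map_insert]

lemma card_im (g : Equiv.Perm α) (c : Finset α) : (im g c).card = c.card := by
  simp [im]

lemma pos_im (r : α → ℕ) (g : Equiv.Perm α) (hr : ∀ x, r (g x) = r x) (x : α) (c : Finset α) :
    pos r (g x) (im g c) = pos r x c := by
  unfold pos im
  rw [filter_map, card_map]
  congr 1
  ext y
  simp [hr]

/-- pull-back of functions -/
def pb (R : Type*) [CommRing R] (g : Equiv.Perm α) : (Finset α → R) →ₗ[R] (Finset α → R) where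
  toFun φ := fun c => φ (im g c)
  map_add' _ _ := rfl
  map_smul' _ _ := rfl

lemma pb_apply (R : Type*) [CommRing R] (g : Equiv.Perm α) (φ : Finset α → R) (c : Finset α) :
    pb R g φ c = φ (im g c) := rfl

lemma bd_pb (R : Type*) [CommRing R] (r : α → ℕ) (g : Equiv.Perm α) (hr : ∀ x, r (g x) = r x)
    (φ : Finset α → R) : bd R r (pb R g φ) = pb R g (bd R r φ) := by
  funext c
  rw [pb_apply, bd_apply, bd_apply]
  have : (im g c)ᶜ = (cᶜ).map g.toEmbedding := by
    ext y
    constructor
    · intro hy
      rw [mem_map]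
      refine ⟨g.symm y, ?_, by simp⟩
      rw [mem_compl] at hy ⊢
      intro h
      apply hy
      have := (mem_im g c (g.symm y)).2 h
      simpa using this
    · intro hy
      rw [mem_map] at hy
      obtain ⟨x, hx, rfl⟩ := hy
      rw [mem_compl] at hx ⊢
      intro h
      exact hx ((mem_im g c x).1 h)
  rw [this, sum_map]
  apply sum_congr rfl
  intro x _
  rw [pb_apply, im_insert]
  congr 1
  unfold sg
  rw [show g.toEmbedding x = g x from rfl, pos_im r g hr]

section Smith

variable (p : ℕ) (r : α → ℕ) (g : Equiv.Perm α) (L : Set (Finset α))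

/-- data for the Smith step -/
structure SmithData : Prop where
  hr : ∀ x, r (g x) = r x
  cx : IsCx r L
  inv : ∀ c, im g c ∈ L ↔ c ∈ L
  per : ∀ c ∈ L, ∀ x ∈ c, (g ^ p) x = x

/-- the pull-back iterated -/
def pbi (R : Type*) [CommRing R] (g : Equiv.Perm α) (i : ℕ) (φ : Finset α → R) : Finset α → R :=
  fun c => φ ((im g)^[i] c)

variable {p r g L}

lemma im_iter (i : ℕ) (c : Finset α) : (im g)^[i] c = im (g ^ i) c := by
  induction i with
  | zero =>
    unfold im
    ext x
    simp
    exact Iff.rfl
  | succ n ih =>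
    rw [Function.iterate_succ_apply', ih]
    unfold im
    rw [map_map]
    congr 1
    ext x
    simp [pow_succ']

lemma SmithData.im_per (h : SmithData p r g L) (c : Finset α) (hc : c ∈ L) : (im g)^[p] c = c := by
  rw [im_iter]
  unfold im
  ext y
  rw [mem_map]
  constructor
  · rintro ⟨x, hx, rfl⟩
    have := h.per c hc x hx
    simp [this, hx]
  · intro hy
    exact ⟨y, hy, h.per c hc y hy⟩

lemma SmithData.iter_mem (h : SmithData p r g L) (i : ℕ) (c : Finset α) :
    (im g)^[i] c ∈ L ↔ c ∈ L := by
  induction i with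
  | zero => simp
  | succ n ih => rw [Function.iterate_succ_apply', h.inv, ih]

lemma card_iter (i : ℕ) (c : Finset α) : ((im g)^[i] c).card = c.card := by
  induction i with
  | zero => simp
  | succ n ih => rw [Function.iterate_succ_apply', card_im, ih]

/-- fixed faces consist of fixed points -/
lemma SmithData.fix_iff (h : SmithData p r g L) (c : Finset α) (hc : c ∈ L) :
    im g c = c ↔ ∀ x ∈ c, g x = x := by
  constructor
  · intro he x hx
    have h1 : g x ∈ c := by
      rw [← he]; exact (mem_im g c x).2 hx
    exact h.cx.inj c hc (by simpa using h1) (by simpa using hx) (h.hr x)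
  · intro he
    unfold im
    ext y
    rw [mem_map]
    constructor
    · rintro ⟨x, hx, rfl⟩
      have := he x hx
      simp [this, hx]
    · intro hy
      exact ⟨y, hy, he y hy⟩

/-- coefficient function with `∑ ρ (g^i c) = 1` on the non-fixed faces of `L` -/
lemma SmithData.exists_rho (R : Type*) [CommRing R] (hp : p.Prime) (h : SmithData p r g L) :
    ∃ ρ : Finset α → R, ∀ c ∈ L, im g c ≠ c → ∑ i ∈ range p, ρ ((im g)^[i] c) = 1 := by
  classical
  let O : Finset α → Set (Finset α) := fun c => {c' | ∃ i : ℕ, c' = (im g)^[i] c}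
  have hOne : ∀ c, (O c).Nonempty := fun c => ⟨c, 0, rfl⟩
  let rep : Finset α → Finset α := fun c => if hne : (O c).Nonempty then hne.some else c
  have hrepmem : ∀ c, rep c ∈ O c := by
    intro c
    simp only [rep, dif_pos (hOne c)]
    exact (hOne c).some_mem
  have hOeq : ∀ c ∈ L, ∀ i, O ((im g)^[i] c) = O c := by
    intro c hc i
    ext c'
    constructor
    · rintro ⟨j, rfl⟩
      exact ⟨j + i, by rw [Function.iterate_add_apply]⟩
    · rintro ⟨j, rfl⟩
      -- (im g)^[j] c = (im g)^[j + i*(p-1)] ((im g)^[i] c)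
      refine ⟨j + i * (p - 1), ?_⟩
      rw [← Function.iterate_add_apply]
      have e : j + i * (p - 1) + i = j + p * i := by
        have : 1 ≤ p := hp.one_lt.le
        obtain ⟨q, rfl⟩ := Nat.exists_eq_add_of_le this
        simp; ring
      rw [e, Function.iterate_add_apply]
      congr 1
      rw [Function.iterate_mul]
      have : ∀ k, ((im g)^[p])^[k] c = c := by
        intro k
        induction k with
        | zero => rfl
        | succ n ih => rw [Function.iterate_succ_apply', ih, h.im_per c hc]
      exact (this i).symm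
  have hrepeq : ∀ c ∈ L, ∀ i, rep ((im g)^[i] c) = rep c := by
    intro c hc i
    have := hOeq c hc i
    simp only [rep]
    have key : ∀ (S S' : Set (Finset α)) (d d' : Finset α) (hS : S.Nonempty) (hS' : S'.Nonempty), S = S' →
        (if hne : S.Nonempty then hne.some else d) = (if hne : S'.Nonempty then hne.some else d') := by
      intro S S' d d' hS hS' he
      subst he
      rw [dif_pos hS, dif_pos hS]
    exact key _ _ _ _ (hOne _) (hOne _) this
  refine ⟨fun c => if rep c = c then 1 else 0, ?_⟩
  intro c hc hnf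
  obtain ⟨j, hj⟩ := hrepmem c
  -- j mod p
  have hjm : (im g)^[j % p] c = rep c := by
    rw [hj]
    conv_rhs => rw [← Nat.mod_add_div j p]
    rw [Function.iterate_add_apply, Function.iterate_mul]
    have : ∀ k, ((im g)^[p])^[k] c = c := by
      intro k
      induction k with
      | zero => rfl
      | succ n ih => rw [Function.iterate_succ_apply', ih, h.im_per c hc]
    rw [this]
  rw [sum_eq_single (j % p)]
  · show (if rep ((im g)^[j % p] c) = (im g)^[j % p] c then (1 : R) else 0) = 1
    rw [hrepeq c hc, if_pos hjm.symm]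
  · intro i hi hne
    show (if rep ((im g)^[i] c) = (im g)^[i] c then (1 : R) else 0) = 0
    rw [if_neg]
    rw [hrepeq c hc, ← hjm]
    intro heq
    -- two different iterates agree
    apply hnf
    have hlt : j % p < p := Nat.mod_lt _ hp.pos
    have hip : i < p := mem_range.1 hi
    have hinj : Function.Injective (im g) := by
      intro a b hab
      exact Finset.map_injective _ hab
    -- general lemma
    have gen : ∀ a b : ℕ, a < b → b < p → (im g)^[a] c = (im g)^[b] c → im g c = c := by
      intro a b hab hbp he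
      have h1 : (im g)^[b - a] c = c := by
        have : (im g)^[a] ((im g)^[b - a] c) = (im g)^[a] c := by
          rw [← Function.iterate_add_apply, Nat.add_sub_cancel' hab.le, he]
        exact hinj.iterate a this
      have hper1 : Function.IsPeriodicPt (im g) (b - a) c := h1
      have hper2 : Function.IsPeriodicPt (im g) p c := h.im_per c hc
      have hg := hper1.gcd hper2
      have hco : Nat.gcd (b - a) p = 1 := by
        rw [Nat.gcd_comm]
        apply (Nat.Prime.coprime_iff_not_dvd hp).2
        intro hd
        have := Nat.le_of_dvd (by omega) hd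
        omega
      rw [hco] at hg
      exact hg
    rcases lt_or_gt_of_ne hne with hh | hh
    · exact gen i (j % p) hh hlt heq.symm
    · exact gen (j % p) i hh hip heq
  · intro hn
    exact absurd (mem_range.2 (Nat.mod_lt _ hp.pos)) hn

/-- the norm operator -/
def tau (R : Type*) [CommRing R] (p : ℕ) (g : Equiv.Perm α) (φ : Finset α → R) : Finset α → R :=
  fun c => ∑ i ∈ range p, φ ((im g)^[i] c)

/-- the difference operator -/
def sigma (R : Type*) [CommRing R] (g : Equiv.Perm α) (φ : Finset α → R) : Finset α → R :=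
  fun c => φ c - φ (im g c)

lemma bd_pbi (R : Type*) [CommRing R] (hr : ∀ x, r (g x) = r x) (i : ℕ) (φ : Finset α → R) :
    bd R r (fun c => φ ((im g)^[i] c)) = fun c => bd R r φ ((im g)^[i] c) := by
  induction i with
  | zero => rfl
  | succ n ih =>
    have h1 : (fun c => φ ((im g)^[n+1] c)) = pb R g (fun c => φ ((im g)^[n] c)) := by
      funext c
      rw [pb_apply, Function.iterate_succ_apply]
    rw [h1, bd_pb R r g hr, ih]
    funext c
    rw [pb_apply, Function.iterate_succ_apply]

lemma bd_tau (R : Type*) [CommRing R] (hr : ∀ x, r (g x) = r x) (φ : Finset α → R) :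
    bd R r (tau R p g φ) = tau R p g (bd R r φ) := by
  have h1 : tau R p g φ = ∑ i ∈ range p, (fun c => φ ((im g)^[i] c)) := by
    funext c; simp [tau, Finset.sum_apply]
  rw [h1, map_sum]
  funext c
  rw [Finset.sum_apply]
  unfold tau
  apply sum_congr rfl
  intro i _
  rw [bd_pbi R hr]

lemma bd_sigma (R : Type*) [CommRing R] (hr : ∀ x, r (g x) = r x) (φ : Finset α → R) :
    bd R r (sigma R g φ) = sigma R g (bd R r φ) := by
  have h1 : sigma R g φ = φ - pb R g φ := by
    funext c; rfl
  rw [h1, map_sub, bd_pb R r g hr]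
  rfl

/-- fixed-support functions -/
def FixS (g : Equiv.Perm α) {R : Type*} [CommRing R] (φ : Finset α → R) : Prop :=
  ∀ c, φ c ≠ 0 → im g c = c

lemma iter_fix (c : Finset α) (h : im g c = c) (i : ℕ) : (im g)^[i] c = c := by
  induction i with
  | zero => rfl
  | succ n ih => rw [Function.iterate_succ_apply', ih, h]

variable [Fact p.Prime]

lemma tau_at_fix (φ : Finset α → ZMod p) (c : Finset α) (h : im g c = c) :
    tau (ZMod p) p g φ c = 0 := by
  unfold tau
  rw [sum_congr rfl (fun i _ => by rw [iter_fix c h i])]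
  simp

lemma sigma_at_fix (φ : Finset α → ZMod p) (c : Finset α) (h : im g c = c) :
    sigma (ZMod p) g φ c = 0 := by
  unfold sigma
  rw [h, sub_self]

/-- The axioms shared by the two operators in the Smith step. -/
structure OpPair (p : ℕ) [Fact p.Prime] (r : α → ℕ) (g : Equiv.Perm α) (L : Set (Finset α))
    (a b : (Finset α → ZMod p) → (Finset α → ZMod p)) : Prop where
  bda : ∀ φ, bd (ZMod p) r (a φ) = a (bd (ZMod p) r φ)
  bdb : ∀ φ, bd (ZMod p) r (b φ) = b (bd (ZMod p) r φ)
  subb : ∀ φ ψ, b (φ - ψ) = b φ - b ψ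
  addb : ∀ φ ψ, b (φ + ψ) = b φ + b ψ
  afix : ∀ φ c, im g c = c → a φ c = 0
  bfixs : ∀ φ, FixS g φ → b φ = 0
  ba : ∀ n φ, Ch (ZMod p) L n φ → b (a φ) = 0
  cha : ∀ n φ, Ch (ZMod p) L n φ → Ch (ZMod p) L n (a φ)
  chb : ∀ n φ, Ch (ZMod p) L n φ → Ch (ZMod p) L n (b φ)
  ker : ∀ n φ, Ch (ZMod p) L n φ → b φ = 0 →
    ∃ ψ φ', Ch (ZMod p) L n ψ ∧ Ch (ZMod p) L n φ' ∧ FixS g φ' ∧ φ = a ψ + φ'

/-- statement for an operator: cycles in the image are boundaries in the image -/
def ImEx (p : ℕ) [Fact p.Prime] (r : α → ℕ) (L : Set (Finset α))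
    (a : (Finset α → ZMod p) → (Finset α → ZMod p)) (n : ℕ) : Prop :=
  ∀ ψ, Ch (ZMod p) L n ψ → bd (ZMod p) r (a ψ) = 0 →
    ∃ u, Ch (ZMod p) L (n+1) u ∧ bd (ZMod p) r (a u) = a ψ

/-- exactness for the fixed part -/
def FixEx (p : ℕ) [Fact p.Prime] (r : α → ℕ) (g : Equiv.Perm α) (L : Set (Finset α)) (n : ℕ) : Prop :=
  ∀ φ, Ch (ZMod p) L n φ → FixS g φ → bd (ZMod p) r φ = 0 →
    ∃ u, Ch (ZMod p) L (n+1) u ∧ FixS g u ∧ bd (ZMod p) r u = φ

lemma Ch.RS {R : Type*} [CommRing R] {L : Set (Finset α)} (hL : IsCx r L) {n : ℕ} {φ : Finset α → R}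
    (h : Ch R L n φ) : RS R r φ := fun c hc => hL.inj c (h c hc).1

lemma Ch.sub {R : Type*} [CommRing R] {L : Set (Finset α)} {n : ℕ} {φ ψ : Finset α → R}
    (h : Ch R L n φ) (h' : Ch R L n ψ) : Ch R L n (φ - ψ) := by
  intro c hc
  by_cases h0 : φ c = 0
  · apply h'
    intro h1
    apply hc
    simp [h0, h1]
  · exact h c h0

lemma Ch.add {R : Type*} [CommRing R] {L : Set (Finset α)} {n : ℕ} {φ ψ : Finset α → R}
    (h : Ch R L n φ) (h' : Ch R L n ψ) : Ch R L n (φ + ψ) := by
  intro c hc
  by_cases h0 : φ c = 0
  · apply h'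
    intro h1
    apply hc
    simp [h0, h1]
  · exact h c h0

lemma Ch.bd {R : Type*} [CommRing R] {L : Set (Finset α)} (hL : IsCx r L) {n : ℕ} {φ : Finset α → R}
    (h : Ch R L (n+1) φ) : Ch R L n (Ev.bd R r φ) := by
  intro c hc
  rw [bd_apply] at hc
  obtain ⟨x, hx, hne⟩ := exists_ne_zero_of_sum_ne_zero hc
  have : φ (insert x c) ≠ 0 := fun h0 => hne (by rw [h0, mul_zero])
  obtain ⟨h1, h2⟩ := h _ this
  rw [mem_compl] at hx
  rw [card_insert_of_notMem hx] at h2
  exact ⟨hL.down _ h1 _ (subset_insert _ _), by omega⟩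

lemma SmithData.bd_fix (h : SmithData p r g L) {n : ℕ} (φ : Finset α → ZMod p)
    (hc : Ch (ZMod p) L n φ) (hf : FixS g φ) : FixS g (bd (ZMod p) r φ) := by
  intro c hne
  rw [bd_apply] at hne
  obtain ⟨x, hx, hne2⟩ := exists_ne_zero_of_sum_ne_zero hne
  have h0 : φ (insert x c) ≠ 0 := fun h0 => hne2 (by rw [h0, mul_zero])
  have h1 := hf _ h0
  have hL := (hc _ h0).1
  have h2 := (h.fix_iff _ hL).1 h1
  exact (h.fix_iff c (h.cx.down _ hL _ (subset_insert _ _))).2
    (fun y hy => h2 y (mem_insert_of_mem hy))

lemma smith_step (h : SmithData p r g L) (hA : Acy (ZMod p) r L)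
    (a b : (Finset α → ZMod p) → (Finset α → ZMod p)) (hab : OpPair p r g L a b) (n : ℕ)
    (hb : ImEx p r L b (n+1)) : ImEx p r L a n ∧ FixEx p r g L n := by
  have main : ∀ ψ φ, Ch (ZMod p) L n ψ → Ch (ZMod p) L n φ → FixS g φ →
      bd (ZMod p) r (a ψ + φ) = 0 →
      ∃ ψ' φ', Ch (ZMod p) L (n+1) ψ' ∧ Ch (ZMod p) L (n+1) φ' ∧ FixS g φ' ∧
        bd (ZMod p) r φ' = φ ∧ bd (ZMod p) r (a ψ') = a ψ := by
    intro ψ φ hψ hφ hfix hcyc
    obtain ⟨w, hw, hwb⟩ := hA n (a ψ + φ) ((hab.cha n ψ hψ).add hφ) hcyc
    have h1 : bd (ZMod p) r (b w) = 0 := by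
      rw [hab.bdb, hwb, hab.addb, hab.ba n ψ hψ, hab.bfixs φ hfix, add_zero]
    obtain ⟨u, hu, hub⟩ := hb w hw h1
    -- w' = w - bd u
    have hub' : b (bd (ZMod p) r u) = b w := by rw [← hab.bdb, hub]
    have hw' : Ch (ZMod p) L (n+1) (w - bd (ZMod p) r u) := hw.sub (hu.bd h.cx)
    have hbw : b (w - bd (ZMod p) r u) = 0 := by rw [hab.subb, hub', sub_self]
    obtain ⟨ψ', φ', hψ', hφ', hfix', hdec⟩ := hab.ker (n+1) _ hw' hbw
    have hz : bd (ZMod p) r (a ψ' + φ') = a ψ + φ := by
      rw [← hdec, map_sub, bd_bd _ _ _ (hu.RS h.cx), sub_zero, hwb]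
    rw [map_add, hab.bda] at hz
    have hfb := h.bd_fix φ' hφ' hfix'
    have hφeq : bd (ZMod p) r φ' = φ := by
      funext c
      by_cases hc : im g c = c
      · have := congrFun hz c
        simp only [Pi.add_apply] at this
        rw [hab.afix _ _ hc, hab.afix _ _ hc, zero_add, zero_add] at this
        exact this
      · have e1 : bd (ZMod p) r φ' c = 0 := by
          by_contra h0; exact hc (hfb c h0)
        have e2 : φ c = 0 := by
          by_contra h0; exact hc (hfix c h0)
        rw [e1, e2]
    refine ⟨ψ', φ', hψ', hφ', hfix', hφeq, ?_⟩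
    rw [hab.bda]
    rw [hφeq] at hz
    exact add_right_cancel hz
  constructor
  · intro ψ hψ hcyc
    obtain ⟨ψ', _, h1, _, _, _, h2⟩ := main ψ 0 hψ (fun c hc => absurd rfl hc)
      (fun c hc => absurd rfl hc) (by rw [add_zero]; exact hcyc)
    exact ⟨ψ', h1, h2⟩
  · intro φ hφ hfix hcyc
    -- take ψ = 0; then a 0 ... use main with ψ = φ? we use ψ = 0 and a 0 = 0
    have ha0 : ∃ ψ0, Ch (ZMod p) L n ψ0 ∧ a ψ0 = 0 := by
      obtain ⟨ψ, φ', h1, h2, h3, h4⟩ := hab.ker n 0 (fun c hc => absurd rfl hc)
        (hab.bfixs 0 (fun c hc => absurd rfl hc))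
      refine ⟨ψ, h1, ?_⟩
      funext c
      by_cases hc : im g c = c
      · rw [hab.afix _ _ hc]; rfl
      · have e2 : φ' c = 0 := by
          by_contra h0; exact hc (h3 c h0)
        have := congrFun h4 c
        simp only [Pi.add_apply, Pi.zero_apply, e2, add_zero] at this
        rw [← this]; rfl
    obtain ⟨ψ0, hψ0, ha0⟩ := ha0
    obtain ⟨_, φ', _, h1, h2, h3, _⟩ := main ψ0 φ hψ0 hφ hfix (by rw [ha0, zero_add]; exact hcyc)
    exact ⟨φ', h1, h2, h3⟩

lemma opPair_sigma_tau (h : SmithData p r g L) :
    OpPair p r g L (sigma (ZMod p) g) (tau (ZMod p) p g) := by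
  have hp : p.Prime := Fact.out
  refine ⟨bd_sigma _ h.hr, bd_tau _ h.hr, ?_, ?_, fun φ c hc => sigma_at_fix φ c hc, ?_, ?_, ?_, ?_, ?_⟩
  · intro φ ψ; funext c; simp [tau, sum_sub_distrib]
  · intro φ ψ; funext c; simp [tau, sum_add_distrib]
  · intro φ hf
    funext c
    by_cases hc : im g c = c
    · exact tau_at_fix φ c hc
    · unfold tau
      apply sum_eq_zero
      intro i _
      by_contra h0
      have := hf _ h0
      apply hc
      have hinj : Function.Injective (im g) := fun a b hab => Finset.map_injective _ hab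
      have h2 : (im g)^[i] (im g c) = (im g)^[i] c := by
        rw [← Function.iterate_succ_apply, Function.iterate_succ_apply', this]
      exact hinj.iterate i h2
  · intro n φ hφ
    funext c
    unfold tau sigma
    have : ∀ i, φ ((im g)^[i] c) - φ (im g ((im g)^[i] c)) =
        φ ((im g)^[i] c) - φ ((im g)^[i+1] c) := by
      intro i; rw [Function.iterate_succ_apply']
    rw [sum_congr rfl (fun i _ => this i), sum_range_sub']
    simp only [Function.iterate_zero, id_eq, Pi.zero_apply]
    by_cases hc : c ∈ L
    · rw [h.im_per c hc, sub_self]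
    · have e1 : φ c = 0 := by
        by_contra h0; exact hc (hφ c h0).1
      have e2 : φ ((im g)^[p] c) = 0 := by
        by_contra h0
        exact hc ((h.iter_mem p c).1 (hφ _ h0).1)
      rw [e1, e2, sub_self]
  · intro n φ hφ c hc
    unfold sigma at hc
    by_cases h0 : φ c = 0
    · have h1 : φ (im g c) ≠ 0 := by
        intro h1; apply hc; rw [h0, h1, sub_self]
      obtain ⟨h2, h3⟩ := hφ _ h1
      exact ⟨(h.inv c).1 h2, by rw [← h3, card_im]⟩
    · exact hφ c h0
  · intro n φ hφ c hc
    unfold tau at hc
    obtain ⟨i, _, hne⟩ := exists_ne_zero_of_sum_ne_zero hc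
    obtain ⟨h2, h3⟩ := hφ _ hne
    exact ⟨(h.iter_mem i c).1 h2, by rw [← h3, card_iter]⟩
  · -- kernel of tau
    intro n φ hφ htau
    obtain ⟨ρ, hρ⟩ := h.exists_rho (ZMod p) hp
    -- non-fixed part
    set φN : Finset α → ZMod p := fun c => if im g c = c then 0 else φ c with hφN
    set ψ : Finset α → ZMod p := fun c => ∑ i ∈ range p, ρ ((im g)^[i] c) *
      ∑ j ∈ range i, φN ((im g)^[j] c) with hψ
    set φ' : Finset α → ZMod p := fun c => if im g c = c then φ c else 0 with hφ'
    have hinj : Function.Injective (im g) := fun a b hab => Finset.map_injective _ hab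
    have hfixiter : ∀ i c, im g ((im g)^[i] c) = (im g)^[i] c ↔ im g c = c := by
      intro i c
      rw [← Function.iterate_succ_apply' (im g) i c, Function.iterate_succ_apply]
      constructor
      · intro he; exact hinj.iterate i he
      · intro he; rw [he]
    have hNL : ∀ c, φN c ≠ 0 → c ∈ L ∧ c.card = n := by
      intro c hc
      apply hφ
      intro h0; apply hc; simp [hφN, h0]
    refine ⟨ψ, φ', ?_, ?_, ?_, ?_⟩
    · intro c hc
      simp only [hψ] at hc
      obtain ⟨i, _, hne⟩ := exists_ne_zero_of_sum_ne_zero hc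
      have : ∑ j ∈ range i, φN ((im g)^[j] c) ≠ 0 := fun h0 => hne (by rw [h0, mul_zero])
      obtain ⟨j, _, hne2⟩ := exists_ne_zero_of_sum_ne_zero this
      obtain ⟨h2, h3⟩ := hNL _ hne2
      exact ⟨(h.iter_mem j c).1 h2, by rw [← h3, card_iter]⟩
    · intro c hc
      apply hφ
      intro h0; apply hc; simp [hφ', h0]
    · intro c hc
      by_contra h0
      apply hc; simp [hφ', h0]
    · funext c
      simp only [Pi.add_apply, sigma]
      by_cases hcL : c ∈ L
      · by_cases hc : im g c = c
        · rw [hc, sub_self, zero_add]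
          simp [hφ', hc]
        · have hφ'0 : φ' c = 0 := by simp [hφ', hc]
          rw [hφ'0, add_zero]
          -- S i
          set S : ℕ → ZMod p := fun i => ∑ j ∈ range i, φN ((im g)^[j] c) with hS
          have hSp : S p = 0 := by
            have := congrFun htau c
            simp only [tau, Pi.zero_apply] at this
            rw [← this]
            apply sum_congr rfl
            intro j _
            simp only [hφN]
            rw [if_neg]
            rw [hfixiter]; exact hc
          have hS0 : S 0 = 0 := by simp [hS]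
          have e1 : ψ (im g c) = ∑ i ∈ range p, ρ ((im g)^[i+1] c) * (S (i+1) - φ c) := by
            simp only [hψ]
            apply sum_congr rfl
            intro i _
            rw [← Function.iterate_succ_apply]
            congr 1
            simp only [hS]
            rw [sum_range_succ']
            simp only [Function.iterate_zero, id_eq]
            have : φN c = φ c := by simp [hφN, hc]
            rw [this, add_sub_cancel_right]
            apply sum_congr rfl
            intro j _
            rw [← Function.iterate_succ_apply]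
          have e2 : ∑ i ∈ range p, ρ ((im g)^[i+1] c) = 1 := by
            have h1 := hρ (im g c) ((h.inv c).2 hcL) (by
              intro he; exact hc (hinj he))
            rw [← h1]
            apply sum_congr rfl
            intro i _
            rw [Function.iterate_succ_apply]
          have e3 : ∑ i ∈ range p, ρ ((im g)^[i+1] c) * S (i+1) = ψ c := by
            simp only [hψ]
            have h1 := sum_range_succ' (fun i => ρ ((im g)^[i] c) * S i) p
            have h2 := sum_range_succ (fun i => ρ ((im g)^[i] c) * S i) p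
            rw [h2] at h1
            simp only [hS0, hSp, mul_zero, add_zero] at h1
            exact h1.symm
          rw [e1]
          simp only [mul_sub, sum_sub_distrib]
          rw [e3, ← sum_mul, e2]
          ring
      · have e1 : φ c = 0 := by
          by_contra h0; exact hcL (hφ c h0).1
        have e2 : φ' c = 0 := by simp [hφ', e1]
        have hgen : ∀ c, c ∉ L → ψ c = 0 := by
          intro c hc
          simp only [hψ]
          apply sum_eq_zero
          intro i _
          have : ∑ j ∈ range i, φN ((im g)^[j] c) = 0 := by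
            apply sum_eq_zero
            intro j _
            by_contra h0
            exact hc ((h.iter_mem j c).1 (hNL _ h0).1)
          rw [this, mul_zero]
        rw [e1, e2, hgen c hcL, hgen (im g c) (fun h' => hcL ((h.inv c).1 h'))]
        simp

lemma opPair_tau_sigma (h : SmithData p r g L) :
    OpPair p r g L (tau (ZMod p) p g) (sigma (ZMod p) g) := by
  have hp : p.Prime := Fact.out
  have hop := opPair_sigma_tau h
  refine ⟨bd_tau _ h.hr, bd_sigma _ h.hr, ?_, ?_, fun φ c hc => tau_at_fix φ c hc, ?_, ?_, hop.chb, hop.cha, ?_⟩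
  · intro φ ψ; funext c; simp only [sigma, Pi.sub_apply]; ring
  · intro φ ψ; funext c; simp only [sigma, Pi.add_apply]; ring
  · intro φ hf
    funext c
    simp only [sigma, Pi.zero_apply]
    by_cases hc : im g c = c
    · rw [hc, sub_self]
    · have e1 : φ c = 0 := by
        by_contra h0; exact hc (hf c h0)
      have e2 : φ (im g c) = 0 := by
        by_contra h0
        have := hf _ h0
        exact hc (Finset.map_injective _ this)
      rw [e1, e2, sub_self]
  · intro n φ hφ
    funext c
    simp only [sigma, Pi.zero_apply]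
    unfold tau
    have e : ∑ i ∈ range p, φ ((im g)^[i] (im g c)) = ∑ i ∈ range p, φ ((im g)^[i] c) := by
      have h1 := sum_range_succ' (fun i => φ ((im g)^[i] c)) p
      have h2 := sum_range_succ (fun i => φ ((im g)^[i] c)) p
      rw [h2] at h1
      simp only [Function.iterate_succ_apply] at h1
      have h3 : φ ((im g)^[p] c) = φ c := by
        by_cases hc : c ∈ L
        · rw [h.im_per c hc]
        · have e1 : φ c = 0 := by
            by_contra h0; exact hc (hφ c h0).1
          have e2 : φ ((im g)^[p] c) = 0 := by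
            by_contra h0
            exact hc ((h.iter_mem p c).1 (hφ _ h0).1)
          rw [e1, e2]
      simp only [Function.iterate_zero, id_eq] at h1
      rw [h3] at h1
      exact (add_right_cancel h1).symm
    rw [e, sub_self]
  · -- kernel of sigma
    intro n φ hφ hsig
    obtain ⟨ρ, hρ⟩ := h.exists_rho (ZMod p) hp
    have hinv : ∀ c, φ (im g c) = φ c := by
      intro c
      have := congrFun hsig c
      simp only [sigma, Pi.zero_apply] at this
      exact (sub_eq_zero.1 this).symm
    have hinvi : ∀ i c, φ ((im g)^[i] c) = φ c := by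
      intro i c
      induction i with
      | zero => rfl
      | succ n ih => rw [Function.iterate_succ_apply', hinv, ih]
    refine ⟨fun c => ρ c * (if im g c = c then 0 else φ c), fun c => if im g c = c then φ c else 0, ?_, ?_, ?_, ?_⟩
    · intro c hc
      apply hφ
      intro h0; apply hc; simp [h0]
    · intro c hc
      apply hφ
      intro h0; apply hc; simp [h0]
    · intro c hc
      by_contra h0
      apply hc; simp [h0]
    · have hinj : Function.Injective (im g) := fun a b hab => Finset.map_injective _ hab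
      have hfixiter : ∀ i c, im g ((im g)^[i] c) = (im g)^[i] c ↔ im g c = c := by
        intro i c
        rw [← Function.iterate_succ_apply' (im g) i c, Function.iterate_succ_apply]
        constructor
        · intro he; exact hinj.iterate i he
        · intro he; rw [he]
      funext c
      simp only [Pi.add_apply]
      by_cases hc : im g c = c
      · rw [tau_at_fix _ c hc, if_pos hc, zero_add]
      · rw [if_neg hc, add_zero]
        unfold tau
        have : ∀ i ∈ range p, ρ ((im g)^[i] c) * (if im g ((im g)^[i] c) = (im g)^[i] c then 0 else φ ((im g)^[i] c))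
            = ρ ((im g)^[i] c) * φ c := by
          intro i _
          rw [if_neg (by rw [hfixiter]; exact hc), hinvi]
        rw [sum_congr rfl this, ← sum_mul]
        by_cases hcL : c ∈ L
        · rw [hρ c hcL hc, one_mul]
        · have e1 : φ c = 0 := by
            by_contra h0; exact hcL (hφ c h0).1
          rw [e1, mul_zero]

/-- Smith: the fixed subcomplex of a mod-`p` acyclic complex is mod-`p` acyclic -/
theorem smith (h : SmithData p r g L) (hA : Acy (ZMod p) r L) :
    Acy (ZMod p) r {c | c ∈ L ∧ ∀ x ∈ c, g x = x} := by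
  have hall : ∀ k n, n + k = Fintype.card α + 1 →
      ImEx p r L (sigma (ZMod p) g) n ∧ ImEx p r L (tau (ZMod p) p g) n := by
    intro k
    induction k with
    | zero =>
      intro n hn
      have hz : ∀ ψ, Ch (ZMod p) L n ψ → ψ = 0 := by
        intro ψ hψ
        funext c
        by_contra h0
        have := (hψ c h0).2
        have h2 := card_le_univ c
        omega
      constructor
      · intro ψ hψ _
        refine ⟨0, fun c hc => absurd rfl hc, ?_⟩
        rw [hz ψ hψ, bd_sigma _ h.hr, map_zero]
      · intro ψ hψ _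
        refine ⟨0, fun c hc => absurd rfl hc, ?_⟩
        rw [hz ψ hψ, bd_tau _ h.hr, map_zero]
    | succ k ih =>
      intro n hn
      obtain ⟨h1, h2⟩ := ih (n+1) (by omega)
      exact ⟨(smith_step h hA _ _ (opPair_sigma_tau h) n h2).1,
        (smith_step h hA _ _ (opPair_tau_sigma h) n h1).1⟩
  intro n φ hφ hcyc
  have hfixex : FixEx p r g L n := by
    by_cases hn : n ≤ Fintype.card α
    · exact (smith_step h hA _ _ (opPair_sigma_tau h) n (hall (Fintype.card α - n) (n+1) (by omega)).2).2
    · intro ψ hψ _ _
      have hz : ψ = 0 := by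
        funext c
        by_contra h0
        have := (hψ c h0).2
        have h2 := card_le_univ c
        omega
      exact ⟨0, fun c hc => absurd rfl hc, fun c hc => absurd rfl hc, by rw [hz, map_zero]⟩
  obtain ⟨u, hu, hfu, hub⟩ := hfixex φ (fun c hc => ⟨(hφ c hc).1.1, (hφ c hc).2⟩)
    (fun c hc => (h.fix_iff c (hφ c hc).1.1).2 (hφ c hc).1.2) hcyc
  exact ⟨u, fun c hc => ⟨⟨(hu c hc).1, (h.fix_iff c (hu c hc).1).1 (hfu c hc)⟩, (hu c hc).2⟩, hub⟩

end Smith

end Pool.Agent.Lead.Ev
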