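import Mathlib
import Pool.Agent.Lead.EvSmith

/-!
From mod `p` to rational acyclicity, Lefschetz trace argument, Euler characteristic mod `q`.
-/

set_option autoImplicit false
set_option linter.unusedSectionVars false
set_option linter.unusedSimpArgs false

namespace Pool.Agent.Lead.Ev

open Finset

variable {α : Type*} [Fintype α] [DecidableEq α]

/-- boundary commutes with ring maps -/
lemma bd_map {R S : Type*} [CommRing R] [CommRing S] (f : R →+* S) (r : α → ℕ) (φ : Finset α → R) :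
    bd S r (fun c => f (φ c)) = fun c => f (bd R r φ c) := by
  funext c
  rw [bd_apply, bd_apply, map_sum]
  apply sum_congr rfl
  intro x _
  rw [map_mul]
  congr 1
  simp [sg]

/-- the submodule of `n`-chains -/
def chSub (R : Type*) [CommRing R] (L : Set (Finset α)) (n : ℕ) : Submodule R (Finset α → R) where
  carrier := {φ | Ch R L n φ}
  add_mem' := fun {a b} ha hb => Ch.add ha hb
  zero_mem' := fun c hc => absurd rfl hc
  smul_mem' := by
    intro a φ hφ c hc
    apply hφ
    intro h0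
    apply hc
    simp [h0]

lemma mem_chSub {R : Type*} [CommRing R] {L : Set (Finset α)} {n : ℕ} {φ : Finset α → R} :
    φ ∈ chSub R L n ↔ Ch R L n φ := Iff.rfl

lemma acy_int (p : ℕ) [Fact p.Prime] (r : α → ℕ) (L : Set (Finset α)) (hL : IsCx r L)
    (hA : Acy (ZMod p) r L) (n : ℕ) : ∃ m : ℤ, m ≠ 0 ∧ ∀ φ : Finset α → ℤ, Ch ℤ L n φ →
      bd ℤ r φ = 0 → ∃ ψ, Ch ℤ L (n+1) ψ ∧ bd ℤ r ψ = m • φ := by
  have hp : p.Prime := Fact.out
  set Z : Submodule ℤ (Finset α → ℤ) := chSub ℤ L n ⊓ LinearMap.ker (bd ℤ r) with hZ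
  set B : Submodule ℤ (Finset α → ℤ) := (chSub ℤ L (n+1)).map (bd ℤ r) with hB
  have hfg : Z.FG := IsNoetherian.noetherian Z
  have hle : Z ≤ B ⊔ (Ideal.span {(p : ℤ)}) • Z := by
    intro z hz
    rw [hZ, Submodule.mem_inf, LinearMap.mem_ker] at hz
    obtain ⟨hz1, hz2⟩ := hz
    -- reduce mod p
    set zb : Finset α → ZMod p := fun c => (Int.castRingHom (ZMod p)) (z c) with hzb
    have h1 : Ch (ZMod p) L n zb := by
      intro c hc
      apply hz1 c
      intro h0; apply hc; simp [hzb, h0]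
    have h2 : bd (ZMod p) r zb = 0 := by
      rw [hzb, bd_map, hz2]; funext c; simp
    obtain ⟨wb, hw1, hw2⟩ := hA n zb h1 h2
    -- lift
    set w : Finset α → ℤ := fun c => (ZMod.cast (wb c) : ℤ) with hw
    have hwc : Ch ℤ L (n+1) w := by
      intro c hc
      apply hw1 c
      intro h0; apply hc; simp [hw, h0]
    have hwr : (fun c => (Int.castRingHom (ZMod p)) (w c)) = wb := by
      funext c
      simp [hw]
    have h3 : ∀ c, (p : ℤ) ∣ z c - bd ℤ r w c := by
      intro c
      rw [← ZMod.intCast_zmod_eq_zero_iff_dvd]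
      have e1 : ((bd ℤ r w c : ℤ) : ZMod p) = bd (ZMod p) r wb c := by
        rw [← hwr, bd_map]; rfl
      push_cast
      rw [e1, hw2]
      simp [hzb]
    choose x hx using h3
    have hpz : (p : ℤ) ≠ 0 := by exact_mod_cast hp.ne_zero
    have hdec : z = bd ℤ r w + (p : ℤ) • x := by
      funext c
      have := hx c
      simp only [Pi.add_apply, Pi.smul_apply, smul_eq_mul]
      linarith
    have hxZ : x ∈ Z := by
      rw [hZ, Submodule.mem_inf, LinearMap.mem_ker]
      constructor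
      · intro c hc
        have : z c - bd ℤ r w c ≠ 0 := by
          rw [hx c]; exact mul_ne_zero hpz hc
        have hsub : Ch ℤ L n (z - bd ℤ r w) := Ch.sub hz1 (hwc.bd hL)
        exact hsub c this
      · have : bd ℤ r ((p : ℤ) • x) = 0 := by
          have e : (p : ℤ) • x = z - bd ℤ r w := by rw [hdec]; abel
          rw [e, map_sub, hz2, bd_bd _ _ _ (hwc.RS hL), sub_zero]
        rw [map_smul] at this
        funext c
        have h4 := congrFun this c
        simp only [Pi.smul_apply, smul_eq_mul, Pi.zero_apply] at h4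
        rcases mul_eq_zero.1 h4 with h | h
        · exact absurd h hpz
        · simpa using h
    rw [hdec]
    apply Submodule.add_mem_sup
    · exact ⟨w, hwc, rfl⟩
    · exact Submodule.smul_mem_smul (Ideal.mem_span_singleton_self _) hxZ
  obtain ⟨m, hm1, hm2⟩ := Submodule.exists_sub_one_mem_and_smul_le_of_fg_of_le_sup hfg le_rfl hle
  refine ⟨m, ?_, ?_⟩
  · rintro rfl
    rw [Ideal.mem_span_singleton] at hm1
    have : (p : ℤ) ∣ 1 := by
      have := (dvd_neg.2 hm1)
      simpa using this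
    have h5 : (p : ℤ) = 1 := by
      apply Int.eq_one_of_dvd_one (by positivity) this
    have : p = 1 := by exact_mod_cast h5
    exact hp.one_lt.ne' this
  · intro φ hφ hcyc
    have hz : φ ∈ Z := by
      rw [hZ, Submodule.mem_inf, LinearMap.mem_ker]
      exact ⟨hφ, hcyc⟩
    have : m • φ ∈ B := hm2 (Submodule.smul_mem_pointwise_smul φ m Z hz)
    obtain ⟨ψ, h1, h2⟩ := this
    exact ⟨ψ, h1, h2⟩

lemma acy_rat (p : ℕ) [Fact p.Prime] (r : α → ℕ) (L : Set (Finset α)) (hL : IsCx r L)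
    (hA : Acy (ZMod p) r L) : Acy ℚ r L := by
  intro n φ hφ hcyc
  obtain ⟨m, hm, hex⟩ := acy_int p r L hL hA n
  -- common denominator
  set N : ℤ := ∏ c : Finset α, ((φ c).den : ℤ) with hN
  have hN0 : N ≠ 0 := by
    rw [hN, prod_ne_zero_iff]
    intro c _
    exact_mod_cast (φ c).den_ne_zero
  have hint : ∀ c, ∃ z : ℤ, (z : ℚ) = N * φ c := by
    intro c
    have hd : ((φ c).den : ℤ) ∣ N := dvd_prod_of_mem _ (mem_univ c)
    obtain ⟨k, hk⟩ := hd
    refine ⟨k * (φ c).num, ?_⟩
    rw [hk]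
    push_cast
    have : ((φ c).den : ℚ) * φ c = (φ c).num := by
      rw [mul_comm]; exact Rat.mul_den_eq_num (φ c)
    calc (k : ℚ) * ((φ c).num : ℚ) = k * (((φ c).den : ℚ) * φ c) := by rw [this]
      _ = _ := by ring
  choose z hz using hint
  have hzc : Ch ℤ L n z := by
    intro c hc
    apply hφ
    intro h0
    apply hc
    have := hz c
    rw [h0, mul_zero] at this
    exact_mod_cast this
  have hzφ : (fun c => (Int.castRingHom ℚ) (z c)) = (N : ℚ) • φ := by
    funext c
    simp [hz c]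
  have hzd : bd ℤ r z = 0 := by
    funext c
    have h1 : ((bd ℤ r z c : ℤ) : ℚ) = 0 := by
      have := congrFun (bd_map (Int.castRingHom ℚ) r z) c
      rw [hzφ, map_smul, hcyc] at this
      simpa using this.symm
    exact_mod_cast h1
  obtain ⟨ψ, hψ, hψb⟩ := hex z hzc hzd
  refine ⟨fun c => ((m * N : ℤ) : ℚ)⁻¹ * (ψ c : ℚ), ?_, ?_⟩
  · intro c hc
    apply hψ
    intro h0
    apply hc
    simp [h0]
  · have e1 : (fun c => ((m * N : ℤ) : ℚ)⁻¹ * (ψ c : ℚ)) =
        ((m * N : ℤ) : ℚ)⁻¹ • (fun c => (Int.castRingHom ℚ) (ψ c)) := by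
      funext c; simp
    rw [e1, map_smul, bd_map, hψb]
    funext c
    simp only [Pi.smul_apply, smul_eq_mul, Int.coe_castRingHom, Int.cast_mul]
    rw [hz c]
    have hm' : (m : ℚ) ≠ 0 := by exact_mod_cast hm
    have hN' : (N : ℚ) ≠ 0 := by exact_mod_cast hN0
    field_simp

section Trace

variable (r : α → ℕ) (L : Set (Finset α)) [DecidablePred (· ∈ L)]

/-- projection to functions supported on `L` -/
def pr : (Finset α → ℚ) →ₗ[ℚ] (Finset α → ℚ) where
  toFun φ := fun c => if c ∈ L then φ c else 0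
  map_add' φ ψ := by funext c; simp only [Pi.add_apply]; split_ifs <;> simp
  map_smul' a φ := by funext c; simp only [Pi.smul_apply, smul_eq_mul, RingHom.id_apply]; split_ifs <;> simp

/-- parity operator -/
def par : (Finset α → ℚ) →ₗ[ℚ] (Finset α → ℚ) where
  toFun φ := fun c => (-1) ^ c.card * φ c
  map_add' φ ψ := by funext c; simp [mul_add]
  map_smul' a φ := by funext c; simp only [Pi.smul_apply, smul_eq_mul, RingHom.id_apply]; ring

lemma exact_of_acy (_hL : IsCx r L) (hA : Acy ℚ r L) (φ : Finset α → ℚ) (h1 : ∀ c, φ c ≠ 0 → c ∈ L)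
    (h2 : bd ℚ r φ = 0) : ∃ ψ, (∀ c, ψ c ≠ 0 → c ∈ L) ∧ bd ℚ r ψ = φ := by
  have hpart : ∀ n, ∃ ψ, Ch ℚ L (n+1) ψ ∧ bd ℚ r ψ = fun c => if c.card = n then φ c else 0 := by
    intro n
    apply hA n
    · intro c hc
      have hc : (if c.card = n then φ c else 0) ≠ 0 := hc
      by_cases h : c.card = n
      · rw [if_pos h] at hc
        exact ⟨h1 c hc, h⟩
      · rw [if_neg h] at hc; exact absurd rfl hc
    · funext c
      rw [bd_apply]
      by_cases h : c.card + 1 = n
      · have := congrFun h2 c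
        rw [bd_apply] at this
        rw [← this]
        apply sum_congr rfl
        intro x hx
        rw [mem_compl] at hx
        rw [if_pos (by rw [card_insert_of_notMem hx]; exact h)]
      · apply sum_eq_zero
        intro x hx
        rw [mem_compl] at hx
        rw [if_neg (by rw [card_insert_of_notMem hx]; exact h), mul_zero]
  choose ψ hψ hψb using hpart
  refine ⟨∑ n ∈ range (Fintype.card α + 1), ψ n, ?_, ?_⟩
  · intro c hc
    rw [Finset.sum_apply] at hc
    obtain ⟨n, _, hne⟩ := exists_ne_zero_of_sum_ne_zero hc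
    exact (hψ n c hne).1
  · rw [map_sum]
    funext c
    rw [Finset.sum_apply]
    simp only [hψb]
    rw [sum_ite_eq]
    rw [if_pos]
    rw [mem_range]
    have := card_le_univ c
    omega

lemma exists_contraction (hL : IsCx r L) (hA : Acy ℚ r L) :
    ∃ s : (Finset α → ℚ) →ₗ[ℚ] (Finset α → ℚ),
      (bd ℚ r ∘ₗ pr L) ∘ₗ s + s ∘ₗ (bd ℚ r ∘ₗ pr L) = pr L := by
  obtain ⟨d, hd⟩ : ∃ d : (Finset α → ℚ) →ₗ[ℚ] (Finset α → ℚ), d = bd ℚ r ∘ₗ pr L := ⟨_, rfl⟩
  rw [← hd]
  have hdapp : ∀ φ, d φ = bd ℚ r (pr L φ) := fun φ => by rw [hd]; rfl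
  have hprsup : ∀ φ c, pr L φ c ≠ 0 → c ∈ L := by
    intro φ c hc
    by_contra h; apply hc; simp [pr, h]
  have hprpr : ∀ φ, (∀ c, φ c ≠ 0 → c ∈ L) → pr L φ = φ := by
    intro φ h
    funext c
    simp only [pr, LinearMap.coe_mk, AddHom.coe_mk]
    by_cases hc : c ∈ L
    · rw [if_pos hc]
    · rw [if_neg hc]
      by_contra h0; exact hc (h c (fun h' => h0 h'.symm))
  have hdsup : ∀ φ c, d φ c ≠ 0 → c ∈ L := by
    intro φ c hc
    rw [hdapp, bd_apply] at hc
    obtain ⟨x, _, hne⟩ := exists_ne_zero_of_sum_ne_zero hc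
    have : pr L φ (insert x c) ≠ 0 := fun h0 => hne (by rw [h0, mul_zero])
    exact hL.down _ (hprsup _ _ this) _ (subset_insert _ _)
  have hdd : ∀ φ, d (d φ) = 0 := by
    intro φ
    have h1 : pr L (d φ) = d φ := hprpr _ (hdsup φ)
    rw [hdapp (d φ), h1, hdapp]
    apply bd_bd
    intro c hc
    exact hL.inj c (hprsup _ _ hc)
  have hdpr : ∀ φ, d (pr L φ) = d φ := by
    intro φ
    rw [hdapp, hdapp, hprpr _ (hprsup φ)]
  -- section of d on its range
  obtain ⟨σ, hσ⟩ := LinearMap.exists_rightInverse_of_surjective (d.rangeRestrict)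
    (by rw [LinearMap.range_rangeRestrict])
  obtain ⟨P, hP⟩ := LinearMap.exists_leftInverse_of_injective (LinearMap.range d).subtype
    (by rw [Submodule.ker_subtype])
  obtain ⟨s1, hs1⟩ : ∃ s1 : (Finset α → ℚ) →ₗ[ℚ] (Finset α → ℚ), s1 = pr L ∘ₗ σ ∘ₗ P := ⟨_, rfl⟩
  have hs1app : ∀ φ, s1 φ = pr L (σ (P φ)) := fun φ => by rw [hs1]; rfl
  have hs1d : ∀ y, y ∈ LinearMap.range d → d (s1 y) = y := by
    intro y hy
    have e1 : P y = ⟨y, hy⟩ := by
      have := LinearMap.congr_fun hP ⟨y, hy⟩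
      simpa using this
    have e2 : (d.rangeRestrict) (σ ⟨y, hy⟩) = ⟨y, hy⟩ := LinearMap.congr_fun hσ ⟨y, hy⟩
    rw [hs1app, e1, hdpr]
    exact congrArg Subtype.val e2
  have hs1sup : ∀ φ c, s1 φ c ≠ 0 → c ∈ L := by
    intro φ c hc
    rw [hs1app] at hc
    exact hprsup _ _ hc
  refine ⟨s1 ∘ₗ (pr L - s1 ∘ₗ d), ?_⟩
  apply LinearMap.ext
  intro x
  have hrange : pr L x - s1 (d x) ∈ LinearMap.range d := by
    have hsup : ∀ c, (pr L x - s1 (d x)) c ≠ 0 → c ∈ L := by
      intro c hc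
      by_contra hcL
      apply hc
      have e1 : pr L x c = 0 := by
        by_contra h0; exact hcL (hprsup _ _ h0)
      have e2 : s1 (d x) c = 0 := by
        by_contra h0; exact hcL (hs1sup _ _ h0)
      rw [Pi.sub_apply, e1, e2, sub_zero]
    have hcy : bd ℚ r (pr L x - s1 (d x)) = 0 := by
      have h3 : d (pr L x - s1 (d x)) = 0 := by
        rw [map_sub, hdpr, hs1d _ ⟨x, rfl⟩, sub_self]
      rw [hdapp, hprpr _ hsup] at h3
      exact h3
    obtain ⟨ψ, h4, h5⟩ := exact_of_acy r L hL hA _ hsup hcy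
    refine ⟨ψ, ?_⟩
    rw [hdapp, hprpr _ h4, h5]
  show d (s1 (pr L x - s1 (d x))) + s1 (pr L (d x) - s1 (d (d x))) = pr L x
  rw [hdd x, map_zero, sub_zero, hprpr _ (hdsup x), hs1d _ hrange]
  abel

/-- Lefschetz: the alternating number of fixed faces of a rationally acyclic complex is zero -/
theorem lefschetz (g : Equiv.Perm α) (hr : ∀ x, r (g x) = r x) (hL : IsCx r L)
    (hinv : ∀ c, im g c ∈ L ↔ c ∈ L) (hA : Acy ℚ r L) :
    ∑ c : Finset α, (if c ∈ L ∧ im g c = c then (-1 : ℚ) ^ c.card else 0) = 0 := by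
  obtain ⟨s, hs⟩ := exists_contraction r L hL hA
  set d := bd ℚ r ∘ₗ pr L with hd
  set A : (Finset α → ℚ) →ₗ[ℚ] (Finset α → ℚ) := par ∘ₗ pb ℚ g with hAdef
  -- A anticommutes with d
  have hprpb : ∀ φ, pr L (pb ℚ g φ) = pb ℚ g (pr L φ) := by
    intro φ
    funext c
    simp only [pr, pb, LinearMap.coe_mk, AddHom.coe_mk, hinv]
  have hprpar : ∀ φ, pr L (par φ) = par (pr L φ) := by
    intro φ
    funext c
    simp only [pr, par, LinearMap.coe_mk, AddHom.coe_mk]
    split_ifs <;> simp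
  have hbdpar : ∀ φ, bd ℚ r (par φ) = - par (bd ℚ r φ) := by
    intro φ
    funext c
    simp only [bd_apply, par, LinearMap.coe_mk, AddHom.coe_mk, Pi.neg_apply]
    rw [mul_sum, ← sum_neg_distrib]
    apply sum_congr rfl
    intro x hx
    rw [mem_compl] at hx
    rw [card_insert_of_notMem hx, pow_succ]
    ring
  have hanti : A ∘ₗ d = - (d ∘ₗ A) := by
    apply LinearMap.ext
    intro φ
    rw [LinearMap.neg_apply, LinearMap.comp_apply, LinearMap.comp_apply, hAdef, hd,
      LinearMap.comp_apply, LinearMap.comp_apply, LinearMap.comp_apply, LinearMap.comp_apply,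
      hprpar, hprpb, hbdpar, bd_pb ℚ r g hr, neg_neg]
  have htr : LinearMap.trace ℚ _ (A ∘ₗ pr L) = 0 := by
    rw [← hs, LinearMap.comp_add, map_add]
    have e1 : LinearMap.trace ℚ _ (A ∘ₗ s ∘ₗ d) = LinearMap.trace ℚ _ (d ∘ₗ A ∘ₗ s) := by
      have := LinearMap.trace_mul_comm ℚ (A ∘ₗ s) d
      simpa [Module.End.mul_eq_comp, LinearMap.comp_assoc] using this
    rw [e1]
    have e2 : A ∘ₗ d ∘ₗ s = - (d ∘ₗ A ∘ₗ s) := by
      rw [← LinearMap.comp_assoc, hanti, LinearMap.neg_comp, LinearMap.comp_assoc]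
    rw [e2, map_neg]
    ring
  rw [LinearMap.trace_eq_matrix_trace ℚ (Pi.basisFun ℚ (Finset α)), Matrix.trace] at htr
  refine Eq.trans ?_ htr
  apply sum_congr rfl
  intro c _
  rw [Matrix.diag_apply, LinearMap.toMatrix_apply]
  simp only [Pi.basisFun_apply, Pi.basisFun_repr, hAdef, LinearMap.comp_apply, par, pb, pr,
    LinearMap.coe_mk, AddHom.coe_mk, hinv]
  by_cases h1 : c ∈ L
  · by_cases h2 : im g c = c
    · simp [h1, h2]
    · simp [h1, h2, Pi.single_apply]
  · simp [h1]

end Trace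

/-- Euler characteristic mod `q` and fixed faces -/
theorem euler_mod (q : ℕ) [Fact q.Prime] (r : α → ℕ) (g : Equiv.Perm α) (L : Set (Finset α))
    [DecidablePred (· ∈ L)] (h : SmithData q r g L) :
    ∑ c : Finset α, (if c ∈ L then (-1 : ZMod q) ^ c.card else 0) =
    ∑ c : Finset α, (if c ∈ L ∧ im g c = c then (-1 : ZMod q) ^ c.card else 0) := by
  have hp : q.Prime := Fact.out
  obtain ⟨ρ, hρ⟩ := h.exists_rho (ZMod q) hp
  rw [← sub_eq_zero, ← sum_sub_distrib]
  have hinj : Function.Injective (im g) := fun a b hab => Finset.map_injective _ hab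
  have hfixiter : ∀ i c, im g ((im g)^[i] c) = (im g)^[i] c ↔ im g c = c := by
    intro i c
    rw [← Function.iterate_succ_apply' (im g) i c, Function.iterate_succ_apply]
    constructor
    · intro he; exact hinj.iterate i he
    · intro he; rw [he]
  set u : Finset α → ZMod q := fun c => if c ∈ L ∧ im g c ≠ c then (-1) ^ c.card * ρ c else 0 with hu
  have h1 : ∀ c : Finset α, (if c ∈ L then (-1 : ZMod q) ^ c.card else 0) -
      (if c ∈ L ∧ im g c = c then (-1 : ZMod q) ^ c.card else 0) =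
      ∑ i ∈ range q, u ((im g)^[i] c) := by
    intro c
    by_cases hcL : c ∈ L
    · by_cases hc : im g c = c
      · rw [if_pos hcL, if_pos ⟨hcL, hc⟩, sub_self]
        symm
        apply sum_eq_zero
        intro i _
        simp only [hu]
        rw [if_neg]
        rintro ⟨_, h3⟩
        exact h3 ((hfixiter i c).2 hc)
      · rw [if_pos hcL, if_neg (fun h' => hc h'.2), sub_zero]
        have : ∀ i ∈ range q, u ((im g)^[i] c) = (-1) ^ c.card * ρ ((im g)^[i] c) := by
          intro i _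
          simp only [hu]
          rw [if_pos ⟨(h.iter_mem i c).2 hcL, fun h' => hc ((hfixiter i c).1 h')⟩, card_iter]
        rw [sum_congr rfl this, ← mul_sum, hρ c hcL hc, mul_one]
    · rw [if_neg hcL, if_neg (fun h' => hcL h'.1), sub_zero]
      symm
      apply sum_eq_zero
      intro i _
      simp only [hu]
      rw [if_neg]
      rintro ⟨h3, _⟩
      exact hcL ((h.iter_mem i c).1 h3)
  rw [sum_congr rfl (fun c _ => h1 c), sum_comm]
  have h2 : ∀ i, ∑ c : Finset α, u ((im g)^[i] c) = ∑ c : Finset α, u c := by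
    intro i
    have hbij : Function.Bijective ((im g)^[i]) :=
      Finite.injective_iff_bijective.1 (hinj.iterate i)
    exact hbij.sum_comp u
  rw [sum_congr rfl (fun i _ => h2 i)]
  simp

end Pool.Agent.Lead.Ev
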