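import Mathlib
import Pool.Agent.Lead.EvChain
import Pool.Agent.Lead.EvDefs

/-!
Decision trees and acyclicity of order complexes of intervals of zero-sets.
-/

set_option autoImplicit false
set_option linter.unusedSectionVars false
set_option linter.unusedSimpArgs false

namespace Pool.Agent.Lead.Ev

open Finset

variable {V : Type*} [Fintype V] [DecidableEq V]

/-- indicator of a finite set -/
def ind (F : Finset V) : V → Bool := fun v => decide (v ∈ F)

/-- chains of sets strictly above `B`, below `U ∪ B`, on which `f` is false -/
def Lc (f : Finset V → Bool) (U B : Finset V) : Set (Finset (Finset V)) :=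
  {c | f B = false ∧ (∀ F ∈ c, ∀ F' ∈ c, F ⊆ F' ∨ F' ⊆ F) ∧
    ∀ F ∈ c, B ⊂ F ∧ F ⊆ U ∪ B ∧ f F = false}

/-- chains in a family -/
def chS (X : Set (Finset V)) : Set (Finset (Finset V)) :=
  {c | (∀ F ∈ c, ∀ F' ∈ c, F ⊆ F' ∨ F' ⊆ F) ∧ ∀ F ∈ c, F ∈ X}

lemma chS_isCx (X : Set (Finset V)) : IsCx Finset.card (chS X) := by
  constructor
  · rintro c ⟨h1, h2⟩ d hd
    exact ⟨fun F hF F' hF' => h1 F (hd hF) F' (hd hF'), fun F hF => h2 F (hd hF)⟩
  · rintro c ⟨h1, _⟩ F hF F' hF' he
    rcases h1 F hF F' hF' with h | h
    · exact eq_of_subset_of_card_le h he.ge
    · exact (eq_of_subset_of_card_le h he.le).symm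

lemma Lc_eq (f : Finset V → Bool) (U B : Finset V) (h : f B = false) :
    Lc f U B = chS {F | B ⊂ F ∧ F ⊆ U ∪ B ∧ f F = false} := by
  ext c
  simp [Lc, chS, h]

lemma Lc_empty (f : Finset V → Bool) (U B : Finset V) (h : f B = true) :
    Lc f U B = ∅ := by
  ext c
  simp [Lc, h]

lemma Lc_isCx (f : Finset V → Bool) (U B : Finset V) : IsCx Finset.card (Lc f U B) := by
  cases h : f B with
  | true =>
    rw [Lc_empty f U B h]
    exact ⟨fun c hc => absurd hc (Set.notMem_empty _), fun c hc => absurd hc (Set.notMem_empty _)⟩
  | false =>
    rw [Lc_eq f U B h]
    exact chS_isCx _

/-- adding the sets containing `i` strictly above `insert i B` -/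
lemma acy_add (R : Type*) [CommRing R] (f : Finset V → Bool)
    (hmono : ∀ F F', F ⊆ F' → f F' = false → f F = false)
    (U B : Finset V) (i : V) (hiB : i ∉ B)
    (X0 X1 : Set (Finset V))
    (hX0 : X0 = {F | B ⊂ F ∧ F ⊆ U.erase i ∪ B ∧ f F = false})
    (hX1 : X1 = {F | insert i B ⊂ F ∧ F ⊆ U ∪ B ∧ f F = false})
    (h0 : Acy R Finset.card (chS X0)) (S : Finset (Finset V)) :
    (∀ F ∈ S, F ∈ X1) → (∀ F ∈ S, ∀ F' ∈ X1, F ⊆ F' → F' ∈ S) →
    Acy R Finset.card (chS (X0 ∪ (S : Set (Finset V)))) := by
  induction S using Finset.strongInduction with
  | H S ih =>
    intro hS1 hS2
    rcases S.eq_empty_or_nonempty with rfl | hne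
    · simpa using h0
    · obtain ⟨A, hA, hmin⟩ : ∃ A ∈ S, ∀ A' ∈ S, A' ⊆ A → A' = A := by
        obtain ⟨A, hA⟩ := S.exists_minimal hne
        exact ⟨A, hA.prop, fun A' hA' hle => le_antisymm hle (hA.le_of_le hA' hle)⟩
      have hAX1 := hS1 A hA
      rw [hX1] at hAX1
      obtain ⟨hA1, hA2, hA3⟩ := hAX1
      have hiA : i ∈ A := hA1.1 (mem_insert_self _ _)
      have hX0i : ∀ F ∈ X0, i ∉ F := by
        intro F hF hi
        rw [hX0] at hF
        have := hF.2.1 hi
        simp [hiB] at this
      have hAnX0 : A ∉ X0 := fun h => hX0i A h hiA
      -- the apex
      have hapex : A.erase i ∈ X0 := by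
        rw [hX0]
        refine ⟨?_, ?_, hmono _ _ (erase_subset _ _) hA3⟩
        · rw [Finset.ssubset_iff_subset_ne]
          constructor
          · intro x hx
            rw [mem_erase]
            exact ⟨fun h => hiB (h ▸ hx), hA1.1 (mem_insert_of_mem hx)⟩
          · intro he
            apply hA1.2
            rw [he, insert_erase hiA]
        · intro x hx
          rw [mem_erase] at hx
          have := hA2 hx.2
          rw [mem_union] at this ⊢
          rcases this with h | h
          · exact Or.inl (mem_erase.2 ⟨hx.1, h⟩)
          · exact Or.inr h
      apply acy_step R Finset.card _ (chS_isCx _) A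
      · have he : {c | c ∈ chS (X0 ∪ (S : Set (Finset V))) ∧ A ∉ c} =
            chS (X0 ∪ ((S.erase A : Finset (Finset V)) : Set (Finset V))) := by
          ext c
          simp only [chS, Set.mem_ofPred_eq, Set.mem_union, mem_coe, mem_erase]
          constructor
          · rintro ⟨⟨h1, h2⟩, h3⟩
            refine ⟨h1, fun F hF => ?_⟩
            rcases h2 F hF with h | h
            · exact Or.inl h
            · exact Or.inr ⟨fun he => h3 (he ▸ hF), h⟩
          · rintro ⟨h1, h2⟩
            refine ⟨⟨h1, fun F hF => ?_⟩, fun hAc => ?_⟩
            · rcases h2 F hF with h | h
              · exact Or.inl h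
              · exact Or.inr h.2
            · rcases h2 A hAc with h | h
              · exact hAnX0 h
              · exact h.1 rfl
        rw [he]
        apply ih (S.erase A) (erase_ssubset hA)
        · intro F hF
          exact hS1 F (mem_of_mem_erase hF)
        · intro F hF F' hF' hle
          rw [mem_erase] at hF ⊢
          refine ⟨?_, hS2 F hF.2 F' hF' hle⟩
          rintro rfl
          exact hF.1 (hmin F hF.2 hle)
      · -- link is a cone
        have hcx : IsCx Finset.card {c | insert A c ∈ chS (X0 ∪ (S : Set (Finset V))) ∧ A ∉ c} := by
          have hh := chS_isCx (X0 ∪ (S : Set (Finset V)))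
          constructor
          · rintro c ⟨h1, h2⟩ d hd
            exact ⟨hh.down _ h1 _ (insert_subset_insert _ hd), fun h => h2 (hd h)⟩
          · rintro c ⟨h1, _⟩
            exact (hh.inj _ h1).mono (by simp)
        apply acy_cone R Finset.card _ hcx (A.erase i)
        rintro c ⟨⟨h1, h2⟩, h3⟩
        have hcomp : ∀ F ∈ c, F ⊆ A.erase i ∨ A.erase i ⊆ F := by
          intro F hF
          rcases h1 F (mem_insert_of_mem hF) A (mem_insert_self _ _) with h | h
          · rcases h2 F (mem_insert_of_mem hF) with h4 | h4
            · left
              intro x hx
              rw [mem_erase]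
              exact ⟨fun he => hX0i F h4 (he ▸ hx), h hx⟩
            · exact absurd (hmin F h4 h) (fun he => h3 (he ▸ hF))
          · right
            exact (erase_subset _ _).trans h
        have hne : A ≠ A.erase i := by
          intro he
          have : i ∈ A.erase i := he ▸ hiA
          simp at this
        refine ⟨⟨?_, ?_⟩, ?_⟩
        · intro F hF F' hF'
          rw [mem_insert, mem_insert] at hF hF'
          rcases hF with rfl | rfl | hF
          · rcases hF' with rfl | rfl | hF'
            · left; exact Subset.rfl
            · right; exact erase_subset _ _
            · exact h1 _ (mem_insert_self _ _) _ (mem_insert_of_mem hF')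
          · rcases hF' with rfl | rfl | hF'
            · left; exact erase_subset _ _
            · left; exact Subset.rfl
            · exact (hcomp F' hF').symm
          · rcases hF' with rfl | rfl | hF'
            · exact h1 _ (mem_insert_of_mem hF) _ (mem_insert_self _ _)
            · exact hcomp F hF
            · exact h1 _ (mem_insert_of_mem hF) _ (mem_insert_of_mem hF')
        · intro F hF
          rw [mem_insert, mem_insert] at hF
          rcases hF with rfl | rfl | hF
          · exact h2 _ (mem_insert_self _ _)
          · exact Or.inl hapex
          · exact h2 _ (mem_insert_of_mem hF)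
        · rw [mem_insert, not_or]
          exact ⟨hne, h3⟩

/-- Small decision trees give acyclic order complexes. -/
theorem acy_tree (R : Type*) [CommRing R] (f : Finset V → Bool)
    (hmono : ∀ F F', F ⊆ F' → f F' = false → f F = false) (t : DTree V) :
    ∀ U B : Finset V, Disjoint U B → t.depth < U.card →
    (∀ F, B ⊆ F → F ⊆ U ∪ B → t.eval (ind F) = f F) → Acy R Finset.card (Lc f U B) := by
  induction t with
  | leaf b =>
    intro U B hdisj hd hc
    cases b with
    | true =>
      rw [Lc_empty f U B (by rw [← hc B Subset.rfl subset_union_right]; rfl)]
      exact acy_empty R _
    | false =>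
      have hB : f B = false := by rw [← hc B Subset.rfl subset_union_right]; rfl
      have hUB : f (U ∪ B) = false := by
        rw [← hc (U ∪ B) subset_union_right Subset.rfl]; rfl
      have hUne : U.Nonempty := by
        rw [← card_pos]; exact lt_of_le_of_lt (Nat.zero_le _) hd
      rw [Lc_eq f U B hB]
      apply acy_cone R _ _ (chS_isCx _) (U ∪ B)
      rintro c ⟨h1, h2⟩
      constructor
      · intro F hF F' hF'
        rw [mem_insert] at hF hF'
        rcases hF with rfl | hF
        · rcases hF' with rfl | hF'
          · left; exact Subset.rfl
          · right; exact (h2 F' hF').2.1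
        · rcases hF' with rfl | hF'
          · left; exact (h2 F hF).2.1
          · exact h1 F hF F' hF'
      · intro F hF
        rw [mem_insert] at hF
        rcases hF with rfl | hF
        · refine ⟨?_, Subset.rfl, hUB⟩
          rw [Finset.ssubset_iff_subset_ne]
          refine ⟨subset_union_right, fun he => ?_⟩
          obtain ⟨x, hx⟩ := hUne
          have : x ∈ B := by rw [he]; exact mem_union_left _ hx
          exact (disjoint_left.1 hdisj) hx this
        · exact h2 F hF
  | node i t0 t1 ih0 ih1 =>
    intro U B hdisj hd hc
    rw [DTree.depth] at hd
    by_cases hiU : i ∈ U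
    · have hiB : i ∉ B := disjoint_left.1 hdisj hiU
      have hcard : (U.erase i).card + 1 = U.card := card_erase_add_one hiU
      have e1 : U.erase i ∪ insert i B = U ∪ B := by
        ext x
        simp only [mem_union, mem_erase, mem_insert]
        constructor
        · rintro (h | h | h)
          · exact Or.inl h.2
          · exact Or.inl (h ▸ hiU)
          · exact Or.inr h
        · rintro (h | h)
          · by_cases hx : x = i
            · exact Or.inr (Or.inl hx)
            · exact Or.inl ⟨hx, h⟩
          · exact Or.inr (Or.inr h)
      have A0 : Acy R Finset.card (Lc f (U.erase i) B) := by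
        apply ih0 (U.erase i) B
        · exact disjoint_of_subset_left (erase_subset _ _) hdisj
        · have := le_max_left t0.depth t1.depth
          omega
        · intro F hBF hF
          rw [← hc F hBF (hF.trans (union_subset_union (erase_subset _ _) Subset.rfl))]
          have hi : i ∉ F := by
            intro h
            have := hF h
            simp [hiB] at this
          simp [DTree.eval, ind, hi]
      have A1 : Acy R Finset.card (Lc f (U.erase i) (insert i B)) := by
        apply ih1 (U.erase i) (insert i B)
        · rw [disjoint_left]
          intro x hx hx2
          rw [mem_erase] at hx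
          rw [mem_insert] at hx2
          rcases hx2 with h | h
          · exact hx.1 h
          · exact disjoint_left.1 hdisj hx.2 h
        · have := le_max_right t0.depth t1.depth
          omega
        · intro F hBF hF
          rw [e1] at hF
          rw [← hc F ((subset_insert _ _).trans hBF) hF]
          have hi : i ∈ F := hBF (mem_insert_self _ _)
          simp [DTree.eval, ind, hi]
      cases hB : f B with
      | true =>
        rw [Lc_empty f U B hB]; exact acy_empty R _
      | false =>
        cases hiBf : f (insert i B) with
        | true =>
          have he : Lc f U B = Lc f (U.erase i) B := by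
            rw [Lc_eq f U B hB, Lc_eq f _ B hB]
            congr 1
            ext F
            simp only [Set.mem_ofPred_eq]
            constructor
            · rintro ⟨h1, h2, h3⟩
              refine ⟨h1, ?_, h3⟩
              intro x hx
              have := h2 hx
              rw [mem_union] at this ⊢
              rcases this with h | h
              · left
                rw [mem_erase]
                refine ⟨?_, h⟩
                rintro rfl
                have := hmono (insert x B) F (insert_subset hx h1.1) h3
                rw [hiBf] at this
                exact absurd this (by decide)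
              · exact Or.inr h
            · rintro ⟨h1, h2, h3⟩
              exact ⟨h1, h2.trans (union_subset_union (erase_subset _ _) Subset.rfl), h3⟩
          rw [he]; exact A0
        | false =>
          set X0 : Set (Finset V) := {F | B ⊂ F ∧ F ⊆ U.erase i ∪ B ∧ f F = false} with hX0
          set X1 : Set (Finset V) := {F | insert i B ⊂ F ∧ F ⊆ U ∪ B ∧ f F = false} with hX1
          have hX1fin : ∃ S : Finset (Finset V), (S : Set (Finset V)) = X1 := by
            classical
            exact ⟨X1.toFinite.toFinset, Set.Finite.coe_toFinset _⟩
          obtain ⟨S, hS⟩ := hX1fin
          rw [Lc_eq f _ B hB] at A0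
          have hP := acy_add R f hmono U B i hiB X0 X1 hX0 hX1 A0 S
            (fun F hF => by rw [← hS]; exact hF)
            (fun F _ F' hF' _ => by rw [← hS] at hF'; exact hF')
          rw [hS] at hP
          rw [Lc_eq f U B hB]
          apply acy_step R Finset.card _ (chS_isCx _) (insert i B)
          · have he : {c | c ∈ chS {F | B ⊂ F ∧ F ⊆ U ∪ B ∧ f F = false} ∧ insert i B ∉ c} =
                chS (X0 ∪ X1) := by
              ext c
              simp only [chS, Set.mem_ofPred_eq, Set.mem_union]
              constructor
              · rintro ⟨⟨h1, h2⟩, h3⟩
                refine ⟨h1, fun F hF => ?_⟩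
                obtain ⟨h4, h5, h6⟩ := h2 F hF
                by_cases hi : i ∈ F
                · right
                  refine ⟨?_, h5, h6⟩
                  rw [Finset.ssubset_iff_subset_ne]
                  exact ⟨insert_subset hi h4.1, fun he => h3 (he ▸ hF)⟩
                · left
                  refine ⟨h4, ?_, h6⟩
                  intro x hx
                  have := h5 hx
                  rw [mem_union] at this ⊢
                  rcases this with h | h
                  · exact Or.inl (mem_erase.2 ⟨fun he => hi (he ▸ hx), h⟩)
                  · exact Or.inr h
              · rintro ⟨h1, h2⟩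
                refine ⟨⟨h1, fun F hF => ?_⟩, fun hF => ?_⟩
                · rcases h2 F hF with h | h
                  · exact ⟨h.1, h.2.1.trans (union_subset_union (erase_subset _ _) Subset.rfl), h.2.2⟩
                  · refine ⟨?_, h.2.1, h.2.2⟩
                    exact lt_of_le_of_lt (show B ≤ insert i B from subset_insert _ _) h.1
                · rcases h2 _ hF with h | h
                  · have := h.2.1 (mem_insert_self i B)
                    simp [hiB] at this
                  · exact (ssubset_irrefl _ h.1)
            rw [he]; exact hP
          · rw [Lc_eq f _ _ hiBf, e1] at A1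
            have he : {c | insert (insert i B) c ∈ chS {F | B ⊂ F ∧ F ⊆ U ∪ B ∧ f F = false} ∧
                insert i B ∉ c} = chS {F | insert i B ⊂ F ∧ F ⊆ U ∪ B ∧ f F = false} := by
              ext c
              simp only [chS, Set.mem_ofPred_eq]
              constructor
              · rintro ⟨⟨h1, h2⟩, h3⟩
                refine ⟨fun F hF F' hF' => h1 F (mem_insert_of_mem hF) F' (mem_insert_of_mem hF'), ?_⟩
                intro F hF
                obtain ⟨h4, h5, h6⟩ := h2 F (mem_insert_of_mem hF)
                refine ⟨?_, h5, h6⟩
                have hne : insert i B ≠ F := fun he => h3 (he ▸ hF)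
                rw [Finset.ssubset_iff_subset_ne]
                refine ⟨?_, hne⟩
                rcases h1 F (mem_insert_of_mem hF) (insert i B) (mem_insert_self _ _) with h | h
                · -- B ⊂ F ⊆ insert i B
                  exfalso
                  apply hne
                  apply Subset.antisymm _ h
                  apply insert_subset _ h4.1
                  by_contra hi
                  apply h4.2
                  intro x hx
                  have := h hx
                  rw [mem_insert] at this
                  rcases this with h' | h'
                  · exact absurd (h' ▸ hx) hi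
                  · exact h'
                · exact h
              · rintro ⟨h1, h2⟩
                refine ⟨⟨?_, ?_⟩, ?_⟩
                · intro F hF F' hF'
                  rw [mem_insert] at hF hF'
                  rcases hF with rfl | hF
                  · rcases hF' with rfl | hF'
                    · left; exact Subset.rfl
                    · left; exact (h2 F' hF').1.1
                  · rcases hF' with rfl | hF'
                    · right; exact (h2 F hF).1.1
                    · exact h1 F hF F' hF'
                · intro F hF
                  rw [mem_insert] at hF
                  rcases hF with rfl | hF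
                  · refine ⟨?_, ?_, hiBf⟩
                    · rw [Finset.ssubset_iff_subset_ne]
                      refine ⟨subset_insert _ _, fun he => hiB ?_⟩
                      rw [he]; exact mem_insert_self _ _
                    · exact insert_subset (mem_union_left _ hiU) subset_union_right
                  · obtain ⟨h4, h5, h6⟩ := h2 F hF
                    exact ⟨lt_of_le_of_lt (show B ≤ insert i B from subset_insert _ _) h4, h5, h6⟩
                · intro hF
                  exact ssubset_irrefl _ (h2 _ hF).1
            rw [he]; exact A1
    · by_cases hiB : i ∈ B
      · apply ih1 U B hdisj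
        · have := le_max_right t0.depth t1.depth
          omega
        · intro F hBF hF
          rw [← hc F hBF hF]
          have hi : i ∈ F := hBF hiB
          simp [DTree.eval, ind, hi]
      · apply ih0 U B hdisj
        · have := le_max_left t0.depth t1.depth
          omega
        · intro F hBF hF
          rw [← hc F hBF hF]
          have hi : i ∉ F := by
            intro h
            have := hF h
            rw [mem_union] at this
            rcases this with h | h
            · exact hiU h
            · exact hiB h
          simp [DTree.eval, ind, hi]

end Pool.Agent.Lead.Ev
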