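import Mathlib
import Pool.Agent.Lead.EvLef
import Pool.Agent.Lead.EvTree

/-!
Fixed points of Oliver groups on order complexes; maximal invariant zero-sets are large.
-/

set_option autoImplicit false
set_option linter.unusedSectionVars false
set_option linter.unusedSimpArgs false

namespace Pool.Agent.Lead.Ev

open Finset

section Tower

variable {Γ : Type*} [Group Γ] [Finite Γ]

lemma tower_step (p : ℕ) [Fact p.Prime] (A H Q : Subgroup Γ) (hAQ : A ≤ Q) (hQH : Q < H)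
    (hAn : ∀ h ∈ H, ∀ a ∈ A, h * a * h⁻¹ ∈ A) (hpg : ∀ h ∈ H, ∃ k : ℕ, h ^ (p ^ k) ∈ A) :
    ∃ σ ∈ H, σ ∉ Q ∧ (∀ τ, τ ∈ Q ↔ σ * τ * σ⁻¹ ∈ Q) ∧ σ ^ p ∈ Q := by
  have hp : p.Prime := Fact.out
  set A' : Subgroup H := A.subgroupOf H with hA'
  have hnorm : A'.Normal := by
    constructor
    intro a ha h
    rw [hA', Subgroup.mem_subgroupOf] at ha ⊢
    exact hAn h h.2 a ha
  have hpK : IsPGroup p (H ⧸ A') := by
    intro x
    obtain ⟨y, rfl⟩ := QuotientGroup.mk_surjective x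
    obtain ⟨k, hk⟩ := hpg y y.2
    refine ⟨k, ?_⟩
    rw [← QuotientGroup.mk_pow, QuotientGroup.eq_one_iff, hA', Subgroup.mem_subgroupOf]
    simpa using hk
  set Q' : Subgroup (H ⧸ A') := (Q.subgroupOf H).map (QuotientGroup.mk' A') with hQ'
  have hlift : ∀ y : H, (QuotientGroup.mk' A' y) ∈ Q' ↔ (y : Γ) ∈ Q := by
    intro y
    constructor
    · rintro ⟨z, hz, he⟩
      have hz' : (z : Γ) ∈ Q := hz
      rw [QuotientGroup.mk'_eq_mk'] at he
      obtain ⟨a, ha, he⟩ := he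
      have ha' : (a : Γ) ∈ A := ha
      rw [← he]
      exact Q.mul_mem hz' (hAQ ha')
    · intro hy
      exact ⟨y, hy, rfl⟩
  have hQ'lt : Q' < ⊤ := by
    rw [lt_top_iff_ne_top]
    intro he
    apply hQH.2
    intro h hh
    rw [← hlift ⟨h, hh⟩, he]
    trivial
  have : Group.IsNilpotent (H ⧸ A') := hpK.isNilpotent
  have hnc := Group.normalizerCondition_of_isNilpotent (G := H ⧸ A') Q' hQ'lt
  obtain ⟨x, hxN, hxQ⟩ := Set.exists_of_ssubset hnc
  obtain ⟨y, rfl⟩ := QuotientGroup.mk'_surjective A' x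
  -- minimal k
  have hex : ∃ k : ℕ, (QuotientGroup.mk' A' y) ^ (p ^ k) ∈ Q' := by
    obtain ⟨k, hk⟩ := hpK (QuotientGroup.mk' A' y)
    exact ⟨k, by rw [hk]; exact Q'.one_mem⟩
  classical
  set k := Nat.find hex with hk
  have hkspec : (QuotientGroup.mk' A' y) ^ (p ^ k) ∈ Q' := Nat.find_spec hex
  have hk0 : k ≠ 0 := by
    intro h0
    rw [h0] at hkspec
    simp only [pow_zero, pow_one] at hkspec
    exact hxQ hkspec
  obtain ⟨m, hm⟩ := Nat.exists_eq_succ_of_ne_zero hk0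
  have hmn : ¬ (QuotientGroup.mk' A' y) ^ (p ^ m) ∈ Q' := Nat.find_min hex (by omega)
  set σ : H := y ^ (p ^ m) with hσ
  have hσmk : QuotientGroup.mk' A' σ = (QuotientGroup.mk' A' y) ^ (p ^ m) := by
    rw [hσ, map_pow]
  refine ⟨σ, σ.2, ?_, ?_, ?_⟩
  · rw [← hlift, hσmk]; exact hmn
  · intro τ
    have hN : (QuotientGroup.mk' A' σ) ∈ Subgroup.normalizer (Q' : Set (H ⧸ A')) := by
      rw [hσmk]; exact Subgroup.pow_mem _ hxN _
    rw [Subgroup.mem_normalizer_iff] at hN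
    constructor
    · intro hτ
      have hτH : τ ∈ H := hQH.1 hτ
      have h1 : QuotientGroup.mk' A' ⟨τ, hτH⟩ ∈ Q' := (hlift _).2 hτ
      have h2 := (hN _).1 h1
      rw [← map_mul, ← map_inv, ← map_mul] at h2
      exact (hlift _).1 h2
    · intro hτ
      have hτH : τ ∈ H := by
        have h3 := hQH.1 hτ
        have h4 : τ = (σ : Γ)⁻¹ * ((σ : Γ) * τ * (σ : Γ)⁻¹) * σ := by group
        rw [h4]
        exact H.mul_mem (H.mul_mem (H.inv_mem σ.2) h3) σ.2
      have h1 : QuotientGroup.mk' A' (σ * ⟨τ, hτH⟩ * σ⁻¹) ∈ Q' := (hlift _).2 hτ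
      rw [map_mul, map_mul, map_inv] at h1
      exact (hlift ⟨τ, hτH⟩).1 ((hN _).2 h1)
  · have h1 : QuotientGroup.mk' A' (σ ^ p) ∈ Q' := by
      rw [map_pow, hσmk, ← pow_mul, ← pow_succ]
      rw [hm] at hkspec
      exact hkspec
    have := (hlift _).1 h1
    simpa using this

theorem tower (p : ℕ) [Fact p.Prime] (A H : Subgroup Γ) (hAH : A ≤ H)
    (hAn : ∀ h ∈ H, ∀ a ∈ A, h * a * h⁻¹ ∈ A) (hpg : ∀ h ∈ H, ∃ k : ℕ, h ^ (p ^ k) ∈ A)
    (motive : Subgroup Γ → Prop) (base : motive A)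
    (step : ∀ (Q : Subgroup Γ) (σ : Γ), σ ∈ H → A ≤ Q → Q ≤ H → motive Q →
      (∀ τ, τ ∈ Q ↔ σ * τ * σ⁻¹ ∈ Q) → σ ^ p ∈ Q → motive (Q ⊔ Subgroup.zpowers σ)) :
    motive H := by
  have key : ∀ Q : Subgroup Γ, A ≤ Q → Q ≤ H → motive Q → motive H := by
    intro Q
    induction Q using WellFoundedGT.induction with
    | ind Q ih =>
      intro hAQ hQH hQ
      rcases eq_or_lt_of_le hQH with h | h
      · rw [← h]; exact hQ
      · obtain ⟨σ, hσH, hσQ, hσn, hσp⟩ := tower_step p A H Q hAQ h hAn hpg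
        apply ih (Q ⊔ Subgroup.zpowers σ)
        · rw [left_lt_sup]
          intro hle
          exact hσQ (hle (Subgroup.mem_zpowers σ))
        · exact hAQ.trans le_sup_left
        · exact sup_le hQH (by rw [Subgroup.zpowers_le]; exact hσH)
        · exact step Q σ hσH hAQ hQH hQ hσn hσp
  exact key A le_rfl hAH base

end Tower

variable {V : Type*} [Fintype V] [DecidableEq V]

/-- the permutation of finite sets induced by a permutation of points -/
def fm : Equiv.Perm V →* Equiv.Perm (Finset V) where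
  toFun σ := σ.finsetCongr
  map_one' := by
    ext F x
    simp [Equiv.finsetCongr]
    rfl
  map_mul' σ τ := by
    apply Equiv.ext
    intro F
    simp [Equiv.finsetCongr, map_map]
    rfl

lemma fm_apply (σ : Equiv.Perm V) (F : Finset V) : fm σ F = F.map σ.toEmbedding := rfl

lemma mem_fm (σ : Equiv.Perm V) (F : Finset V) (x : V) : σ x ∈ fm σ F ↔ x ∈ F := by
  rw [fm_apply]; simp

lemma card_fm (σ : Equiv.Perm V) (F : Finset V) : (fm σ F).card = F.card := by
  rw [fm_apply, card_map]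

lemma fm_subset (σ : Equiv.Perm V) (F F' : Finset V) : fm σ F ⊆ fm σ F' ↔ F ⊆ F' := by
  rw [fm_apply, fm_apply, map_subset_map]

/-- the chains of `Q`-invariant sets -/
def Lfix (f : Finset V → Bool) (B : Finset V) (Q : Subgroup (Equiv.Perm V)) :
    Set (Finset (Finset V)) :=
  {c | c ∈ Lc f Bᶜ B ∧ ∀ F ∈ c, ∀ σ ∈ Q, fm σ F = F}

lemma Lfix_isCx (f : Finset V → Bool) (B : Finset V) (Q : Subgroup (Equiv.Perm V)) :
    IsCx Finset.card (Lfix f B Q) := by
  have hh := Lc_isCx f Bᶜ B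
  constructor
  · rintro c ⟨h1, h2⟩ d hd
    exact ⟨hh.down _ h1 _ hd, fun F hF => h2 F (hd hF)⟩
  · rintro c ⟨h1, _⟩
    exact hh.inj _ h1

lemma smithData_of (p : ℕ) (f : Finset V → Bool) (B : Finset V) (Q : Subgroup (Equiv.Perm V))
    (σ : Equiv.Perm V) (hf : ∀ F, f (fm σ F) = f F) (hB : fm σ B = B)
    (hn : ∀ τ, τ ∈ Q ↔ σ * τ * σ⁻¹ ∈ Q) (hp : σ ^ p ∈ Q) :
    SmithData p Finset.card (fm σ) (Lfix f B Q) := by
  refine ⟨fun F => card_fm σ F, Lfix_isCx f B Q, ?_, ?_⟩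
  · intro c
    have hall : ∀ (q : Finset V → Prop), (∀ F ∈ im (fm σ) c, q F) ↔ ∀ F ∈ c, q (fm σ F) := by
      intro q
      constructor
      · intro h F hF
        exact h _ ((mem_im (fm σ) c F).2 hF)
      · intro h F hF
        unfold im at hF
        rw [mem_map] at hF
        obtain ⟨F', hF', rfl⟩ := hF
        exact h F' hF'
    have hBss : ∀ F, B ⊂ fm σ F ↔ B ⊂ F := by
      intro F
      constructor
      · rintro ⟨h1, h2⟩
        rw [← hB] at h1 h2
        rw [fm_subset] at h1 h2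
        exact ⟨h1, h2⟩
      · rintro ⟨h1, h2⟩
        rw [← fm_subset σ, hB] at h1 h2
        exact ⟨h1, h2⟩
    have huniv : ∀ F : Finset V, F ⊆ Bᶜ ∪ B := by
      intro F x _
      by_cases h : x ∈ B
      · exact mem_union_right _ h
      · exact mem_union_left _ (mem_compl.2 h)
    have hfix : ∀ F, (∀ τ ∈ Q, fm τ (fm σ F) = fm σ F) ↔ (∀ τ ∈ Q, fm τ F = F) := by
      intro F
      constructor
      · intro h τ hτ
        have h1 := h _ ((hn τ).1 hτ)
        have h2 : fm (σ * τ * σ⁻¹) (fm σ F) = fm σ (fm τ F) := by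
          rw [← Equiv.Perm.mul_apply, ← map_mul, ← Equiv.Perm.mul_apply, ← map_mul]
          congr 2
          group
        rw [h2] at h1
        exact (fm σ).injective h1
      · intro h τ hτ
        have h0 : σ⁻¹ * τ * σ ∈ Q := by
          rw [hn]
          have : σ * (σ⁻¹ * τ * σ) * σ⁻¹ = τ := by group
          rw [this]; exact hτ
        have h1 := h _ h0
        have h2 : fm τ (fm σ F) = fm σ (fm (σ⁻¹ * τ * σ) F) := by
          rw [← Equiv.Perm.mul_apply, ← map_mul, ← Equiv.Perm.mul_apply, ← map_mul]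
          congr 2
          group
        rw [h2, h1]
    simp only [Lfix, Lc, Set.mem_ofPred_eq, hall, hf, hBss, huniv, true_and, fm_subset, hfix]
  · rintro c ⟨_, h2⟩ F hF
    rw [← map_pow]
    exact h2 F hF _ hp

lemma Lfix_sup (f : Finset V → Bool) (B : Finset V) (Q : Subgroup (Equiv.Perm V))
    (σ : Equiv.Perm V) :
    {c | c ∈ Lfix f B Q ∧ ∀ F ∈ c, fm σ F = F} = Lfix f B (Q ⊔ Subgroup.zpowers σ) := by
  ext c
  simp only [Lfix, Set.mem_ofPred_eq]
  constructor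
  · rintro ⟨⟨h1, h2⟩, h3⟩
    refine ⟨h1, fun F hF => ?_⟩
    have hle : Q ⊔ Subgroup.zpowers σ ≤
        (MulAction.stabilizer (Equiv.Perm (Finset V)) F).comap (fm (V := V)) := by
      rw [sup_le_iff]
      constructor
      · intro τ hτ
        rw [Subgroup.mem_comap, MulAction.mem_stabilizer_iff]
        exact h2 F hF τ hτ
      · rw [Subgroup.zpowers_le, Subgroup.mem_comap, MulAction.mem_stabilizer_iff]
        exact h3 F hF
    intro τ hτ
    have := hle hτ
    rw [Subgroup.mem_comap, MulAction.mem_stabilizer_iff] at this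
    exact this
  · rintro ⟨h1, h2⟩
    exact ⟨⟨h1, fun F hF τ hτ => h2 F hF τ (Subgroup.mem_sup_left hτ)⟩,
      fun F hF => h2 F hF σ (Subgroup.mem_sup_right (Subgroup.mem_zpowers σ))⟩

/-- For an Oliver group `H` preserving `f`, the complement of a maximal invariant zero-set is not
larger than the depth of any decision tree. -/
theorem main_lemma (f : Finset V → Bool)
    (hmono : ∀ F F', F ⊆ F' → f F' = false → f F = false)
    (p q : ℕ) [Fact p.Prime] [Fact q.Prime] (P C H : Subgroup (Equiv.Perm V))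
    (hPC : P ≤ C) (hCH : C ≤ H)
    (hPp : ∀ σ ∈ P, ∃ k : ℕ, σ ^ (p ^ k) = 1)
    (hPn : ∀ σ ∈ C, ∀ τ ∈ P, σ * τ * σ⁻¹ ∈ P)
    (hcyc : ∃ σ ∈ C, ∀ τ ∈ C, ∃ k : ℤ, τ * σ ^ k ∈ P)
    (hCn : ∀ σ ∈ H, ∀ τ ∈ C, σ * τ * σ⁻¹ ∈ C)
    (hq : ∀ σ ∈ H, ∃ k : ℕ, σ ^ (q ^ k) ∈ C)
    (hinv : ∀ σ ∈ H, ∀ F, f (fm σ F) = f F)
    (B : Finset V) (hB0 : f B = false) (hBinv : ∀ σ ∈ H, fm σ B = B)
    (hmax : ∀ F, B ⊂ F → (∀ σ ∈ H, fm σ F = F) → f F = true)
    (t : DTree V) (ht : ∀ F, t.eval (ind F) = f F) : (Bᶜ).card ≤ t.depth := by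
  classical
  by_contra hlt
  rw [not_le] at hlt
  -- step 1
  have h1 : Acy (ZMod p) Finset.card (Lc f Bᶜ B) :=
    acy_tree (ZMod p) f hmono t Bᶜ B (disjoint_compl_left) hlt (fun F _ _ => ht F)
  have hbot : Lfix f B ⊥ = Lc f Bᶜ B := by
    ext c
    simp only [Lfix, Set.mem_ofPred_eq, Subgroup.mem_bot]
    constructor
    · exact fun h => h.1
    · intro h
      refine ⟨h, ?_⟩
      rintro F _ σ rfl
      rw [map_one]; rfl
  -- step 2
  have h2 : Acy (ZMod p) Finset.card (Lfix f B P) := by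
    apply tower p ⊥ P bot_le
    · intro h _ a ha
      rw [Subgroup.mem_bot] at ha ⊢
      rw [ha]; group
    · intro h hh
      obtain ⟨k, hk⟩ := hPp h hh
      exact ⟨k, by rw [hk]; exact Subgroup.one_mem _⟩
    · rw [hbot]; exact h1
    · intro Q σ hσ _ hQP hQ hn hpow
      have hσH : σ ∈ H := hCH (hPC hσ)
      have hs := smithData_of p f B Q σ (hinv σ hσH) (hBinv σ hσH) hn hpow
      have := smith hs hQ
      rw [← Lfix_sup]
      exact this
  -- step 3
  have h3 : Acy ℚ Finset.card (Lfix f B P) := acy_rat p Finset.card _ (Lfix_isCx f B P) h2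
  -- step 4
  obtain ⟨σ, hσC, hσ⟩ := hcyc
  have hσH : σ ∈ H := hCH hσC
  have hσn : ∀ τ, τ ∈ P ↔ σ * τ * σ⁻¹ ∈ P := by
    intro τ
    constructor
    · exact fun h => hPn σ hσC τ h
    · intro h
      have := hPn σ⁻¹ (C.inv_mem hσC) _ h
      have e : σ⁻¹ * (σ * τ * σ⁻¹) * σ⁻¹⁻¹ = τ := by group
      rw [e] at this
      exact this
  have hs0 := smithData_of 0 f B P σ (hinv σ hσH) (hBinv σ hσH) hσn (by rw [pow_zero]; exact P.one_mem)
  have hCeq : P ⊔ Subgroup.zpowers σ = C := by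
    apply le_antisymm
    · exact sup_le hPC (by rw [Subgroup.zpowers_le]; exact hσC)
    · intro τ hτ
      obtain ⟨k, hk⟩ := hσ τ hτ
      have e : τ = (τ * σ ^ k) * σ ^ (-k) := by group
      rw [e]
      exact Subgroup.mul_mem _ (Subgroup.mem_sup_left hk)
        (Subgroup.mem_sup_right (Subgroup.zpow_mem _ (Subgroup.mem_zpowers σ) _))
  have h4 := lefschetz Finset.card (Lfix f B P) (fm σ) (fun F => card_fm σ F) (Lfix_isCx f B P) hs0.inv h3
  have hiff : ∀ c : Finset (Finset V), (c ∈ Lfix f B P ∧ im (fm σ) c = c) ↔ c ∈ Lfix f B C := by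
    intro c
    rw [← hCeq, ← Lfix_sup]
    constructor
    · rintro ⟨h5, h6⟩
      exact ⟨h5, (hs0.fix_iff c h5).1 h6⟩
    · rintro ⟨h5, h6⟩
      exact ⟨h5, (hs0.fix_iff c h5).2 h6⟩
  have h5 : ∑ c : Finset (Finset V), (if c ∈ Lfix f B C then (-1 : ℚ) ^ c.card else 0) = 0 := by
    refine Eq.trans ?_ h4
    apply sum_congr rfl
    intro c _
    by_cases hc : c ∈ Lfix f B C
    · rw [if_pos hc, if_pos ((hiff c).2 hc)]
    · rw [if_neg hc, if_neg (fun h => hc ((hiff c).1 h))]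
  have h5z : ∑ c : Finset (Finset V), (if c ∈ Lfix f B C then (-1 : ℤ) ^ c.card else 0) = 0 := by
    have : ((∑ c : Finset (Finset V), (if c ∈ Lfix f B C then (-1 : ℤ) ^ c.card else 0) : ℤ) : ℚ) = 0 := by
      refine Eq.trans ?_ h5
      push_cast
      apply sum_congr rfl
      intro c _
      split_ifs <;> simp
    exact_mod_cast this
  have h5q : ∑ c : Finset (Finset V), (if c ∈ Lfix f B C then (-1 : ZMod q) ^ c.card else 0) = 0 := by
    have := congrArg (fun z : ℤ => (z : ZMod q)) h5z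
    simp only [Int.cast_sum, Int.cast_zero] at this
    refine Eq.trans ?_ this
    apply sum_congr rfl
    intro c _
    split_ifs <;> simp
  -- step 5
  have h6 : ∑ c : Finset (Finset V), (if c ∈ Lfix f B H then (-1 : ZMod q) ^ c.card else 0) = 0 := by
    apply tower q C H hCH hCn hq (fun Q => ∑ c : Finset (Finset V),
      (if c ∈ Lfix f B Q then (-1 : ZMod q) ^ c.card else 0) = 0) h5q
    intro Q τ hτ _ _ hQ hn hpow
    have hs := smithData_of q f B Q τ (hinv τ hτ) (hBinv τ hτ) hn hpow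
    have he := euler_mod q Finset.card (fm τ) (Lfix f B Q) hs
    rw [hQ] at he
    refine Eq.trans ?_ he.symm
    apply sum_congr rfl
    intro c _
    have hiff2 : (c ∈ Lfix f B Q ∧ im (fm τ) c = c) ↔ c ∈ Lfix f B (Q ⊔ Subgroup.zpowers τ) := by
      rw [← Lfix_sup]
      constructor
      · rintro ⟨h7, h8⟩
        exact ⟨h7, (hs.fix_iff c h7).1 h8⟩
      · rintro ⟨h7, h8⟩
        exact ⟨h7, (hs.fix_iff c h7).2 h8⟩
    by_cases hc : c ∈ Lfix f B (Q ⊔ Subgroup.zpowers τ)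
    · rw [if_pos hc, if_pos (hiff2.2 hc)]
    · rw [if_neg hc, if_neg (fun h => hc (hiff2.1 h))]
  -- step 6
  have h7 : ∀ c : Finset (Finset V), c ∈ Lfix f B H ↔ c = ∅ := by
    intro c
    constructor
    · rintro ⟨⟨_, _, h8⟩, h9⟩
      rw [eq_empty_iff_forall_notMem]
      intro F hF
      have := hmax F (h8 F hF).1 (h9 F hF)
      rw [(h8 F hF).2.2] at this
      exact absurd this (by decide)
    · rintro rfl
      refine ⟨⟨hB0, ?_, ?_⟩, ?_⟩ <;> simp
  simp only [h7] at h6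
  rw [sum_ite_eq'] at h6
  simp at h6

end Pool.Agent.Lead.Ev
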