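import Mathlib
import Pool.Agent.Lead.EvGroup

/-!
The quadratic lower bound for decision tree depth.
-/

set_option autoImplicit false
set_option linter.unusedSectionVars false
set_option linter.unusedSimpArgs false

namespace Pool.Agent.Lead.Ev

open Finset

variable {V : Type*} [Fintype V] [DecidableEq V]

/-- the dual tree -/
def DTree.dual : DTree V → DTree V
  | .leaf b => .leaf (!b)
  | .node i t0 t1 => .node i t1.dual t0.dual

lemma DTree.depth_dual (t : DTree V) : t.dual.depth = t.depth := by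
  induction t with
  | leaf b => rfl
  | node i t0 t1 h0 h1 => simp [DTree.dual, DTree.depth, h0, h1, max_comm]

lemma DTree.eval_dual (t : DTree V) (x : V → Bool) :
    t.dual.eval x = !(t.eval (fun v => !(x v))) := by
  induction t with
  | leaf b => rfl
  | node i t0 t1 h0 h1 =>
    simp only [DTree.dual, DTree.eval, h0, h1]
    by_cases hx : x i = true
    · simp [hx]
    · simp [hx]

lemma exists_max_inv (f : Finset V → Bool) (H : Subgroup (Equiv.Perm V)) (h0 : f ∅ = false) :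
    ∃ B : Finset V, f B = false ∧ (∀ σ ∈ H, fm σ B = B) ∧
      ∀ F, B ⊂ F → (∀ σ ∈ H, fm σ F = F) → f F = true := by
  classical
  obtain ⟨B, hB, hmax⟩ := Finset.exists_max_image
    ((univ : Finset (Finset V)).filter (fun B => f B = false ∧ ∀ σ ∈ H, fm σ B = B)) Finset.card
    ⟨∅, by
      rw [mem_filter]
      refine ⟨mem_univ _, h0, fun σ _ => ?_⟩
      rw [fm_apply, map_empty]⟩
  rw [mem_filter] at hB
  refine ⟨B, hB.2.1, hB.2.2, ?_⟩
  intro F hF hinv
  by_contra hf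
  have hf' : f F = false := by simpa using hf
  have := hmax F (by rw [mem_filter]; exact ⟨mem_univ _, hf', hinv⟩)
  have h2 := card_lt_card hF
  omega

lemma ind_le (F F' : Finset V) (h : F ⊆ F') : ind F ≤ ind F' := by
  intro v
  simp only [ind]
  by_cases hv : v ∈ F
  · simp [hv, h hv]
  · simp [hv]

lemma ind_comp (σ : Equiv.Perm V) (F : Finset V) : ind F ∘ (σ⁻¹ : Equiv.Perm V) = ind (fm σ F) := by
  funext v
  simp only [ind, Function.comp_apply]
  congr 1
  have := mem_fm σ F (σ⁻¹ v)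
  rw [show σ (σ⁻¹ v) = v from σ.apply_symm_apply v] at this
  exact propext this.symm

lemma exists_ind (x : V → Bool) : ∃ F : Finset V, x = ind F := by
  refine ⟨univ.filter (fun v => x v = true), ?_⟩
  funext v
  simp [ind]

lemma count_transitive (G : Subgroup (Equiv.Perm V)) [DecidablePred (· ∈ G)]
    (htrans : ∀ i j : V, ∃ σ ∈ G, σ i = j) (w u : V) :
    Fintype.card V * (univ.filter (fun σ : Equiv.Perm V => σ ∈ G ∧ σ w = u)).card =
      (univ.filter (fun σ : Equiv.Perm V => σ ∈ G)).card := by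
  have h1 : ∀ u', (univ.filter (fun σ : Equiv.Perm V => σ ∈ G ∧ σ w = u')).card =
      (univ.filter (fun σ : Equiv.Perm V => σ ∈ G ∧ σ w = u)).card := by
    intro u'
    obtain ⟨τ, hτ, hτu⟩ := htrans u' u
    apply card_bij (fun σ _ => τ * σ)
    · intro σ hσ
      rw [mem_filter] at hσ ⊢
      refine ⟨mem_univ _, G.mul_mem hτ hσ.2.1, ?_⟩
      rw [Equiv.Perm.mul_apply, hσ.2.2, hτu]
    · intro a _ b _ hab
      exact mul_left_cancel hab
    · intro σ hσ
      rw [mem_filter] at hσ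
      refine ⟨τ⁻¹ * σ, ?_, by group⟩
      rw [mem_filter]
      refine ⟨mem_univ _, G.mul_mem (G.inv_mem hτ) hσ.2.1, ?_⟩
      rw [Equiv.Perm.mul_apply, hσ.2.2, ← hτu]
      exact τ.symm_apply_apply u'
  have h2 : (univ.filter (fun σ : Equiv.Perm V => σ ∈ G)).card =
      ∑ u' : V, (univ.filter (fun σ : Equiv.Perm V => σ ∈ G ∧ σ w = u')).card := by
    rw [card_eq_sum_card_fiberwise (f := fun σ : Equiv.Perm V => σ w) (t := univ) (by simp)]
    apply sum_congr rfl
    intro u' _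
    rw [filter_filter]
  rw [h2, sum_congr rfl (fun u' _ => h1 u'), sum_const, card_univ, smul_eq_mul]

theorem quad_bound (f : (V → Bool) → Bool) (hmono : Monotone f) (hnc : ∃ x y, f x ≠ f y)
    (G H C P : Subgroup (Equiv.Perm V)) (p q : ℕ) (hp : p.Prime) (hq : q.Prime)
    (hG : ∀ σ ∈ G, ∀ x : V → Bool, f (x ∘ σ) = f x)
    (htrans : ∀ i j : V, ∃ σ ∈ G, σ i = j)
    (hHG : H ≤ G) (hHn : ∀ σ ∈ G, ∀ τ ∈ H, σ * τ * σ⁻¹ ∈ H)
    (hCH : C ≤ H) (hCn : ∀ σ ∈ H, ∀ τ ∈ C, σ * τ * σ⁻¹ ∈ C)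
    (hHC : ∀ σ ∈ H, ∃ k : ℕ, σ ^ (q ^ k) ∈ C)
    (hPC : P ≤ C) (hPn : ∀ σ ∈ C, ∀ τ ∈ P, σ * τ * σ⁻¹ ∈ P)
    (hcyc : ∃ σ ∈ C, ∀ τ ∈ C, ∃ k : ℤ, τ * σ ^ k ∈ P)
    (hPp : ∀ σ ∈ P, ∃ k : ℕ, σ ^ (p ^ k) = 1)
    (h : ℕ) (horb : ∀ v : V, h ≤ (MulAction.orbit H v).ncard)
    (t : DTree V) (ht : ∀ x, t.eval x = f x) :
    Fintype.card V * h ≤ t.depth ^ 2 := by
  classical
  have : Fact p.Prime := ⟨hp⟩
  have : Fact q.Prime := ⟨hq⟩
  have hGf : ∀ σ ∈ G, ∀ F, f (ind (fm σ F)) = f (ind F) := by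
    intro σ hσ F
    rw [← ind_comp]
    exact hG _ (G.inv_mem hσ) _
  have hbt : f (ind ∅) = false ∧ f (ind univ) = true := by
    obtain ⟨x, y, hxy⟩ := hnc
    have h1 : ∀ z : V → Bool, f (ind ∅) ≤ f z := by
      intro z
      apply hmono
      intro v
      simp [ind]
    have h2 : ∀ z : V → Bool, f z ≤ f (ind univ) := by
      intro z
      apply hmono
      intro v
      simp only [ind, mem_univ, decide_true]
      exact Bool.le_true _
    constructor
    · by_contra hc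
      have hc' : f (ind ∅) = true := by simpa using hc
      apply hxy
      have e1 := h1 x
      have e2 := h1 y
      rw [hc'] at e1 e2
      rw [Bool.eq_true_of_true_le e1, Bool.eq_true_of_true_le e2]
    · by_contra hc
      have hc' : f (ind univ) = false := by simpa using hc
      apply hxy
      have e1 := h2 x
      have e2 := h2 y
      rw [hc'] at e1 e2
      rw [Bool.eq_false_of_le_false e1, Bool.eq_false_of_le_false e2]
  -- maximal zero set
  obtain ⟨B, hB0, hBinv, hBmax⟩ := exists_max_inv (fun F => f (ind F)) H hbt.1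
  have hW : (Bᶜ).card ≤ t.depth := by
    apply main_lemma (fun F => f (ind F)) ?_ p q P C H hPC hCH hPp hPn hcyc hCn hHC
      (fun σ hσ F => hGf σ (hHG hσ) F) B hB0 hBinv hBmax t (fun F => ht _)
    intro F F' hle h0
    have := hmono (ind_le F F' hle)
    have h0 : f (ind F') = false := h0
    rw [h0] at this
    exact Bool.eq_false_of_le_false this
  -- dual
  set f' : (V → Bool) → Bool := fun x => !(f (fun v => !(x v))) with hf'
  have hcompl : ∀ F : Finset V, (fun v => !(ind F v)) = ind Fᶜ := by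
    intro F; funext v; simp [ind]
  have hfmc : ∀ (σ : Equiv.Perm V) (F : Finset V), fm σ Fᶜ = (fm σ F)ᶜ := by
    intro σ F
    ext x
    have h1 := mem_fm σ Fᶜ (σ⁻¹ x)
    have h2 := mem_fm σ F (σ⁻¹ x)
    rw [show σ (σ⁻¹ x) = x from σ.apply_symm_apply x] at h1 h2
    rw [h1, mem_compl, mem_compl, h2]
  obtain ⟨B', hB'0, hB'inv, hB'max⟩ := exists_max_inv (fun F => f' (ind F)) H
    (by simp only [hf', hcompl]; rw [compl_empty, hbt.2]; rfl)
  have hU : (B'ᶜ).card ≤ t.depth := by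
    rw [← DTree.depth_dual]
    apply main_lemma (fun F => f' (ind F)) ?_ p q P C H hPC hCH hPp hPn hcyc hCn hHC
      ?_ B' hB'0 hB'inv hB'max t.dual ?_
    · intro F F' hle h0
      simp only [hf', hcompl] at h0 ⊢
      have h1 : F'ᶜ ⊆ Fᶜ := compl_subset_compl.2 hle
      have := hmono (ind_le _ _ h1)
      have h2 : f (ind F'ᶜ) = true := by simpa using h0
      rw [h2] at this
      rw [Bool.eq_true_of_true_le this]; rfl
    · intro σ hσ F
      simp only [hf', hcompl]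
      rw [← hfmc, hGf σ (hHG hσ)]
    · intro F
      rw [DTree.eval_dual, ht]
  have hUone : f (ind B'ᶜ) = true := by
    simp only [hf', hcompl] at hB'0
    simpa using hB'0
  -- intersections
  have hint : ∀ σ ∈ G, h ≤ (B'ᶜ ∩ fm σ Bᶜ).card := by
    intro σ hσ
    have hne : (B'ᶜ ∩ fm σ Bᶜ).Nonempty := by
      by_contra hemp
      rw [not_nonempty_iff_eq_empty] at hemp
      have hsub : B'ᶜ ⊆ fm σ B := by
        intro x hx
        by_contra hx2
        have : x ∈ B'ᶜ ∩ fm σ Bᶜ := by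
          rw [mem_inter]
          refine ⟨hx, ?_⟩
          rw [hfmc, mem_compl]; exact hx2
        rw [hemp] at this
        exact absurd this (notMem_empty _)
      have := hmono (ind_le _ _ hsub)
      have hB0 : f (ind B) = false := hB0
      rw [hUone, hGf σ hσ, hB0] at this
      exact absurd this (by decide)
    obtain ⟨v, hv⟩ := hne
    have hinvU : ∀ τ ∈ H, fm τ (B'ᶜ) = B'ᶜ := by
      intro τ hτ; rw [hfmc, hB'inv τ hτ]
    have hinvW : ∀ τ ∈ H, fm τ (fm σ Bᶜ) = fm σ Bᶜ := by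
      intro τ hτ
      have h1 : σ⁻¹ * τ * σ⁻¹⁻¹ ∈ H := hHn σ⁻¹ (G.inv_mem hσ) τ hτ
      have h2 : fm τ (fm σ Bᶜ) = fm σ (fm (σ⁻¹ * τ * σ⁻¹⁻¹) Bᶜ) := by
        rw [← Equiv.Perm.mul_apply, ← map_mul, ← Equiv.Perm.mul_apply, ← map_mul]
        congr 2
        group
      rw [h2, hfmc (σ⁻¹ * τ * σ⁻¹⁻¹) B, hBinv _ h1]
    have horbsub : MulAction.orbit H v ⊆ ((B'ᶜ ∩ fm σ Bᶜ : Finset V) : Set V) := by
      rintro _ ⟨τ, rfl⟩
      rw [mem_coe]
      rw [mem_inter] at hv ⊢
      constructor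
      · have := (mem_fm (τ : Equiv.Perm V) (B'ᶜ) v).2 hv.1
        rw [hinvU _ τ.2] at this
        exact this
      · have := (mem_fm (τ : Equiv.Perm V) (fm σ Bᶜ) v).2 hv.2
        rw [hinvW _ τ.2] at this
        exact this
    calc h ≤ (MulAction.orbit H v).ncard := horb v
      _ ≤ ((B'ᶜ ∩ fm σ Bᶜ : Finset V) : Set V).ncard :=
          Set.ncard_le_ncard horbsub (Finset.finite_toSet _)
      _ = (B'ᶜ ∩ fm σ Bᶜ).card := Set.ncard_coe_finset _
  -- double counting
  set Gf : Finset (Equiv.Perm V) := univ.filter (fun σ => σ ∈ G) with hGfdef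
  have hGpos : 0 < Gf.card := by
    rw [card_pos]
    exact ⟨1, by rw [hGfdef, mem_filter]; exact ⟨mem_univ _, G.one_mem⟩⟩
  have hsum1 : Gf.card * h ≤ ∑ σ ∈ Gf, (B'ᶜ ∩ fm σ Bᶜ).card := by
    rw [← smul_eq_mul]
    apply card_nsmul_le_sum
    intro σ hσ
    rw [hGfdef, mem_filter] at hσ
    exact hint σ hσ.2
  have hcard : ∀ σ : Equiv.Perm V, (B'ᶜ ∩ fm σ Bᶜ).card =
      ∑ w ∈ Bᶜ, ∑ u ∈ B'ᶜ, if σ w = u then 1 else 0 := by
    intro σ
    have e1 : (B'ᶜ ∩ fm σ Bᶜ) = ((Bᶜ).filter (fun w => σ w ∈ B'ᶜ)).map σ.toEmbedding := by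
      ext x
      rw [mem_inter, fm_apply, mem_map, mem_map]
      constructor
      · rintro ⟨h1, w, hw, rfl⟩
        exact ⟨w, by rw [mem_filter]; exact ⟨hw, h1⟩, rfl⟩
      · rintro ⟨w, hw, rfl⟩
        rw [mem_filter] at hw
        exact ⟨hw.2, w, hw.1, rfl⟩
    rw [e1, card_map, card_filter]
    apply sum_congr rfl
    intro w _
    rw [sum_ite_eq]
  have hsum2 : Fintype.card V * ∑ σ ∈ Gf, (B'ᶜ ∩ fm σ Bᶜ).card =
      (B'ᶜ).card * (Bᶜ).card * Gf.card := by
    rw [sum_congr rfl (fun σ _ => hcard σ), sum_comm]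
    have e2 : ∀ w ∈ Bᶜ, ∑ σ ∈ Gf, ∑ u ∈ B'ᶜ, (if σ w = u then 1 else 0) =
        ∑ u ∈ B'ᶜ, (univ.filter (fun σ : Equiv.Perm V => σ ∈ G ∧ σ w = u)).card := by
      intro w _
      rw [sum_comm]
      apply sum_congr rfl
      intro u _
      rw [← card_filter, hGfdef, filter_filter]
    rw [sum_congr rfl e2, mul_sum]
    have e3 : ∀ w ∈ Bᶜ, Fintype.card V *
        ∑ u ∈ B'ᶜ, (univ.filter (fun σ : Equiv.Perm V => σ ∈ G ∧ σ w = u)).card =
        (B'ᶜ).card * Gf.card := by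
      intro w _
      rw [mul_sum, sum_congr rfl (fun u _ => count_transitive G htrans w u), sum_const, smul_eq_mul]
    rw [sum_congr rfl e3, sum_const, smul_eq_mul]
    ring
  have hfin : Fintype.card V * h * Gf.card ≤ (B'ᶜ).card * (Bᶜ).card * Gf.card := by
    rw [← hsum2]
    calc Fintype.card V * h * Gf.card = Fintype.card V * (Gf.card * h) := by ring
      _ ≤ _ := Nat.mul_le_mul_left _ hsum1
  have hfin2 : Fintype.card V * h ≤ (B'ᶜ).card * (Bᶜ).card := Nat.le_of_mul_le_mul_right hfin hGpos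
  calc Fintype.card V * h ≤ (B'ᶜ).card * (Bᶜ).card := hfin2
    _ ≤ t.depth * t.depth := Nat.mul_le_mul hU hW
    _ = t.depth ^ 2 := by ring

end Pool.Agent.Lead.Ev
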