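import Mathlib

open MeasureTheory ProbabilityTheory Filter
open scoped Topology

namespace Pool.Agent.Lead.CramerModel

variable {Ω : Type*} [MeasurableSpace Ω] {μ : Measure Ω}

/-- second moment bound: if the events are pairwise non-positively correlated then the
probability that none occurs is at most `1 / s`. -/
lemma prob_none_le [IsProbabilityMeasure μ] {E : ℕ → Set Ω} (hE : ∀ n, MeasurableSet (E n))
    (F : Finset ℕ)
    (hneg : ∀ n ∈ F, ∀ m ∈ F, n ≠ m → μ.real (E n ∩ E m) ≤ μ.real (E n) * μ.real (E m))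
    (hs : 0 < ∑ n ∈ F, μ.real (E n)) :
    μ.real (⋂ n ∈ F, (E n)ᶜ) ≤ 1 / ∑ n ∈ F, μ.real (E n) := by
  classical
  set s := ∑ n ∈ F, μ.real (E n) with hsdef
  let Z : Ω → ℝ := fun ω => ∑ n ∈ F, (E n).indicator (fun _ => (1 : ℝ)) ω
  have hint : ∀ n, Integrable ((E n).indicator (fun _ => (1 : ℝ))) μ := fun n =>
    (integrable_const (1 : ℝ)).indicator (hE n)
  have hprod : ∀ n m, (fun ω => (E n).indicator (fun _ => (1 : ℝ)) ω *
      (E m).indicator (fun _ => (1 : ℝ)) ω) = (E n ∩ E m).indicator (fun _ => (1 : ℝ)) := by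
    intro n m
    ext ω
    by_cases h1 : ω ∈ E n <;> by_cases h2 : ω ∈ E m <;> simp [Set.indicator, h1, h2]
  have hZint : Integrable Z μ := integrable_finsetSum _ fun n _ => hint n
  have hZ2eq : (fun ω => Z ω ^ 2) = fun ω => ∑ n ∈ F, ∑ m ∈ F,
      (E n ∩ E m).indicator (fun _ => (1 : ℝ)) ω := by
    ext ω
    simp only [Z, sq, Finset.sum_mul_sum]
    refine Finset.sum_congr rfl fun n _ => Finset.sum_congr rfl fun m _ => ?_
    exact congrFun (hprod n m) ω
  have hint2 : ∀ n m, Integrable ((E n ∩ E m).indicator (fun _ => (1 : ℝ))) μ := fun n m =>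
    (integrable_const (1 : ℝ)).indicator ((hE n).inter (hE m))
  have hZ2int : Integrable (fun ω => Z ω ^ 2) μ := by
    rw [hZ2eq]
    exact integrable_finsetSum _ fun n _ => integrable_finsetSum _ fun m _ => hint2 n m
  have hI1 : ∫ ω, Z ω ∂μ = s := by
    simp only [Z]
    rw [integral_finsetSum _ fun n _ => hint n]
    refine Finset.sum_congr rfl fun n _ => ?_
    rw [integral_indicator_const _ (hE n)]
    simp
  have hI2 : ∫ ω, Z ω ^ 2 ∂μ ≤ s + s ^ 2 := by
    rw [hZ2eq, integral_finsetSum _ fun n _ => integrable_finsetSum _ fun m _ => hint2 n m]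
    have : ∀ n ∈ F, ∫ ω, ∑ m ∈ F, (E n ∩ E m).indicator (fun _ => (1 : ℝ)) ω ∂μ ≤
        μ.real (E n) + μ.real (E n) * s := by
      intro n hn
      rw [integral_finsetSum _ fun m _ => hint2 n m, ← Finset.add_sum_erase F _ hn]
      have h1 : ∫ ω, (E n ∩ E n).indicator (fun _ => (1 : ℝ)) ω ∂μ = μ.real (E n) := by
        rw [Set.inter_self, integral_indicator_const _ (hE n)]; simp
      have h2 : ∑ m ∈ F.erase n, ∫ ω, (E n ∩ E m).indicator (fun _ => (1 : ℝ)) ω ∂μ ≤
          ∑ m ∈ F.erase n, μ.real (E n) * μ.real (E m) := by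
        refine Finset.sum_le_sum fun m hm => ?_
        rw [integral_indicator_const _ ((hE n).inter (hE m))]
        simp only [smul_eq_mul, mul_one]
        exact hneg n hn m (Finset.mem_of_mem_erase hm) (Finset.ne_of_mem_erase hm).symm
      have h3 : ∑ m ∈ F.erase n, μ.real (E n) * μ.real (E m) ≤ μ.real (E n) * s := by
        rw [← Finset.mul_sum]
        refine mul_le_mul_of_nonneg_left ?_ measureReal_nonneg
        exact Finset.sum_le_sum_of_subset_of_nonneg (Finset.erase_subset _ _)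
          fun _ _ _ => measureReal_nonneg
      linarith
    calc _ ≤ ∑ n ∈ F, (μ.real (E n) + μ.real (E n) * s) := Finset.sum_le_sum this
      _ = s + s ^ 2 := by
        rw [Finset.sum_add_distrib, ← Finset.sum_mul, ← hsdef]; ring
  have hI3 : ∫ ω, (Z ω - s) ^ 2 ∂μ ≤ s := by
    have : (fun ω => (Z ω - s) ^ 2) = fun ω => (Z ω ^ 2 - (2 * s) * Z ω) + s ^ 2 := by
      ext ω; ring
    have h2 : Integrable (fun ω => Z ω ^ 2 - (2 * s) * Z ω) μ := hZ2int.sub (hZint.const_mul _)
    rw [this, integral_add h2 (integrable_const _),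
      integral_sub hZ2int (hZint.const_mul _), integral_const_mul, hI1]
    simp only [integral_const, probReal_univ, smul_eq_mul, one_mul]
    nlinarith
  have hInt3 : Integrable (fun ω => (Z ω - s) ^ 2) μ := by
    have : (fun ω => (Z ω - s) ^ 2) = fun ω => (Z ω ^ 2 - (2 * s) * Z ω) + s ^ 2 := by
      ext ω; ring
    rw [this]
    exact (hZ2int.sub (hZint.const_mul _)).add (integrable_const _)
  have hmeas : MeasurableSet (⋂ n ∈ F, (E n)ᶜ) :=
    Finset.measurableSet_biInter _ fun n _ => (hE n).compl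
  have hle : s ^ 2 * μ.real (⋂ n ∈ F, (E n)ᶜ) ≤ ∫ ω, (Z ω - s) ^ 2 ∂μ := by
    have h1 : ∫ ω, (⋂ n ∈ F, (E n)ᶜ).indicator (fun _ => s ^ 2) ω ∂μ =
        s ^ 2 * μ.real (⋂ n ∈ F, (E n)ᶜ) := by
      rw [integral_indicator_const _ hmeas]; simp [mul_comm]
    rw [← h1]
    refine integral_mono ((integrable_const _).indicator hmeas) hInt3 fun ω => ?_
    by_cases hω : ω ∈ ⋂ n ∈ F, (E n)ᶜ
    · rw [Set.indicator_of_mem hω]
      have : Z ω = 0 := by
        refine Finset.sum_eq_zero fun n hn => ?_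
        have : ω ∉ E n := by
          have := Set.mem_iInter₂.mp hω n hn
          simpa using this
        simp [this]
      simp only [this]
      apply le_of_eq; ring
    · rw [Set.indicator_of_notMem hω]
      positivity
  rw [le_div_iff₀ hs]
  have h4 : s ^ 2 * μ.real (⋂ n ∈ F, (E n)ᶜ) ≤ s := hle.trans hI3
  have h5 : s * (μ.real (⋂ n ∈ F, (E n)ᶜ) * s) ≤ s * 1 := by nlinarith
  exact le_of_mul_le_mul_left h5 hs

/-- A second Borel-Cantelli lemma for pairwise non-positively correlated events. -/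
lemma ae_infinite [IsProbabilityMeasure μ] {E : ℕ → Set Ω} (hE : ∀ n, MeasurableSet (E n))
    (N : ℕ)
    (hneg : ∀ n m, N ≤ n → n < m → μ.real (E n ∩ E m) ≤ μ.real (E n) * μ.real (E m))
    (hdiv : ¬ Summable fun n => μ.real (E n)) :
    ∀ᵐ ω ∂μ, {n | ω ∈ E n}.Infinite := by
  have key : ∀ M, N ≤ M → μ (⋂ n ∈ Set.Ici M, (E n)ᶜ) = 0 := by
    intro M hM
    have hbound : ∀ S : ℝ, 0 < S → μ.real (⋂ n ∈ Set.Ici M, (E n)ᶜ) ≤ 1 / S := by
      intro S hS
      have hdiv' : ¬ Summable fun n => μ.real (E (n + M)) := by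
        intro hcon
        exact hdiv ((summable_nat_add_iff (f := fun n => μ.real (E n)) M).mp hcon)
      have htend := (not_summable_iff_tendsto_nat_atTop_of_nonneg
        (fun n => measureReal_nonneg)).mp hdiv'
      obtain ⟨k, hk⟩ := (htend.eventually_ge_atTop S).exists
      set F := Finset.Ico M (M + k) with hF
      have hsum : S ≤ ∑ n ∈ F, μ.real (E n) := by
        refine hk.trans (le_of_eq ?_)
        rw [hF, Finset.sum_Ico_eq_sum_range]
        simp [add_comm]
      have h1 := prob_none_le (μ := μ) hE F (by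
        intro n hn m hm hnm
        rw [hF, Finset.mem_Ico] at hn hm
        rcases lt_or_gt_of_ne hnm with h | h
        · exact hneg n m (hM.trans hn.1) h
        · rw [Set.inter_comm, mul_comm]
          exact hneg m n (hM.trans hm.1) h) (lt_of_lt_of_le hS hsum)
      refine (measureReal_mono ?_).trans (h1.trans (one_div_le_one_div_of_le hS hsum))
      intro ω hω
      simp only [Set.mem_iInter, Set.mem_Ici] at hω ⊢
      intro n hn
      rw [hF, Finset.mem_Ico] at hn
      exact hω n hn.1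
    have h0 : μ.real (⋂ n ∈ Set.Ici M, (E n)ᶜ) ≤ 0 := by
      by_contra hcon
      push Not at hcon
      have := hbound (2 / μ.real (⋂ n ∈ Set.Ici M, (E n)ᶜ)) (by positivity)
      rw [one_div_div] at this
      linarith
    have h1 : μ.real (⋂ n ∈ Set.Ici M, (E n)ᶜ) = 0 := le_antisymm h0 measureReal_nonneg
    rwa [measureReal_eq_zero_iff] at h1
  have hall : ∀ᵐ ω ∂μ, ∀ M : ℕ, ω ∉ ⋂ n ∈ Set.Ici (N + M), (E n)ᶜ := by
    rw [ae_all_iff]
    intro M
    exact measure_eq_zero_iff_ae_notMem.mp (key (N + M) (by omega))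
  filter_upwards [hall] with ω hω
  rw [Set.infinite_iff_frequently_cofinite, Nat.cofinite_eq_atTop, frequently_atTop]
  intro M
  have := hω M
  simp only [Set.mem_iInter, Set.mem_Ici, Set.mem_compl_iff, not_forall, not_not] at this
  obtain ⟨n, hn, hn'⟩ := this
  exact ⟨n, by omega, hn'⟩

end Pool.Agent.Lead.CramerModel
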