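import Mathlib

open MeasureTheory ProbabilityTheory Filter
open scoped Topology

namespace Pool.Agent.Lead.CramerModel

lemma card_coprime_Ioc (Q n K : ℕ) :
    ((Finset.Ioc n (n + K)).filter (fun m => Nat.Coprime m Q)).card =
      ((Finset.Ico (n + 1) (n + 1 + K)).filter (fun m => Nat.Coprime Q m)).card := by
  congr 1
  ext m
  simp only [Finset.mem_filter, Finset.mem_Ioc, Finset.mem_Ico, Nat.coprime_comm]
  constructor <;> rintro ⟨⟨h1, h2⟩, h3⟩ <;> exact ⟨⟨by omega, by omega⟩, h3⟩

lemma card_coprime_le (Q n K : ℕ) (hQ : 0 < Q) :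
    (((Finset.Ioc n (n + K)).filter (fun m => Nat.Coprime m Q)).card : ℝ) ≤
      (Q.totient : ℝ) * (K / Q + 1) := by
  rw [card_coprime_Ioc]
  have h := Nat.Ico_filter_coprime_le (n + 1) K hQ.ne'
  have h1 : (((Finset.Ico (n + 1) (n + 1 + K)).filter (fun m => Nat.Coprime Q m)).card : ℝ) ≤
      (Q.totient : ℝ) * ((K / Q : ℕ) + 1) := by exact_mod_cast h
  refine h1.trans ?_
  have h2 : ((K / Q : ℕ) : ℝ) ≤ (K : ℝ) / Q := Nat.cast_div_le
  gcongr

lemma card_coprime_ge_aux (Q k i : ℕ) :
    Q.totient * i = ((Finset.Ico k (k + Q * i)).filter (fun m => Nat.Coprime Q m)).card := by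
  induction i with
  | zero => simp
  | succ i ih =>
    have h1 : Finset.Ico k (k + Q * (i + 1)) = Finset.Ico k (k + Q * i) ∪
        Finset.Ico (k + Q * i) (k + Q * i + Q) := by
      rw [Finset.Ico_union_Ico_eq_Ico (by omega) (by omega)]
      congr 1
      ring
    rw [h1, Finset.filter_union, Finset.card_union_of_disjoint, ← ih,
      Nat.filter_coprime_Ico_eq_totient]
    · ring
    · apply Finset.disjoint_filter_filter
      exact Finset.Ico_disjoint_Ico_consecutive _ _ _

lemma card_coprime_ge (Q n K : ℕ) (hQ : 0 < Q) :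
    (Q.totient : ℝ) * (K / Q - 1) ≤
      (((Finset.Ioc n (n + K)).filter (fun m => Nat.Coprime m Q)).card : ℝ) := by
  rw [card_coprime_Ioc]
  have h1 : Q.totient * (K / Q) ≤
      ((Finset.Ico (n + 1) (n + 1 + K)).filter (fun m => Nat.Coprime Q m)).card := by
    rw [card_coprime_ge_aux Q (n + 1) (K / Q)]
    apply Finset.card_le_card
    apply Finset.filter_subset_filter
    apply Finset.Ico_subset_Ico_right
    have := Nat.mul_div_le K Q
    omega
  have h2 : ((Q.totient * (K / Q) : ℕ) : ℝ) ≤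
      (((Finset.Ico (n + 1) (n + 1 + K)).filter (fun m => Nat.Coprime Q m)).card : ℝ) := by
    exact_mod_cast h1
  refine le_trans ?_ h2
  push_cast
  have h3 : (K : ℝ) / Q - 1 ≤ ((K / Q : ℕ) : ℝ) := by
    have := Nat.lt_div_mul_add (a := K) (b := Q) hQ
    have hq : (0 : ℝ) < Q := by exact_mod_cast hQ
    rw [div_sub_one hq.ne', div_le_iff₀ hq]
    have h4 : (K : ℝ) < (K / Q : ℕ) * Q + Q := by exact_mod_cast this
    linarith
  gcongr

section events

set_option linter.unusedSectionVars false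

variable {Ω : Type*} [MeasurableSpace Ω] {μ : Measure Ω}

/-- `n` is chosen, and the run of integers after `n` that are not chosen has length at least `t`:
no integer `m > n` with `m - n - 1 < t` is chosen. -/
def longGap (R : ℕ → Set Ω) (t : ℝ) (n : ℕ) : Set Ω :=
  {ω | ω ∈ R n ∧ ∀ m : ℕ, n < m → (m : ℝ) - n - 1 < t → ω ∉ R m}

/-- the coordinates. -/
noncomputable def co (R : ℕ → Set Ω) (i : ℕ) : Ω → ℝ := (R i).indicator (fun _ => 1)

/-- target set at coordinate `i` for the event at `n`. -/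
def tgt (n i : ℕ) : Set ℝ := if i = n then {1} else {0}

lemma co_preimage_one (R : ℕ → Set Ω) (i : ℕ) : co R i ⁻¹' {1} = R i := by
  ext ω
  by_cases h : ω ∈ R i <;> simp [co, h]

lemma co_preimage_zero (R : ℕ → Set Ω) (i : ℕ) : co R i ⁻¹' {0} = (R i)ᶜ := by
  ext ω
  by_cases h : ω ∈ R i <;> simp [co, h]

lemma longGap_eq (R : ℕ → Set Ω) (t : ℝ) (n : ℕ) :
    longGap R t n = ⋂ i ∈ Finset.Icc n (n + ⌈t⌉₊), co R i ⁻¹' (tgt n i) := by
  ext ω
  simp only [longGap, Set.mem_ofPred_eq, Set.mem_iInter, Finset.mem_Icc, tgt]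
  have key : ∀ m : ℕ, n < m → ((m : ℝ) - n - 1 < t ↔ m ≤ n + ⌈t⌉₊) := by
    intro m hm
    obtain ⟨k, rfl⟩ : ∃ k, m = n + 1 + k := ⟨m - (n + 1), by omega⟩
    have h1 : ((n + 1 + k : ℕ) : ℝ) - n - 1 = k := by push_cast; ring
    rw [h1, ← Nat.lt_ceil]
    omega
  constructor
  · rintro ⟨h1, h2⟩ i ⟨hi1, hi2⟩
    by_cases hin : i = n
    · subst hin
      rw [if_pos rfl, co_preimage_one]
      exact h1
    · rw [if_neg hin, co_preimage_zero]
      exact h2 i (by omega) ((key i (by omega)).mpr hi2)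
  · intro h
    constructor
    · have := h n ⟨le_rfl, by omega⟩
      rwa [if_pos rfl, co_preimage_one] at this
    · intro m hm hmt
      have := h m ⟨hm.le, (key m hm).mp hmt⟩
      rw [if_neg (by omega), co_preimage_zero] at this
      exact this

lemma measurableSet_tgt (n i : ℕ) : MeasurableSet (tgt n i) := by
  unfold tgt
  split_ifs <;> exact measurableSet_singleton _

lemma measurableSet_longGap {R : ℕ → Set Ω} (hR : ∀ n, MeasurableSet (R n)) (t : ℝ) (n : ℕ) :
    MeasurableSet (longGap R t n) := by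
  rw [longGap_eq]
  refine Finset.measurableSet_biInter _ fun i _ => ?_
  exact (measurable_const.indicator (hR i)) (measurableSet_tgt n i)

lemma indep_co {R : ℕ → Set Ω} (hind : iIndepSet R μ) : iIndepFun (co R) μ :=
  hind.iIndepFun_indicator

lemma measure_longGap [IsProbabilityMeasure μ] {R : ℕ → Set Ω} (hR : ∀ n, MeasurableSet (R n))
    (hind : iIndepSet R μ) (t : ℝ) (n : ℕ) :
    μ.real (longGap R t n) =
      μ.real (R n) * ∏ m ∈ Finset.Ioc n (n + ⌈t⌉₊), (1 - μ.real (R m)) := by
  rw [longGap_eq, measureReal_def,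
    (indep_co hind).measure_inter_preimage_eq_mul _ (fun i _ => measurableSet_tgt n i),
    ENNReal.toReal_prod]
  have hsplit : Finset.Icc n (n + ⌈t⌉₊) = insert n (Finset.Ioc n (n + ⌈t⌉₊)) := by
    rw [Finset.Icc_eq_cons_Ioc (by omega), Finset.cons_eq_insert]
  rw [hsplit, Finset.prod_insert (by simp)]
  congr 1
  · rw [tgt, if_pos rfl, co_preimage_one]; rfl
  · refine Finset.prod_congr rfl fun m hm => ?_
    rw [Finset.mem_Ioc] at hm
    rw [tgt, if_neg (by omega), co_preimage_zero]
    exact probReal_compl_eq_one_sub (hR m)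

lemma neg_corr [IsProbabilityMeasure μ] {R : ℕ → Set Ω}
    (hind : iIndepSet R μ) (t : ℕ → ℝ) {n m : ℕ} (hnm : n < m) :
    μ.real (longGap R (t n) n ∩ longGap R (t m) m) ≤
      μ.real (longGap R (t n) n) * μ.real (longGap R (t m) m) := by
  classical
  by_cases hm : m ≤ n + ⌈t n⌉₊
  · have : longGap R (t n) n ∩ longGap R (t m) m = ∅ := by
      rw [Set.eq_empty_iff_forall_notMem]
      rintro ω ⟨h1, h2⟩
      rw [longGap_eq] at h1
      have h3 := Set.mem_iInter₂.mp h1 m (Finset.mem_Icc.mpr ⟨hnm.le, hm⟩)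
      rw [tgt, if_neg (by omega), co_preimage_zero] at h3
      exact h3 h2.1
    rw [this]
    simp only [measureReal_empty]
    positivity
  · push Not at hm
    have hdisj : Disjoint (Finset.Icc n (n + ⌈t n⌉₊)) (Finset.Icc m (m + ⌈t m⌉₊)) := by
      rw [Finset.disjoint_left]
      intro i h1 h2
      rw [Finset.mem_Icc] at h1 h2
      omega
    let A : ℕ → Set ℝ := fun i => if i ∈ Finset.Icc n (n + ⌈t n⌉₊) then tgt n i else tgt m i
    have hA : ∀ i, MeasurableSet (A i) := by
      intro i; simp only [A]; split_ifs <;> exact measurableSet_tgt _ _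
    have h1 : longGap R (t n) n = ⋂ i ∈ Finset.Icc n (n + ⌈t n⌉₊), co R i ⁻¹' (A i) := by
      rw [longGap_eq]
      refine Set.iInter₂_congr fun i hi => ?_
      simp only [A, if_pos hi]
    have h2 : longGap R (t m) m = ⋂ i ∈ Finset.Icc m (m + ⌈t m⌉₊), co R i ⁻¹' (A i) := by
      rw [longGap_eq]
      refine Set.iInter₂_congr fun i hi => ?_
      simp only [A, if_neg (Finset.disjoint_right.mp hdisj hi)]
    have h3 : longGap R (t n) n ∩ longGap R (t m) m =
        ⋂ i ∈ Finset.Icc n (n + ⌈t n⌉₊) ∪ Finset.Icc m (m + ⌈t m⌉₊), co R i ⁻¹' (A i) := by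
      rw [h1, h2]
      ext ω
      simp only [Set.mem_inter_iff, Set.mem_iInter, Finset.mem_union]
      constructor
      · rintro ⟨ha, hb⟩ i (hi | hi)
        · exact ha i hi
        · exact hb i hi
      · intro h
        exact ⟨fun i hi => h i (Or.inl hi), fun i hi => h i (Or.inr hi)⟩
    rw [h3, h1, h2]
    simp only [measureReal_def]
    rw [(indep_co hind).measure_inter_preimage_eq_mul _ (fun i _ => hA i),
      (indep_co hind).measure_inter_preimage_eq_mul _ (fun i _ => hA i),
      (indep_co hind).measure_inter_preimage_eq_mul _ (fun i _ => hA i),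
      Finset.prod_union hdisj, ENNReal.toReal_mul]

end events

end Pool.Agent.Lead.CramerModel
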