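import Mathlib
import Pool.Agent.Lead.CramerModel
import Pool.Agent.Lead.CramerModel2

open MeasureTheory ProbabilityTheory Filter
open scoped Topology

namespace Pool.Agent.Lead.CramerModel

lemma not_summable_coprime (Q : ℕ) (hQ : 0 < Q) :
    ¬ Summable fun n : ℕ => if Nat.Coprime n Q then 1 / ((n : ℝ) * Real.log n) else 0 := by
  intro hsum
  have hinj : Function.Injective fun k : ℕ => k * Q + 1 := by
    intro a b hab
    simpa [hQ.ne'] using hab
  have h1 := hsum.comp_injective hinj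
  have h2 : ((fun n : ℕ => if Nat.Coprime n Q then 1 / ((n : ℝ) * Real.log n) else 0) ∘
      fun k : ℕ => k * Q + 1) = fun k : ℕ => 1 / ((k * Q + 1 : ℝ) * Real.log (k * Q + 1)) := by
    ext k
    have : Nat.Coprime (k * Q + 1) Q := by
      simp [Nat.coprime_comm]
    simp [this]
  rw [h2] at h1
  have hQ' : (1 : ℝ) ≤ Q := by exact_mod_cast hQ
  have hlog : ∀ k : ℕ, 0 ≤ Real.log (k * Q + 1) := by
    intro k; apply Real.log_nonneg
    have : (0 : ℝ) ≤ k * Q := by positivity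
    linarith
  have hlogpos : ∀ k : ℕ, 0 < k → 0 < Real.log (k * Q + 1) := by
    intro k hk; apply Real.log_pos
    have : (0 : ℝ) < k * Q := by positivity
    linarith
  rw [← summable_condensed_iff_of_nonneg (f := fun k : ℕ => 1 / ((k * Q + 1 : ℝ) * Real.log (k * Q + 1)))
    (fun k => by have := hlog k; positivity)
    (by
      intro m n hm hmn
      have hm' := hlogpos m hm
      have hmn' : (m : ℝ) * Q + 1 ≤ n * Q + 1 := by gcongr
      apply one_div_le_one_div_of_le (by positivity)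
      gcongr)] at h1
  have hc : ∀ k : ℕ, (1 / ((Q + 1 : ℝ) * Real.log (2 * (Q + 1)))) * (1 / ((k : ℝ) + 1)) ≤
      2 ^ k * (1 / (((2 ^ k : ℕ) * Q + 1 : ℝ) * Real.log ((2 ^ k : ℕ) * Q + 1))) := by
    intro k
    have h2k : (1 : ℝ) ≤ 2 ^ k := one_le_pow₀ (by norm_num)
    have hA : ((2 ^ k : ℕ) * Q + 1 : ℝ) ≤ 2 ^ k * (Q + 1) := by push_cast; nlinarith
    have hlogA : Real.log ((2 ^ k : ℕ) * Q + 1) ≤ ((k : ℝ) + 1) * Real.log (2 * (Q + 1)) := by
      have : ((2 ^ k : ℕ) * Q + 1 : ℝ) ≤ (2 * (Q + 1)) ^ (k + 1) := by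
        refine hA.trans ?_
        rw [pow_succ, mul_pow]
        have : (1 : ℝ) ≤ (Q + 1 : ℝ) ^ k := one_le_pow₀ (by linarith)
        nlinarith [mul_nonneg (sub_nonneg.mpr h2k) (by positivity : (0:ℝ) ≤ (Q:ℝ) + 1),
          mul_nonneg (sub_nonneg.mpr this) (by positivity : (0:ℝ) ≤ 2 ^ k * ((Q:ℝ) + 1)),
          (by positivity : (0:ℝ) ≤ 2 ^ k * ((Q:ℝ) + 1) * (Q + 1 : ℝ) ^ k)]
      calc Real.log ((2 ^ k : ℕ) * Q + 1) ≤ Real.log ((2 * (Q + 1)) ^ (k + 1)) :=
            Real.log_le_log (by positivity) this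
        _ = ((k : ℝ) + 1) * Real.log (2 * (Q + 1)) := by rw [Real.log_pow]; push_cast; ring
    have hpos : 0 < Real.log ((2 ^ k : ℕ) * Q + 1) := hlogpos _ (by positivity)
    have hpos2 : 0 < Real.log (2 * (Q + 1 : ℝ)) := Real.log_pos (by linarith)
    rw [div_mul_div_comm, one_mul, mul_one_div, div_le_div_iff₀ (by positivity) (by positivity)]
    calc 1 * (((2 ^ k : ℕ) * Q + 1 : ℝ) * Real.log ((2 ^ k : ℕ) * Q + 1))
        ≤ 1 * ((2 ^ k * (Q + 1)) * (((k : ℝ) + 1) * Real.log (2 * (Q + 1)))) := by gcongr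
      _ = 2 ^ k * ((Q + 1 : ℝ) * Real.log (2 * (Q + 1)) * ((k : ℝ) + 1)) := by ring
  have h3 : Summable fun k : ℕ => (1 / ((Q + 1 : ℝ) * Real.log (2 * (Q + 1)))) *
      (1 / ((k : ℝ) + 1)) := by
    refine Summable.of_nonneg_of_le (fun k => ?_) hc h1
    have hpos2 : 0 < Real.log (2 * (Q + 1 : ℝ)) := Real.log_pos (by linarith)
    positivity
  have hpos2 : 0 < Real.log (2 * (Q + 1 : ℝ)) := Real.log_pos (by linarith)
  rw [summable_mul_left_iff (by positivity)] at h3
  have h4 : Summable fun k : ℕ => 1 / (k : ℝ) := by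
    rw [← summable_nat_add_iff 1]
    simpa using h3
  exact Real.not_summable_one_div_natCast h4

end Pool.Agent.Lead.CramerModel
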