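import Mathlib
import Pool.Agent.Lead.CramerModel
import Pool.Agent.Lead.CramerModel2
import Pool.Agent.Lead.CramerModel3

open MeasureTheory ProbabilityTheory Filter
open scoped Topology

namespace Pool.Agent.Lead.CramerModel

/-- `w = Q/φ(Q)`. -/
noncomputable def wt (Q : ℕ) : ℝ := (Q : ℝ) / Q.totient

lemma wt_pos {Q : ℕ} (hQ : 0 < Q) : 0 < wt Q := by
  have : 0 < Q.totient := Nat.totient_pos.mpr hQ
  unfold wt
  positivity

lemma one_le_wt {Q : ℕ} (hQ : 0 < Q) : 1 ≤ wt Q := by
  have : 0 < Q.totient := Nat.totient_pos.mpr hQ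
  unfold wt
  rw [one_le_div (by exact_mod_cast this)]
  exact_mod_cast Nat.totient_le Q

lemma wt_mul_totient {Q : ℕ} (hQ : 0 < Q) : wt Q * Q.totient = Q := by
  have : 0 < Q.totient := Nat.totient_pos.mpr hQ
  have h2 : (0 : ℝ) < Q.totient := by exact_mod_cast this
  unfold wt
  field_simp

/-- the probabilities -/
noncomputable def pr (Q n : ℕ) : ℝ := if Nat.Coprime n Q then wt Q / Real.log n else 0

/-- the product -/
noncomputable def pp (Q n K : ℕ) : ℝ := pr Q n * ∏ m ∈ Finset.Ioc n (n + K), (1 - pr Q m)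

lemma pr_nonneg {Q : ℕ} (hQ : 0 < Q) (n : ℕ) : 0 ≤ pr Q n := by
  unfold pr
  split_ifs
  · have := wt_pos hQ
    have := Real.log_natCast_nonneg n
    positivity
  · rfl

lemma sum_pr_le {Q : ℕ} (hQ : 0 < Q) (n K : ℕ) (hn : 0 < Real.log n) :
    ∑ m ∈ Finset.Ioc n (n + K), pr Q m ≤ (K + Q) / Real.log n := by
  have hw := wt_pos hQ
  have hn0 : 0 < n := by
    rcases Nat.eq_zero_or_pos n with h | h
    · subst h; simp at hn
    · exact h
  calc ∑ m ∈ Finset.Ioc n (n + K), pr Q m
      = ∑ m ∈ (Finset.Ioc n (n + K)).filter (fun m => Nat.Coprime m Q), wt Q / Real.log m := by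
        rw [Finset.sum_filter]; rfl
    _ ≤ ∑ m ∈ (Finset.Ioc n (n + K)).filter (fun m => Nat.Coprime m Q), wt Q / Real.log n := by
        apply Finset.sum_le_sum
        intro m hm
        rw [Finset.mem_filter, Finset.mem_Ioc] at hm
        have h1 : Real.log n ≤ Real.log m := by
          apply Real.log_le_log (by exact_mod_cast hn0)
          exact_mod_cast hm.1.1.le
        gcongr
    _ = (((Finset.Ioc n (n + K)).filter (fun m => Nat.Coprime m Q)).card : ℝ) *
          (wt Q / Real.log n) := by rw [Finset.sum_const, nsmul_eq_mul]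
    _ ≤ ((Q.totient : ℝ) * (K / Q + 1)) * (wt Q / Real.log n) := by
        gcongr
        exact card_coprime_le Q n K hQ
    _ = (K + Q) / Real.log n := by
        have hq : (0 : ℝ) < Q := by exact_mod_cast hQ
        have := wt_mul_totient hQ
        rw [show ((Q.totient : ℝ) * (K / Q + 1)) * (wt Q / Real.log n) =
          (wt Q * Q.totient) * (K / Q + 1) / Real.log n by ring, this]
        congr 1
        field_simp

lemma le_sum_pr {Q : ℕ} (hQ : 0 < Q) (n K : ℕ) (hn : 0 < Real.log n) (hK : Q ≤ K) :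
    ((K : ℝ) - Q) / (Real.log n + K / n) ≤ ∑ m ∈ Finset.Ioc n (n + K), pr Q m := by
  have hw := wt_pos hQ
  have hn0 : 0 < n := by
    rcases Nat.eq_zero_or_pos n with h | h
    · subst h; simp at hn
    · exact h
  have hn0' : (0 : ℝ) < n := by exact_mod_cast hn0
  have hKQ : (0 : ℝ) ≤ (K : ℝ) - Q := by
    have : (Q : ℝ) ≤ K := by exact_mod_cast hK
    linarith
  have hlog : Real.log ((n + K : ℕ) : ℝ) ≤ Real.log n + K / n := by
    have h1 : ((n + K : ℕ) : ℝ) = n * (1 + K / n) := by push_cast; field_simp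
    rw [h1, Real.log_mul hn0'.ne' (by positivity)]
    have h2 : Real.log (1 + (K : ℝ) / n) ≤ K / n := by
      have := Real.log_le_sub_one_of_pos (x := 1 + (K : ℝ) / n) (by positivity)
      linarith
    linarith
  calc ((K : ℝ) - Q) / (Real.log n + K / n)
      = ((Q.totient : ℝ) * (K / Q - 1)) * (wt Q / (Real.log n + K / n)) := by
        have hq : (0 : ℝ) < Q := by exact_mod_cast hQ
        have := wt_mul_totient hQ
        rw [show ((Q.totient : ℝ) * (K / Q - 1)) * (wt Q / (Real.log n + K / n)) =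
          (wt Q * Q.totient) * (K / Q - 1) / (Real.log n + K / n) by ring, this]
        congr 1
        field_simp
    _ ≤ (((Finset.Ioc n (n + K)).filter (fun m => Nat.Coprime m Q)).card : ℝ) *
          (wt Q / (Real.log n + K / n)) := by
        gcongr
        exact card_coprime_ge Q n K hQ
    _ = ∑ m ∈ (Finset.Ioc n (n + K)).filter (fun m => Nat.Coprime m Q),
          wt Q / (Real.log n + K / n) := by
        rw [Finset.sum_const, nsmul_eq_mul]
    _ ≤ ∑ m ∈ (Finset.Ioc n (n + K)).filter (fun m => Nat.Coprime m Q), wt Q / Real.log m := by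
        apply Finset.sum_le_sum
        intro m hm
        rw [Finset.mem_filter, Finset.mem_Ioc] at hm
        have hmpos : (0 : ℝ) < m := by
          have : 0 < m := by omega
          exact_mod_cast this
        have h1 : Real.log m ≤ Real.log n + K / n := by
          refine le_trans ?_ hlog
          apply Real.log_le_log hmpos
          exact_mod_cast hm.1.2
        have h2 : Real.log n ≤ Real.log m := by
          apply Real.log_le_log hn0'
          exact_mod_cast hm.1.1.le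
        have h3 : 0 < Real.log m := lt_of_lt_of_le hn h2
        gcongr
    _ = ∑ m ∈ Finset.Ioc n (n + K), pr Q m := by
        rw [Finset.sum_filter]; rfl

lemma exp_le_one_sub {a : ℝ} (h0 : 0 ≤ a) (h1 : a ≤ 1 / 2) :
    Real.exp (-a - 2 * a ^ 2) ≤ 1 - a := by
  have hpos : 0 < 1 - a := by linarith
  rw [← Real.le_log_iff_exp_le hpos]
  have h2 := Real.one_sub_inv_le_log_of_pos hpos
  refine le_trans ?_ h2
  rw [show 1 - (1 - a)⁻¹ = -a / (1 - a) by field_simp; ring, le_div_iff₀ hpos]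
  nlinarith [mul_nonneg h0 h0, mul_nonneg (mul_nonneg h0 h0) (by linarith : (0:ℝ) ≤ 1 - 2 * a)]

/-- Upper bound. -/
lemma pp_le {Q : ℕ} (hQ : 0 < Q) (n K : ℕ) (h : ℝ)
    (hn : (Q : ℝ) ≤ Real.log n) (hn4 : wt Q ≤ Real.log n)
    (hh : h ≤ Real.log n)
    (hK : Real.log n ^ 2 + h * Real.log n ≤ K) (hKQ : Q ≤ K) (hKn : (K : ℝ) / n ≤ 1 / 2)
    (hcop : Nat.Coprime n Q) :
    pp Q n K ≤ wt Q * Real.exp 2 * (Real.exp (-h) / (n * Real.log n)) := by
  have hw := wt_pos hQ
  have hq : (1 : ℝ) ≤ Q := by exact_mod_cast hQ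
  have hl : 0 < Real.log n := by linarith
  have hn0 : 0 < n := by
    rcases Nat.eq_zero_or_pos n with h | h
    · subst h; simp at hl
    · exact h
  have hn0' : (0 : ℝ) < n := by exact_mod_cast hn0
  set ℓ := Real.log n with hℓ
  have h1 : ∏ m ∈ Finset.Ioc n (n + K), (1 - pr Q m) ≤
      Real.exp (-∑ m ∈ Finset.Ioc n (n + K), pr Q m) := by
    rw [← Finset.sum_neg_distrib, Real.exp_sum]
    apply Finset.prod_le_prod
    · intro m hm
      rw [Finset.mem_Ioc] at hm
      unfold pr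
      split_ifs
      · have h2 : ℓ ≤ Real.log m := by
          apply Real.log_le_log hn0'
          exact_mod_cast hm.1.le
        have : wt Q / Real.log m ≤ 1 := by
          rw [div_le_one (by linarith)]
          linarith
        linarith
      · norm_num
    · intro m hm
      have := Real.add_one_le_exp (-pr Q m)
      linarith
  have h2 := le_sum_pr hQ n K hl hKQ
  have hKn0 : 0 ≤ (K : ℝ) / n := by positivity
  have h3 : ℓ + h - 2 ≤ ((K : ℝ) - Q) / (ℓ + K / n) := by
    rw [le_div_iff₀ (by positivity)]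
    have h4 : (ℓ + h - 2) * ((K : ℝ) / n) ≤ ℓ := by
      have : (ℓ + h - 2) * ((K : ℝ) / n) ≤ 2 * ℓ * ((K : ℝ) / n) := by
        gcongr; linarith
      nlinarith
    nlinarith
  have h4 : ∏ m ∈ Finset.Ioc n (n + K), (1 - pr Q m) ≤ Real.exp (-(ℓ + h - 2)) := by
    refine h1.trans (Real.exp_le_exp.mpr ?_)
    linarith
  unfold pp
  rw [pr, if_pos hcop]
  calc wt Q / ℓ * ∏ m ∈ Finset.Ioc n (n + K), (1 - pr Q m)
      ≤ wt Q / ℓ * Real.exp (-(ℓ + h - 2)) := by gcongr
    _ = wt Q * Real.exp 2 * (Real.exp (-h) / (n * ℓ)) := by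
        rw [show -(ℓ + h - 2) = 2 + (-h) + (-ℓ) by ring, Real.exp_add, Real.exp_add,
          Real.exp_neg ℓ, hℓ, Real.exp_log hn0']
        field_simp

/-- Lower bound. -/
lemma le_pp {Q : ℕ} (hQ : 0 < Q) (n K : ℕ) (h : ℝ)
    (hn : (Q : ℝ) + 1 ≤ Real.log n) (hn4 : 2 * wt Q ≤ Real.log n)
    (hh : h ≤ Real.log n)
    (hK : (K : ℝ) ≤ Real.log n ^ 2 + h * Real.log n + 1)
    (hcop : Nat.Coprime n Q) :
    wt Q * Real.exp (-(1 + 6 * wt Q)) * (Real.exp (-h) / (n * Real.log n)) ≤ pp Q n K := by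
  have hw := wt_pos hQ
  have hq : (1 : ℝ) ≤ Q := by exact_mod_cast hQ
  have hl : 0 < Real.log n := by linarith
  have hn0 : 0 < n := by
    rcases Nat.eq_zero_or_pos n with h | h
    · subst h; simp at hl
    · exact h
  have hn0' : (0 : ℝ) < n := by exact_mod_cast hn0
  set ℓ := Real.log n with hℓ
  have hpr : ∀ m ∈ Finset.Ioc n (n + K), pr Q m ≤ wt Q / ℓ := by
    intro m hm
    rw [Finset.mem_Ioc] at hm
    unfold pr
    split_ifs
    · have h2 : ℓ ≤ Real.log m := by
        apply Real.log_le_log hn0'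
        exact_mod_cast hm.1.le
      gcongr
    · positivity
  have hwl : wt Q / ℓ ≤ 1 / 2 := by
    rw [div_le_iff₀ hl]; linarith
  have h1 : Real.exp (∑ m ∈ Finset.Ioc n (n + K), (-pr Q m - 2 * pr Q m ^ 2)) ≤
      ∏ m ∈ Finset.Ioc n (n + K), (1 - pr Q m) := by
    rw [Real.exp_sum]
    apply Finset.prod_le_prod
    · intro m hm
      exact (Real.exp_pos _).le
    · intro m hm
      exact exp_le_one_sub (pr_nonneg hQ m) ((hpr m hm).trans hwl)
  have hsum := sum_pr_le hQ n K hl
  have hS : (K + Q : ℝ) / ℓ ≤ ℓ + h + 1 := by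
    rw [div_le_iff₀ hl]
    nlinarith
  have hS0 : 0 ≤ ∑ m ∈ Finset.Ioc n (n + K), pr Q m :=
    Finset.sum_nonneg fun m _ => pr_nonneg hQ m
  have hsq : ∑ m ∈ Finset.Ioc n (n + K), pr Q m ^ 2 ≤ 3 * wt Q := by
    calc ∑ m ∈ Finset.Ioc n (n + K), pr Q m ^ 2
        ≤ ∑ m ∈ Finset.Ioc n (n + K), wt Q / ℓ * pr Q m := by
          apply Finset.sum_le_sum
          intro m hm
          rw [sq]
          have := pr_nonneg hQ m
          have := hpr m hm
          gcongr
      _ = wt Q / ℓ * ∑ m ∈ Finset.Ioc n (n + K), pr Q m := by rw [Finset.mul_sum]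
      _ ≤ wt Q / ℓ * (3 * ℓ) := by
          gcongr
          linarith
      _ = 3 * wt Q := by field_simp
  have h3 : -(ℓ + h + (1 + 6 * wt Q)) ≤
      ∑ m ∈ Finset.Ioc n (n + K), (-pr Q m - 2 * pr Q m ^ 2) := by
    rw [Finset.sum_sub_distrib, Finset.sum_neg_distrib, ← Finset.mul_sum]
    linarith
  unfold pp
  rw [pr, if_pos hcop]
  calc wt Q * Real.exp (-(1 + 6 * wt Q)) * (Real.exp (-h) / (n * ℓ))
      = wt Q / ℓ * Real.exp (-(ℓ + h + (1 + 6 * wt Q))) := by
        rw [show -(ℓ + h + (1 + 6 * wt Q)) = -(1 + 6 * wt Q) + (-h) + (-ℓ) by ring,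
          Real.exp_add, Real.exp_add, Real.exp_neg ℓ, hℓ, Real.exp_log hn0']
        field_simp
    _ ≤ wt Q / ℓ * ∏ m ∈ Finset.Ioc n (n + K), (1 - pr Q m) := by
        gcongr
        exact (Real.exp_le_exp.mpr h3).trans h1

end Pool.Agent.Lead.CramerModel
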