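import Mathlib
import Pool.Agent.Lead.CramerModel4

open MeasureTheory ProbabilityTheory Filter
open scoped Topology

namespace Pool.Agent.Lead.CramerModel

/-- all the conditions saying that n is large -/
lemma eventually_large (Q : ℕ) :
    ∀ᶠ n : ℕ in atTop, (Q : ℝ) + 2 ≤ Real.log n ∧ 2 * wt Q ≤ Real.log n ∧
      (2 * Real.log n ^ 2 + 1) / n ≤ 1 / 2 ∧ 2 * Q ≤ Real.log n := by
  have h0 : Tendsto (fun n : ℕ => Real.log n) atTop atTop :=
    Real.tendsto_log_atTop.comp tendsto_natCast_atTop_atTop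
  have h1 : Tendsto (fun x : ℝ => Real.log x ^ 2 / x) atTop (𝓝 0) := by
    have := Real.tendsto_pow_log_div_mul_add_atTop 1 0 2 one_ne_zero
    simpa using this
  have h2 : Tendsto (fun n : ℕ => Real.log n ^ 2 / n) atTop (𝓝 0) :=
    h1.comp tendsto_natCast_atTop_atTop
  have h3 : Tendsto (fun n : ℕ => (1 : ℝ) / n) atTop (𝓝 0) := tendsto_one_div_atTop_nhds_zero_nat
  have h4 : Tendsto (fun n : ℕ => 2 * (Real.log n ^ 2 / n) + 1 / n) atTop (𝓝 (2 * 0 + 0)) :=
    (h2.const_mul 2).add h3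
  have h5 : ∀ᶠ n : ℕ in atTop, 2 * (Real.log n ^ 2 / n) + 1 / n < 1 / 2 :=
    h4.eventually_lt_const (by norm_num)
  filter_upwards [h0.eventually_ge_atTop ((Q : ℝ) + 2), h0.eventually_ge_atTop (2 * wt Q), h5,
    h0.eventually_ge_atTop (2 * (Q : ℝ))] with n ha hb hc hd
  refine ⟨ha, hb, ?_, hd⟩
  have : (2 * Real.log n ^ 2 + 1) / n = 2 * (Real.log n ^ 2 / n) + 1 / n := by ring
  rw [this]
  exact hc.le

variable {Ω : Type*} [MeasurableSpace Ω] {μ : Measure Ω}

/-- Two-sided bound for the probability of the event `E_n`. -/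
lemma eventually_bounds [IsProbabilityMeasure μ] {R : ℕ → Set Ω} (hR : ∀ n, MeasurableSet (R n))
    (hind : iIndepSet R μ) {Q : ℕ} (hQ : 0 < Q)
    (hp : ∀ᶠ n : ℕ in atTop, μ.real (R n) =
      if Nat.Coprime n Q then ((Q : ℝ) / Q.totient) / Real.log n else 0)
    {h : ℕ → ℝ} (hh : ∀ᶠ n : ℕ in atTop, |h n| ≤ Real.log n / 2) :
    ∀ᶠ n : ℕ in atTop,
      wt Q * Real.exp (-(1 + 6 * wt Q)) *
          (if Nat.Coprime n Q then Real.exp (-h n) / (n * Real.log n) else 0) ≤
        μ.real (longGap R (Real.log n ^ 2 + h n * Real.log n) n) ∧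
      μ.real (longGap R (Real.log n ^ 2 + h n * Real.log n) n) ≤
        wt Q * Real.exp 2 *
          (if Nat.Coprime n Q then Real.exp (-h n) / (n * Real.log n) else 0) := by
  obtain ⟨N, hN⟩ := eventually_atTop.mp hp
  filter_upwards [eventually_ge_atTop N, hh, eventually_large Q] with n hnN hn hlarge
  obtain ⟨hl1, hl2, hl3, hl4⟩ := hlarge
  have hpp : μ.real (longGap R (Real.log n ^ 2 + h n * Real.log n) n) =
      pp Q n ⌈Real.log n ^ 2 + h n * Real.log n⌉₊ := by
    rw [measure_longGap hR hind, pp, hN n hnN]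
    congr 1
    refine Finset.prod_congr rfl fun m hm => ?_
    rw [Finset.mem_Ioc] at hm
    rw [hN m (by omega)]
    rfl
  rw [hpp]
  by_cases hcop : Nat.Coprime n Q
  · rw [if_pos hcop]
    have hq : (1 : ℝ) ≤ Q := by exact_mod_cast hQ
    have hw := one_le_wt hQ
    set ℓ := Real.log n with hℓ
    have habs := abs_le.mp hn
    have ht0 : ℓ ^ 2 / 2 ≤ ℓ ^ 2 + h n * ℓ := by nlinarith [habs.1]
    have ht1 : ℓ ^ 2 + h n * ℓ ≤ 2 * ℓ ^ 2 := by nlinarith [habs.2]
    have hceil := Nat.le_ceil (ℓ ^ 2 + h n * ℓ)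
    have hceil2 := (Nat.ceil_lt_add_one (a := ℓ ^ 2 + h n * ℓ) (by nlinarith)).le
    have hn0 : 0 < n := by
      rcases Nat.eq_zero_or_pos n with h | h
      · subst h; simp at hℓ; linarith
      · exact h
    have hn0' : (0 : ℝ) < n := by exact_mod_cast hn0
    constructor
    · exact le_pp hQ n _ (h n) (by linarith) hl2 (by linarith [habs.2]) hceil2 hcop
    · apply pp_le hQ n _ (h n) (by linarith) (by linarith) (by linarith [habs.2]) hceil ?_ ?_ hcop
      · have : (Q : ℝ) ≤ (⌈ℓ ^ 2 + h n * ℓ⌉₊ : ℝ) := by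
          refine le_trans ?_ hceil
          nlinarith
        exact_mod_cast this
      · refine le_trans ?_ hl3
        gcongr
        linarith
  · rw [if_neg hcop, mul_zero, mul_zero, pp, pr, if_neg hcop, zero_mul]
    exact ⟨le_rfl, le_rfl⟩

/-- Summability of the probabilities is the integral test. -/
lemma summable_iff [IsProbabilityMeasure μ] {R : ℕ → Set Ω} (hR : ∀ n, MeasurableSet (R n))
    (hind : iIndepSet R μ) {Q : ℕ} (hQ : 0 < Q)
    (hp : ∀ᶠ n : ℕ in atTop, μ.real (R n) =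
      if Nat.Coprime n Q then ((Q : ℝ) / Q.totient) / Real.log n else 0)
    {h : ℕ → ℝ} (hh : ∀ᶠ n : ℕ in atTop, |h n| ≤ Real.log n / 2) :
    (Summable fun n : ℕ => μ.real (longGap R (Real.log n ^ 2 + h n * Real.log n) n)) ↔
      Summable fun n : ℕ => if Nat.Coprime n Q then Real.exp (-h n) / (n * Real.log n) else 0 := by
  have hb := eventually_bounds hR hind hQ hp hh
  have hw := wt_pos hQ
  have hnn : ∀ n : ℕ, (0 : ℝ) ≤
      if Nat.Coprime n Q then Real.exp (-h n) / (n * Real.log n) else 0 := by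
    intro n
    split_ifs
    · have := Real.log_natCast_nonneg n
      positivity
    · rfl
  obtain ⟨N, hN⟩ := eventually_atTop.mp hb
  constructor
  · intro hs
    have h1 : Summable fun n : ℕ => wt Q * Real.exp (-(1 + 6 * wt Q)) *
        (if Nat.Coprime n Q then Real.exp (-h n) / (n * Real.log n) else 0) := by
      refine Summable.of_norm_bounded_eventually_nat hs ?_
      filter_upwards [hb] with n hn
      rw [Real.norm_of_nonneg (mul_nonneg (by positivity) (hnn n))]
      exact hn.1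
    exact (summable_mul_left_iff (by positivity)).mp h1
  · intro hs
    refine Summable.of_norm_bounded_eventually_nat (hs.mul_left (wt Q * Real.exp 2)) ?_
    filter_upwards [hb] with n hn
    rw [Real.norm_of_nonneg measureReal_nonneg]
    exact hn.2

theorem main [IsProbabilityMeasure μ] {R : ℕ → Set Ω} (hR : ∀ n, MeasurableSet (R n))
    (hind : iIndepSet R μ) {Q : ℕ} (hQ : 0 < Q)
    (hp : ∀ᶠ n : ℕ in atTop, μ.real (R n) =
      if Nat.Coprime n Q then ((Q : ℝ) / Q.totient) / Real.log n else 0)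
    {h : ℕ → ℝ} (hh : ∀ᶠ n : ℕ in atTop, |h n| ≤ Real.log n / 2) :
    ((Summable fun n : ℕ => if Nat.Coprime n Q then Real.exp (-h n) / (n * Real.log n) else 0) →
      ∀ᵐ ω ∂μ, {n : ℕ | ω ∈ longGap R (Real.log n ^ 2 + h n * Real.log n) n}.Finite) ∧
    ((¬ Summable fun n : ℕ => if Nat.Coprime n Q then Real.exp (-h n) / (n * Real.log n) else 0) →
      ∀ᵐ ω ∂μ, {n : ℕ | ω ∈ longGap R (Real.log n ^ 2 + h n * Real.log n) n}.Infinite) := by
  have hiff := summable_iff hR hind hQ hp hh
  constructor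
  · intro hs
    have h1 := hiff.mpr hs
    have h2 : ∑' n : ℕ, μ (longGap R (Real.log n ^ 2 + h n * Real.log n) n) ≠ ⊤ := by
      have h3 := h1.tsum_ofReal_ne_top
      have h4 : ∀ n : ℕ, ENNReal.ofReal
          (μ.real (longGap R (Real.log n ^ 2 + h n * Real.log n) n)) =
          μ (longGap R (Real.log n ^ 2 + h n * Real.log n) n) := fun n => by
        rw [measureReal_def, ENNReal.ofReal_toReal (measure_ne_top μ _)]
      simpa only [h4] using h3
    exact ae_finite_setOfPred_mem h2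
  · intro hs
    exact ae_infinite (fun n => measurableSet_longGap hR _ n) 0
      (fun n m _ hnm => neg_corr hind
        (fun n : ℕ => Real.log n ^ 2 + h n * Real.log n) hnm) (fun hcon => hs (hiff.mp hcon))

end Pool.Agent.Lead.CramerModel
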