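import Mathlib
import Pool.Agent.Lead.RwGame

/-!
Differential Horace step with several new points, on Young diagrams.
-/

set_option autoImplicit false
set_option linter.unusedSectionVars false

namespace Pool.Agent.Lead.Hz

open Finset Pool.Agent.Lead.Sh Pool.Agent.Lead.Rw

/-- the coefficient of `u^i` in `(x+u)^a` -/
def ex (i a : ℕ) (x : ℂ) : ℂ := (a.choose i : ℂ) * x ^ (a - i)

lemma E_ex (k j : ℕ) (d : ℕ × ℕ) (x y : ℂ) : E (k, j) d x y = ex k d.1 x * ex j d.2 y := by
  unfold E ex; ring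

lemma ex_succ (j b : ℕ) (y : ℂ) : ex (j + 1) (b + 1) y = y * ex (j + 1) b y + ex j b y := by
  unfold ex
  rw [Nat.choose_succ_succ, Nat.add_sub_add_right]
  rcases lt_or_ge b (j + 1) with h | h
  · rw [Nat.choose_eq_zero_of_lt h]; push_cast; ring
  · have : b - j = (b - (j + 1)) + 1 := by omega
    rw [this, pow_succ]; push_cast; ring

lemma ex_zero (b : ℕ) (y : ℂ) : ex 0 (b + 1) y = y * ex 0 b y := by
  unfold ex
  simp [pow_succ]; ring

/-- Young diagram with row lengths `lam` -/
def YD (lam : ℕ → ℕ) (A K : ℕ) : Finset (ℕ × ℕ) :=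
  ((range A) ×ˢ (range K)).filter (fun d => d.1 < lam d.2)

lemma mem_YD {lam : ℕ → ℕ} {A K : ℕ} {d : ℕ × ℕ} :
    d ∈ YD lam A K ↔ (d.1 < A ∧ d.2 < K) ∧ d.1 < lam d.2 := by
  unfold YD; rw [mem_filter, mem_product, mem_range, mem_range]

/-- Taylor coefficients -/
def T (D : Finset (ℕ × ℕ)) (u : ℕ × ℕ → ℂ) (k j : ℕ) (x y : ℂ) : ℂ :=
  ∑ d ∈ D, u d * (ex k d.1 x * ex j d.2 y)

lemma T_eq (lam : ℕ → ℕ) (A K : ℕ) (u : ℕ × ℕ → ℂ) (k j : ℕ) (x y : ℂ) :
    T (YD lam A K) u k j x y = ∑ a ∈ range A, ex k a x *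
      ∑ b ∈ range K, (if a < lam b then u (a, b) else 0) * ex j b y := by
  unfold T YD
  rw [sum_filter, sum_product]
  apply sum_congr rfl
  intro a _
  rw [mul_sum]
  apply sum_congr rfl
  intro b _
  simp only
  split_ifs <;> ring

/-- only zero satisfies the staircase conditions -/
def InjS (D : Finset (ℕ × ℕ)) (S : Finset ℕ) (σ : ℕ → ℕ → ℕ) (x y : ℕ → ℂ) : Prop :=
  ∀ u : ℕ × ℕ → ℂ, (∀ p ∈ S, ∀ j k, k < σ p j → T D u k j (x p) (y p) = 0) → ∀ d ∈ D, u d = 0

lemma zero_count (l : ℕ) (γ : ℕ → ℂ) (S : Finset ℕ) (x : ℕ → ℂ) (hx : Function.Injective x)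
    (n : ℕ → ℕ) (h : ∀ p ∈ S, ∀ k < n p, ∑ a ∈ range l, γ a * ex k a (x p) = 0)
    (hn : l ≤ ∑ p ∈ S, n p) : ∀ a < l, γ a = 0 := by
  classical
  set q : Polynomial ℂ := ∑ a ∈ range l, Polynomial.C (γ a) * Polynomial.X ^ a with hq
  have hcoef : ∀ a < l, q.coeff a = γ a := by
    intro a ha
    rw [hq, Polynomial.finsetSum_coeff, sum_eq_single a]
    · simp
    · intro b _ hb
      rw [Polynomial.coeff_C_mul_X_pow, if_neg hb.symm]
    · intro hn; exact absurd (mem_range.2 ha) hn
  have hdvd : ∀ p ∈ S, (Polynomial.X - Polynomial.C (x p)) ^ n p ∣ q := by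
    intro p hp
    rw [Polynomial.X_sub_C_pow_dvd_iff, Polynomial.X_pow_dvd_iff]
    intro k hk
    rw [← h p hp k hk, hq, Polynomial.sum_comp, Polynomial.finsetSum_coeff]
    apply sum_congr rfl
    intro a _
    rw [Polynomial.mul_comp, Polynomial.C_comp, Polynomial.pow_comp, Polynomial.X_comp,
      Polynomial.coeff_C_mul, Polynomial.coeff_X_add_C_pow]
    unfold ex; ring
  have hprod : ∏ p ∈ S, (Polynomial.X - Polynomial.C (x p)) ^ n p ∣ q := by
    apply Finset.prod_dvd_of_coprime _ hdvd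
    intro p _ p' _ hne
    apply IsCoprime.pow
    apply Polynomial.isCoprime_X_sub_C_of_isUnit_sub
    rw [isUnit_iff_ne_zero, sub_ne_zero]
    exact fun he => hne (hx he)
  have hq0 : q = 0 := by
    by_contra hne
    have h1 := Polynomial.natDegree_le_of_dvd hprod hne
    rw [Polynomial.natDegree_prod_of_monic _ _ (fun p _ => (Polynomial.monic_X_sub_C _).pow _)] at h1
    simp only [Polynomial.natDegree_pow, Polynomial.natDegree_X_sub_C, mul_one] at h1
    have h2 : q.natDegree < l := by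
      rcases Nat.eq_zero_or_pos l with h0 | h0
      · exfalso
        apply hne
        rw [hq, h0]; simp
      · rw [Polynomial.natDegree_lt_iff_degree_lt hne, Polynomial.degree_lt_iff_coeff_zero]
        intro m hm
        rw [hq, Polynomial.finsetSum_coeff]
        apply sum_eq_zero
        intro a ha
        rw [mem_range] at ha
        rw [Polynomial.coeff_C_mul_X_pow, if_neg (by omega)]
    omega
  intro a ha
  rw [← hcoef a ha, hq0, Polynomial.coeff_zero]

/-- Horner division in a column -/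
lemma horner (c : ℂ) (s : ℕ → ℂ) (K : ℕ) (φ : ℕ → ℂ) :
    ∑ b ∈ range (K + 1), s b * φ b = (∑ i ∈ range (K + 1), c ^ i * s i) * φ 0 +
      ∑ b ∈ range K, (∑ i ∈ range (K - b), c ^ i * s (b + 1 + i)) * (φ (b + 1) - c * φ b) := by
  have key : ∀ n b : ℕ, b + n = K → ∑ i ∈ range (n + 1), s (b + i) * φ (b + i) =
      (∑ i ∈ range (n + 1), c ^ i * s (b + i)) * φ b + ∑ i ∈ range n,
        (∑ i' ∈ range (n - i), c ^ i' * s (b + i + 1 + i')) * (φ (b + i + 1) - c * φ (b + i)) := by
    intro n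
    induction n with
    | zero => intro b _; simp
    | succ n ih =>
      intro b hb
      rw [sum_range_succ' (fun i => s (b + i) * φ (b + i))]
      have h1 := ih (b + 1) (by omega)
      have e1 : ∑ k ∈ range (n + 1), s (b + (k + 1)) * φ (b + (k + 1)) =
          ∑ i ∈ range (n + 1), s (b + 1 + i) * φ (b + 1 + i) := by
        apply sum_congr rfl
        intro i _
        rw [show b + (i + 1) = b + 1 + i by omega]
      rw [e1, h1, sum_range_succ' (fun i => c ^ i * s (b + i)),
        sum_range_succ' (fun i => (∑ i' ∈ range (n + 1 - i), c ^ i' * s (b + i + 1 + i')) *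
          (φ (b + i + 1) - c * φ (b + i)))]
      have e2 : ∑ k ∈ range (n + 1), c ^ (k + 1) * s (b + (k + 1)) =
          c * ∑ k ∈ range (n + 1), c ^ k * s (b + 1 + k) := by
        rw [mul_sum]
        apply sum_congr rfl
        intro i _
        rw [show b + (i + 1) = b + 1 + i by omega, pow_succ]; ring
      have e3 : ∑ k ∈ range n, (∑ i' ∈ range (n + 1 - (k + 1)), c ^ i' * s (b + (k + 1) + 1 + i')) *
          (φ (b + (k + 1) + 1) - c * φ (b + (k + 1))) = ∑ i ∈ range n,
          (∑ i' ∈ range (n - i), c ^ i' * s (b + 1 + i + 1 + i')) *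
            (φ (b + 1 + i + 1) - c * φ (b + 1 + i)) := by
        apply sum_congr rfl
        intro i _
        rw [Nat.add_sub_add_right, show b + (i + 1) = b + 1 + i by omega]
      rw [e2, e3]
      simp only [add_zero, Nat.sub_zero, pow_zero, one_mul]
      ring
  have := key K 0 (by omega)
  simp only [zero_add] at this
  exact this

end Pool.Agent.Lead.Hz
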