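import Mathlib
import Pool.Agent.Lead.HzStep

/-!
Differential Horace step with several new points, on Young diagrams: the step itself.
-/

set_option autoImplicit false
set_option linter.unusedSectionVars false

namespace Pool.Agent.Lead.Hz

open Finset Pool.Agent.Lead.Sh Pool.Agent.Lead.Rw

/-- polynomial version of the Taylor entries -/
noncomputable def hP (k j : ℕ) (d : ℕ × ℕ) (xp : ℂ) (Y : Polynomial ℂ) : Polynomial ℂ :=
  Polynomial.C (ex k d.1 xp * (d.2.choose j : ℂ)) * Y ^ (d.2 - j)

lemma hP_eval (k j : ℕ) (d : ℕ × ℕ) (xp : ℂ) (Y : Polynomial ℂ) (e : ℂ) :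
    (hP k j d xp Y).eval e = ex k d.1 xp * ex j d.2 (Y.eval e) := by
  unfold hP ex
  simp only [Polynomial.eval_mul, Polynomial.eval_C, Polynomial.eval_pow]
  ring

section

variable (New On : Finset ℕ) (σ : ℕ → ℕ → ℕ) (mm r w : ℕ → ℕ) (N : ℕ) (x y : ℕ → ℂ) (c : ℂ)

/-- coefficient on the bottom row unknowns -/
noncomputable def Mg (p k j : ℕ) (t : Bool) (a : ℕ) : Polynomial ℂ :=
  if t = true then
    if p ∈ New then
      if k < r p then Polynomial.C (ex k a (x p))
      else if k < mm p then - Polynomial.C ((-1) ^ (mm p - k)) *
        Polynomial.X ^ (N - w p * (mm p - k)) * Polynomial.C (ex k a (x p))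
      else 0
    else if p ∈ On then (if k < σ p 0 then Polynomial.C (ex k a (x p)) else 0)
    else 0
  else
    if p ∈ New then 0 else if p ∈ On then 0
    else if k < σ p j then (if j = 0 then Polynomial.X ^ N * Polynomial.C (ex k a (x p)) else 0)
    else 0

/-- coefficient on the remaining unknowns -/
noncomputable def Mb (p k j : ℕ) (t : Bool) (d : ℕ × ℕ) : Polynomial ℂ :=
  if t = true then
    if p ∈ New then
      if k < r p then - Polynomial.C ((-1) ^ (mm p - k)) *
        Polynomial.X ^ (w p * (mm p - k) - N) *
          hP k (mm p - k - 1) d (x p) (Polynomial.C c + Polynomial.X ^ (w p))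
      else if k < mm p then hP k (mm p - k - 1) d (x p) (Polynomial.C c + Polynomial.X ^ (w p))
      else 0
    else 0
  else
    if p ∈ New then
      (if j + 2 + k ≤ mm p then hP k j d (x p) (Polynomial.C c + Polynomial.X ^ (w p)) +
        Polynomial.X ^ (w p) * hP k (j + 1) d (x p) (Polynomial.C c + Polynomial.X ^ (w p)) else 0)
    else if p ∈ On then (if k < σ p (j + 1) then hP k j d (x p) (Polynomial.C c) else 0)
    else if k < σ p j then Polynomial.C (y p - c) * hP k j d (x p) (Polynomial.C (y p)) +
      (if j = 0 then 0 else hP k (j - 1) d (x p) (Polynomial.C (y p)))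
    else 0

end

/-- dividing by `y - c` -/
lemma T_div {lam : ℕ → ℕ} (hlam : Antitone lam) (A K : ℕ) (c : ℂ) (u : ℕ × ℕ → ℂ) :
    ∃ (γ : ℕ → ℂ) (b : ℕ × ℕ → ℂ),
      (∀ k x y, T (YD lam A (K + 1)) u k 0 x y = ∑ a ∈ range A, γ a * ex k a x +
        (y - c) * T (YD (fun b => lam (b + 1)) A K) b k 0 x y) ∧
      (∀ k j x y, T (YD lam A (K + 1)) u k (j + 1) x y =
        (y - c) * T (YD (fun b => lam (b + 1)) A K) b k (j + 1) x y +
          T (YD (fun b => lam (b + 1)) A K) b k j x y) ∧
      (∀ a, lam 0 ≤ a → γ a = 0) ∧
      ((∀ a < A, γ a = 0) → (∀ d ∈ YD (fun b => lam (b + 1)) A K, b d = 0) →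
        ∀ d ∈ YD lam A (K + 1), u d = 0) := by
  set s : ℕ → ℕ → ℂ := fun a i => if a < lam i then u (a, i) else 0 with hs
  set γ : ℕ → ℂ := fun a => ∑ i ∈ range (K + 1), c ^ i * s a i with hγ
  set b : ℕ × ℕ → ℂ := fun d => ∑ i ∈ range (K - d.2), c ^ i * s d.1 (d.2 + 1 + i) with hb
  have hb0 : ∀ a i, lam (i + 1) ≤ a → b (a, i) = 0 := by
    intro a i h
    simp only [hb]
    apply sum_eq_zero
    intro i' _
    simp only [hs]
    rw [if_neg, mul_zero]
    have := hlam (show i + 1 ≤ i + 1 + i' by omega)
    omega
  have hbT : ∀ k j x y, T (YD (fun b => lam (b + 1)) A K) b k j x y =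
      ∑ a ∈ range A, ex k a x * ∑ i ∈ range K, b (a, i) * ex j i y := by
    intro k j x y
    rw [T_eq]
    apply sum_congr rfl
    intro a _
    congr 1
    apply sum_congr rfl
    intro i _
    split_ifs with h
    · rfl
    · rw [hb0 a i (by omega)]
  have hT : ∀ k j x y, T (YD lam A (K + 1)) u k j x y = ∑ a ∈ range A, ex k a x *
      (γ a * ex j 0 y + ∑ i ∈ range K, b (a, i) * (ex j (i + 1) y - c * ex j i y)) := by
    intro k j x y
    rw [T_eq]
    apply sum_congr rfl
    intro a _
    congr 1
    exact horner c (s a) K (fun i => ex j i y)
  refine ⟨γ, b, ?_, ?_, ?_, ?_⟩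
  · intro k x y
    rw [hT, hbT, mul_sum, ← sum_add_distrib]
    apply sum_congr rfl
    intro a _
    have h1 : ∀ i ∈ range K, b (a, i) * (ex 0 (i + 1) y - c * ex 0 i y) =
        (y - c) * (b (a, i) * ex 0 i y) := by
      intro i _
      rw [ex_zero]; ring
    rw [sum_congr rfl h1, ← mul_sum]
    have : ex 0 0 y = 1 := by simp [ex]
    rw [this]; ring
  · intro k j x y
    rw [hT, hbT, hbT, mul_sum, ← sum_add_distrib]
    apply sum_congr rfl
    intro a _
    have h1 : ∀ i ∈ range K, b (a, i) * (ex (j + 1) (i + 1) y - c * ex (j + 1) i y) =
        (y - c) * (b (a, i) * ex (j + 1) i y) + b (a, i) * ex j i y := by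
      intro i _
      rw [ex_succ]; ring
    rw [sum_congr rfl h1, sum_add_distrib, ← mul_sum]
    have : ex (j + 1) 0 y = 0 := by simp [ex]
    rw [this]; ring
  · intro a ha
    simp only [hγ]
    apply sum_eq_zero
    intro i _
    simp only [hs]
    rw [if_neg, mul_zero]
    have := hlam (Nat.zero_le i)
    omega
  · intro h1 h2 d hd
    rw [mem_YD] at hd
    obtain ⟨⟨hd1, hd2⟩, hd3⟩ := hd
    have hbz : ∀ i, b (d.1, i) = 0 := by
      intro i
      rcases lt_or_ge i K with hi | hi
      · by_cases h3 : d.1 < lam (i + 1)
        · exact h2 (d.1, i) (mem_YD.2 ⟨⟨hd1, hi⟩, h3⟩)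
        · exact hb0 _ _ (by omega)
      · simp only [hb]
        rw [Nat.sub_eq_zero_of_le hi]; simp
    have h4 := horner c (s d.1) K (fun i => if i = d.2 then 1 else 0)
    have h5 : ∀ i ∈ range K, (∑ i' ∈ range (K - i), c ^ i' * s d.1 (i + 1 + i')) *
        ((if i + 1 = d.2 then (1 : ℂ) else 0) - c * (if i = d.2 then 1 else 0)) = 0 := by
      intro i _
      have := hbz i
      simp only [hb] at this
      rw [this, zero_mul]
    rw [sum_congr rfl h5, sum_const_zero, add_zero] at h4
    have h6 : ∑ i ∈ range (K + 1), c ^ i * s d.1 i = 0 := h1 d.1 hd1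
    rw [h6, zero_mul] at h4
    simp only [mul_ite, mul_one, mul_zero, sum_ite_eq', mem_range] at h4
    rw [if_pos hd2] at h4
    simp only [hs] at h4
    rw [if_pos hd3] at h4
    exact h4

/-- the algebra of a column at a moving point -/
lemma column {m k : ℕ} (hk : k < m) (δ g : ℂ) (h : ℕ → ℂ) (h0 : g + δ * h 0 = 0)
    (h1 : ∀ j, j + 1 + k < m → δ * h (j + 1) + h j = 0) :
    g = (-1) ^ (m - k) * δ ^ (m - k) * h (m - k - 1) := by
  have key : ∀ n, n + k < m → h 0 = (-1) ^ n * δ ^ n * h n := by
    intro n
    induction n with
    | zero => intro _; simp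
    | succ n ih =>
      intro hn
      have h2 := ih (by omega)
      have h3 := h1 n (by omega)
      have h4 : h n = - (δ * h (n + 1)) := by linear_combination h3
      rw [h2, h4, pow_succ, pow_succ]; ring
  have h2 := key (m - k - 1) (by omega)
  obtain ⟨n, hn⟩ : ∃ n, m - k = n + 1 := ⟨m - k - 1, by omega⟩
  have hn' : m - k - 1 = n := by omega
  rw [hn'] at h2 ⊢
  rw [hn, pow_succ, pow_succ]
  linear_combination h0 - δ * h2

theorem step {lam : ℕ → ℕ} (hlam : Antitone lam) (A K : ℕ) (hA : lam 0 ≤ A) (S On New : Finset ℕ)
    (hOnS : On ⊆ S) (hNewS : New ⊆ S) (hdisj : Disjoint On New) (x y' : ℕ → ℂ)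
    (hx : Function.Injective x) (c : ℂ)
    (σ σ' : ℕ → ℕ → ℕ) (mm r : ℕ → ℕ)
    (hOn : ∀ p ∈ On, y' p = c ∧ ∀ j, σ' p j = σ p (j + 1))
    (hNew : ∀ p ∈ New, y' p = c ∧ 1 ≤ r p ∧ r p ≤ mm p ∧ (∀ j, σ p j = mm p - j) ∧
      ∀ j, σ' p j = sp (mm p) (r p) (j + 1))
    (hOff : ∀ p ∈ S, p ∉ On → p ∉ New → y' p ≠ c ∧ (∀ j, σ p (j + 1) ≤ σ p j) ∧
      ∀ j, σ' p j = σ p j)
    (Bd : ℕ) (hBd : ∀ p ∈ S, ∀ j k, (k < σ p j ∨ k < σ' p j) → j < Bd ∧ k < Bd)
    (hBm : ∀ p ∈ New, mm p ≤ Bd)
    (hrow : lam 0 ≤ ∑ p ∈ On, σ p 0 + ∑ p ∈ New, r p)
    (hI : InjS (YD (fun b => lam (b + 1)) A K) S σ' x y') :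
    ∃ w : ℕ → ℕ, (∀ p ∈ New, 1 ≤ w p) ∧ ∃ G : Polynomial ℂ, G ≠ 0 ∧ ∀ e : ℂ, G.eval e ≠ 0 →
      InjS (YD lam A (K + 1)) S σ x (fun p => if p ∈ New then c + e ^ (w p) else y' p) := by
  classical
  set D' := YD (fun b => lam (b + 1)) A K with hD'
  set N : ℕ := ∏ q ∈ New, (2 * (mm q - r q) + 1) with hN
  set w : ℕ → ℕ := fun p => 2 * (N / (2 * (mm p - r p) + 1)) with hw
  have hN1 : 1 ≤ N := Finset.one_le_prod' (fun q _ => by omega)
  have hwN : ∀ p ∈ New, w p * (2 * (mm p - r p) + 1) = 2 * N := by
    intro p hp
    have hd : 2 * (mm p - r p) + 1 ∣ N := dvd_prod_of_mem _ hp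
    simp only [hw]
    rw [mul_assoc, Nat.div_mul_cancel hd]
  have hw1 : ∀ p ∈ New, 1 ≤ w p := by
    intro p hp
    have := hwN p hp
    by_contra hcon
    have h0 : w p = 0 := by omega
    rw [h0] at this; omega
  -- exponents
  have hexp1 : ∀ p ∈ New, ∀ k, k < r p → N < w p * (mm p - k) := by
    intro p hp k hk
    have h1 := hwN p hp
    have h2 := (hNew p hp).2.2.1
    have h3 : w p * (2 * (mm p - r p) + 2) ≤ w p * (2 * (mm p - k)) :=
      Nat.mul_le_mul_left _ (by omega)
    have h4 := hw1 p hp
    have e1 : w p * (2 * (mm p - r p) + 2) = w p * (2 * (mm p - r p) + 1) + w p := by ring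
    have e2 : w p * (2 * (mm p - k)) = 2 * (w p * (mm p - k)) := by ring
    omega
  have hexp2 : ∀ p ∈ New, ∀ k, r p ≤ k → w p * (mm p - k) < N := by
    intro p hp k hk
    have h1 := hwN p hp
    have h3 : w p * (2 * (mm p - k)) ≤ w p * (2 * (mm p - r p)) :=
      Nat.mul_le_mul_left _ (by omega)
    have h4 := hw1 p hp
    have e1 : w p * (2 * (mm p - r p) + 1) = w p * (2 * (mm p - r p)) + w p := by ring
    have e2 : w p * (2 * (mm p - k)) = 2 * (w p * (mm p - k)) := by ring
    omega
  refine ⟨w, hw1, ?_⟩
  let ι := ↥S × Fin Bd × Fin Bd × Bool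
  let κ := ↥(range (lam 0)) ⊕ ↥D'
  let M : ι → κ → Polynomial ℂ := fun i z => Sum.elim
    (fun a : ↥(range (lam 0)) => Mg New On σ mm r w N x (i.1 : ℕ) (i.2.1 : ℕ) (i.2.2.1 : ℕ) i.2.2.2 a)
    (fun d : ↥D' => Mb New On σ mm r w N x y' c (i.1 : ℕ) (i.2.1 : ℕ) (i.2.2.1 : ℕ) i.2.2.2 d) z
  have hMsum : ∀ (v : κ → ℂ) (i : ι) (e : ℂ), ∑ z, v z * (M i z).eval e =
      ∑ a : ↥(range (lam 0)), v (Sum.inl a) *
        (Mg New On σ mm r w N x (i.1 : ℕ) (i.2.1 : ℕ) (i.2.2.1 : ℕ) i.2.2.2 a).eval e +
      ∑ d : ↥D', v (Sum.inr d) *
        (Mb New On σ mm r w N x y' c (i.1 : ℕ) (i.2.1 : ℕ) (i.2.2.1 : ℕ) i.2.2.2 d).eval e := by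
    intro v i e
    rw [Fintype.sum_sum_type]
    rfl
  obtain ⟨g, hg0, hg⟩ := gen_inj M (Polynomial.aeval (0 : ℂ)) (by
    intro v hv
    have hv' : ∀ i, ∑ z, v z * (M i z).eval 0 = 0 := by
      intro i
      have := hv i
      simpa [Polynomial.coe_aeval_eq_eval] using this
    set γ : ℕ → ℂ := fun a => if h : a ∈ range (lam 0) then v (Sum.inl ⟨a, h⟩) else 0 with hγ
    set b : ℕ × ℕ → ℂ := fun d => if h : d ∈ D' then v (Sum.inr ⟨d, h⟩) else 0 with hb
    have hγ' : ∀ a : ↥(range (lam 0)), v (Sum.inl a) = γ a := by
      intro a; simp only [hγ]; rw [dif_pos a.2]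
    have hb' : ∀ d : ↥D', v (Sum.inr d) = b d := by
      intro d; simp only [hb]; rw [dif_pos d.2]
    have hrel : ∀ p ∈ S, ∀ k < Bd, ∀ j < Bd, ∀ t : Bool,
        ∑ a ∈ range (lam 0), γ a * (Mg New On σ mm r w N x p k j t a).eval 0 +
        ∑ d ∈ D', b d * (Mb New On σ mm r w N x y' c p k j t d).eval 0 = 0 := by
      intro p hp k hk j hj t
      have h1 := hv' (⟨p, hp⟩, ⟨k, hk⟩, ⟨j, hj⟩, t)
      rw [hMsum] at h1
      simp only [hγ', hb'] at h1
      rw [sum_coe_sort (range (lam 0)) (fun a => γ a * (Mg New On σ mm r w N x p k j t a).eval 0),
        sum_coe_sort D' (fun d => b d * (Mb New On σ mm r w N x y' c p k j t d).eval 0)] at h1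
      exact h1
    -- the bottom row vanishes
    have hγ0 : ∀ a < lam 0, γ a = 0 := by
      apply zero_count (lam 0) γ (On ∪ New) x hx (fun p => if p ∈ New then r p else σ p 0)
      · intro p hp k hk
        by_cases hpN : p ∈ New
        · rw [if_pos hpN] at hk
          have hpS := hNewS hpN
          have hkB : k < Bd := by
            have := (hNew p hpN).2.2.1
            have := hBm p hpN
            omega
          have h1 := hrel p hpS k hkB 0 (by omega) true
          have e1 : ∀ a, (Mg New On σ mm r w N x p k 0 true a).eval 0 = ex k a (x p) := by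
            intro a
            unfold Mg
            rw [if_pos rfl, if_pos hpN, if_pos hk, Polynomial.eval_C]
          have e2 : ∀ d, (Mb New On σ mm r w N x y' c p k 0 true d).eval 0 = 0 := by
            intro d
            unfold Mb
            rw [if_pos rfl, if_pos hpN, if_pos hk, Polynomial.eval_mul, Polynomial.eval_mul,
              Polynomial.eval_pow, Polynomial.eval_X, zero_pow]
            · ring
            · have := hexp1 p hpN k hk; omega
          simp only [e1, e2, mul_zero, sum_const_zero, add_zero] at h1
          exact h1
        · rw [if_neg hpN] at hk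
          have hpO : p ∈ On := by
            rcases mem_union.1 hp with h | h
            · exact h
            · exact absurd h hpN
          have hpS := hOnS hpO
          have hkB := (hBd p hpS 0 k (Or.inl hk))
          have h1 := hrel p hpS k hkB.2 0 hkB.1 true
          have e1 : ∀ a, (Mg New On σ mm r w N x p k 0 true a).eval 0 = ex k a (x p) := by
            intro a
            unfold Mg
            rw [if_pos rfl, if_neg hpN, if_pos hpO, if_pos hk, Polynomial.eval_C]
          have e2 : ∀ d, (Mb New On σ mm r w N x y' c p k 0 true d).eval 0 = 0 := by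
            intro d
            unfold Mb
            rw [if_pos rfl, if_neg hpN, Polynomial.eval_zero]
          simp only [e1, e2, mul_zero, sum_const_zero, add_zero] at h1
          exact h1
      · rw [sum_union hdisj]
        refine hrow.trans (le_of_eq ?_)
        congr 1
        · apply sum_congr rfl
          intro p hp
          rw [if_neg (disjoint_left.1 hdisj hp)]
        · apply sum_congr rfl
          intro p hp
          rw [if_pos hp]
    have hγs : ∀ f : ℕ → ℂ, ∑ a ∈ range (lam 0), γ a * f a = 0 := by
      intro f
      apply sum_eq_zero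
      intro a ha
      rw [hγ0 a (mem_range.1 ha), zero_mul]
    have hbz : ∀ d ∈ D', b d = 0 := by
      apply hI b
      intro p hp j k hk
      obtain ⟨hjB, hkB⟩ := hBd p hp j k (Or.inr hk)
      by_cases hpN : p ∈ New
      · obtain ⟨hy, hr1, hr2, hσ, hσ'⟩ := hNew p hpN
        rw [hσ', sp_succ] at hk
        rw [hy]
        have hevY : (Polynomial.C c + Polynomial.X ^ (w p) : Polynomial ℂ).eval 0 = c := by
          rw [Polynomial.eval_add, Polynomial.eval_C, Polynomial.eval_pow, Polynomial.eval_X,
            zero_pow (by have := hw1 p hpN; omega), add_zero]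
        by_cases hc1 : j + 2 + k ≤ mm p
        · have h1 := hrel p hp k hkB j hjB false
          rw [hγs, zero_add] at h1
          have e2 : ∀ d, (Mb New On σ mm r w N x y' c p k j false d).eval 0 =
              ex k d.1 (x p) * ex j d.2 c := by
            intro d
            unfold Mb
            rw [if_neg (by simp), if_pos hpN, if_pos hc1, Polynomial.eval_add, Polynomial.eval_mul,
              Polynomial.eval_pow, Polynomial.eval_X, zero_pow (by have := hw1 p hpN; omega),
              zero_mul, add_zero, hP_eval, hevY]
          simp only [e2] at h1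
          exact h1
        · have hkr : r p ≤ k ∧ k < mm p ∧ mm p - k - 1 = j := by
            split_ifs at hk with h2
            · omega
            · omega
          have h1 := hrel p hp k hkB j hjB true
          rw [hγs, zero_add] at h1
          have e2 : ∀ d, (Mb New On σ mm r w N x y' c p k j true d).eval 0 =
              ex k d.1 (x p) * ex j d.2 c := by
            intro d
            unfold Mb
            rw [if_pos rfl, if_pos hpN, if_neg (by omega), if_pos hkr.2.1, hP_eval, hevY, hkr.2.2]
          simp only [e2] at h1
          exact h1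
      · by_cases hpO : p ∈ On
        · obtain ⟨hy, hσ'⟩ := hOn p hpO
          rw [hσ'] at hk
          have h1 := hrel p hp k hkB j hjB false
          rw [hγs, zero_add] at h1
          have e2 : ∀ d, (Mb New On σ mm r w N x y' c p k j false d).eval 0 =
              ex k d.1 (x p) * ex j d.2 c := by
            intro d
            unfold Mb
            rw [if_neg (by simp), if_neg hpN, if_pos hpO, if_pos hk, hP_eval, Polynomial.eval_C]
          simp only [e2] at h1
          rw [hy]
          exact h1
        · obtain ⟨hy, hanti, hσ'⟩ := hOff p hp hpO hpN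
          rw [hσ'] at hk
          have key : ∀ j, k < σ p j → T D' b k j (x p) (y' p) = 0 := by
            intro j
            induction j with
            | zero =>
              intro hk0
              obtain ⟨hjB, hkB⟩ := hBd p hp 0 k (Or.inl hk0)
              have h1 := hrel p hp k hkB 0 hjB false
              rw [hγs, zero_add] at h1
              have e2 : ∀ d, (Mb New On σ mm r w N x y' c p k 0 false d).eval 0 =
                  (y' p - c) * (ex k d.1 (x p) * ex 0 d.2 (y' p)) := by
                intro d
                unfold Mb
                rw [if_neg (by simp), if_neg hpN, if_neg hpO, if_pos hk0, if_pos rfl, add_zero,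
                  Polynomial.eval_mul, Polynomial.eval_C, hP_eval, Polynomial.eval_C]
              simp only [e2] at h1
              have h2 : (y' p - c) * T D' b k 0 (x p) (y' p) = 0 := by
                unfold T
                rw [mul_sum, ← h1]
                apply sum_congr rfl
                intro d _; ring
              rcases mul_eq_zero.1 h2 with h3 | h3
              · exact absurd (sub_eq_zero.1 h3) hy
              · exact h3
            | succ j ih =>
              intro hk1
              have h0 := ih (lt_of_lt_of_le hk1 (hanti j))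
              obtain ⟨hjB, hkB⟩ := hBd p hp (j + 1) k (Or.inl hk1)
              have h1 := hrel p hp k hkB (j + 1) hjB false
              rw [hγs, zero_add] at h1
              have e2 : ∀ d, (Mb New On σ mm r w N x y' c p k (j + 1) false d).eval 0 =
                  (y' p - c) * (ex k d.1 (x p) * ex (j + 1) d.2 (y' p)) +
                    ex k d.1 (x p) * ex j d.2 (y' p) := by
                intro d
                unfold Mb
                rw [if_neg (by simp), if_neg hpN, if_neg hpO, if_pos hk1, if_neg (by omega),
                  Polynomial.eval_add, Polynomial.eval_mul, Polynomial.eval_C, hP_eval,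
                  Polynomial.eval_C, hP_eval, Polynomial.eval_C, Nat.add_sub_cancel]
              simp only [e2] at h1
              have h2 : (y' p - c) * T D' b k (j + 1) (x p) (y' p) +
                  T D' b k j (x p) (y' p) = 0 := by
                unfold T
                rw [mul_sum, ← sum_add_distrib, ← h1]
                apply sum_congr rfl
                intro d _; ring
              rw [h0, add_zero] at h2
              rcases mul_eq_zero.1 h2 with h3 | h3
              · exact absurd (sub_eq_zero.1 h3) hy
              · exact h3
          exact key j hk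
    funext z
    rcases z with a | d
    · rw [hγ', hγ0 a (mem_range.1 a.2)]; rfl
    · rw [hb', hbz d d.2]; rfl)
  refine ⟨g * Polynomial.X, ?_, ?_⟩
  · apply mul_ne_zero _ Polynomial.X_ne_zero
    rintro rfl
    simp at hg0
  intro e he
  rw [Polynomial.eval_mul, Polynomial.eval_X] at he
  have he0 : e ≠ 0 := right_ne_zero_of_mul he
  have hge : g.eval e ≠ 0 := left_ne_zero_of_mul he
  intro u hu
  obtain ⟨γ, b, hT0, hT1, hγ0, hconcl⟩ := T_div hlam A K c u
  rw [← hD'] at hT0 hT1 hconcl
  have heN : e ^ N ≠ 0 := pow_ne_zero _ he0
  have hγA : ∀ k xx, ∑ a ∈ range A, γ a * ex k a xx = ∑ a ∈ range (lam 0), γ a * ex k a xx := by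
    intro k xx
    symm
    apply sum_subset
    · intro a ha; rw [mem_range] at ha ⊢; omega
    · intro a _ ha
      rw [mem_range] at ha
      rw [hγ0 a (by omega), zero_mul]
  have hv := hg (Polynomial.aeval e) (by rw [Polynomial.coe_aeval_eq_eval]; exact hge)
    (fun z => Sum.elim (fun a : ↥(range (lam 0)) => (e ^ N)⁻¹ * γ a) (fun d : ↥D' => b d) z) (by
      rintro ⟨⟨p, hp⟩, ⟨k, hk⟩, ⟨j, hj⟩, t⟩
      simp only [Polynomial.coe_aeval_eq_eval]
      have h0 := hMsum (fun z => Sum.elim (fun a : ↥(range (lam 0)) => (e ^ N)⁻¹ * γ a)
        (fun d : ↥D' => b d) z) (⟨p, hp⟩, ⟨k, hk⟩, ⟨j, hj⟩, t) e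
      simp only [Sum.elim_inl, Sum.elim_inr] at h0
      rw [h0, sum_coe_sort (range (lam 0)) (fun a => (e ^ N)⁻¹ * γ a *
          (Mg New On σ mm r w N x p k j t a).eval e),
        sum_coe_sort D' (fun d => b d * (Mb New On σ mm r w N x y' c p k j t d).eval e)]
      by_cases hpN : p ∈ New
      · obtain ⟨hy, hr1, hr2, hσ, hσ'⟩ := hNew p hpN
        have hevY : (Polynomial.C c + Polynomial.X ^ (w p) : Polynomial ℂ).eval e = c + e ^ w p := by
          simp
        -- relations from `u`
        have hu0 : ∀ k, k < mm p → ∑ a ∈ range (lam 0), γ a * ex k a (x p) +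
            e ^ w p * T D' b k 0 (x p) (c + e ^ w p) = 0 := by
          intro k hk
          have h1 := hu p hp 0 k (by rw [hσ]; omega)
          simp only [if_pos hpN] at h1
          rw [hT0, hγA] at h1
          rw [← h1]; ring
        have hu1 : ∀ k j, j + 1 + k < mm p → e ^ w p * T D' b k (j + 1) (x p) (c + e ^ w p) +
            T D' b k j (x p) (c + e ^ w p) = 0 := by
          intro k j hkj
          have h1 := hu p hp (j + 1) k (by rw [hσ]; omega)
          simp only [if_pos hpN] at h1
          rw [hT1] at h1
          rw [← h1]; ring
        cases t with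
        | true =>
          by_cases hkr : k < r p
          · have e1 : ∀ a, (Mg New On σ mm r w N x p k j true a).eval e = ex k a (x p) := by
              intro a
              unfold Mg
              rw [if_pos rfl, if_pos hpN, if_pos hkr, Polynomial.eval_C]
            have e2 : ∀ d, (Mb New On σ mm r w N x y' c p k j true d).eval e =
                (-(-1) ^ (mm p - k) * e ^ (w p * (mm p - k) - N)) *
                  (ex k d.1 (x p) * ex (mm p - k - 1) d.2 (c + e ^ w p)) := by
              intro d
              unfold Mb
              rw [if_pos rfl, if_pos hpN, if_pos hkr, Polynomial.eval_mul, Polynomial.eval_mul,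
                Polynomial.eval_pow, Polynomial.eval_X, hP_eval, hevY, Polynomial.eval_neg,
                Polynomial.eval_C]
            simp only [e1, e2]
            have h2 := column (show k < mm p by omega) (e ^ w p) _
              (fun j => T D' b k j (x p) (c + e ^ w p)) (hu0 k (by omega))
              (fun j hj => hu1 k j hj)
            have e3 : ∑ a ∈ range (lam 0), (e ^ N)⁻¹ * γ a * ex k a (x p) =
                (e ^ N)⁻¹ * ∑ a ∈ range (lam 0), γ a * ex k a (x p) := by
              rw [mul_sum]; apply sum_congr rfl; intro a _; ring
            have e4 : ∑ d ∈ D', b d * ((-(-1) ^ (mm p - k) * e ^ (w p * (mm p - k) - N)) *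
                  (ex k d.1 (x p) * ex (mm p - k - 1) d.2 (c + e ^ w p))) =
                (-(-1) ^ (mm p - k) * e ^ (w p * (mm p - k) - N)) *
                  T D' b k (mm p - k - 1) (x p) (c + e ^ w p) := by
              unfold T
              rw [mul_sum]; apply sum_congr rfl; intro d _; ring
            rw [e3, e4, h2]
            have h5 := hexp1 p hpN k hkr
            have h6 : (e ^ w p) ^ (mm p - k) = e ^ (w p * (mm p - k) - N) * e ^ N := by
              rw [← pow_mul, ← pow_add]; congr 1; omega
            rw [h6]
            field_simp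
            ring
          · by_cases hkm : k < mm p
            · have e1 : ∀ a, (Mg New On σ mm r w N x p k j true a).eval e =
                  -(-1) ^ (mm p - k) * e ^ (N - w p * (mm p - k)) * ex k a (x p) := by
                intro a
                unfold Mg
                rw [if_pos rfl, if_pos hpN, if_neg hkr, if_pos hkm, Polynomial.eval_mul,
                  Polynomial.eval_mul, Polynomial.eval_C, Polynomial.eval_pow, Polynomial.eval_X,
                  Polynomial.eval_neg, Polynomial.eval_C]
              have e2 : ∀ d, (Mb New On σ mm r w N x y' c p k j true d).eval e =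
                  (ex k d.1 (x p) * ex (mm p - k - 1) d.2 (c + e ^ w p)) := by
                intro d
                unfold Mb
                rw [if_pos rfl, if_pos hpN, if_neg hkr, if_pos hkm, hP_eval, hevY]
              simp only [e1, e2]
              have h2 := column hkm (e ^ w p) _
                (fun j => T D' b k j (x p) (c + e ^ w p)) (hu0 k (by omega))
                (fun j hj => hu1 k j hj)
              have e3 : ∑ a ∈ range (lam 0), (e ^ N)⁻¹ * γ a *
                  (-(-1) ^ (mm p - k) * e ^ (N - w p * (mm p - k)) * ex k a (x p)) =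
                  (e ^ N)⁻¹ * (-(-1) ^ (mm p - k) * e ^ (N - w p * (mm p - k))) *
                    ∑ a ∈ range (lam 0), γ a * ex k a (x p) := by
                rw [mul_sum]; apply sum_congr rfl; intro a _; ring
              have e4 : ∑ d ∈ D', b d * (ex k d.1 (x p) * ex (mm p - k - 1) d.2 (c + e ^ w p)) =
                  T D' b k (mm p - k - 1) (x p) (c + e ^ w p) := rfl
              rw [e3, e4, h2]
              have h5 := hexp2 p hpN k (by omega)
              have h6 : e ^ N = e ^ (N - w p * (mm p - k)) * (e ^ w p) ^ (mm p - k) := by
                rw [← pow_mul, ← pow_add]; congr 1; omega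
              have h7 : e ^ (N - w p * (mm p - k)) ≠ 0 := pow_ne_zero _ he0
              have h8 : (e ^ w p) ^ (mm p - k) ≠ 0 := pow_ne_zero _ (pow_ne_zero _ he0)
              have h9 : ((-1 : ℂ) ^ (mm p - k)) * ((-1 : ℂ) ^ (mm p - k)) = 1 := by
                rw [← mul_pow]; simp
              rw [h6]
              field_simp
              linear_combination (- T D' b k (mm p - k - 1) (x p) (c + e ^ w p)) * h9
            · have e1 : ∀ a, (Mg New On σ mm r w N x p k j true a).eval e = 0 := by
                intro a
                unfold Mg
                rw [if_pos rfl, if_pos hpN, if_neg hkr, if_neg hkm, Polynomial.eval_zero]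
              have e2 : ∀ d, (Mb New On σ mm r w N x y' c p k j true d).eval e = 0 := by
                intro d
                unfold Mb
                rw [if_pos rfl, if_pos hpN, if_neg hkr, if_neg hkm, Polynomial.eval_zero]
              simp only [e1, e2, mul_zero, sum_const_zero, add_zero]
        | false =>
          have e1 : ∀ a, (Mg New On σ mm r w N x p k j false a).eval e = 0 := by
            intro a
            unfold Mg
            rw [if_neg (by simp), if_pos hpN, Polynomial.eval_zero]
          simp only [e1, mul_zero, sum_const_zero, zero_add]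
          by_cases hc1 : j + 2 + k ≤ mm p
          · have e2 : ∀ d, (Mb New On σ mm r w N x y' c p k j false d).eval e =
                ex k d.1 (x p) * ex j d.2 (c + e ^ w p) +
                  e ^ w p * (ex k d.1 (x p) * ex (j + 1) d.2 (c + e ^ w p)) := by
              intro d
              unfold Mb
              rw [if_neg (by simp), if_pos hpN, if_pos hc1, Polynomial.eval_add,
                Polynomial.eval_mul, Polynomial.eval_pow, Polynomial.eval_X, hP_eval, hP_eval, hevY]
            simp only [e2]
            rw [← hu1 k j (by omega)]
            unfold T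
            rw [mul_sum, ← sum_add_distrib]
            apply sum_congr rfl
            intro d _; ring
          · have e2 : ∀ d, (Mb New On σ mm r w N x y' c p k j false d).eval e = 0 := by
              intro d
              unfold Mb
              rw [if_neg (by simp), if_pos hpN, if_neg hc1, Polynomial.eval_zero]
            simp only [e2, mul_zero, sum_const_zero]
      · by_cases hpO : p ∈ On
        · obtain ⟨hy, hσ'⟩ := hOn p hpO
          cases t with
          | true =>
            have e2 : ∀ d, (Mb New On σ mm r w N x y' c p k j true d).eval e = 0 := by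
              intro d
              unfold Mb
              rw [if_pos rfl, if_neg hpN, Polynomial.eval_zero]
            simp only [e2, mul_zero, sum_const_zero, add_zero]
            by_cases hk0 : k < σ p 0
            · have e1 : ∀ a, (Mg New On σ mm r w N x p k j true a).eval e = ex k a (x p) := by
                intro a
                unfold Mg
                rw [if_pos rfl, if_neg hpN, if_pos hpO, if_pos hk0, Polynomial.eval_C]
              simp only [e1]
              have h1 := hu p hp 0 k hk0
              simp only [if_neg hpN] at h1
              rw [hT0, hγA, hy, sub_self, zero_mul, add_zero] at h1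
              have e3 : ∑ a ∈ range (lam 0), (e ^ N)⁻¹ * γ a * ex k a (x p) =
                (e ^ N)⁻¹ * ∑ a ∈ range (lam 0), γ a * ex k a (x p) := by
                rw [mul_sum]; apply sum_congr rfl; intro a _; ring
              rw [e3, h1, mul_zero]
            · have e1 : ∀ a, (Mg New On σ mm r w N x p k j true a).eval e = 0 := by
                intro a
                unfold Mg
                rw [if_pos rfl, if_neg hpN, if_pos hpO, if_neg hk0, Polynomial.eval_zero]
              simp only [e1, mul_zero, sum_const_zero]
          | false =>
            have e1 : ∀ a, (Mg New On σ mm r w N x p k j false a).eval e = 0 := by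
              intro a
              unfold Mg
              rw [if_neg (by simp), if_neg hpN, if_pos hpO, Polynomial.eval_zero]
            simp only [e1, mul_zero, sum_const_zero, zero_add]
            by_cases hk0 : k < σ p (j + 1)
            · have e2 : ∀ d, (Mb New On σ mm r w N x y' c p k j false d).eval e =
                  ex k d.1 (x p) * ex j d.2 c := by
                intro d
                unfold Mb
                rw [if_neg (by simp), if_neg hpN, if_pos hpO, if_pos hk0, hP_eval,
                  Polynomial.eval_C]
              simp only [e2]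
              have h1 := hu p hp (j + 1) k hk0
              simp only [if_neg hpN] at h1
              rw [hT1, hy, sub_self, zero_mul, zero_add] at h1
              exact h1
            · have e2 : ∀ d, (Mb New On σ mm r w N x y' c p k j false d).eval e = 0 := by
                intro d
                unfold Mb
                rw [if_neg (by simp), if_neg hpN, if_pos hpO, if_neg hk0, Polynomial.eval_zero]
              simp only [e2, mul_zero, sum_const_zero]
        · obtain ⟨hy, hanti, hσ'⟩ := hOff p hp hpO hpN
          cases t with
          | true =>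
            have e1 : ∀ a, (Mg New On σ mm r w N x p k j true a).eval e = 0 := by
              intro a
              unfold Mg
              rw [if_pos rfl, if_neg hpN, if_neg hpO, Polynomial.eval_zero]
            have e2 : ∀ d, (Mb New On σ mm r w N x y' c p k j true d).eval e = 0 := by
              intro d
              unfold Mb
              rw [if_pos rfl, if_neg hpN, Polynomial.eval_zero]
            simp only [e1, e2, mul_zero, sum_const_zero, add_zero]
          | false =>
            by_cases hk0 : k < σ p j
            · have h1 := hu p hp j k hk0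
              simp only [if_neg hpN] at h1
              cases j with
              | zero =>
                have e1 : ∀ a, (Mg New On σ mm r w N x p k 0 false a).eval e =
                    e ^ N * ex k a (x p) := by
                  intro a
                  unfold Mg
                  rw [if_neg (by simp), if_neg hpN, if_neg hpO, if_pos hk0, if_pos rfl,
                    Polynomial.eval_mul, Polynomial.eval_pow, Polynomial.eval_X, Polynomial.eval_C]
                have e2 : ∀ d, (Mb New On σ mm r w N x y' c p k 0 false d).eval e =
                    (y' p - c) * (ex k d.1 (x p) * ex 0 d.2 (y' p)) := by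
                  intro d
                  unfold Mb
                  rw [if_neg (by simp), if_neg hpN, if_neg hpO, if_pos hk0, if_pos rfl, add_zero,
                    Polynomial.eval_mul, Polynomial.eval_C, hP_eval, Polynomial.eval_C]
                simp only [e1, e2]
                rw [hT0, hγA] at h1
                rw [← h1]
                congr 1
                · apply sum_congr rfl
                  intro a _
                  field_simp
                · unfold T
                  rw [mul_sum]
                  apply sum_congr rfl
                  intro d _; ring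
              | succ j =>
                have e1 : ∀ a, (Mg New On σ mm r w N x p k (j + 1) false a).eval e = 0 := by
                  intro a
                  unfold Mg
                  rw [if_neg (by simp), if_neg hpN, if_neg hpO, if_pos hk0, if_neg (by omega),
                    Polynomial.eval_zero]
                have e2 : ∀ d, (Mb New On σ mm r w N x y' c p k (j + 1) false d).eval e =
                    (y' p - c) * (ex k d.1 (x p) * ex (j + 1) d.2 (y' p)) +
                      ex k d.1 (x p) * ex j d.2 (y' p) := by
                  intro d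
                  unfold Mb
                  rw [if_neg (by simp), if_neg hpN, if_neg hpO, if_pos hk0, if_neg (by omega),
                    Polynomial.eval_add, Polynomial.eval_mul, Polynomial.eval_C, hP_eval,
                    Polynomial.eval_C, hP_eval, Polynomial.eval_C, Nat.add_sub_cancel]
                simp only [e1, e2, mul_zero, sum_const_zero, zero_add]
                rw [hT1] at h1
                rw [← h1]
                unfold T
                rw [mul_sum, ← sum_add_distrib]
                apply sum_congr rfl
                intro d _; ring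
            · have e1 : ∀ a, (Mg New On σ mm r w N x p k j false a).eval e = 0 := by
                intro a
                unfold Mg
                rw [if_neg (by simp), if_neg hpN, if_neg hpO, if_neg hk0, Polynomial.eval_zero]
              have e2 : ∀ d, (Mb New On σ mm r w N x y' c p k j false d).eval e = 0 := by
                intro d
                unfold Mb
                rw [if_neg (by simp), if_neg hpN, if_neg hpO, if_neg hk0, Polynomial.eval_zero]
              simp only [e1, e2, mul_zero, sum_const_zero, add_zero])
  apply hconcl
  · intro a ha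
    rcases lt_or_ge a (lam 0) with h | h
    · have h1 := congrFun hv (Sum.inl ⟨a, mem_range.2 h⟩)
      simp only [Sum.elim_inl, Pi.zero_apply] at h1
      rcases mul_eq_zero.1 h1 with h2 | h2
      · exact absurd h2 (inv_ne_zero heN)
      · exact h2
    · exact hγ0 a h
  · intro d hd
    have h1 := congrFun hv (Sum.inr ⟨d, hd⟩)
    simpa using h1

end Pool.Agent.Lead.Hz
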